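import Pool.Agent.P.MP_66e591_ag.PDefs

/-! Basic properties of the spaces `Pd`. -/

noncomputable section
namespace Pool.Agent.NEF
open MvPolynomial Module Pool.Agent.HCF

variable {M : ℕ} {ι : Type} [Fintype ι] [DecidableEq ι]

omit [DecidableEq ι] in
theorem Pd_add (a b : ι → ℕ) : Pd M (a + b) = Pd M a * Pd M b := by
  simp only [Pd, Pi.add_apply, pow_add, Finset.prod_mul_distrib]

omit [DecidableEq ι] in
theorem Pd_mul {a b : ι → ℕ} {f g : (ι → VV M) → ℂ} (hf : f ∈ Pd M a) (hg : g ∈ Pd M b) :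
    f * g ∈ Pd M (a + b) := by
  rw [Pd_add]
  exact Submodule.mul_mem_mul hf hg

omit [DecidableEq ι] in
theorem Pd_one : (1 : (ι → VV M) → ℂ) ∈ Pd M (0 : ι → ℕ) := by
  simp only [Pd, Pi.zero_apply, pow_zero, Finset.prod_const_one]
  exact Submodule.one_le.1 le_rfl

omit [DecidableEq ι] in
theorem Pd_pow {a : ι → ℕ} {f : (ι → VV M) → ℂ} (hf : f ∈ Pd M a) (l : ℕ) :
    f ^ l ∈ Pd M (l • a) := by
  induction l with
  | zero => simpa using Pd_one
  | succ l ih =>
    rw [pow_succ, succ_nsmul]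
    exact Pd_mul ih hf

omit [DecidableEq ι] in
theorem Pd_prod {α : Type} (s : Finset α) {a : α → ι → ℕ} {f : α → (ι → VV M) → ℂ}
    (hf : ∀ x ∈ s, f x ∈ Pd M (a x)) : ∏ x ∈ s, f x ∈ Pd M (∑ x ∈ s, a x) := by
  classical
  induction s using Finset.induction_on with
  | empty => simpa using Pd_one
  | insert x s hx ih =>
    rw [Finset.prod_insert hx, Finset.sum_insert hx]
    exact Pd_mul (hf x (Finset.mem_insert_self _ _))
      (ih fun y hy => hf y (Finset.mem_insert_of_mem hy))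

theorem Pd_single (i : ι) (m : ℕ) : Pd M (Pi.single i m) = Lf M i ^ m := by
  unfold Pd
  rw [Finset.prod_eq_single i (fun j _ hj => by rw [Pi.single_eq_of_ne hj, pow_zero])
    (fun h => absurd (Finset.mem_univ i) h), Pi.single_eq_same]

omit [Fintype ι] [DecidableEq ι] in
theorem a1_aeval (i : ι) (p : SS M) :
    (aeval (fun j (z : ι → VV M) => z i j) : SS M →ₐ[ℂ] ((ι → VV M) → ℂ)) p =
      fun z => eval (z i) p := by
  induction p using MvPolynomial.induction_on with
  | C c => ext z; simp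
  | add p q hp hq => ext z; simp [hp, hq]
  | mul_X p j hp => ext z; simp [hp]

omit [Fintype ι] [DecidableEq ι] in
theorem mem_Lf_pow {i : ι} {d : ℕ} {f : (ι → VV M) → ℂ} :
    f ∈ Lf M i ^ d ↔ ∃ p : SS M, p.IsHomogeneous d ∧ f = fun z => eval (z i) p := by
  have h1 : Lf M i = (homogeneousSubmodule (Fin M) ℂ 1).map
      (aeval (fun j (z : ι → VV M) => z i j) : SS M →ₐ[ℂ] ((ι → VV M) → ℂ)).toLinearMap := by
    simp [Lf, homogeneousSubmodule_one_eq_span_X, Submodule.map_span, ← Set.range_comp,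
      Function.comp_def]
  rw [h1, ← Submodule.map_pow, homogeneousSubmodule_one_pow, Submodule.mem_map]
  constructor
  · rintro ⟨p, hp, rfl⟩
    exact ⟨p, hp, a1_aeval i p⟩
  · rintro ⟨p, hp, rfl⟩
    exact ⟨p, hp, a1_aeval i p⟩

theorem eval_mem (i : ι) {d : ℕ} {p : SS M} (hp : p.IsHomogeneous d) :
    (fun z : ι → VV M => eval (z i) p) ∈ Pd M (Pi.single i d) := by
  rw [Pd_single]
  exact mem_Lf_pow.2 ⟨p, hp, rfl⟩

theorem coord_mem (i : ι) (j : Fin M) : (fun z : ι → VV M => z i j) ∈ Pd M (Pi.single i 1) := by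
  rw [Pd_single, pow_one]
  exact Submodule.subset_span ⟨j, rfl⟩

theorem dot_mem (i : ι) (v : VV M) : (fun z : ι → VV M => z i ⬝ᵥ v) ∈ Pd M (Pi.single i 1) := by
  have : (fun z : ι → VV M => z i ⬝ᵥ v) = ∑ j, v j • fun z : ι → VV M => z i j := by
    ext z
    simp [dotProduct, mul_comm]
  rw [this]
  exact Submodule.sum_mem _ fun j _ => Submodule.smul_mem _ _ (coord_mem i j)

theorem dot2_mem (i k : ι) :
    (fun z : ι → VV M => z k ⬝ᵥ z i) ∈ Pd M (Pi.single i 1 + Pi.single k 1) := by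
  have : (fun z : ι → VV M => z k ⬝ᵥ z i) =
      ∑ j, (fun z : ι → VV M => z i j) * fun z : ι → VV M => z k j := by
    ext z
    simp [dotProduct, mul_comm]
  rw [this]
  exact Submodule.sum_mem _ fun j _ => Pd_mul (coord_mem i j) (coord_mem k j)

theorem bi_mem (i k : ι) {a m : ℕ} {F : MvPolynomial (Fin M ⊕ Fin M) ℂ}
    (hF : F.IsWeightedHomogeneous
      (Sum.elim (fun _ => ((1, 0) : ℕ × ℕ)) fun _ => ((0, 1) : ℕ × ℕ)) (a, m)) :
    (fun z : ι → VV M => eval (Sum.elim (z i) (z k)) F) ∈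
      Pd M (Pi.single i a + Pi.single k m) := by
  have h0 : (fun z : ι → VV M => eval (Sum.elim (z i) (z k)) F) =
      ∑ d ∈ F.support, coeff d F • ((∏ j, (fun z : ι → VV M => z i j) ^ d (Sum.inl j)) *
        ∏ j, (fun z : ι → VV M => z k j) ^ d (Sum.inr j)) := by
    ext z
    simp [eval_eq', Fintype.prod_sum_type]
  rw [h0]
  refine Submodule.sum_mem _ fun d hd => Submodule.smul_mem _ _ ?_
  have hw := hF (mem_support_iff.1 hd)
  rw [Finsupp.weight_apply, Finsupp.sum_fintype _ _ (by simp), Fintype.sum_sum_type] at hw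
  have h1 := congrArg Prod.fst hw
  have h2 := congrArg Prod.snd hw
  simp [Prod.fst_sum] at h1
  simp [Prod.snd_sum] at h2
  have key : ∀ (l : ι) (e : Fin M → ℕ), (∏ j, (fun z : ι → VV M => z l j) ^ e j) ∈
      Pd M (Pi.single l (∑ j, e j)) := by
    intro l e
    have h3 := Pd_prod Finset.univ (a := fun j => e j • (Pi.single l 1 : ι → ℕ))
      (fun j _ => Pd_pow (coord_mem l j) (e j))
    have h4 : ∑ j, e j • (Pi.single l 1 : ι → ℕ) = Pi.single l (∑ j, e j) := by
      ext x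
      by_cases hx : x = l <;> simp [hx]
    rwa [h4] at h3
  rw [← h1, ← h2]
  exact Pd_mul (key i _) (key k _)

omit [DecidableEq ι] in
theorem Pd_finite (a : ι → ℕ) : Module.Finite ℂ (Pd M a) := by
  rw [Module.Finite.iff_fg]
  unfold Pd
  refine Finset.prod_induction _ Submodule.FG (fun _ _ => Submodule.FG.mul) ?_ fun i _ =>
    Submodule.FG.pow (Submodule.fg_span (Set.finite_range _)) _
  rw [Submodule.one_eq_span]
  exact Submodule.fg_span (Set.finite_singleton _)

omit [DecidableEq ι] in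
theorem Pd_le (S : Subalgebra ℂ ((ι → VV M) → ℂ)) (h : ∀ i j, (fun z => z i j) ∈ S) (a : ι → ℕ) :
    ∀ f ∈ Pd M a, f ∈ S := by
  have hmul : ∀ P Q : Submodule ℂ ((ι → VV M) → ℂ), P ≤ S.toSubmodule → Q ≤ S.toSubmodule →
      P * Q ≤ S.toSubmodule := fun P Q hP hQ =>
    Submodule.mul_le.2 fun x hx y hy => S.mul_mem (hP hx) (hQ hy)
  have hone : (1 : Submodule ℂ ((ι → VV M) → ℂ)) ≤ S.toSubmodule := Submodule.one_le.2 S.one_mem
  have key : Pd M a ≤ S.toSubmodule := by
    unfold Pd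
    refine Finset.prod_induction _ (· ≤ S.toSubmodule) hmul hone fun i _ => ?_
    have h1 : Lf M i ≤ S.toSubmodule := Submodule.span_le.2 (by
      rintro _ ⟨j, rfl⟩
      exact h i j)
    induction a i with
    | zero => simpa using hone
    | succ l ih =>
      rw [pow_succ]
      exact hmul _ _ ih h1
  exact fun f hf => key hf

omit [DecidableEq ι] in
theorem Pd_cont {a : ι → ℕ} {f : (ι → VV M) → ℂ} (hf : f ∈ Pd M a) : Continuous f := by
  exact Pd_le (continuousSubalgebra : Subalgebra ℂ ((ι → VV M) → ℂ))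
    (fun i j => (continuous_apply j).comp (continuous_apply i)) a f hf

omit [DecidableEq ι] in
/-- along a polynomial map the functions are polynomial -/
theorem Pd_poly {σ : Type} (γ : (σ → ℂ) → ι → VV M)
    (hγ : ∀ i j, ∃ G : MvPolynomial σ ℂ, ∀ w, γ w i j = eval w G) {a : ι → ℕ}
    {f : (ι → VV M) → ℂ} (hf : f ∈ Pd M a) : ∃ G : MvPolynomial σ ℂ, ∀ w, f (γ w) = eval w G := by
  let S : Subalgebra ℂ ((ι → VV M) → ℂ) :=
    { carrier := {f | ∃ G : MvPolynomial σ ℂ, ∀ w, f (γ w) = eval w G}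
      mul_mem' := by
        rintro f g ⟨F, hF⟩ ⟨G, hG⟩
        exact ⟨F * G, fun w => by simp [hF, hG]⟩
      add_mem' := by
        rintro f g ⟨F, hF⟩ ⟨G, hG⟩
        exact ⟨F + G, fun w => by simp [hF, hG]⟩
      algebraMap_mem' := fun c => ⟨C c, fun w => by simp⟩ }
  exact Pd_le S hγ a f hf

theorem dg_eq {κ : Type} [Fintype κ] [DecidableEq κ] (a : ℕ) (b : κ → ℕ) :
    dg a b = Pi.single none a + ∑ i, Pi.single (some i) (b i) := by
  ext o
  cases o with
  | none => simp [Finset.sum_apply]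
  | some i => simp [Finset.sum_apply, Pi.single_apply]

end Pool.Agent.NEF
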