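import Mathlib

/-! Counting monomials. -/

namespace Pool.Agent.NEF
open MvPolynomial Module Finset

theorem mc_conv (a b m : ℕ) :
    ∑ j ∈ range (m + 1), Nat.multichoose a j * Nat.multichoose b (m - j) =
      Nat.multichoose (a + b) m := by
  induction b generalizing m with
  | zero =>
    rw [sum_range_succ, Nat.sub_self, Nat.multichoose_zero_right, mul_one, add_zero,
      sum_eq_zero, zero_add]
    intro j hj
    have h : m - j = (m - j - 1) + 1 := by have := mem_range.1 hj; omega
    rw [h, Nat.multichoose_zero_succ, mul_zero]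
  | succ b ihb =>
    induction m with
    | zero => simp
    | succ m ihm =>
      have h1 : ∑ j ∈ range (m + 1), Nat.multichoose a j * Nat.multichoose (b + 1) (m + 1 - j) =
          ∑ j ∈ range (m + 1), Nat.multichoose a j * Nat.multichoose b (m + 1 - j) +
            ∑ j ∈ range (m + 1), Nat.multichoose a j * Nat.multichoose (b + 1) (m - j) := by
        rw [← sum_add_distrib]
        refine sum_congr rfl fun j hj => ?_
        have h : m + 1 - j = (m - j) + 1 := by have := mem_range.1 hj; omega
        rw [h, Nat.multichoose_succ_succ, mul_add]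
      have h2 := ihb (m + 1)
      rw [sum_range_succ, Nat.sub_self, Nat.multichoose_zero_right] at h2
      rw [sum_range_succ, Nat.sub_self, Nat.multichoose_zero_right, h1, ihm, ← add_assoc a b 1,
        Nat.multichoose_succ_succ, ← h2]
      ring

theorem a2_step (N m : ℕ) :
    Nat.multichoose (N + 1 + 1) m * (N + 1) = Nat.multichoose (N + 1) m * (N + m + 1) := by
  rw [Nat.multichoose_eq, Nat.multichoose_eq, show N + 1 + m - 1 = N + m by omega,
    show N + 1 + 1 + m - 1 = N + m + 1 by omega, Nat.choose_mul_succ_eq,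
    show N + m + 1 - m = N + 1 by omega]

theorem mc_ratio (N l m : ℕ) :
    Nat.multichoose (N + 1) (l + m) * m ^ N ≤ Nat.multichoose (N + 1) m * (l + m) ^ N := by
  induction N with
  | zero => simp [Nat.multichoose_one]
  | succ N ih =>
    refine Nat.le_of_mul_le_mul_right ?_ (Nat.succ_pos N)
    have h : (N + (l + m) + 1) * m ≤ (N + m + 1) * (l + m) := by nlinarith [Nat.zero_le (N * l)]
    calc Nat.multichoose (N + 1 + 1) (l + m) * m ^ (N + 1) * (N + 1)
        = (Nat.multichoose (N + 1 + 1) (l + m) * (N + 1)) * m ^ (N + 1) := by ring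
      _ = (Nat.multichoose (N + 1) (l + m) * m ^ N) * ((N + (l + m) + 1) * m) := by
        rw [a2_step]; ring
      _ ≤ (Nat.multichoose (N + 1) m * (l + m) ^ N) * ((N + m + 1) * (l + m)) :=
        Nat.mul_le_mul ih h
      _ = (Nat.multichoose (N + 1) m * (N + m + 1)) * (l + m) ^ (N + 1) := by ring
      _ = Nat.multichoose (N + 1 + 1) m * (l + m) ^ (N + 1) * (N + 1) := by
        rw [← a2_step]; ring

theorem mc_lower (n m : ℕ) : m ^ n ≤ n.factorial * Nat.multichoose (n + 1) m := by
  induction n with
  | zero => simp [Nat.multichoose_one]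
  | succ n ih =>
    calc m ^ (n + 1) = m ^ n * m := pow_succ m n
      _ ≤ (n.factorial * Nat.multichoose (n + 1) m) * (n + m + 1) :=
        Nat.mul_le_mul ih (by omega)
      _ = n.factorial * (Nat.multichoose (n + 1) m * (n + m + 1)) := by ring
      _ = (n + 1).factorial * Nat.multichoose (n + 1 + 1) m := by
        rw [← a2_step, Nat.factorial_succ]; ring

theorem mc_pos (N m : ℕ) : 0 < Nat.multichoose (N + 1) m := by
  rw [Nat.multichoose_eq]
  exact Nat.choose_pos (by omega)

theorem hom_finite (N d : ℕ) : Module.Finite ℂ (homogeneousSubmodule (Fin N) ℂ d) :=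
  Module.Finite.iff_fg.2 (homogeneousSubmodule_fg (Fin N) ℂ d)

theorem finrank_hom (N d : ℕ) :
    finrank ℂ (homogeneousSubmodule (Fin N) ℂ d) = Nat.multichoose N d := by
  have h : homogeneousSubmodule (Fin N) ℂ d =
      restrictSupport ℂ ((univ : Finset (Fin N)).finsuppAntidiag d : Set (Fin N →₀ ℕ)) := by
    rw [homogeneousSubmodule_eq_finsupp_supported]
    unfold restrictSupport
    congr 1
    ext f
    simp [mem_finsuppAntidiag, Finsupp.degree_eq_sum]
  rw [h, finrank_eq_nat_card_basis (basisRestrictSupport ℂ _), Nat.card_coe_set_eq,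
    Set.ncard_coe_finset, card_finsuppAntidiag_nat_eq_multichoose, card_univ, Fintype.card_fin]

theorem finrank_mul_le' {A : Type} [CommRing A] [Algebra ℂ A] (P Q : Submodule ℂ A)
    [Module.Finite ℂ P] [Module.Finite ℂ Q] :
    Module.Finite ℂ ↥(P * Q) ∧ finrank ℂ ↥(P * Q) ≤ finrank ℂ P * finrank ℂ Q := by
  refine ⟨Module.Finite.of_surjective _ (Submodule.mulMap'_surjective P Q), ?_⟩
  rw [← Module.finrank_tensorProduct]
  exact LinearMap.finrank_le_finrank_of_surjective (Submodule.mulMap'_surjective P Q)

end Pool.Agent.NEF
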