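import Mathlib

/-! A growth lemma and two numerical inequalities. -/

namespace Pool.Agent.NEF

theorem a3_step (H : ℕ → ℕ) (hm : Monotone H) (n A B C P Q : ℕ) (hB : 1 ≤ B) (hQ : 1 ≤ Q)
    (h : ∀ y, 1 ≤ y → H (A * y) * Q ≤ H (B * y + C) * P) (β : ℝ) (h1 : (B : ℝ) < β)
    (h2 : β < A) : ∃ y0 : ℕ, ∀ y, y0 ≤ y → ∃ y' : ℕ, 1 ≤ y' ∧ y' < y ∧ y ≤ A * y' ∧
      ∀ K : ℝ, 0 ≤ K → (H (A * y') : ℝ) ≤ K * (y' : ℝ) ^ n →
        (H (A * y) : ℝ) ≤ ((β / A) ^ n * P / Q) * K * (y : ℝ) ^ n := by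
  have hB' : (1 : ℝ) ≤ B := by exact_mod_cast hB
  have hA : (0 : ℝ) < A := by linarith
  have hA' : 0 < A := by exact_mod_cast hA
  have hQ' : (0 : ℝ) < Q := by exact_mod_cast hQ
  obtain ⟨y0, hy0⟩ := exists_nat_ge (((C : ℝ) + A) / (β - B))
  refine ⟨y0 + 1, fun y hy => ?_⟩
  have hy1 : 1 ≤ y := by omega
  have hyr : (0 : ℝ) < y := by exact_mod_cast hy1
  have hyy : (y0 : ℝ) ≤ y := by exact_mod_cast (by omega : y0 ≤ y)
  have hlo : B * y + C ≤ A * ((B * y + C) / A + 1) := (Nat.lt_mul_div_succ _ hA').le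
  have hhi : A * ((B * y + C) / A + 1) ≤ B * y + C + A := by
    rw [mul_add, mul_one]
    exact Nat.add_le_add_right (Nat.mul_div_le _ _) _
  generalize (B * y + C) / A = w at hlo hhi
  have hhi' : (A : ℝ) * ((w + 1 : ℕ) : ℝ) ≤ β * y := by
    have e1 : (A : ℝ) * ((w + 1 : ℕ) : ℝ) ≤ B * y + C + A := by exact_mod_cast hhi
    have e2 : (C : ℝ) + A ≤ y * (β - B) := by
      rw [← div_le_iff₀ (by linarith)]
      exact hy0.trans hyy
    nlinarith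
  have hle : ((w + 1 : ℕ) : ℝ) ≤ β / A * y := by
    rw [div_mul_eq_mul_div, le_div_iff₀ hA]
    linarith
  refine ⟨w + 1, by omega, ?_, ?_, fun K hK hG => ?_⟩
  · have : ((w + 1 : ℕ) : ℝ) < y := by
      refine hle.trans_lt ?_
      have : β / A < 1 := (div_lt_one hA).2 h2
      nlinarith
    exact_mod_cast this
  · have : y ≤ B * y := Nat.le_mul_of_pos_left _ hB
    omega
  · have e1 : H (A * y) * Q ≤ H (A * (w + 1)) * P :=
      (h y hy1).trans (Nat.mul_le_mul_right _ (hm hlo))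
    have e2 : (H (A * y) : ℝ) * Q ≤ H (A * (w + 1)) * P := by exact_mod_cast e1
    have e3 : ((w + 1 : ℕ) : ℝ) ^ n ≤ (β / A) ^ n * (y : ℝ) ^ n := by
      rw [← mul_pow]
      exact pow_le_pow_left₀ (by positivity) hle n
    have e4 : (H (A * (w + 1)) : ℝ) * P ≤ K * ((β / A) ^ n * (y : ℝ) ^ n) * P :=
      mul_le_mul_of_nonneg_right (hG.trans (mul_le_mul_of_nonneg_left e3 hK)) (by positivity)
    have e5 : ((β / A) ^ n * P / Q) * K * (y : ℝ) ^ n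
        = K * ((β / A) ^ n * (y : ℝ) ^ n) * P / Q := by ring
    rw [e5, le_div_iff₀ hQ']
    exact e2.trans e4

theorem grow (H : ℕ → ℕ) (hm : Monotone H) (n : ℕ) (hl : ∀ m, m ^ n ≤ n.factorial * H m)
    (A B C P Q : ℕ) (hB : 1 ≤ B) (hQ : 1 ≤ Q) (hPQ : Q ≤ P)
    (h : ∀ y, 1 ≤ y → H (A * y) * Q ≤ H (B * y + C) * P) : A ^ n * Q ≤ B ^ n * P := by
  by_contra hcon
  rw [not_le] at hcon
  have hBA : B ^ n < A ^ n :=
    Nat.lt_of_mul_lt_mul_right (hcon.trans_le (Nat.mul_le_mul_left _ hPQ))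
  have hA : B < A := lt_of_pow_lt_pow_left₀ n (Nat.zero_le _) hBA
  have hAr : (B : ℝ) < A := by exact_mod_cast hA
  have hB' : (1 : ℝ) ≤ B := by exact_mod_cast hB
  have hA0 : (0 : ℝ) < A := by linarith
  have hQ' : (0 : ℝ) < Q := by exact_mod_cast hQ
  obtain ⟨β, hβ1, hβ2, hβ3⟩ : ∃ β : ℝ, (B : ℝ) < β ∧ β < A ∧ β ^ n * P < (A : ℝ) ^ n * Q := by
    have hc : ContinuousAt (fun β : ℝ => β ^ n * P) B := by fun_prop
    have e1 : ∀ᶠ β : ℝ in nhds (B : ℝ), β ^ n * P < (A : ℝ) ^ n * Q :=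
      hc.eventually (gt_mem_nhds
        (show (B : ℝ) ^ n * P < (A : ℝ) ^ n * Q by exact_mod_cast hcon))
    have e2 : ∀ᶠ β : ℝ in nhds (B : ℝ), β < A := gt_mem_nhds hAr
    have e3 : ∀ᶠ β : ℝ in nhdsWithin (B : ℝ) (Set.Ioi B), (B : ℝ) < β := self_mem_nhdsWithin
    obtain ⟨β, a1, a2, a3⟩ := (e3.and ((e2.and e1).filter_mono nhdsWithin_le_nhds)).exists
    exact ⟨β, a1, a2, a3⟩
  obtain ⟨y0, hy0⟩ := a3_step H hm n A B C P Q hB hQ h β hβ1 hβ2
  have hβ0 : 0 < β := by linarith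
  have hκ0 : 0 ≤ (β / A) ^ n * P / Q := by positivity
  have hκ1 : (β / A) ^ n * P / Q < 1 := by
    rw [div_lt_one hQ', div_pow, div_mul_eq_mul_div, div_lt_iff₀ (by positivity)]
    linarith
  generalize (β / A) ^ n * P / Q = κ at hy0 hκ0 hκ1
  have hK0 : (0 : ℝ) ≤ H (A * y0) := by positivity
  have base : ∀ y : ℕ, 1 ≤ y → (H (A * y) : ℝ) ≤ (H (A * y0) : ℝ) * (y : ℝ) ^ n := by
    intro y
    induction y using Nat.strong_induction_on with
    | _ y ih =>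
      intro hy
      have hyn : (1 : ℝ) ≤ (y : ℝ) ^ n := one_le_pow₀ (by exact_mod_cast hy)
      rcases le_total y0 y with h0 | h0
      · obtain ⟨y', a1, a2, -, a4⟩ := hy0 y h0
        refine (a4 _ hK0 (ih y' a2 a1)).trans ?_
        have : 0 ≤ (H (A * y0) : ℝ) * (y : ℝ) ^ n := by positivity
        nlinarith
      · have : (H (A * y) : ℝ) ≤ H (A * y0) := by
          exact_mod_cast hm (Nat.mul_le_mul_left _ h0)
        nlinarith
  generalize (H (A * y0) : ℝ) = K at hK0 base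
  have iter : ∀ i : ℕ, ∃ Y : ℕ, 1 ≤ Y ∧ ∀ y : ℕ, Y ≤ y →
      (H (A * y) : ℝ) ≤ κ ^ i * K * (y : ℝ) ^ n := by
    intro i
    induction i with
    | zero => exact ⟨1, le_rfl, fun y hy => by simpa using base y hy⟩
    | succ i ih =>
      obtain ⟨Y, hY, hY'⟩ := ih
      refine ⟨y0 + A * Y + 1, by omega, fun y hy => ?_⟩
      obtain ⟨y', -, -, a3, a4⟩ := hy0 y (by omega)
      have : Y ≤ y' := Nat.le_of_mul_le_mul_left (by omega : A * Y ≤ A * y') (by omega)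
      have e := a4 (κ ^ i * K) (by positivity) (hY' y' this)
      calc _ ≤ _ := e
        _ = _ := by ring
  have hf : (0 : ℝ) < n.factorial := by exact_mod_cast n.factorial_pos
  obtain ⟨i, hi⟩ := exists_pow_lt_of_lt_one
    (show (0 : ℝ) < 1 / (n.factorial * (K + 1)) by positivity) hκ1
  obtain ⟨Y, hY, hY'⟩ := iter i
  have e1 := hY' Y le_rfl
  have e2 : ((Y : ℝ)) ^ n ≤ n.factorial * H (A * Y) := by
    have : Y ^ n ≤ n.factorial * H (A * Y) :=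
      (Nat.pow_le_pow_left (Nat.le_mul_of_pos_left _ (by omega)) n).trans (hl _)
    exact_mod_cast this
  have e3 : (0 : ℝ) < (Y : ℝ) ^ n := by positivity
  rw [lt_div_iff₀ (by positivity)] at hi
  have e4 : (n.factorial : ℝ) * (κ ^ i * K) < 1 := by
    have : 0 ≤ κ ^ i * n.factorial := by positivity
    nlinarith
  have e5 : (n.factorial : ℝ) * H (A * Y) ≤ n.factorial * (κ ^ i * K * (Y : ℝ) ^ n) :=
    mul_le_mul_of_nonneg_left e1 hf.le
  nlinarith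

theorem a3_exp : Real.exp 1 ^ 17 < (90 / 31 : ℝ) ^ 16 := by
  have h := Real.exp_one_lt_d9
  calc Real.exp 1 ^ 17 ≤ (2.7182818286 : ℝ) ^ 17 :=
        pow_le_pow_left₀ (Real.exp_pos 1).le h.le 17
    _ < _ := by norm_num

theorem arith1 {n c s : ℕ} (hc : 1 ≤ c) (hn : 16 * c ≤ n)
    (h : (1 * s * 30) ^ n * c ^ ((n + c) * c) ≤ (c * c * 31) ^ n * (1 + c) ^ ((n + c) * c)) :
    s < 3 * c ^ 2 := by
  by_contra hs
  rw [not_lt] at hs
  have hc' : (0 : ℝ) < c := by exact_mod_cast hc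
  have h1 : ((1 : ℝ) + c) ^ c ≤ Real.exp 1 * (c : ℝ) ^ c := by
    have e1 : (1 : ℝ) + c ≤ Real.exp (1 / c) * c := by
      have := Real.add_one_le_exp (1 / (c : ℝ))
      calc (1 : ℝ) + c = (1 / c + 1) * c := by field_simp
        _ ≤ _ := mul_le_mul_of_nonneg_right this hc'.le
    calc ((1 : ℝ) + c) ^ c ≤ (Real.exp (1 / c) * c) ^ c := pow_le_pow_left₀ (by positivity) e1 c
      _ = _ := by
        rw [mul_pow, ← Real.exp_nat_mul]
        congr 2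
        field_simp
  have h2 : ((1 : ℝ) + c) ^ ((n + c) * c) ≤ Real.exp 1 ^ (n + c) * (c : ℝ) ^ ((n + c) * c) := by
    rw [mul_comm (n + c) c, pow_mul, pow_mul, ← mul_pow]
    exact pow_le_pow_left₀ (by positivity) h1 _
  have h3 : ((c : ℝ) * c * 90) ^ n * (c : ℝ) ^ ((n + c) * c)
      ≤ ((c : ℝ) * c * 31) ^ n * (1 + (c : ℝ)) ^ ((n + c) * c) := by
    have : (c * c * 90) ^ n * c ^ ((n + c) * c)
        ≤ (c * c * 31) ^ n * (1 + c) ^ ((n + c) * c) :=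
      (Nat.mul_le_mul_right _ (Nat.pow_le_pow_left (by nlinarith) n)).trans h
    exact_mod_cast this
  have h4 : (90 / 31 : ℝ) ^ n ≤ Real.exp 1 ^ (n + c) := by
    have e1 : ((c : ℝ) * c * 90) ^ n = (90 / 31 : ℝ) ^ n * ((c : ℝ) * c * 31) ^ n := by
      rw [← mul_pow]
      congr 1
      ring
    have e2 : (0 : ℝ) < ((c : ℝ) * c * 31) ^ n * (c : ℝ) ^ ((n + c) * c) := by positivity
    refine le_of_mul_le_mul_right ?_ e2
    calc (90 / 31 : ℝ) ^ n * (((c : ℝ) * c * 31) ^ n * (c : ℝ) ^ ((n + c) * c))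
        = ((c : ℝ) * c * 90) ^ n * (c : ℝ) ^ ((n + c) * c) := by rw [e1]; ring
      _ ≤ ((c : ℝ) * c * 31) ^ n * (1 + (c : ℝ)) ^ ((n + c) * c) := h3
      _ ≤ ((c : ℝ) * c * 31) ^ n * (Real.exp 1 ^ (n + c) * (c : ℝ) ^ ((n + c) * c)) :=
          mul_le_mul_of_nonneg_left h2 (by positivity)
      _ = _ := by ring
  have he : (1 : ℝ) ≤ Real.exp 1 := Real.one_le_exp zero_le_one
  have h5 : ((90 / 31 : ℝ) ^ 16) ^ n ≤ (Real.exp 1 ^ 17) ^ n := by
    calc ((90 / 31 : ℝ) ^ 16) ^ n = ((90 / 31 : ℝ) ^ n) ^ 16 := by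
          rw [← pow_mul, ← pow_mul, mul_comm]
      _ ≤ (Real.exp 1 ^ (n + c)) ^ 16 := pow_le_pow_left₀ (by positivity) h4 16
      _ = Real.exp 1 ^ ((n + c) * 16) := by rw [← pow_mul]
      _ ≤ Real.exp 1 ^ (17 * n) := pow_le_pow_right₀ he (by omega)
      _ = _ := by rw [pow_mul]
  exact absurd h5 (not_le.2 (pow_lt_pow_left₀ a3_exp (by positivity) (by omega)))

theorem arith2 {n c b : ℕ} (h1 : 1 ≤ n) (hn : 4 * c ≤ n)
    (h : (4 * b * 30) ^ n * 1 ^ ((n + c) * 1) ≤ (1 * 1 * 31) ^ n * (4 + 1) ^ ((n + c) * 1)) :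
    b < 2 := by
  by_contra hb
  rw [not_lt] at hb
  have h2 : 240 ^ n ≤ 31 ^ n * 5 ^ (n + c) := by
    have e : 240 ^ n ≤ (4 * b * 30) ^ n := Nat.pow_le_pow_left (by omega) n
    simpa using e.trans (by simpa using h)
  have h3 : (240 ^ 4) ^ n ≤ (31 ^ 4 * 5 ^ 5) ^ n := by
    calc (240 ^ 4) ^ n = (240 ^ n) ^ 4 := by rw [← pow_mul, ← pow_mul, mul_comm]
      _ ≤ (31 ^ n * 5 ^ (n + c)) ^ 4 := Nat.pow_le_pow_left h2 4
      _ = (31 ^ 4) ^ n * 5 ^ ((n + c) * 4) := by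
          rw [mul_pow, ← pow_mul, ← pow_mul, ← pow_mul, mul_comm n 4]
      _ ≤ (31 ^ 4) ^ n * 5 ^ (5 * n) :=
          Nat.mul_le_mul_left _ (Nat.pow_le_pow_right (by norm_num) (by omega))
      _ = _ := by rw [mul_pow, pow_mul]
  exact absurd h3 (not_le.2 (Nat.pow_lt_pow_left (by norm_num) (by omega)))

end Pool.Agent.NEF
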