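import Pool.Agent.P.MP_66e591_ag.PDefs

/-! Dimension count along a filtration. -/

noncomputable section
namespace Pool.Agent.NEF
open Module Finset

theorem a4_sec {Ω : Type} (Z : Set Ω) (Q : Submodule ℂ (Ω → ℂ)) :
    ∃ s : Q.map (res Z) →ₗ[ℂ] (Ω → ℂ), (∀ u, s u ∈ Q) ∧ ∀ u, res Z (s u) = u := by
  obtain ⟨g, hg⟩ := ((res Z).submoduleMap Q).exists_rightInverse_of_surjective
    (LinearMap.range_eq_top.2 (LinearMap.submoduleMap_surjective _ _))
  refine ⟨Q.subtype.comp g, fun u => (g u).2, fun u => ?_⟩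
  exact congrArg Subtype.val (LinearMap.congr_fun hg u)

theorem filt {Ω : Type} (Z Z' : Set Ω) (N : ℕ) (r : ℕ → ℕ) (P : Submodule ℂ (Ω → ℂ))
    [Module.Finite ℂ P] (Q : ℕ → Submodule ℂ (Ω → ℂ)) [∀ i, Module.Finite ℂ (Q i)]
    (φ : ∀ i, Fin (r i) → Ω → ℂ) (hφ : ∀ i < N, ∀ b, ∀ g ∈ Q i, φ i b * g ∈ P)
    (h : ∀ g : ∀ i, Fin (r i) → Ω → ℂ, (∀ i b, g i b ∈ Q i) →
      (∀ z ∈ Z, ∑ i ∈ range N, ∑ b, φ i b z * g i b z = 0) →
      ∀ i < N, (∀ i' < i, ∀ b, g i' b = 0) → ∀ b, ∀ z ∈ Z', g i b z = 0) :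
    ∑ i ∈ range N, r i * rk Z' (Q i) ≤ rk Z P := by
  choose s hs hs' using fun i => a4_sec Z' (Q i)
  let L : ((i : Fin N) → Fin (r i) → (Q i).map (res Z')) →ₗ[ℂ] (Ω → ℂ) :=
    ∑ i : Fin N, ∑ b : Fin (r i), (LinearMap.mulLeft ℂ (φ i b)).comp
      ((s i).comp ((LinearMap.proj (φ := fun _ : Fin (r i) => (Q i).map (res Z')) b).comp
        (LinearMap.proj (φ := fun i : Fin N => Fin (r i) → (Q i).map (res Z')) i)))
  have hL : ∀ u, L u = ∑ i : Fin N, ∑ b : Fin (r i), φ i b * s i (u i b) := fun u => by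
    simp [L, LinearMap.sum_apply]
  have hmem : ∀ u, ((res Z).comp L) u ∈ P.map (res Z) := fun u => by
    refine Submodule.mem_map_of_mem (show L u ∈ P from ?_)
    rw [hL]
    exact P.sum_mem fun i _ => P.sum_mem fun b _ => hφ i i.2 b _ (hs _ _)
  have hinj : Function.Injective (((res Z).comp L).codRestrict _ hmem) := by
    rw [injective_iff_map_eq_zero]
    intro u hu
    have hu' : res Z (L u) = 0 := congrArg Subtype.val hu
    let g : ∀ i, Fin (r i) → Ω → ℂ := fun i b => if hi : i < N then s i (u ⟨i, hi⟩ b) else 0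
    have hg : ∀ (i : Fin N) (b : Fin (r i)), g i b = s i (u i b) := fun i b => dif_pos i.2
    have hQ : ∀ i b, g i b ∈ Q i := fun i b => by
      by_cases hi : i < N
      · rw [hg ⟨i, hi⟩ b]
        exact hs _ _
      · rw [show g i b = 0 from dif_neg hi]
        exact (Q i).zero_mem
    have hz : ∀ z ∈ Z, ∑ i ∈ range N, ∑ b, φ i b z * g i b z = 0 := fun z hz => by
      have h1 := congrFun hu' ⟨z, hz⟩
      rw [res_apply, hL] at h1
      rw [Finset.sum_range]
      simpa [hg, Finset.sum_apply] using h1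
    have key : ∀ i (hi : i < N) b, u ⟨i, hi⟩ b = 0 := by
      intro i
      induction i using Nat.strong_induction_on with
      | _ i ih =>
        intro hi b
        have h2 := h g hQ hz i hi (fun i' hi' b' => by
          rw [hg ⟨i', hi'.trans hi⟩ b', ih i' hi' (hi'.trans hi) b', map_zero]) b
        apply Subtype.ext
        rw [← hs' i (u ⟨i, hi⟩ b), ← hg ⟨i, hi⟩ b]
        funext z
        exact h2 z.1 z.2
    funext i b
    exact key i i.2 b
  have hle := LinearMap.finrank_le_finrank_of_injective hinj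
  rw [finrank_pi_fintype] at hle
  rw [Finset.sum_range]
  refine le_trans (le_of_eq (Finset.sum_congr rfl fun i _ => ?_)) hle
  rw [finrank_pi_fintype, Finset.sum_const, Finset.card_univ, Fintype.card_fin, smul_eq_mul, rk]

theorem low (N i₀ : ℕ) (ψ : ℕ → ℂ → ℂ) (hc : ∀ i, Continuous (ψ i)) (h0 : ∀ i < i₀, ψ i = 0)
    (h : ∀ τ : ℂ, ∑ i ∈ range N, τ ^ i * ψ i τ = 0) (hi : i₀ < N) : ψ i₀ 0 = 0 := by
  obtain ⟨m, rfl⟩ := Nat.exists_eq_add_of_lt hi
  have hF : (fun τ : ℂ => ∑ j ∈ range (m + 1), τ ^ j * ψ (i₀ + j) τ) = fun _ => 0 := by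
    refine Continuous.ext_on (dense_compl_singleton (0 : ℂ))
      (continuous_finsetSum _ fun j _ => (continuous_pow j).mul (hc _)) continuous_const ?_
    intro τ hτ
    have h1 := h τ
    rw [add_assoc, Finset.sum_range_add, Finset.sum_eq_zero (fun i hi' => by
      rw [h0 i (mem_range.1 hi'), Pi.zero_apply, mul_zero]), zero_add] at h1
    refine mul_left_cancel₀ (pow_ne_zero i₀ (show τ ≠ 0 from hτ)) ?_
    rw [mul_zero, Finset.mul_sum, ← h1]
    exact Finset.sum_congr rfl fun j _ => by rw [pow_add, mul_assoc]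
  have h2 := congrFun hF 0
  rw [Finset.sum_range_succ'] at h2
  simpa using h2

end Pool.Agent.NEF
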