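import Pool.Agent.P.MP_66e591_ag.A1
import Pool.Agent.P.MP_66e591_ag.A2

/-! The Hilbert function of `X` and the upper bound. -/

noncomputable section
namespace Pool.Agent.NEF
open MvPolynomial Module Pool.Agent.HCF

variable {M : ℕ} {I : Ideal (SS M)} {c n : ℕ}

theorem mem_of_vanish (hX : IsManifold I c) {δ p : SS M} (hδ : δ ∉ I)
    (h : ∀ x ∈ cone I, eval x δ ≠ 0 → eval x p = 0) : p ∈ I := by
  refine (hX.prime.mem_or_mem (basic0_mem hX fun x => ?_)).resolve_left hδ
  rw [map_mul]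
  by_cases h0 : eval x.1 δ = 0
  · rw [h0, zero_mul]
  · rw [h x.1 x.2 h0, mul_zero]

theorem a5_fin (I : Ideal (SS M)) (a : ℕ) :
    Module.Finite ℂ ((homogeneousSubmodule (Fin M) ℂ a).map (pf I).toLinearMap) := by
  have := hom_finite M a
  exact Module.Finite.map _ _

theorem HR_mono (hX : IsManifold I c) : Monotone (HR I) := by
  refine monotone_nat_of_le_succ fun a => ?_
  obtain ⟨j, hj⟩ := basic0_X hX
  have := a5_fin I (a + 1)
  refine LinearMap.finrank_le_finrank_of_injective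
    (f := (LinearMap.mulLeft ℂ (pf I (X j))).restrict
      (p := (homogeneousSubmodule (Fin M) ℂ a).map (pf I).toLinearMap)
      (q := (homogeneousSubmodule (Fin M) ℂ (a + 1)).map (pf I).toLinearMap) ?_) ?_
  · rintro _ ⟨p, hp, rfl⟩
    refine ⟨X j * p, ?_, by simp⟩
    have h1 : (X j * p : SS M).IsHomogeneous (1 + a) := (isHomogeneous_X ℂ j).mul hp
    rwa [add_comm] at h1
  · rw [injective_iff_map_eq_zero]
    rintro ⟨_, p, hp, rfl⟩ h0
    have h1 : pf I (X j * p) = 0 := by
      rw [map_mul]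
      exact congrArg Subtype.val h0
    exact Subtype.ext (hX.pf_eq_zero.2
      ((hX.prime.mem_or_mem (hX.pf_eq_zero.1 h1)).resolve_left hj))

theorem HR_lower (hX : IsManifold I c) (hM : M = n + 1 + c) (a : ℕ) :
    Nat.multichoose (n + 1) a ≤ HR I a := by
  obtain ⟨L, hL⟩ := hX.exists_bpf hM
  have hi := hL.indep hX hM
  have := a5_fin I a
  rw [← finrank_hom]
  refine LinearMap.finrank_le_finrank_of_injective
    (f := (((pf I).comp (aeval fun i => lin (L i))).toLinearMap).restrict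
      (p := homogeneousSubmodule (Fin (n + 1)) ℂ a)
      (q := (homogeneousSubmodule (Fin M) ℂ a).map (pf I).toLinearMap) ?_) ?_
  · intro p hp
    refine ⟨aeval (fun i => lin (L i)) p, ?_, rfl⟩
    have h1 := IsHomogeneous.aeval hp (fun i => lin (L i)) (fun i => lin_hom (L i))
    rwa [one_mul] at h1
  · rw [injective_iff_map_eq_zero]
    rintro ⟨p, hp⟩ h0
    have h1 : ((pf I).comp (aeval fun i => lin (L i))) p = 0 := congrArg Subtype.val h0
    refine Subtype.ext (algebraicIndependent_iff.1 hi p (Subtype.ext ?_))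
    have h2 : (Pol I).val.comp (aeval (linP I L)) = (pf I).comp (aeval fun i => lin (L i)) := by
      ext1 i
      simp [linP]
    have h3 := DFunLike.congr_fun h2 p
    rw [h1] at h3
    exact h3

theorem conormal_perp (hX : IsManifold I c) {x η : VV M} (hx : x ∈ cone I)
    (hη : η ∈ conormal I x) : η ⬝ᵥ x = 0 :=
  hη x (hX.self_mem_tang hx)

/-- restriction as a map of algebras -/
def a5Res {Ω : Type} (Z : Set Ω) : (Ω → ℂ) →ₐ[ℂ] (Z → ℂ) :=
  AlgHom.pi fun z => Pi.evalAlgHom ℂ (fun _ => ℂ) z.1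

theorem a5_prod {A α : Type} [CommRing A] [Algebra ℂ A] (s : Finset α) (P : α → Submodule ℂ A)
    (r : α → ℕ) (h : ∀ i, Module.Finite ℂ (P i) ∧ finrank ℂ (P i) ≤ r i) :
    Module.Finite ℂ ↥(∏ i ∈ s, P i) ∧ finrank ℂ ↥(∏ i ∈ s, P i) ≤ ∏ i ∈ s, r i := by
  classical
  induction s using Finset.induction_on with
  | empty =>
    rw [Finset.prod_empty, Finset.prod_empty, Submodule.one_eq_span]
    refine ⟨inferInstance, ?_⟩
    simpa using finrank_span_le_card (R := ℂ) ({1} : Set A)
  | insert i s hi ih =>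
    rw [Finset.prod_insert hi, Finset.prod_insert hi]
    have h1 := (h i).1
    have h2 := ih.1
    exact ⟨(finrank_mul_le' _ _).1, (finrank_mul_le' _ _).2.trans (Nat.mul_le_mul (h i).2 ih.2)⟩

theorem a5_img {V W : Type} [AddCommGroup V] [Module ℂ V] [AddCommGroup W] [Module ℂ W]
    (P : Submodule ℂ V) [Module.Finite ℂ P] (φ : V →ₗ[ℂ] W) (Q : Submodule ℂ W)
    (h : Q ≤ P.map φ) : Module.Finite ℂ Q ∧ finrank ℂ Q ≤ finrank ℂ P :=
  ⟨Submodule.finiteDimensional_of_le h,
    (Submodule.finrank_mono h).trans (Submodule.finrank_map_le φ P)⟩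

/-- the upper bound -/
theorem bot {κ : Type} [Fintype κ] [DecidableEq κ] (Z : Set (Option κ → VV M))
    (hZ : ∀ z ∈ Z, z none ∈ cone I) (a : ℕ) (b : κ → ℕ) :
    rk Z (Pd M (dg a b)) ≤ HR I a * ∏ i, Nat.multichoose M (b i) := by
  have he : (Pd M (dg a b)).map (res Z) =
      ∏ o, (Lf M o ^ dg a b o).map (a5Res Z).toLinearMap :=
    map_prod (Submodule.mapHom (a5Res Z)) _ _
  have key := a5_prod Finset.univ (fun o => (Lf M o ^ dg a b o).map (a5Res Z).toLinearMap)
    (fun o : Option κ => o.elim (HR I a) fun i => Nat.multichoose M (b i)) (fun o => ?_)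
  · rw [rk, he]
    simpa [Fintype.prod_option] using key.2
  · cases o with
    | none =>
      have := a5_fin I a
      refine a5_img _ (LinearMap.funLeft ℂ ℂ fun z : Z => (⟨z.1 none, hZ z.1 z.2⟩ : cone I)) _ ?_
      rintro _ ⟨f, hf, rfl⟩
      obtain ⟨p, hp, rfl⟩ := mem_Lf_pow.1 hf
      exact ⟨pf I p, ⟨p, hp, rfl⟩, funext fun z => pf_apply p _⟩
    | some i =>
      have := hom_finite M (b i)
      have h1 := a5_img (homogeneousSubmodule (Fin M) ℂ (b i))
        (aeval (fun j (z : Z) => z.1 (some i) j) : SS M →ₐ[ℂ] (Z → ℂ)).toLinearMap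
        ((Lf M (some i) ^ b i).map (a5Res Z).toLinearMap) ?_
      · rwa [finrank_hom] at h1
      · rintro _ ⟨f, hf, rfl⟩
        obtain ⟨p, hp, rfl⟩ := mem_Lf_pow.1 hf
        refine ⟨p, hp, funext fun z => ?_⟩
        have h2 : (Pi.evalAlgHom ℂ (fun _ : Z => ℂ) z).comp
            (aeval (fun j (z : Z) => z.1 (some i) j)) = aeval (z.1 (some i)) := by
          ext1 j
          simp
        exact DFunLike.congr_fun h2 p

end Pool.Agent.NEF
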