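import Pool.Agent.P.MP_66e591_ag.PDefs

/-! Cells of quadrics. -/

noncomputable section
namespace Pool.Agent.NEF
open MvPolynomial Module Pool.Agent.HCF

variable {M : ℕ}

/-- the isotropic vectors in a subspace -/
def Iso (A : VV M →ₗ[ℂ] VV M) (U : Submodule ℂ (VV M)) : Set (VV M) :=
  {x | x ≠ 0 ∧ x ∈ U ∧ A x ⬝ᵥ x = 0}

/-- a linear form as a polynomial -/
def c1_lp (l : VV M →ₗ[ℂ] ℂ) : MvPolynomial (Fin M) ℂ := lin fun j => l (Pi.single j 1)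

theorem c1_eval (l : VV M →ₗ[ℂ] ℂ) (x : VV M) : eval x (c1_lp l) = l x := by
  rw [c1_lp, eval_lin, LinearMap.pi_apply_eq_sum_univ l x]
  refine Finset.sum_congr rfl fun j _ => ?_
  have : (fun k => if j = k then (1 : ℂ) else 0) = Pi.single j 1 := by
    ext k
    simp [Pi.single_apply, eq_comm]
  rw [this, smul_eq_mul, mul_comm]

theorem c1_hom (l : VV M →ₗ[ℂ] ℂ) : (c1_lp l).IsHomogeneous 1 := lin_hom _

theorem iso_closed (A : VV M →ₗ[ℂ] VV M) (U : Submodule ℂ (VV M)) : IsClosedCone (Iso A U) := by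
  refine ⟨{∑ j, c1_lp ((LinearMap.proj j).comp A) * X j} ∪
    {p | ∃ l : VV M →ₗ[ℂ] ℂ, (∀ x ∈ U, l x = 0) ∧ p = c1_lp l}, ?_, ?_⟩
  · rintro p (rfl | ⟨l, -, rfl⟩)
    · exact ⟨2, IsHomogeneous.sum _ _ _ fun j _ => (c1_hom _).mul (isHomogeneous_X ℂ j)⟩
    · exact ⟨1, c1_hom l⟩
  · have hq : ∀ x : VV M,
        eval x (∑ j, c1_lp ((LinearMap.proj j).comp A) * X j) = A x ⬝ᵥ x := by
      intro x
      simp [c1_eval, dotProduct]
    ext x
    constructor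
    · rintro ⟨h0, hU, hA⟩
      refine ⟨h0, ?_⟩
      rintro p (rfl | ⟨l, hl, rfl⟩)
      · rw [hq, hA]
      · rw [c1_eval, hl x hU]
    · rintro ⟨h0, h⟩
      refine ⟨h0, ?_, ?_⟩
      · by_contra hx
        obtain ⟨l, h1, h2⟩ := Submodule.exists_dual_map_eq_bot_of_notMem hx inferInstance
        have h3 : ∀ y ∈ U, l y = 0 := fun y hy => by
          have : l y ∈ U.map l := Submodule.mem_map_of_mem hy
          rwa [h2, Submodule.mem_bot] at this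
        have := h _ (Or.inr ⟨l, h3, rfl⟩)
        rw [c1_eval] at this
        exact h1 this
      · rw [← hq]
        exact h _ (Or.inl rfl)

theorem c1_coord (U : Submodule ℂ (VV M)) (φ χ : VV M →ₗ[ℂ] ℂ) {e f : VV M} (he : e ∈ U)
    (hf : f ∈ U) (h1 : φ f = 1) (h2 : φ e = 0) (h3 : χ f = 0) (h4 : χ e • e = e)
    (h5 : ∀ x, χ x * χ e = χ x) :
    ∃ (k : ℕ) (u : Fin k → VV M) (l : Fin k → VV M →ₗ[ℂ] ℂ), (∀ i, u i ∈ U ∧ φ (u i) = 0) ∧
      (∀ (w : Fin k → ℂ) (c : ℂ) i, l i (f + ∑ j, w j • u j + c • e) = w i) ∧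
      ∀ x ∈ U, x = φ x • f + ∑ i, l i x • u i + χ x • e := by
  set W : Submodule ℂ (VV M) := U ⊓ LinearMap.ker φ ⊓ LinearMap.ker χ with hW
  obtain ⟨π, hπ⟩ := LinearMap.exists_extend (LinearMap.id : W →ₗ[ℂ] W)
  have hπ' : ∀ y : W, π (y : VV M) = y := fun y => by
    simpa using LinearMap.congr_fun hπ y
  let b := Module.finBasis ℂ W
  let T : VV M →ₗ[ℂ] VV M := LinearMap.id - φ.smulRight f - χ.smulRight e
  have hT : ∀ x, T x = x - φ x • f - χ x • e := fun x => rfl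
  refine ⟨_, fun i => b i, fun i => (b.coord i).comp (π.comp T),
    fun i => ⟨(b i).2.1.1, (b i).2.1.2⟩, fun w c i => ?_, fun x hx => ?_⟩
  · have e1 : (∑ j, w j • (b j : VV M)) = ((∑ j, w j • b j : W) : VV M) := by simp
    have k1 : φ ((∑ j, w j • b j : W) : VV M) = 0 := (∑ j, w j • b j : W).2.1.2
    have k2 : χ ((∑ j, w j • b j : W) : VV M) = 0 := (∑ j, w j • b j : W).2.2
    have e2 : T (f + ∑ j, w j • (b j : VV M) + c • e) = ((∑ j, w j • b j : W) : VV M) := by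
      rw [e1, hT]
      simp only [map_add, map_smul, h1, h2, h3, k1, k2, smul_zero, add_zero, zero_add, one_smul]
      rw [smul_assoc, h4]
      abel
    simp only [LinearMap.comp_apply]
    rw [e2, hπ']
    simp [Finsupp.single_apply]
  · have hm : T x ∈ W := by
      refine ⟨⟨?_, ?_⟩, ?_⟩
      · exact U.sub_mem (U.sub_mem hx (U.smul_mem _ hf)) (U.smul_mem _ he)
      · simp [hT, h1, h2]
      · simp [hT, h3, h5]
    have e1 := hπ' ⟨T x, hm⟩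
    have e2 : (∑ i, b.repr ⟨T x, hm⟩ i • (b i : VV M)) = T x := by
      have := congrArg (fun y : W => (y : VV M)) (b.sum_repr ⟨T x, hm⟩)
      simpa only [Submodule.coe_sum, Submodule.coe_smul] using this
    simp only [LinearMap.comp_apply, Module.Basis.coord_apply]
    simp only at e1
    rw [e1, e2, hT]
    abel

theorem c1_cell (Z : Set (VV M)) (φ : VV M →ₗ[ℂ] ℂ) {k : ℕ} (u : Fin k → VV M)
    (l : Fin k → VV M →ₗ[ℂ] ℂ) (e f : VV M) (q : MvPolynomial (Fin k) ℂ)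
    (h1 : ∀ w : Fin k → ℂ, f + ∑ j, w j • u j + eval w q • e ∈ Z ∧
      φ (f + ∑ j, w j • u j + eval w q • e) = 1 ∧
      ∀ i, l i (f + ∑ j, w j • u j + eval w q • e) = w i)
    (h2 : ∀ x ∈ Z, φ x ≠ 0 ∧ f + ∑ j, (l j x / φ x) • u j + eval (fun j => l j x / φ x) q • e =
      (φ x)⁻¹ • x) : IsCell Z k := by
  have hp : ∀ w : Fin k → ℂ, (fun j => eval w (C (f j) + ∑ i, X i * C (u i j) + q * C (e j))) =
      f + ∑ j, w j • u j + eval w q • e := by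
    intro w
    ext j
    simp [Finset.sum_apply]
  refine ⟨fun j => C (f j) + ∑ i, X i * C (u i j) + q * C (e j), fun x i => l i x / φ x,
    fun w => ?_, fun x hx => ?_, fun x hx => ?_⟩
  · rw [hp]
    refine ⟨(h1 w).1, ?_⟩
    ext i
    simp only []
    rw [(h1 w).2.1, (h1 w).2.2, div_one]
  · exact ⟨(φ x)⁻¹, by rw [hp]; exact (h2 x hx).2⟩
  · refine ⟨1, fun i => c1_lp (l i), c1_lp φ, fun i => c1_hom _, c1_hom _, ?_, fun y _ _ i => ?_⟩
    · rw [c1_eval]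
      exact (h2 x hx).1
    · rw [c1_eval, c1_eval]

theorem c1_mem {A : VV M →ₗ[ℂ] VV M} {U : Submodule ℂ (VV M)} {φ : VV M →ₗ[ℂ] ℂ} {x : VV M} :
    x ∈ Iso A U \ Iso A (U ⊓ LinearMap.ker φ) ↔ x ∈ U ∧ A x ⬝ᵥ x = 0 ∧ φ x ≠ 0 := by
  constructor
  · rintro ⟨⟨h0, hU, hA⟩, h⟩
    exact ⟨hU, hA, fun k => h ⟨h0, ⟨hU, k⟩, hA⟩⟩
  · rintro ⟨hU, hA, h⟩
    refine ⟨⟨fun k => h (by rw [k, map_zero]), hU, hA⟩, fun k => h k.2.1.2⟩

theorem c1_norm {U : Submodule ℂ (VV M)} {φ χ : VV M →ₗ[ℂ] ℂ} {e f : VV M} {k : ℕ}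
    {u : Fin k → VV M} {l : Fin k → VV M →ₗ[ℂ] ℂ}
    (h : ∀ x ∈ U, x = φ x • f + ∑ i, l i x • u i + χ x • e) {x : VV M} (hx : x ∈ U)
    (h0 : φ x ≠ 0) :
    f + ∑ j, (l j x / φ x) • u j + χ ((φ x)⁻¹ • x) • e = (φ x)⁻¹ • x := by
  have h1 := h _ (U.smul_mem (φ x)⁻¹ hx)
  have h2 : φ ((φ x)⁻¹ • x) = 1 := by rw [map_smul, smul_eq_mul, inv_mul_cancel₀ h0]
  have h3 : ∀ j, l j ((φ x)⁻¹ • x) = l j x / φ x := fun j => by
    rw [map_smul, smul_eq_mul, div_eq_inv_mul]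
  rw [h2, one_smul] at h1
  simp only [h3] at h1
  exact h1.symm

/-- the complement of a hyperplane in a linear space -/
theorem cell_lin (A : VV M →ₗ[ℂ] VV M) (U : Submodule ℂ (VV M)) (hU : ∀ x ∈ U, A x ⬝ᵥ x = 0)
    (φ : VV M →ₗ[ℂ] ℂ) {f : VV M} (hf : f ∈ U) (h1 : φ f = 1) :
    ∃ k, IsCell (Iso A U \ Iso A (U ⊓ LinearMap.ker φ)) k := by
  obtain ⟨k, u, l, hu, hl, hx⟩ := c1_coord U φ 0 (e := 0) U.zero_mem hf h1 (map_zero _) rfl
    (smul_zero _) (fun x => by simp)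
  refine ⟨k, c1_cell _ φ u l 0 f 0 (fun w => ?_) fun x hZ => ?_⟩
  · have hm : f + ∑ j, w j • u j + eval w (0 : MvPolynomial (Fin k) ℂ) • (0 : VV M) ∈ U :=
      U.add_mem (U.add_mem hf (U.sum_mem fun j _ => U.smul_mem _ (hu j).1))
        (U.smul_mem _ U.zero_mem)
    have hφ : φ (f + ∑ j, w j • u j + eval w (0 : MvPolynomial (Fin k) ℂ) • (0 : VV M)) = 1 := by
      simp [map_sum, h1, fun j => (hu j).2]
    exact ⟨c1_mem.2 ⟨hm, hU _ hm, by rw [hφ]; exact one_ne_zero⟩, hφ, hl w _⟩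
  · obtain ⟨k1, -, k3⟩ := c1_mem.1 hZ
    refine ⟨k3, ?_⟩
    have := c1_norm hx k1 k3
    rwa [smul_zero, ← smul_zero (eval (fun j => l j x / φ x) (0 : MvPolynomial (Fin k) ℂ))] at this

/-- stereographic projection -/
theorem cell_quad (A : VV M →ₗ[ℂ] VV M) (hA : ∀ x y, A x ⬝ᵥ y = A y ⬝ᵥ x)
    (U : Submodule ℂ (VV M)) {e f : VV M} (he : e ∈ U) (hf : f ∈ U) (h0 : A e ⬝ᵥ e = 0)
    (φ : VV M →ₗ[ℂ] ℂ) (hφ : ∀ x, φ x = A e ⬝ᵥ x) (h1 : φ f = 1) :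
    ∃ k, IsCell (Iso A U \ Iso A (U ⊓ LinearMap.ker φ)) k := by
  have he0 : e ≠ 0 := by
    rintro rfl
    rw [hφ, map_zero, zero_dotProduct] at h1
    exact zero_ne_one h1
  obtain ⟨j0, hj0⟩ := Function.ne_iff.1 he0
  have hj : e j0 ≠ 0 := hj0
  have h2 : φ e = 0 := by rw [hφ, h0]
  let χ : VV M →ₗ[ℂ] ℂ := (e j0)⁻¹ • (LinearMap.proj j0 - f j0 • φ)
  have hχ : ∀ x, χ x = (e j0)⁻¹ * (x j0 - f j0 * φ x) := fun x => rfl
  have h3 : χ f = 0 := by rw [hχ, h1]; ring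
  have h4 : χ e = 1 := by rw [hχ, h2, mul_zero, sub_zero, inv_mul_cancel₀ hj]
  obtain ⟨k, u, l, hu, hl, hx⟩ := c1_coord U φ χ he hf h1 h2 h3 (by rw [h4, one_smul])
    (fun x => by rw [h4, mul_one])
  let q : MvPolynomial (Fin k) ℂ := C (-(1 / 2)) *
    ∑ j, (C (A f j) + ∑ i, X i * C (A (u i) j)) * (C (f j) + ∑ i, X i * C (u i j))
  have hq : ∀ w : Fin k → ℂ,
      eval w q = -(1 / 2) * (A (f + ∑ j, w j • u j) ⬝ᵥ (f + ∑ j, w j • u j)) := by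
    intro w
    simp [q, dotProduct, map_sum, Finset.sum_apply]
  have hy : ∀ w : Fin k → ℂ, φ (f + ∑ j, w j • u j) = 1 := by
    intro w
    simp [map_sum, h1, fun j => (hu j).2]
  have hexp : ∀ (y : VV M) (c : ℂ), φ y = 1 → A (y + c • e) ⬝ᵥ (y + c • e) = A y ⬝ᵥ y + 2 * c := by
    intro y c h
    rw [hφ] at h
    rw [map_add, map_smul, add_dotProduct, dotProduct_add, dotProduct_add, dotProduct_smul,
      smul_dotProduct, smul_dotProduct, dotProduct_smul, hA y e, h, h0]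
    simp only [smul_eq_mul]
    ring
  refine ⟨k, c1_cell _ φ u l e f q (fun w => ?_) fun x hZ => ?_⟩
  · have hm : f + ∑ j, w j • u j + eval w q • e ∈ U :=
      U.add_mem (U.add_mem hf (U.sum_mem fun j _ => U.smul_mem _ (hu j).1)) (U.smul_mem _ he)
    have hφ' : φ (f + ∑ j, w j • u j + eval w q • e) = 1 := by
      rw [map_add, hy, map_smul, h2, smul_zero, add_zero]
    refine ⟨c1_mem.2 ⟨hm, ?_, by rw [hφ']; exact one_ne_zero⟩, hφ', hl w _⟩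
    rw [hexp _ _ (hy w), hq]
    ring
  · obtain ⟨k1, k2, k3⟩ := c1_mem.1 hZ
    refine ⟨k3, ?_⟩
    have k4 := c1_norm hx k1 k3
    have k5 := hexp _ (χ ((φ x)⁻¹ • x)) (hy fun j => l j x / φ x)
    rw [k4, map_smul, smul_dotProduct, dotProduct_smul, k2, smul_zero, smul_zero] at k5
    have k6 : eval (fun j => l j x / φ x) q = χ ((φ x)⁻¹ • x) := by
      rw [hq]
      linear_combination (1 / 2 : ℂ) * k5
    rw [k6]
    exact k4

end Pool.Agent.NEF
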