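import Mathlib

/-! Common zeros of forms; two lemmas on binary forms. -/

namespace Pool.Agent.NEF
open MvPolynomial Module

theorem q0_height (n : ℕ) (M : Ideal (MvPolynomial (Fin n) ℂ)) [hM : M.IsMaximal] :
    M.height = n := by
  induction n with
  | zero =>
    have h1 := Ideal.height_le_ringKrullDim_of_ne_top hM.ne_top
    simp only [MvPolynomial.ringKrullDim_of_isNoetherianRing, ringKrullDim_eq_zero_of_field,
      Nat.card_eq_fintype_card, Fintype.card_fin, Nat.cast_zero, add_zero] at h1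
    have h2 : M.height ≤ 0 := by exact_mod_cast h1
    simpa using h2
  | succ n ih =>
    let e := (finSuccEquiv ℂ n).toRingEquiv
    let P := M.comap e.symm
    have : P.IsMaximal := Ideal.comap_isMaximal_of_surjective _ e.symm.surjective
    have h1 : P.height = M.height := RingEquiv.height_comap e.symm M
    have h2 : (P.under (MvPolynomial (Fin n) ℂ)).IsMaximal :=
      Polynomial.isMaximal_comap_C_of_isJacobsonRing P
    have h3 : P.LiesOver (P.under (MvPolynomial (Fin n) ℂ)) := ⟨rfl⟩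
    rw [← h1, Polynomial.height_eq_height_add_one (P.under (MvPolynomial (Fin n) ℂ)) P, ih]
    simp

/-- fewer forms than variables have a common zero -/
theorem common_zero {N : ℕ} {α : Type} [Fintype α] (hN : Fintype.card α < N)
    (g : α → MvPolynomial (Fin N) ℂ) (d : α → ℕ) (hg : ∀ i, (g i).IsHomogeneous (d i))
    (hd : ∀ i, 1 ≤ d i) : ∃ w : Fin N → ℂ, w ≠ 0 ∧ ∀ i, eval w (g i) = 0 := by
  classical
  by_contra hcon
  set s : Finset (MvPolynomial (Fin N) ℂ) := Finset.univ.image g with hs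
  set I : Ideal (MvPolynomial (Fin N) ℂ) := Ideal.span (s : Set (MvPolynomial (Fin N) ℂ)) with hI
  set M : Ideal (MvPolynomial (Fin N) ℂ) := vanishingIdeal ℂ {(0 : Fin N → ℂ)} with hM
  have hmax : M.IsMaximal := isMaximal_iff_eq_vanishingIdeal_singleton.2 ⟨0, rfl⟩
  have h1 : I ≤ M := by
    rw [hI, Ideal.span_le]
    intro f hf
    obtain ⟨i, -, rfl⟩ := Finset.mem_image.1 (Finset.mem_coe.1 hf)
    have h0 : constantCoeff (g i) = 0 := by
      rw [constantCoeff_eq]
      refine (hg i).coeff_eq_zero ?_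
      have := hd i
      simp only [map_zero]
      omega
    simp only [hM, SetLike.mem_coe, mem_vanishingIdeal_singleton_iff]
    simpa using h0
  have h2 : M ≤ I.radical := by
    rw [← vanishingIdeal_zeroLocus_eq_radical (K := ℂ) I, hM]
    refine vanishingIdeal_anti_mono ?_
    intro w hw
    by_contra hw0
    refine hcon ⟨w, hw0, fun i => ?_⟩
    have := (mem_zeroLocus_iff.1 hw) (g i)
      (Ideal.subset_span (Finset.mem_coe.2 (Finset.mem_image.2 ⟨i, Finset.mem_univ _, rfl⟩)))
    simpa [aeval_eq_eval] using this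
  have h3 : M ∈ I.minimalPrimes := by
    refine ⟨⟨hmax.isPrime, h1⟩, ?_⟩
    rintro q ⟨hq, hIq⟩ -
    exact h2.trans (hq.radical_le_iff.2 hIq)
  have h4 := Ideal.height_le_card_of_mem_minimalPrimes_span_finset h3
  rw [q0_height] at h4
  have h5 : N ≤ s.card := by exact_mod_cast h4
  have h6 : s.card ≤ Fintype.card α := Finset.card_image_le.trans (by simp)
  omega

/-- the same on a subspace, for functions that are homogeneous polynomials in coordinates -/
theorem common_zero' {E : Type} [AddCommGroup E] [Module ℂ E] [Module.Finite ℂ E] {α : Type}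
    [Fintype α] (hN : Fintype.card α < finrank ℂ E) (B : α → E →ₗ[ℂ] E →ₗ[ℂ] ℂ) :
    ∃ w : E, w ≠ 0 ∧ ∀ i, B i w w = 0 := by
  set b := Module.finBasis ℂ E with hb
  obtain ⟨w, hw, h⟩ := common_zero hN
    (fun i => ∑ a, ∑ a', C (B i (b a) (b a')) * (X a * X a')) (fun _ => 2)
    (fun i => by
      refine IsHomogeneous.sum _ _ _ fun a _ => IsHomogeneous.sum _ _ _ fun a' _ => ?_
      exact ((isHomogeneous_X ℂ a).mul (isHomogeneous_X ℂ a')).C_mul _)
    (fun _ => by norm_num)
  refine ⟨∑ a, w a • b a, fun h0 => hw ?_, fun i => ?_⟩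
  · funext a
    exact Fintype.linearIndependent_iff.1 b.linearIndependent w h0 a
  · have := h i
    simp only [map_sum, map_mul, eval_C, eval_X] at this
    rw [← this]
    simp only [map_sum, map_smul, LinearMap.sum_apply, LinearMap.smul_apply, smul_eq_mul,
      Finset.mul_sum]
    rw [Finset.sum_comm]
    refine Finset.sum_congr rfl fun a _ => Finset.sum_congr rfl fun a' _ => ?_
    ring

theorem q0_pencil {V F : Type} [AddCommGroup V] [Module ℂ V] [Module.Finite ℂ V] [AddCommGroup F]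
    [Module ℂ F] (A B : V →ₗ[ℂ] F) (hB : ∀ v, B v = 0 → v = 0)
    (hA : ∀ (t : ℂ) v, A v + t • B v = 0 → v = 0) (η : F) (c' : V) (hc' : B c' = η)
    (c : ℂ → V) (hc : ∀ t, A (c t) + t • B (c t) = η) : η = 0 := by
  by_contra hη
  have hc0 : ∀ t, c t ≠ 0 := by
    intro t h0
    have := hc t
    rw [h0, map_zero, map_zero, smul_zero, add_zero] at this
    exact hη this.symm
  obtain ⟨L, hL⟩ := B.exists_leftInverse_of_injective (LinearMap.ker_eq_bot'.2 hB)
  have hL' : ∀ v, L (B v) = v := fun v => LinearMap.congr_fun hL v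
  set T : V →ₗ[ℂ] V := L ∘ₗ A with hT
  have hAc : ∀ t, A (c t) = B (c' - t • c t) := by
    intro t
    rw [map_sub, map_smul, hc', ← hc t, add_sub_cancel_right]
  have hTc : ∀ t, T (c t) = c' - t • c t := by
    intro t
    rw [hT, LinearMap.comp_apply, hAc, hL']
  set K : Submodule ℂ V := Submodule.span ℂ (Set.range c) with hK
  have hcK : ∀ t, c t ∈ K := fun t => Submodule.subset_span ⟨t, rfl⟩
  by_cases hm : c' ∈ K
  · have h1 : ∀ v ∈ K, T v ∈ K ∧ B (T v) = A v := by
      intro v hv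
      induction hv using Submodule.span_induction with
      | mem x hx =>
        obtain ⟨t, rfl⟩ := hx
        rw [hTc, hAc]
        exact ⟨K.sub_mem hm (K.smul_mem _ (hcK t)), rfl⟩
      | zero => simp
      | add x y _ _ hx hy =>
        rw [map_add, map_add, map_add, hx.2, hy.2]
        exact ⟨K.add_mem hx.1 hy.1, rfl⟩
      | smul r x _ hx =>
        rw [map_smul, map_smul, map_smul, hx.2]
        exact ⟨K.smul_mem _ hx.1, rfl⟩
    have : Nontrivial K := ⟨⟨⟨c 0, hcK 0⟩, 0, fun h => hc0 0 (congrArg Subtype.val h)⟩⟩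
    obtain ⟨μ, hμ⟩ := Module.End.exists_eigenvalue (T.restrict fun v hv => (h1 v hv).1)
    obtain ⟨v, hv⟩ := hμ.exists_hasEigenvector
    have h2 : T v = μ • (v : V) := congrArg Subtype.val hv.apply_eq_smul
    have h3 : (v : V) = 0 := by
      refine hA (-μ) v ?_
      rw [← (h1 v v.2).2, h2, map_smul, neg_smul, add_neg_cancel]
    exact hv.2 (Subtype.ext h3)
  · obtain ⟨φ, hφ, hφK⟩ := Submodule.exists_dual_map_eq_bot_of_notMem hm inferInstance
    have hφc : ∀ t, φ (c t) = 0 := by
      intro t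
      have : φ (c t) ∈ K.map φ := Submodule.mem_map_of_mem (hcK t)
      rwa [hφK, Submodule.mem_bot] at this
    set T' : Module.End ℂ V := T - (φ ∘ₗ T).smulRight ((φ c')⁻¹ • c') with hT'
    have h1 : ∀ t, T'.HasEigenvalue t := by
      intro t
      refine Module.End.hasEigenvalue_of_hasEigenvector (x := c (-t)) ⟨?_, hc0 _⟩
      rw [Module.End.mem_eigenspace_iff, hT', LinearMap.sub_apply, LinearMap.smulRight_apply,
        LinearMap.comp_apply φ, hTc, map_sub, map_smul, hφc, smul_zero, sub_zero, smul_smul,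
        mul_inv_cancel₀ hφ, one_smul, neg_smul]
      abel
    have h2 := T'.finite_hasEigenvalue
    have h3 : {μ | T'.HasEigenvalue μ} = Set.univ := Set.eq_univ_of_forall h1
    exact Set.infinite_univ (h3 ▸ h2)

/-- a pencil of independent vectors: a vector in all spans is in the span of the constant ones -/
theorem pencil {E : Type} [AddCommGroup E] [Module ℂ E] {α : Type} [Fintype α] (S : Finset α)
    (a b : α → E) (u : α → ℂ × ℂ → E) (hS : ∀ i ∈ S, ∀ l, u i l = l.1 • a i + l.2 • b i)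
    (hS' : ∀ i ∉ S, ∀ l, u i l = a i)
    (hu : ∀ l, l ≠ 0 → LinearIndependent ℂ fun i => u i l) (ξ : E)
    (hξ : ∀ l, l ≠ 0 → ξ ∈ Submodule.span ℂ (Set.range fun i => u i l)) :
    ξ ∈ Submodule.span ℂ (a '' {i | i ∉ S}) := by
  classical
  set W : Submodule ℂ E := Submodule.span ℂ (a '' {i | i ∉ S}) with hW
  let A : (S → ℂ) →ₗ[ℂ] E ⧸ W := W.mkQ ∘ₗ Fintype.linearCombination ℂ fun i : S => a i
  let B : (S → ℂ) →ₗ[ℂ] E ⧸ W := W.mkQ ∘ₗ Fintype.linearCombination ℂ fun i : S => b i
  have hAB : ∀ (l : ℂ × ℂ) (v : S → ℂ),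
      l.1 • A v + l.2 • B v = W.mkQ (∑ i : S, v i • u i l) := by
    intro l v
    simp only [A, B, LinearMap.comp_apply, Fintype.linearCombination_apply]
    rw [← map_smul, ← map_smul, ← map_add, Finset.smul_sum, Finset.smul_sum,
      ← Finset.sum_add_distrib]
    refine congrArg _ (Finset.sum_congr rfl fun i _ => ?_)
    rw [hS i i.2, smul_add, smul_comm l.1, smul_comm l.2]
  have hinj : ∀ l : ℂ × ℂ, l ≠ 0 → ∀ v, l.1 • A v + l.2 • B v = 0 → v = 0 := by
    intro l hl v hv
    rw [hAB, Submodule.mkQ_apply, Submodule.Quotient.mk_eq_zero] at hv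
    have h1 : a '' {i | i ∉ S} = (fun i => u i l) '' {i | i ∉ S} :=
      Set.image_congr fun i hi => (hS' i hi l).symm
    have h2 : Disjoint (S : Set α) {i | i ∉ S} := Set.disjoint_left.2 fun i hi hi' => hi' hi
    have h3 := (hu l hl).disjoint_span_image h2
    have h4 : ∑ i : S, v i • u i l ∈ Submodule.span ℂ ((fun i => u i l) '' (S : Set α)) :=
      Submodule.sum_mem _ fun i _ => Submodule.smul_mem _ _
        (Submodule.subset_span ⟨i, i.2, rfl⟩)
    rw [hW, h1] at hv
    have h5 := Submodule.disjoint_def.1 h3 _ h4 hv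
    funext i
    exact Fintype.linearIndependent_iff.1
      ((hu l hl).comp (fun i : S => (i : α)) Subtype.val_injective) v h5 i
  have hsur : ∀ l : ℂ × ℂ, l ≠ 0 → ∃ v, l.1 • A v + l.2 • B v = W.mkQ ξ := by
    intro l hl
    obtain ⟨c, hc⟩ := (Submodule.mem_span_range_iff_exists_fun ℂ).1 (hξ l hl)
    refine ⟨fun i => c i, ?_⟩
    rw [hAB, Finset.sum_coe_sort S (fun i => c i • u i l), ← hc,
      ← Finset.sum_add_sum_compl S, map_add]
    have : W.mkQ (∑ i ∈ Sᶜ, c i • u i l) = 0 := by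
      rw [Submodule.mkQ_apply, Submodule.Quotient.mk_eq_zero]
      refine Submodule.sum_mem _ fun i hi => Submodule.smul_mem _ _ ?_
      have hi' : i ∉ S := Finset.mem_compl.1 hi
      rw [hS' i hi']
      exact Submodule.subset_span ⟨i, hi', rfl⟩
    rw [this, add_zero]
  have n1 : ∀ t : ℂ, ((1, t) : ℂ × ℂ) ≠ 0 := fun t h => one_ne_zero (congrArg Prod.fst h)
  have n2 : ((0, 1) : ℂ × ℂ) ≠ 0 := fun h => one_ne_zero (congrArg Prod.snd h)
  obtain ⟨c', hc'⟩ := hsur _ n2
  choose c hc using fun t => hsur _ (n1 t)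
  have := q0_pencil A B (fun v hv => hinj _ n2 v (by simpa using hv))
    (fun t v hv => hinj _ (n1 t) v (by simpa using hv)) (W.mkQ ξ) c' (by simpa using hc') c
    (fun t => by simpa using hc t)
  rwa [Submodule.mkQ_apply, Submodule.Quotient.mk_eq_zero] at this

/-- a binary form of degree less than `2 m` that is divisible by the power `2 m` of a variable -/
theorem binary_zero {m e : ℕ} (he : e < 2 * m) (P Q : ℂ × ℂ → ℂ) (hP : Continuous P)
    (hh : ∀ (τ : ℂ) l, P (τ • l) = τ ^ e * P l) (q : Polynomial ℂ) (hq : ∀ t, Q (t, 1) = q.eval t)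
    (h : ∀ l : ℂ × ℂ, l ≠ 0 → l.2 ^ (2 * m) * P l = l.1 ^ (2 * m) * Q l) : ∀ l, P l = 0 := by
  have n1 : ∀ t : ℂ, ((t, 1) : ℂ × ℂ) ≠ 0 := fun t h => one_ne_zero (congrArg Prod.snd h)
  have h1 : ∀ t : ℂ, P (t, 1) = t ^ (2 * m) * q.eval t := by
    intro t
    have := h _ (n1 t)
    simpa [hq] using this
  obtain ⟨k, hk⟩ : ∃ k, 2 * m = e + (k + 1) := ⟨2 * m - e - 1, by omega⟩
  have h2 : ∀ t : ℂ, t ≠ 0 → (Polynomial.X ^ (k + 1) * q).eval t = P (1, t⁻¹) := by
    intro t ht
    have h3 := hh t (1, t⁻¹)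
    have h4 : t • ((1, t⁻¹) : ℂ × ℂ) = (t, 1) := by simp [mul_inv_cancel₀ ht]
    rw [h4, h1, hk, pow_add, mul_assoc] at h3
    have h5 := mul_left_cancel₀ (pow_ne_zero e ht) h3
    simpa using h5
  have hq0 : q = 0 := by
    by_contra hq0
    have hdeg : 0 < (Polynomial.X ^ (k + 1) * q).degree := by
      rw [← Polynomial.natDegree_pos_iff_degree_pos, Polynomial.natDegree_X_pow_mul _ hq0]
      omega
    have hz : Filter.Tendsto (fun n : ℕ => ‖((n : ℂ) + 1)‖) Filter.atTop Filter.atTop := by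
      have : (fun n : ℕ => ‖((n : ℂ) + 1)‖) = fun n : ℕ => (n : ℝ) + 1 := by
        funext n
        have : ((n : ℂ) + 1) = ((n + 1 : ℕ) : ℂ) := by push_cast; rfl
        rw [this, Complex.norm_natCast]
        push_cast
        rfl
      rw [this]
      exact Filter.tendsto_atTop_add_const_right _ _ tendsto_natCast_atTop_atTop
    have h6 := Polynomial.tendsto_norm_atTop _ hdeg hz
    have h7 : Filter.Tendsto (fun n : ℕ => ((n : ℂ) + 1)⁻¹) Filter.atTop (nhds 0) :=
      Filter.tendsto_inv₀_cobounded.comp (tendsto_norm_atTop_iff_cobounded.1 hz)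
    have h8 : Filter.Tendsto (fun n : ℕ => ‖P (1, ((n : ℂ) + 1)⁻¹)‖) Filter.atTop
        (nhds ‖P (1, 0)‖) :=
      ((hP.tendsto _).comp (tendsto_const_nhds.prodMk_nhds h7)).norm
    have h9 : (fun n : ℕ => ‖(Polynomial.X ^ (k + 1) * q).eval ((n : ℂ) + 1)‖)
        = fun n : ℕ => ‖P (1, ((n : ℂ) + 1)⁻¹)‖ := by
      funext n
      rw [h2 _ (Nat.cast_add_one_ne_zero n)]
    rw [h9] at h6
    exact not_tendsto_atTop_of_tendsto_nhds h8 h6
  have h10 : ∀ x t : ℂ, t ≠ 0 → P (x, t) = 0 := by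
    intro x t ht
    have h3 := hh t (x / t, 1)
    have h4 : t • ((x / t, 1) : ℂ × ℂ) = (x, t) := by simp [mul_div_cancel₀ _ ht]
    rw [h4, h1, hq0] at h3
    simpa using h3
  rintro ⟨x, t⟩
  have h11 : (fun t : ℂ => P (x, t)) = fun _ => 0 :=
    Continuous.ext_on (dense_compl_singleton (0 : ℂ)) (by fun_prop) continuous_const
      fun t ht => h10 x t ht
  exact congrFun h11 t

end Pool.Agent.NEF
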