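import Pool.Agent.P.MP_66e591_ag.W3
import Pool.Agent.P.MP_66e591_ag.Q0

/-! A special line on an intersection of at least two quadrics. -/

noncomputable section
namespace Pool.Agent.NEF
open MvPolynomial Module Finset Pool.Agent.HCF

variable {M : ℕ} {I : Ideal (SS M)} {c : ℕ}

theorem q1_euler {f : SS M} {d : ℕ} (hf : f.IsHomogeneous d) (x : VV M) :
    dif f x ⬝ᵥ x = d * eval x f := by
  have h := congrArg (eval x) hf.sum_X_mul_pderiv
  rw [map_nsmul, map_sum, nsmul_eq_mul] at h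
  rw [← h, dotProduct]
  exact Finset.sum_congr rfl fun j _ => by rw [map_mul, eval_X, mul_comm]; rfl

theorem q1_comm (j l : Fin M) (f : SS M) : pderiv j (pderiv l f) = pderiv l (pderiv j f) := by
  classical
  induction f using MvPolynomial.induction_on with
  | C a => simp
  | add p q hp hq => simp only [map_add, hp, hq]
  | mul_X p k hp =>
    have h0 : ∀ a b : Fin M, pderiv a (pderiv b (X k : SS M)) = 0 := fun a b => by
      rw [pderiv_X, Pi.single_apply]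
      split_ifs <;> simp
    simp only [Derivation.leibniz, map_add, smul_eq_mul, hp, h0]
    ring

theorem dif_one {f : SS M} (hf : f.IsHomogeneous 1) :
    ∃ a : VV M, (∀ x, dif f x = a) ∧ ∀ x, a ⬝ᵥ x = eval x f := by
  have h : ∀ x, dif f x = dif f 0 := fun x => funext fun j => by
    have h1 := eval_smul_hom (hf.pderiv (i := j)) 0 x
    rw [zero_smul] at h1
    simpa [dif] using h1.symm
  refine ⟨dif f 0, h, fun x => ?_⟩
  rw [← h x, q1_euler hf, Nat.cast_one, one_mul]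

theorem dif_two {f : SS M} (hf : f.IsHomogeneous 2) :
    ∃ A : VV M →ₗ[ℂ] VV M, (∀ x, dif f x = A x) ∧ (∀ x y, A x ⬝ᵥ y = A y ⬝ᵥ x) ∧
      ∀ x, A x ⬝ᵥ x = 2 * eval x f := by
  choose a ha ha' using fun j : Fin M => dif_one (f := pderiv j f) (hf.pderiv (i := j))
  have hs : ∀ j l, a j l = a l j := fun j l => by
    rw [← ha j 0, ← ha l 0]
    exact congrArg (eval 0) (q1_comm l j f)
  have h : ∀ x, dif f x = (Matrix.of a).mulVecLin x := fun x => funext fun j => by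
    rw [Matrix.mulVecLin_apply, dif, ← ha' j x]
    rfl
  refine ⟨(Matrix.of a).mulVecLin, h, fun x y => ?_, fun x => ?_⟩
  · simp only [Matrix.mulVecLin_apply, dotProduct, Matrix.mulVec, Matrix.of_apply, Finset.sum_mul]
    rw [Finset.sum_comm]
    exact Finset.sum_congr rfl fun j _ => Finset.sum_congr rfl fun l _ => by rw [hs j l]; ring
  · rw [← h x, q1_euler hf, Nat.cast_ofNat]

/-- three bilinear forms on pairs that force a form of degree one or two to vanish on a plane -/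
theorem q1_forms {f : SS M} {d : ℕ} (hf : f.IsHomogeneous d) (h12 : d = 1 ∨ d = 2) :
    ∃ B : Fin 3 → (VV M × VV M) →ₗ[ℂ] (VV M × VV M) →ₗ[ℂ] ℂ, ∀ w : VV M × VV M,
      (∀ k, B k w w = 0) → ∀ s t : ℂ, eval (s • w.1 + t • w.2) f = 0 := by
  let D : VV M →ₗ[ℂ] VV M →ₗ[ℂ] ℂ := dotProductBilin ℂ ℂ
  let p := LinearMap.fst ℂ (VV M) (VV M)
  let q := LinearMap.snd ℂ (VV M) (VV M)
  rcases h12 with rfl | rfl
  · obtain ⟨a, -, ha⟩ := dif_one hf
    refine ⟨![(LinearMap.mul ℂ ℂ).compl₁₂ (D a ∘ₗ p) (D a ∘ₗ p),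
      (LinearMap.mul ℂ ℂ).compl₁₂ (D a ∘ₗ q) (D a ∘ₗ q), 0], fun w hw s t => ?_⟩
    have h1 : a ⬝ᵥ w.1 * a ⬝ᵥ w.1 = 0 := hw 0
    have h2 : a ⬝ᵥ w.2 * a ⬝ᵥ w.2 = 0 := hw 1
    rw [← ha, dotProduct_add, dotProduct_smul, dotProduct_smul, mul_self_eq_zero.1 h1,
      mul_self_eq_zero.1 h2, smul_zero, smul_zero, add_zero]
  · obtain ⟨A, -, hs, hA⟩ := dif_two hf
    refine ⟨![D.compl₁₂ (A ∘ₗ p) p, D.compl₁₂ (A ∘ₗ p) q, D.compl₁₂ (A ∘ₗ q) q],
      fun w hw s t => ?_⟩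
    have h1 : A w.1 ⬝ᵥ w.1 = 0 := hw 0
    have h2 : A w.1 ⬝ᵥ w.2 = 0 := hw 1
    have h3 : A w.2 ⬝ᵥ w.2 = 0 := hw 2
    have h4 := hA (s • w.1 + t • w.2)
    simp only [map_add, map_smul, add_dotProduct, dotProduct_add, smul_dotProduct,
      dotProduct_smul, hs w.2 w.1, h1, h2, h3, smul_zero, add_zero] at h4
    exact (mul_eq_zero.1 h4.symm).resolve_left two_ne_zero

theorem exists_line (hX : IsManifold I c) {f : Fin c → SS M} (hI : I = Ideal.span (Set.range f))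
    {d : Fin c → ℕ} (hd : ∀ i, (f i).IsHomogeneous (d i)) (h12 : ∀ i, d i = 1 ∨ d i = 2)
    (hM : 3 * c < M) {i₁ i₂ : Fin c} (hi : i₁ ≠ i₂) (h1 : d i₁ = 2) (h2 : d i₂ = 2) :
    ∃ v₁ v₂ : VV M, (∀ l : ℂ × ℂ, l ≠ 0 → l.1 • v₁ + l.2 • v₂ ∈ cone I) ∧
      dif (f i₁) v₁ + dif (f i₂) v₂ = 0 := by
  obtain ⟨A₁, hA₁, -, -⟩ := dif_two (h1 ▸ hd i₁)
  obtain ⟨A₂, hA₂, -, -⟩ := dif_two (h2 ▸ hd i₂)
  choose B hB using fun i => q1_forms (hd i) (h12 i)
  let E := LinearMap.ker (A₁.coprod A₂)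
  have hE : Fintype.card (Fin c × Fin 3) < finrank ℂ E := by
    have e1 := (A₁.coprod A₂).finrank_range_add_finrank_ker
    have e2 := (LinearMap.range (A₁.coprod A₂)).finrank_le
    simp only [finrank_prod, finrank_fintype_fun_eq_card, Fintype.card_fin] at e1 e2
    simp only [Fintype.card_prod, Fintype.card_fin, E]
    omega
  obtain ⟨⟨⟨v₁, v₂⟩, hw⟩, hw0, hwB⟩ :=
    common_zero' hE fun p => (B p.1 p.2).compl₁₂ E.subtype E.subtype
  have hw' : A₁ v₁ + A₂ v₂ = 0 := hw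
  have hne : ¬(v₁ = 0 ∧ v₂ = 0) := fun h => hw0 (Subtype.ext (Prod.ext h.1 h.2))
  have hz : ∀ s t : ℂ, s • v₁ + t • v₂ ≠ 0 → s • v₁ + t • v₂ ∈ cone I := fun s t h =>
    ⟨h, fun g hg => by
      rw [hI] at hg
      obtain ⟨a, rfl⟩ := Ideal.mem_span_range_iff_exists_fun.1 hg
      have h3 : ∀ i, eval (s • v₁ + t • v₂) (f i) = 0 := fun i =>
        hB i (v₁, v₂) (fun k => hwB (i, k)) s t
      simp only [map_sum, map_mul, h3, mul_zero, Finset.sum_const_zero]⟩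
  have hp : ∀ v ∈ cone I, ∀ s t : ℂ, s • A₁ v + t • A₂ v = 0 → s = 0 ∧ t = 0 := fun v hv => by
    have h3 := (ci_indep hX hI hv).comp ![i₁, i₂] (by
      intro a b
      fin_cases a <;> fin_cases b <;> simp [hi, hi.symm])
    have h4 : ((fun i => dif (f i) v) ∘ ![i₁, i₂]) = ![A₁ v, A₂ v] := by
      funext a
      fin_cases a
      · exact hA₁ v
      · exact hA₂ v
    rw [h4] at h3
    exact LinearIndependent.pair_iff.1 h3
  refine ⟨v₁, v₂, fun l hl => hz _ _ fun h0 => ?_, by rw [hA₁, hA₂, hw']⟩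
  by_cases ha : l.1 = 0
  · have hb : l.2 ≠ 0 := fun hb => hl (Prod.ext ha hb)
    rw [ha, zero_smul, zero_add] at h0
    have h3 : v₂ = 0 := (smul_eq_zero.1 h0).resolve_left hb
    have h4 := hz 1 0
    rw [one_smul, zero_smul, add_zero] at h4
    rw [h3, map_zero, add_zero] at hw'
    exact one_ne_zero (hp v₁ (h4 fun h => hne ⟨h, h3⟩) 1 0 (by rw [hw']; simp)).1
  · have h3 : v₁ = (-(l.2 / l.1)) • v₂ := by
      have h5 : l.1 • v₁ = -(l.2 • v₂) := eq_neg_of_add_eq_zero_left h0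
      rw [← inv_smul_smul₀ ha v₁, h5, smul_neg, smul_smul, neg_smul, div_eq_inv_mul]
    have h4 := hz 0 1
    rw [one_smul, zero_smul, zero_add] at h4
    refine one_ne_zero (hp v₂ (h4 fun h => hne ⟨by rw [h3, h, smul_zero], h⟩) (-(l.2 / l.1)) 1 ?_).2
    rw [one_smul, ← map_smul, ← h3, hw']

end Pool.Agent.NEF
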