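import Pool.Agent.P.MP_66e591_ag.C1
import Pool.Agent.P.MP_66e591_ag.Q1

/-! Every quadric in a linear space has a cell decomposition. -/

noncomputable section
namespace Pool.Agent.NEF
open MvPolynomial Module Pool.Agent.HCF

variable {M : ℕ}

theorem HasCells.cons {X Y : Set (VV M)} (hY : HasCells Y) (hX : IsClosedCone X) (h : Y ⊆ X)
    (hc : ∃ k, IsCell (X \ Y) k) : HasCells X := by
  obtain ⟨m, Z, h0, hm, hcl, hst⟩ := hY
  refine ⟨m + 1, fun i => Nat.casesOn i X Z, rfl, hm, fun i hi => ?_, fun i hi => ?_⟩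
  · cases i with
    | zero => exact hX
    | succ i => exact hcl i (by omega)
  · cases i with
    | zero =>
      subst h0
      exact ⟨h, hc⟩
    | succ i => exact hst i (by omega)

theorem c2_lt {U : Submodule ℂ (VV M)} (φ : VV M →ₗ[ℂ] ℂ) {f : VV M} (hf : f ∈ U)
    (h : φ f ≠ 0) : finrank ℂ ↥(U ⊓ LinearMap.ker φ) < finrank ℂ U :=
  Submodule.finrank_lt_finrank_of_lt
    (lt_of_le_of_ne inf_le_left fun e => h (LinearMap.mem_ker.1 (e.ge hf).2))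

theorem c2_sub (A : VV M →ₗ[ℂ] VV M) {U U' : Submodule ℂ (VV M)} (h : U' ≤ U) :
    Iso A U' ⊆ Iso A U := fun _ hx => ⟨hx.1, h hx.2.1, hx.2.2⟩

theorem c2_form (a : VV M) : ∃ φ : VV M →ₗ[ℂ] ℂ, ∀ x, φ x = a ⬝ᵥ x :=
  ⟨{ toFun := fun x => a ⬝ᵥ x
     map_add' := fun x y => dotProduct_add a x y
     map_smul' := fun t x => dotProduct_smul t a x }, fun _ => rfl⟩

theorem iso_cells (A : VV M →ₗ[ℂ] VV M) (hA : ∀ x y, A x ⬝ᵥ y = A y ⬝ᵥ x)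
    (U : Submodule ℂ (VV M)) : HasCells (Iso A U) := by
  induction hn : finrank ℂ U using Nat.strong_induction_on generalizing U with
  | _ n ih =>
  subst hn
  by_cases ha : ∃ e ∈ U, A e ⬝ᵥ e = 0 ∧ ∃ f ∈ U, A e ⬝ᵥ f ≠ 0
  · obtain ⟨e, he, h0, f, hf, h1⟩ := ha
    obtain ⟨φ, hφ⟩ := c2_form (A e)
    have h2 : φ f ≠ 0 := by rwa [hφ]
    refine (ih _ (c2_lt φ hf h2) _ rfl).cons (iso_closed A U) (c2_sub A inf_le_left) ?_
    exact cell_quad A hA U he (U.smul_mem (φ f)⁻¹ hf) h0 φ hφ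
      (by rw [map_smul, smul_eq_mul, inv_mul_cancel₀ h2])
  by_cases hb : ∃ g ∈ U, A g ⬝ᵥ g ≠ 0
  · obtain ⟨g, hg, h1⟩ := hb
    obtain ⟨φ, hφ⟩ := c2_form (A g)
    have h2 : φ g ≠ 0 := by rwa [hφ]
    have h3 : Iso A U = Iso A (U ⊓ LinearMap.ker φ) := by
      refine Set.Subset.antisymm (fun x hx => ⟨hx.1, ⟨hx.2.1, ?_⟩, hx.2.2⟩) (c2_sub A inf_le_left)
      rw [SetLike.mem_coe, LinearMap.mem_ker, hφ, hA]
      by_contra h4
      exact ha ⟨x, hx.2.1, hx.2.2, g, hg, h4⟩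
    rw [h3]
    exact ih _ (c2_lt φ hg h2) _ rfl
  have hU : ∀ x ∈ U, A x ⬝ᵥ x = 0 := fun x hx => by
    by_contra h
    exact hb ⟨x, hx, h⟩
  by_cases hc : ∃ f ∈ U, f ≠ 0
  · obtain ⟨f, hf, h1⟩ := hc
    obtain ⟨j, hj⟩ := Function.ne_iff.1 h1
    have h2 : (LinearMap.proj j : VV M →ₗ[ℂ] ℂ) f ≠ 0 := hj
    refine (ih _ (c2_lt _ hf h2) _ rfl).cons (iso_closed A U) (c2_sub A inf_le_left) ?_
    exact cell_lin A U hU _ (U.smul_mem (f j)⁻¹ hf)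
      (by rw [map_smul, smul_eq_mul]; exact inv_mul_cancel₀ hj)
  · refine ⟨0, fun _ => Iso A U, rfl, ?_, fun _ _ => iso_closed A U, fun i hi => absurd hi (by omega)⟩
    exact Set.eq_empty_of_forall_notMem fun x hx => hc ⟨x, hx.2.1, hx.1⟩

theorem c2_cone {c : ℕ} (f : Fin c → SS M) (x : VV M) :
    x ∈ cone (Ideal.span (Set.range f)) ↔ x ≠ 0 ∧ ∀ i, eval x (f i) = 0 := by
  refine and_congr_right fun _ => ⟨fun h i => h _ (Ideal.subset_span ⟨i, rfl⟩), fun h g hg => ?_⟩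
  obtain ⟨a, rfl⟩ := Ideal.mem_span_range_iff_exists_fun.1 hg
  simp [h]

theorem cells_of_ci {c : ℕ} {f : Fin c → SS M} {d : Fin c → ℕ}
    (hd : ∀ i, (f i).IsHomogeneous (d i)) (h12 : ∀ i, d i = 1 ∨ d i = 2)
    (h : ∀ i j, d i = 2 → d j = 2 → i = j) : HasCells (cone (Ideal.span (Set.range f))) := by
  have h1 : ∀ i, ∃ φ : VV M →ₗ[ℂ] ℂ, ∀ x, φ x = 0 ↔ (d i = 1 → eval x (f i) = 0) := fun i => by
    by_cases hi : d i = 1
    · obtain ⟨a, -, ha⟩ := dif_one (hi ▸ hd i)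
      obtain ⟨φ, hφ⟩ := c2_form a
      exact ⟨φ, fun x => by simp [hφ, ha, hi]⟩
    · exact ⟨0, fun x => by simp [hi]⟩
  choose φ hφ using h1
  have h2 : ∃ A : VV M →ₗ[ℂ] VV M, (∀ x y, A x ⬝ᵥ y = A y ⬝ᵥ x) ∧
      ∀ x, A x ⬝ᵥ x = 0 ↔ ∀ i, d i = 2 → eval x (f i) = 0 := by
    by_cases hi : ∃ i, d i = 2
    · obtain ⟨i, hi⟩ := hi
      obtain ⟨A, -, hA, hq⟩ := dif_two (hi ▸ hd i)
      refine ⟨A, hA, fun x => ?_⟩
      rw [hq, mul_eq_zero, or_iff_right two_ne_zero]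
      exact ⟨fun h0 j hj => h i j hi hj ▸ h0, fun h0 => h0 i hi⟩
    · exact ⟨0, by simp, fun x => by simpa using fun i h2 => absurd ⟨i, h2⟩ hi⟩
  obtain ⟨A, hA, hq⟩ := h2
  have h3 : cone (Ideal.span (Set.range f)) = Iso A (⨅ i, LinearMap.ker (φ i)) := by
    ext x
    rw [c2_cone]
    refine and_congr_right fun _ => ?_
    simp only [Submodule.mem_iInf, LinearMap.mem_ker, hφ, hq]
    exact ⟨fun h0 => ⟨fun i _ => h0 i, fun i _ => h0 i⟩,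
      fun h0 i => (h12 i).elim (h0.1 i) (h0.2 i)⟩
  rw [h3]
  exact iso_cells A hA _

end Pool.Agent.NEF
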