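import Pool.Agent.P.MP_f644fa_ag.Defs

/-! Nef tangent bundle, cell decompositions. -/

noncomputable section
namespace Pool.Agent.NEF
open MvPolynomial Pool.Agent.HCF

variable {M : ℕ}

/-- The conormal space at `x`: the covectors that kill the tangent space of the cone.  The
cotangent space of `X` at `[x]` is `{ξ | ξ ⬝ᵥ x = 0}` modulo this space. -/
def conormal (I : Ideal (MvPolynomial (Fin M) ℂ)) (x : Fin M → ℂ) : Set (Fin M → ℂ) :=
  {η | ∀ v ∈ tang I x, η ⬝ᵥ v = 0}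

/-- `F (x, ξ)` has bidegree `(m + t, m)` and is a function on the cotangent spaces of `X`: it is a
section of `S^m T_X ⊗ O(t)`, that is of `O(m) ⊗ π^* O(t)` on `ℙ(T_X)`. -/
structure IsSection (I : Ideal (MvPolynomial (Fin M) ℂ)) (m t : ℕ)
    (F : MvPolynomial (Fin M ⊕ Fin M) ℂ) : Prop where
  homog : F.IsWeightedHomogeneous
    (Sum.elim (fun _ => ((1, 0) : ℕ × ℕ)) fun _ => ((0, 1) : ℕ × ℕ)) (m + t, m)
  inv : ∀ x ∈ cone I, ∀ ξ η, ξ ⬝ᵥ x = 0 → η ∈ conormal I x →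
    eval (Sum.elim x (ξ + η)) F = eval (Sum.elim x ξ) F

/-- `T_X` is nef, in the form of Kleiman: for every `k ≥ 1` some positive power of
`O(k) ⊗ π^* O(1)` on `ℙ(T_X)` is generated by its sections. -/
def TangentNef (I : Ideal (MvPolynomial (Fin M) ℂ)) : Prop :=
  ∀ k, 1 ≤ k → ∃ r, 1 ≤ r ∧ ∀ x ∈ cone I, ∀ ξ, ξ ⬝ᵥ x = 0 → ξ ∉ conormal I x →
    ∃ F, IsSection I (r * k) r F ∧ eval (Sum.elim x ξ) F ≠ 0

/-- The punctured cone over a Zariski closed subset of projective space. -/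
def IsClosedCone (A : Set (Fin M → ℂ)) : Prop :=
  ∃ S : Set (MvPolynomial (Fin M) ℂ), (∀ f ∈ S, ∃ d, f.IsHomogeneous d) ∧
    A = {x | x ≠ 0 ∧ ∀ f ∈ S, eval x f = 0}

/-- The subvariety with punctured cone `C` is isomorphic to `𝔸^k`: a morphism `w ↦ [p w]` from
`𝔸^k` and a regular map `ψ` to `𝔸^k` are inverse to each other. -/
def IsCell (C : Set (Fin M → ℂ)) (k : ℕ) : Prop :=
  ∃ (p : Fin M → MvPolynomial (Fin k) ℂ) (ψ : (Fin M → ℂ) → Fin k → ℂ),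
    (∀ w, (fun j => eval w (p j)) ∈ C ∧ ψ (fun j => eval w (p j)) = w) ∧
    (∀ x ∈ C, ∃ t : ℂ, (fun j => eval (ψ x) (p j)) = t • x) ∧
    ∀ x ∈ C, ∃ (d : ℕ) (g : Fin k → MvPolynomial (Fin M) ℂ) (h : MvPolynomial (Fin M) ℂ),
      (∀ i, (g i).IsHomogeneous d) ∧ h.IsHomogeneous d ∧ eval x h ≠ 0 ∧
        ∀ y ∈ C, eval y h ≠ 0 → ∀ i, ψ y i = eval y (g i) / eval y h

/-- An algebraic cellular decomposition with one cell in each step. -/
def HasCells (X : Set (Fin M → ℂ)) : Prop :=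
  ∃ (m : ℕ) (Y : ℕ → Set (Fin M → ℂ)), Y 0 = X ∧ Y m = ∅ ∧ (∀ i ≤ m, IsClosedCone (Y i)) ∧
    ∀ i < m, Y (i + 1) ⊆ Y i ∧ ∃ k, IsCell (Y i \ Y (i + 1)) k

end Pool.Agent.NEF
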