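import Pool.Agent.P.MP_66e591_ag.T1

/-! The lower bound on the conormal variety. -/

noncomputable section
namespace Pool.Agent.NEF
open MvPolynomial Module Finset Pool.Agent.HCF

variable {M : ℕ} {I : Ideal (SS M)} {c : ℕ} {κ : Type} [Fintype κ] [DecidableEq κ]

theorem t2_mon (B : Fin c → VV M) (m : κ → ℕ) (μ : κ → Fin c → ℕ) (hμ : ∀ i, ∑ r, μ i r = m i) :
    (fun z : Option κ → VV M => ∏ i, ∏ r, (z (some i) ⬝ᵥ B r) ^ μ i r) ∈ Pd M (dg 0 m) := by
  have h1 := Pd_prod (M := M) (univ : Finset κ)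
    (a := fun i => ∑ r, μ i r • (Pi.single (some i) 1 : Option κ → ℕ))
    (f := fun i => ∏ r, (fun z : Option κ → VV M => z (some i) ⬝ᵥ B r) ^ μ i r)
    fun i _ => Pd_prod univ fun r _ => Pd_pow (dot_mem (some i) (B r)) (μ i r)
  have h2 : (∑ i, ∑ r, μ i r • (Pi.single (some i) 1 : Option κ → ℕ)) = dg 0 m := by
    rw [dg_eq, Pi.single_zero, zero_add]
    refine sum_congr rfl fun i _ => ?_
    rw [← sum_smul, hμ, ← Pi.single_smul, smul_eq_mul, mul_one]
  rw [h2] at h1
  have h3 : (fun z : Option κ → VV M => ∏ i, ∏ r, (z (some i) ⬝ᵥ B r) ^ μ i r) =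
      ∏ i, ∏ r, (fun z : Option κ → VV M => z (some i) ⬝ᵥ B r) ^ μ i r := by
    funext z
    simp only [Finset.prod_apply, Pi.pow_apply]
  rw [h3]
  exact h1

omit [DecidableEq κ] in
theorem t2_coeff {β : Type} [Fintype β] (μ : β → κ → Fin c → ℕ) (hμ : Function.Injective μ)
    (G : β → ℂ) (P : MvPolynomial (κ × Fin c) ℂ) (hP : P ≠ 0)
    (h : ∀ w : κ × Fin c → ℂ, eval w P * ∑ b, G b * ∏ i, ∏ r, w (i, r) ^ μ b i r = 0) (b : β) :
    G b = 0 := by
  classical
  let ex : β → (κ × Fin c →₀ ℕ) := fun b => Finsupp.equivFunOnFinite.symm fun p => μ b p.1 p.2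
  have hex : Function.Injective ex := by
    intro b b' e
    refine hμ (funext fun i => funext fun r => ?_)
    exact congrFun (Finsupp.equivFunOnFinite.symm.injective e) (i, r)
  have h1 : P * ∑ b, monomial (ex b) (G b) = 0 := by
    refine MvPolynomial.funext fun w => ?_
    rw [map_mul, map_sum, map_zero, ← h w]
    refine congrArg _ (sum_congr rfl fun b _ => ?_)
    rw [eval_monomial, Finsupp.prod_fintype _ _ fun _ => pow_zero _, Fintype.prod_prod_type]
    rfl
  have h2 := congrArg (coeff (ex b)) ((mul_eq_zero.1 h1).resolve_left hP)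
  rw [coeff_sum, coeff_zero, sum_eq_single b] at h2
  · rwa [coeff_monomial, if_pos rfl] at h2
  · intro b' _ hb
    rw [coeff_monomial, if_neg fun e => hb (hex e)]
  · intro hb
    exact absurd (mem_univ b) hb

omit [DecidableEq κ] in
theorem t2_fibre {s : ℕ} {D : (Option κ → VV M) → ℂ} (h : Twist κ I s D) {x : VV M}
    (hx : x ∈ cone I) (A : (Fin c → ℂ) →ₗ[ℂ] VV M) (hA : ∀ w, A w ∈ conormal I x)
    (hs : ∀ η ∈ conormal I x, ∃ w, A w = η) :
    ∃ (P : MvPolynomial (κ × Fin c) ℂ) (t : ℂ), P ≠ 0 ∧ ∀ w : κ × Fin c → ℂ,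
      eval w P = t * D fun o => o.elim x fun i => A fun r => w (i, r) := by
  classical
  obtain ⟨e, he⟩ := h.reg
  obtain ⟨j, hj⟩ := Function.ne_iff.1 hx.1
  obtain ⟨f, hf, hfe⟩ := he j
  obtain ⟨P, hP⟩ := Pd_poly (σ := κ × Fin c)
    (fun w o => o.elim x fun i => A fun r => w (i, r)) (by
      intro o k
      cases o with
      | none => exact ⟨C (x k), fun w => by simp⟩
      | some i =>
        refine ⟨∑ r, X (i, r) * C (A (fun r' => if r = r' then 1 else 0) k), fun w => ?_⟩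
        show A (fun r => w (i, r)) k = _
        rw [LinearMap.pi_apply_eq_sum_univ]
        simp) hf
  have key : ∀ w : κ × Fin c → ℂ,
      eval w P = x j ^ (e + s) * D fun o => o.elim x fun i => A fun r => w (i, r) := by
    intro w
    have hW : (fun o : Option κ => o.elim x fun i => A fun r => w (i, r)) ∈ WW κ I :=
      ⟨hx, fun i => hA fun r => w (i, r)⟩
    rw [← hP w]
    exact (hfe _ hW).symm
  refine ⟨P, x j ^ (e + s), fun h0 => ?_, key⟩
  obtain ⟨z, hz, hzx, hD⟩ := h.ne x hx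
  choose w hw using fun i => hs (z (some i)) (hzx ▸ hz.2 i)
  have h1 := key fun p => w p.1 p.2
  have h2 : (fun o : Option κ => o.elim x fun i => A fun r => w i r) = z := by
    funext o
    cases o with
    | none => exact hzx.symm
    | some i => exact hw i
  rw [h0, map_zero, h2] at h1
  exact mul_ne_zero (pow_ne_zero _ hj) hD h1.symm

theorem top (hX : IsManifold I c) {x₀ : VV M} (hx : x₀ ∈ cone I) {s : ℕ}
    {D : (Option κ → VV M) → ℂ} (h : Twist κ I s D) :
    ∃ (a₀ : ℕ) (Δ : SS M), eval x₀ Δ ≠ 0 ∧ ∀ δ : SS M, δ ∉ I →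
      (∀ x, eval x δ ≠ 0 → eval x Δ ≠ 0) → ∀ l, ∀ a ≥ a₀, ∀ m : κ → ℕ,
        HR I (a + l * s) * ∏ i, Nat.multichoose c (m i) ≤
          rk (Zs I δ (univ : Finset κ)) (Pd M (dg a fun i => l + m i)) := by
  classical
  obtain ⟨a₀, ha₀⟩ := h.pow
  obtain ⟨Δ, B, hΔ, hB⟩ := exists_cochart hX hx
  refine ⟨a₀, Δ, hΔ, fun δ hδ hδΔ l a ha m => ?_⟩
  let R := (homogeneousSubmodule (Fin M) ℂ (a + l * s)).map (pf I).toLinearMap
  let β := (i : κ) → ↥(finsuppAntidiag (univ : Finset (Fin c)) (m i))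
  let μ : β → κ → Fin c → ℕ := fun b i r => (b i).1 r
  let Z := Zs I δ (univ : Finset κ)
  have hμ : Function.Injective μ := fun b b' e =>
    funext fun i => Subtype.ext (Finsupp.ext fun r => congrFun (congrFun e i) r)
  let Φ : (β → R) →ₗ[ℂ] (Z → ℂ) :=
    { toFun := fun g z => D z.1 ^ l *
        ∑ b, (g b).1 ⟨z.1 none, z.2.1⟩ * ∏ i, ∏ r, (z.1 (some i) ⬝ᵥ B r) ^ μ b i r
      map_add' := fun g g' => by
        funext z
        simp only [Pi.add_apply, Submodule.coe_add, add_mul, sum_add_distrib, mul_add]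
      map_smul' := fun t g => by
        funext z
        simp only [Pi.smul_apply, Submodule.coe_smul, smul_eq_mul, RingHom.id_apply, mul_assoc,
          ← mul_sum]
        ring }
  have hdg : (dg a fun _ : κ => l) + dg 0 m = dg a fun i => l + m i := by
    funext o
    cases o <;> simp
  have hmem : ∀ g, Φ g ∈ (Pd M (dg a fun i => l + m i)).map (res Z) := by
    intro g
    choose p hp hpe using fun b => Submodule.mem_map.1 (g b).2
    choose f hf hfe using fun b => ha₀ l a ha (p b) (hp b)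
    refine ⟨∑ b, f b * fun y : Option κ → VV M => ∏ i, ∏ r, (y (some i) ⬝ᵥ B r) ^ μ b i r,
      Submodule.sum_mem _ fun b _ => ?_, ?_⟩
    · rw [← hdg]
      exact Pd_mul (hf b) (t2_mon B m (μ b) fun i => (mem_finsuppAntidiag.1 (b i).2).1)
    · funext z
      show (∑ b, f b * fun y : Option κ → VV M => ∏ i, ∏ r, (y (some i) ⬝ᵥ B r) ^ μ b i r) z.1 =
        D z.1 ^ l * ∑ b, (g b).1 ⟨z.1 none, z.2.1⟩ * ∏ i, ∏ r, (z.1 (some i) ⬝ᵥ B r) ^ μ b i r
      rw [Finset.sum_apply, mul_sum]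
      refine sum_congr rfl fun b _ => ?_
      rw [Pi.mul_apply, ← hfe b z.1 ⟨z.2.1, fun i => z.2.2.2 i (mem_univ i)⟩, ← hpe b, mul_assoc]
      exact congrArg (fun t => D z.1 ^ l * (t * _)) (pf_apply (p b) ⟨z.1 none, z.2.1⟩).symm
  have hinj : Function.Injective Φ := by
    refine (injective_iff_map_eq_zero Φ).2 fun g hg => funext fun b => Subtype.ext ?_
    obtain ⟨p, -, hpe⟩ := Submodule.mem_map.1 (g b).2
    rw [← hpe]
    refine hX.pf_eq_zero.2 (mem_of_vanish hX hδ fun x hxc hxδ => ?_)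
    obtain ⟨A, hA1, hA2, hA3⟩ := hB x hxc (hδΔ x hxδ)
    obtain ⟨P, t, hP, hPe⟩ := t2_fibre h hxc A hA1 hA3
    have h1 := t2_coeff μ hμ (fun b => (g b).1 ⟨x, hxc⟩) (P ^ l) (pow_ne_zero _ hP) (fun w => by
      have h2 : D (fun o => o.elim x fun i => A fun r => w (i, r)) ^ l *
          ∑ b, (g b).1 ⟨x, hxc⟩ * ∏ i, ∏ r, ((A fun r => w (i, r)) ⬝ᵥ B r) ^ μ b i r = 0 :=
        congrFun hg ⟨fun o => o.elim x fun i => A fun r => w (i, r), hxc, hxδ, fun i _ => hA1 _⟩
      simp only [hA2] at h2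
      rw [map_pow, hPe, mul_pow, mul_assoc, h2, mul_zero]) b
    rw [← hpe] at h1
    exact (pf_apply p ⟨x, hxc⟩).symm.trans h1
  have := Pd_finite (M := M) (dg a fun i => l + m i)
  have := hom_finite M (a + l * s)
  have h3 := LinearMap.finrank_le_finrank_of_injective
    (f := Φ.codRestrict _ hmem) fun g g' e => hinj (congrArg Subtype.val e)
  rw [Module.finrank_pi_fintype, sum_const, card_univ, smul_eq_mul, Fintype.card_pi] at h3
  have h4 : ∀ i, Fintype.card ↥(finsuppAntidiag (univ : Finset (Fin c)) (m i)) =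
      Nat.multichoose c (m i) := fun i => by
    rw [Fintype.card_coe, card_finsuppAntidiag_nat_eq_multichoose, card_univ, Fintype.card_fin]
  simp only [h4] at h3
  rw [mul_comm]
  exact h3

end Pool.Agent.NEF
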