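import Pool.Agent.P.MP_66e591_ag.St
import Pool.Agent.P.MP_66e591_ag.T2

/-! The induction over the covectors. -/

noncomputable section
namespace Pool.Agent.NEF
open MvPolynomial Module Finset Pool.Agent.HCF

variable {M : ℕ} {I : Ideal (SS M)} {c n : ℕ} {κ : Type} [Fintype κ] [DecidableEq κ]

/-- one covector is freed -/
theorem ind_step (hX : IsManifold I c) (hM : M = n + 1 + c) {δ : SS M} {k C J : ℕ}
    (F : ∀ j, Fin (Nat.multichoose n j) → MvPolynomial (Fin M ⊕ Fin M) ℂ)
    (hF : ∀ j b, IsSection I j (j / k + C) (F j b))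
    (hI : ∀ j ≤ J, ∀ x, eval x δ ≠ 0 → Indep (F j) x) {S : Finset κ} {i : κ} (hi : i ∉ S)
    (l a₁ H : ℕ) (b : κ → ℕ)
    (h : ∀ m ≤ J, ∀ a ≥ a₁, H * Nat.multichoose c m ≤
      rk (Zs I δ (insert i S)) (Pd M (dg a (Function.update b i (l + m))))) :
    ∀ m ≤ J, ∀ a ≥ a₁ + (J + J / k + C), H * Nat.multichoose M m ≤
      rk (Zs I δ S) (Pd M (dg a (Function.update b i (l + m)))) := by
  intro m hm a ha
  obtain ⟨E, hE⟩ : ∃ E, E = J / k := ⟨_, rfl⟩
  rw [← hE] at ha
  have hc : ∀ z ∈ Zs I δ S, z none ∈ cone I := fun z hz => hz.1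
  have hZ : ∀ z ∈ Zs I δ S, ∀ θ, Function.update z (some i) θ ∈ Zs I δ S := by
    intro z hz θ
    have e : Function.update z (some i) θ none = z none := Function.update_of_ne (by simp) _ _
    refine ⟨e ▸ hz.1, e ▸ hz.2.1, fun i' hi' => ?_⟩
    have hne : some i' ≠ some i := fun hh => hi (Option.some.inj hh ▸ hi')
    rw [e, Function.update_of_ne hne]
    exact hz.2.2 i' hi'
  have hW : {z ∈ Zs I δ S | z (some i) ∈ conormal I (z none)} = Zs I δ (insert i S) := by
    ext z
    simp only [Zs, Set.mem_ofPred_eq, forall_mem_insert]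
    exact ⟨fun ⟨⟨h1, h2, h3⟩, h4⟩ => ⟨h1, h2, h4, h3⟩, fun ⟨h1, h2, h4, h3⟩ => ⟨⟨h1, h2, h3⟩, h4⟩⟩
  have hdeg : ∀ p q a' m' : ℕ, Pi.single none p + Pi.single (some i) q +
      dg a' (Function.update b i (l + m')) = dg (p + a') (Function.update b i (l + (q + m'))) := by
    intro p q a' m'
    funext o
    rcases o with _ | x
    · simp
    · by_cases hx : x = i
      · subst hx
        simp only [Pi.add_apply, dg_some, Function.update_self, Pi.single_eq_same,
          Pi.single_eq_of_ne (Option.some_ne_none x)]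
        omega
      · simp [hx]
  have hA := stepA (M := M) (o := none) (k := some i) (by simp) (Zs I δ S)
    (fun z hz => (hc z hz).1) hZ (m + 1) (dg a (Function.update b i (l + m)))
    (fun i' => dg (a - i') (Function.update b i (l + (m - i')))) (fun i' hi' => by
      rw [hdeg, Nat.add_sub_cancel' (by omega), Nat.add_sub_cancel' (by omega)])
  refine le_trans ?_ hA
  have e1 : Nat.multichoose M m = Nat.multichoose (1 + (n + c)) m :=
    congrArg (fun y => Nat.multichoose y m) (by omega)
  rw [e1, ← mc_conv, mul_sum]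
  refine sum_le_sum fun i' hi' => ?_
  have hi1 : i' ≤ m := Nat.lt_succ_iff.mp (mem_range.mp hi')
  have hdiv : ∀ j ≤ J, j / k ≤ E := fun j hj => hE ▸ Nat.div_le_div_right hj
  have hB := stepB hX (o := none) (k := some i) (by simp) (Zs I δ S) hc hZ (m - i' + 1)
    (fun j => Nat.multichoose n j) (fun j => j / k + C) F (fun j _ => hF j)
    (fun j hj z hz => hI j (by omega) _ hz.2.1)
    (dg (a - i') (Function.update b i (l + (m - i'))))
    (fun j => dg (a - i' - (j + (j / k + C))) (Function.update b i (l + (m - i' - j))))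
    (fun j hj => by
      have := hdiv j (by omega)
      rw [hdeg, Nat.add_sub_cancel' (by omega), Nat.add_sub_cancel' (by omega)])
  refine le_trans ?_ hB
  rw [Nat.multichoose_one, one_mul, ← mc_conv, mul_sum, hW]
  refine sum_le_sum fun j hj => ?_
  have hj1 : j ≤ m - i' := Nat.lt_succ_iff.mp (mem_range.mp hj)
  have := hdiv j (by omega)
  rw [mul_left_comm]
  exact Nat.mul_le_mul_left _ (h (m - i' - j) (by omega) _ (by omega))

theorem key (hX : IsManifold I c) (hM : M = n + 1 + c) {x₀ : VV M} (hx : x₀ ∈ cone I) {k C : ℕ}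
    (hE : Enough I n k C x₀) {s : ℕ} {D : (Option κ → VV M) → ℂ} (h : Twist κ I s D) :
    ∃ a₀, ∀ l m, HR I (l * s) * Nat.multichoose M m ^ Fintype.card κ ≤
      HR I (a₀ + Fintype.card κ * (m + m / k + C)) *
        Nat.multichoose M (l + m) ^ Fintype.card κ := by
  choose δ F hδ hF hI using hE
  obtain ⟨a₀, Δ, hΔ, htop⟩ := top hX hx h
  refine ⟨a₀, fun l m => ?_⟩
  set ε : SS M := Δ * ∏ j ∈ range (m + 1), δ j with hε
  have hev : ∀ x, eval x ε ≠ 0 ↔ eval x Δ ≠ 0 ∧ ∀ j ∈ range (m + 1), eval x (δ j) ≠ 0 := by
    intro x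
    rw [hε, map_mul, map_prod, mul_ne_zero_iff, prod_ne_zero_iff]
  have hεI : ε ∉ I := fun hh => (hev x₀).mpr ⟨hΔ, fun j _ => hδ j⟩ (hx.2 ε hh)
  have main : ∀ T : Finset κ, ∀ m' : κ → ℕ, (∀ i, m' i ≤ m) →
      ∀ a ≥ a₀ + T.card * (m + m / k + C),
        HR I (l * s) * ∏ i, Nat.multichoose (if i ∈ T then M else c) (m' i) ≤
          rk (Zs I ε (univ \ T)) (Pd M (dg a fun i => l + m' i)) := by
    intro T
    induction T using Finset.induction_on with
    | empty =>
      intro m' _ a ha
      simp only [notMem_empty, if_false, sdiff_empty]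
      refine le_trans (Nat.mul_le_mul_right _ (HR_mono hX (Nat.le_add_left _ a))) ?_
      exact htop ε hεI (fun x hx => ((hev x).mp hx).1) l a (by simpa using ha) m'
    | insert i T hiT ih =>
      intro m' hm' a ha
      have hS : insert i (univ \ insert i T) = univ \ T := by
        ext x
        by_cases hx : x = i <;> simp [hx, hiT]
      have hupd : ∀ q, Function.update (fun x => l + m' x) i (l + q) =
          fun x => l + Function.update m' i q x := by
        intro q
        funext x
        by_cases hx : x = i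
        · subst hx
          simp
        · simp [hx]
      have hst := ind_step hX hM (δ := ε) (J := m) F hF
        (fun j hj x hx => hI j x (((hev x).mp hx).2 j (mem_range.mpr (by omega))))
        (S := univ \ insert i T) (i := i) (by simp) l (a₀ + T.card * (m + m / k + C))
        (HR I (l * s) * ∏ x ∈ univ.erase i, Nat.multichoose (if x ∈ T then M else c) (m' x))
        (fun x => l + m' x) (fun q hq a' ha' => by
          have h1 := ih (Function.update m' i q) (fun x => by
            by_cases hx : x = i
            · subst hx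
              simpa using hq
            · simpa [hx] using hm' x) a' ha'
          rw [hS, hupd]
          refine le_trans (le_of_eq ?_) h1
          rw [← prod_erase_mul _ _ (mem_univ i), if_neg hiT, Function.update_self, mul_assoc]
          refine congrArg (fun y => HR I (l * s) * (y * Nat.multichoose c q)) ?_
          exact prod_congr rfl fun x hx => by rw [Function.update_of_ne (ne_of_mem_erase hx)])
        (m' i) (hm' i) a (by rw [card_insert_of_notMem hiT, add_mul, one_mul] at ha; omega)
      rw [hupd, Function.update_eq_self] at hst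
      refine le_trans (le_of_eq ?_) hst
      rw [← prod_erase_mul _ _ (mem_univ i), if_pos (mem_insert_self i T), mul_assoc]
      refine congrArg (fun y => HR I (l * s) * (y * Nat.multichoose M (m' i))) ?_
      exact prod_congr rfl fun x hx => by simp [ne_of_mem_erase hx]
  have h1 := main univ (fun _ => m) (fun _ => le_rfl) _ le_rfl
  have h2 := h1.trans (bot _ (fun z hz => hz.1) _ _)
  simpa using h2

end Pool.Agent.NEF
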