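import Pool.Agent.P.MP_66e591_ag.PDefs

/-! Reduction lemma, linear algebra at a point, spreading out independence. -/

noncomputable section
namespace Pool.Agent.NEF
open MvPolynomial Module Pool.Agent.HCF

theorem s2_comp_mul {n m : ℕ} (a l : SS n) (hl : l.IsHomogeneous m) (d : ℕ) :
    homogeneousComponent (d + m) (a * l) = homogeneousComponent d a * l := by
  conv_lhs => rw [← sum_homogeneousComponent a, Finset.sum_mul, map_sum]
  have h1 : ∀ e, homogeneousComponent (d + m) (homogeneousComponent e a * l) =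
      if d = e then homogeneousComponent e a * l else 0 := by
    intro e
    have h2 : homogeneousComponent e a * l ∈ homogeneousSubmodule (Fin n) ℂ (e + m) :=
      (homogeneousComponent_isHomogeneous e a).mul hl
    rw [homogeneousComponent_of_mem h2]
    simp only [Nat.add_right_cancel_iff]
  simp only [h1]
  rw [Finset.sum_ite_eq]
  split_ifs with h
  · rfl
  · rw [homogeneousComponent_eq_zero, zero_mul]
    simp only [Finset.mem_range] at h
    omega

theorem s2_low {n : ℕ} (E : ℕ → ℕ → Submodule ℂ (MvPolynomial (Fin n) ℂ))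
    (hmul : ∀ j t j' t', ∀ f ∈ E j t, ∀ g ∈ E j' t', f * g ∈ E (j + j') (t + t'))
    (h1 : 1 ∈ E 0 0) {D : ℕ} (hD : ∀ i, X i ∈ E 1 D) (j : ℕ) :
    homogeneousSubmodule (Fin n) ℂ j ≤ E j (j * D) := by
  rw [← homogeneousSubmodule_one_pow]
  induction j with
  | zero =>
    rw [pow_zero, Submodule.one_le, zero_mul]
    exact h1
  | succ j ih =>
    have h2 : homogeneousSubmodule (Fin n) ℂ 1 ≤ E 1 D := by
      rw [homogeneousSubmodule_one_eq_span_X, Submodule.span_le]
      rintro _ ⟨i, rfl⟩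
      exact hD i
    rw [pow_succ, Submodule.mul_le, add_mul, one_mul]
    exact fun f hf g hg => hmul _ _ _ _ f (ih hf) g (h2 hg)

theorem s2_K {n : ℕ} (A : Ideal (SS n)) (hz : ∀ w : Fin n → ℂ, w ≠ 0 → ∃ f ∈ A, eval w f ≠ 0) :
    ∃ K, ∀ i, (X i : SS n) ^ K ∈ A := by
  have h1 : ∀ i, ∃ K, (X i : SS n) ^ K ∈ A := fun i => by
    change X i ∈ A.radical
    rw [← vanishingIdeal_zeroLocus_eq_radical (K := ℂ) A]
    intro x hx
    rw [aeval_X]
    by_cases h0 : x = 0
    · rw [h0, Pi.zero_apply]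
    · obtain ⟨g, hg, hg'⟩ := hz x h0
      exact absurd (hx g hg) hg'
  choose K hK using h1
  exact ⟨∑ i, K i, fun i => Ideal.pow_mem_of_pow_mem _ (hK i)
    (Finset.single_le_sum (f := K) (fun _ _ => Nat.zero_le _) (Finset.mem_univ i))⟩

theorem reduction {n : ℕ} (E : ℕ → ℕ → Submodule ℂ (MvPolynomial (Fin n) ℂ))
    (hh : ∀ j t, E j t ≤ homogeneousSubmodule (Fin n) ℂ j)
    (hmul : ∀ j t j' t', ∀ f ∈ E j t, ∀ g ∈ E j' t', f * g ∈ E (j + j') (t + t'))
    (hmono : ∀ j t t', t ≤ t' → E j t ≤ E j t') (h1 : 1 ∈ E 0 0) {D : ℕ}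
    (hD : ∀ i, X i ∈ E 1 D) {k r : ℕ} (hk : 1 ≤ k) (hr : 1 ≤ r)
    (hz : ∀ w : Fin n → ℂ, w ≠ 0 → ∃ f ∈ E (r * k) r, eval w f ≠ 0) :
    ∃ C, ∀ j, homogeneousSubmodule (Fin n) ℂ j ≤ E j (j / k + C) := by
  obtain ⟨K, hK⟩ := s2_K (Ideal.span (E (r * k) r : Set (SS n))) fun w hw => by
    obtain ⟨f, hf, hf'⟩ := hz w hw
    exact ⟨f, Ideal.subset_span hf, hf'⟩
  have hrk : 1 ≤ r * k := Nat.mul_le_mul hr hk
  refine ⟨(n * K + r * k) * D, fun j => ?_⟩
  induction j using Nat.strong_induction_on with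
  | _ j ih =>
    by_cases hj : j ≤ n * K + r * k
    · exact (s2_low E hmul h1 hD j).trans
        (hmono _ _ _ ((Nat.mul_le_mul_right D hj).trans (Nat.le_add_left _ _)))
    · intro f hf
      have hA : f ∈ Ideal.span (E (r * k) r : Set (SS n)) := by
        rw [f.as_sum]
        refine Ideal.sum_mem _ fun s hs => trdeg_mon_mem hK s ?_ _
        have h2 : s.degree = j := by
          have := hf (mem_support_iff.mp hs)
          rw [← this, Finsupp.degree_eq_weight_one]
          rfl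
        omega
      obtain ⟨m, a, g, ha⟩ := Submodule.mem_span_set'.1 hA
      obtain ⟨e, rfl⟩ : ∃ e, j = e + r * k := ⟨j - r * k, by omega⟩
      have h3 : f = ∑ i, homogeneousComponent e (a i) * (g i).1 := by
        rw [← homogeneousComponent_eq_self hf, ← ha, map_sum]
        exact Finset.sum_congr rfl fun i _ => s2_comp_mul _ _ (hh _ _ (g i).2) e
      rw [h3, Nat.add_mul_div_right _ _ hk, add_right_comm]
      exact Submodule.sum_mem _ fun i _ => hmul _ _ _ _ _
        (ih e (by omega) (homogeneousComponent_mem e (a i))) _ (g i).2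

theorem s2_dot {β : Type} [Fintype β] (l : (β → ℂ) →ₗ[ℂ] ℂ) :
    ∃ u : β → ℂ, ∀ w, u ⬝ᵥ w = l w := by
  classical
  refine ⟨fun i => l fun j => if i = j then 1 else 0, fun w => ?_⟩
  rw [LinearMap.pi_apply_eq_sum_univ l w, dotProduct_comm]
  rfl

variable {M : ℕ} {I : Ideal (SS M)} {c n : ℕ}

theorem s2_ker {V : Type} [AddCommGroup V] [Module ℂ V] [FiniteDimensional ℂ V]
    (hV : finrank ℂ V = n + 1) (q : V →ₗ[ℂ] ℂ) :
    ∃ v : Fin n → V, LinearIndependent ℂ v ∧ ∀ i, q (v i) = 0 := by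
  have h2 := q.finrank_range_add_finrank_ker.trans hV
  have h3 : finrank ℂ (LinearMap.range q) ≤ 1 :=
    (Submodule.finrank_le _).trans (finrank_self ℂ).le
  have h4 : n ≤ finrank ℂ (LinearMap.ker q) := by omega
  obtain ⟨f, hf⟩ := exists_linearIndependent_of_le_finrank h4
  exact ⟨_, hf.map' _ (Submodule.ker_subtype _), fun i => (f i).2⟩

theorem s2_indep {V : Type} [AddCommGroup V] [Module ℂ V] [FiniteDimensional ℂ V]
    (T : Submodule ℂ V) (hT : finrank ℂ T = n + 1) (q : V →ₗ[ℂ] ℂ) :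
    ∃ v : Fin n → V, LinearIndependent ℂ v ∧ (∀ i, v i ∈ T) ∧ ∀ i, q (v i) = 0 := by
  obtain ⟨f, hf, h0⟩ := s2_ker hT (q.comp T.subtype)
  exact ⟨_, hf.map' _ (Submodule.ker_subtype _), fun i => (f i).2, h0⟩

theorem exists_dual (hX : IsManifold I c) (hM : M = n + 1 + c) {x₀ : VV M} (hx : x₀ ∈ cone I) :
    ∃ v s : Fin n → VV M, (∀ i, v i ∈ tang I x₀) ∧ (∀ i, s i ⬝ᵥ x₀ = 0) ∧
      ∀ i i', s i ⬝ᵥ v i' = if i = i' then 1 else 0 := by
  obtain ⟨j, hj⟩ := Function.ne_iff.1 hx.1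
  have hj' : x₀ j ≠ 0 := hj
  obtain ⟨v, hv, hT, h0⟩ := s2_indep (n := n) (tangS I x₀)
    (Nat.add_right_cancel ((hX.finrank_tang hx).trans hM)) (LinearMap.proj j)
  obtain ⟨ρ, hρ⟩ := (Fintype.linearCombination ℂ v).exists_leftInverse_of_injective
    (LinearMap.ker_eq_bot.2 (linearIndependent_iff_injective_fintypeLinearCombination.1 hv))
  choose s hs using fun i => s2_dot ((LinearMap.proj i).comp ρ)
  refine ⟨v, fun i => s i - Pi.single j (s i ⬝ᵥ x₀ / x₀ j), hT, fun i => ?_, fun i i' => ?_⟩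
  · rw [sub_dotProduct, single_dotProduct, div_mul_cancel₀ _ hj', sub_self]
  · have h5 := congrFun (LinearMap.congr_fun hρ (Pi.single i' 1)) i
    rw [LinearMap.comp_apply, Fintype.linearCombination_apply_single, one_smul,
      LinearMap.id_apply, Pi.single_apply] at h5
    rw [sub_dotProduct, single_dotProduct, show v i' j = 0 from h0 i', mul_zero, sub_zero, hs]
    exact h5

theorem s2_ext {x₀ θ : VV M} (hx : x₀ ≠ 0) (hθ : θ ⬝ᵥ x₀ = 0) :
    ∃ Θ : Fin M → SS M, (fun j => eval x₀ (Θ j)) = θ ∧ ∀ x, (fun j => eval x (Θ j)) ⬝ᵥ x = 0 := by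
  obtain ⟨j, hj⟩ := Function.ne_iff.1 hx
  have hj' : x₀ j ≠ 0 := hj
  have h1 : ∀ x : VV M, (fun l => eval x (C (x₀ j)⁻¹ * (X j * C (θ l) -
      if l = j then lin θ else 0))) = (x₀ j)⁻¹ • (x j • θ - Pi.single j (θ ⬝ᵥ x)) := by
    intro x
    funext l
    simp only [map_mul, map_sub, eval_C, eval_X, apply_ite (eval x), eval_lin, map_zero,
      Pi.smul_apply, Pi.sub_apply, smul_eq_mul, Pi.single_apply, dotProduct]
  refine ⟨fun l => C (x₀ j)⁻¹ * (X j * C (θ l) - if l = j then lin θ else 0), ?_, fun x => ?_⟩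
  · rw [h1, hθ, Pi.single_zero, sub_zero, inv_smul_smul₀ hj']
  · rw [h1, smul_dotProduct, sub_dotProduct, smul_dotProduct, single_dotProduct, smul_eq_mul,
      smul_eq_mul, mul_comm (x j), sub_self, mul_zero]

theorem s2_eval (x : VV M) (Θ : Fin M → SS M) (F : MvPolynomial (Fin M ⊕ Fin M) ℂ) :
    eval x (aeval (Sum.elim X Θ) F) = eval (Sum.elim x fun j => eval x (Θ j)) F := by
  induction F using MvPolynomial.induction_on with
  | C a => simp
  | add p q hp hq => simp only [map_add, hp, hq]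
  | mul_X p j hp =>
    simp only [map_mul, hp, aeval_X, eval_X]
    cases j <;> simp

theorem spread {β : Type} [Fintype β] (F : β → MvPolynomial (Fin M ⊕ Fin M) ℂ) {x₀ : VV M}
    (hx : x₀ ≠ 0) (h : Indep F x₀) :
    ∃ δ : SS M, eval x₀ δ ≠ 0 ∧ ∀ x, eval x δ ≠ 0 → Indep F x := by
  classical
  let P : Submodule ℂ (β → ℂ) :=
    { carrier := {w | ∃ p : β → SS M, (fun b => eval x₀ (p b)) = w ∧ ∀ (x : VV M) (u : β → ℂ),
        (∀ θ, θ ⬝ᵥ x = 0 → ∑ b, u b * eval (Sum.elim x θ) (F b) = 0) →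
          (fun b => eval x (p b)) ⬝ᵥ u = 0}
      add_mem' := by
        rintro _ _ ⟨p, rfl, hp⟩ ⟨q, rfl, hq⟩
        have e : ∀ x : VV M, (fun b => eval x ((p + q) b)) =
            (fun b => eval x (p b)) + fun b => eval x (q b) := fun x => funext fun b => map_add _ _ _
        exact ⟨p + q, e x₀, fun x u hu => by rw [e, add_dotProduct, hp x u hu, hq x u hu, add_zero]⟩
      zero_mem' := ⟨0, funext fun _ => map_zero _, fun x u _ => by simp [dotProduct]⟩
      smul_mem' := by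
        rintro t _ ⟨p, rfl, hp⟩
        have e : ∀ x : VV M, (fun b => eval x (C t * p b)) = t • fun b => eval x (p b) :=
          fun x => funext fun b => by rw [map_mul, eval_C]; rfl
        exact ⟨fun b => C t * p b, e x₀, fun x u hu => by
          rw [e, smul_dotProduct, hp x u hu, smul_zero]⟩ }
  have hP : P = ⊤ := by
    by_contra hne
    obtain ⟨l, hl, hle⟩ := Submodule.exists_le_ker_of_lt_top P (lt_top_iff_ne_top.2 hne)
    obtain ⟨u, hu⟩ := s2_dot l
    have hu0 : u = 0 := h u fun θ hθ => by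
      obtain ⟨Θ, h1, h2⟩ := s2_ext hx hθ
      have h3 : (fun b => eval (Sum.elim x₀ θ) (F b)) ∈ P :=
        ⟨fun b => aeval (Sum.elim X Θ) (F b), funext fun b => by rw [s2_eval, h1],
          fun x u' hu' => by
            rw [dotProduct_comm, ← hu' _ (h2 x)]
            exact Finset.sum_congr rfl fun b _ => congrArg (u' b * ·) (s2_eval x Θ (F b))⟩
      exact (hu _).trans (hle h3)
    exact hl (LinearMap.ext fun w => by rw [← hu, hu0, zero_dotProduct]; rfl)
  have h1 : ∀ b : β, (Pi.single b 1 : β → ℂ) ∈ P := fun b => hP ▸ Submodule.mem_top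
  choose p hp hp' using h1
  refine ⟨(Matrix.of p).det, ?_, fun x hδ u hu => ?_⟩
  · have h2 : (Matrix.of p).map (eval x₀) = 1 := by
      ext b b'
      rw [Matrix.map_apply, Matrix.of_apply, congrFun (hp b) b', Matrix.one_apply, Pi.single_apply]
      simp only [eq_comm]
    rw [RingHom.map_det, RingHom.mapMatrix_apply, h2, Matrix.det_one]
    exact one_ne_zero
  · rw [RingHom.map_det, RingHom.mapMatrix_apply] at hδ
    exact Matrix.eq_zero_of_mulVec_eq_zero hδ (funext fun b => hp' b x u hu)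

end Pool.Agent.NEF
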