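import Pool.Agent.P.MP_66e591_ag.S1
import Pool.Agent.P.MP_66e591_ag.S2

/-! Enough sections near a point. -/

noncomputable section
namespace Pool.Agent.NEF
open MvPolynomial Module Pool.Agent.HCF

variable {M : ℕ} {I : Ideal (SS M)} {c n : ℕ}

/-- restriction of a section to the span of the covectors `s i` at the point `x₀` -/
def s3_ev (x₀ : VV M) (s : Fin n → VV M) :
    MvPolynomial (Fin M ⊕ Fin M) ℂ →ₐ[ℂ] MvPolynomial (Fin n) ℂ :=
  aeval (Sum.elim (fun j => C (x₀ j)) fun j => ∑ i, C (s i j) * X i)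

theorem s3_eval (x₀ : VV M) (s : Fin n → VV M) (w : Fin n → ℂ)
    (F : MvPolynomial (Fin M ⊕ Fin M) ℂ) :
    eval w (s3_ev x₀ s F) = eval (Sum.elim x₀ (∑ i, w i • s i)) F := by
  induction F using MvPolynomial.induction_on with
  | C a => simp [s3_ev]
  | add p q hp hq => rw [map_add, map_add, map_add, hp, hq]
  | mul_X p v hp =>
    rw [map_mul, map_mul, map_mul, hp]
    refine congrArg _ ?_
    rcases v with j | j
    · simp [s3_ev]
    · simp [s3_ev, Finset.sum_apply, mul_comm]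

theorem s3_hom (x₀ : VV M) (s : Fin n → VV M) {j t : ℕ} {F : MvPolynomial (Fin M ⊕ Fin M) ℂ}
    (hF : IsSection I j t F) : (s3_ev x₀ s F).IsHomogeneous j := by
  rw [F.as_sum, map_sum]
  refine IsHomogeneous.sum _ _ _ fun d hd => ?_
  have hw := congrArg Prod.snd (hF.homog (mem_support_iff.1 hd))
  rw [Finsupp.weight_apply, Finsupp.sum, Prod.snd_sum] at hw
  rw [s3_ev, aeval_monomial, Finsupp.prod]
  have h1 : (∏ v ∈ d.support, (Sum.elim (fun j => (C (x₀ j) : MvPolynomial (Fin n) ℂ))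
      (fun j => ∑ i, C (s i j) * X i) v) ^ d v).IsHomogeneous
      (∑ v ∈ d.support, (d v • (Sum.elim (fun _ => ((1, 0) : ℕ × ℕ))
        (fun _ => ((0, 1) : ℕ × ℕ)) v)).2) := by
    refine IsHomogeneous.prod _ _ _ fun v _ => ?_
    rcases v with l | l
    · simpa using (isHomogeneous_C (Fin n) (x₀ l)).pow (d (Sum.inl l))
    · simpa using (IsHomogeneous.sum Finset.univ (fun i => C (s i l) * X i) 1
        fun i _ => isHomogeneous_C_mul_X (s i l) i).pow (d (Sum.inr l))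
  rw [hw] at h1
  simpa using (isHomogeneous_C (Fin n) (coeff d F)).mul h1

/-- the fibre values at `x₀` of the sections of bidegree `(j + t, j)` -/
def s3_E (I : Ideal (SS M)) (x₀ : VV M) (s : Fin n → VV M) (j t : ℕ) :
    Submodule ℂ (MvPolynomial (Fin n) ℂ) where
  carrier := {p | ∃ F, IsSection I j t F ∧ s3_ev x₀ s F = p}
  zero_mem' := ⟨0, IsSection.zero j t, map_zero _⟩
  add_mem' := by
    rintro _ _ ⟨F, hF, rfl⟩ ⟨G, hG, rfl⟩
    exact ⟨F + G, hF.add hG, map_add _ _ _⟩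
  smul_mem' := by
    rintro a _ ⟨F, hF, rfl⟩
    exact ⟨a • F, hF.smul a, map_smul _ _ _⟩

theorem s3_perp {x₀ : VV M} {s : Fin n → VV M} (hs : ∀ i, s i ⬝ᵥ x₀ = 0) (w : Fin n → ℂ) :
    (∑ i, w i • s i) ⬝ᵥ x₀ = 0 := by
  rw [sum_dotProduct]
  exact Finset.sum_eq_zero fun i _ => by rw [smul_dotProduct, hs, smul_zero]

theorem s3_dual {v s : Fin n → VV M} (hd : ∀ i i', s i ⬝ᵥ v i' = if i = i' then 1 else 0)
    (w : Fin n → ℂ) (i : Fin n) : (∑ i, w i • s i) ⬝ᵥ v i = w i := by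
  rw [sum_dotProduct]
  simp only [smul_dotProduct, hd, smul_eq_mul, mul_ite, mul_one, mul_zero]
  simp

theorem enough (hX : IsManifold I c) (hM : M = n + 1 + c) {x₀ : VV M} (hx : x₀ ∈ cone I)
    {k r : ℕ} (hk : 1 ≤ k) (hr : 1 ≤ r)
    (h : ∀ ξ, ξ ⬝ᵥ x₀ = 0 → ξ ∉ conormal I x₀ →
      ∃ F, IsSection I (r * k) r F ∧ eval (Sum.elim x₀ ξ) F ≠ 0) :
    ∃ C, Enough I n k C x₀ := by
  obtain ⟨v, s, hv, hs, hd⟩ := exists_dual hX hM hx
  obtain ⟨D, hD⟩ := exists_field hX hx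
  obtain ⟨C, hC⟩ := reduction (s3_E I x₀ s)
    (by rintro j t _ ⟨F, hF, rfl⟩; exact s3_hom x₀ s hF)
    (by
      rintro j t j' t' _ ⟨F, hF, rfl⟩ _ ⟨G, hG, rfl⟩
      exact ⟨F * G, hF.mul hG, map_mul _ _ _⟩)
    (by
      rintro j t t' ht _ ⟨F, hF, rfl⟩
      obtain ⟨G, hG, e⟩ := hF.raise ht hx.1
      exact ⟨G, hG, MvPolynomial.funext fun w => by rw [s3_eval, s3_eval, e]⟩)
    ⟨1, IsSection.one, map_one _⟩ (D := D)
    (fun i => by
      obtain ⟨F, hF, e⟩ := hD (v i) (hv i)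
      exact ⟨F, hF, MvPolynomial.funext fun w => by rw [s3_eval, e, s3_dual hd, eval_X]⟩)
    hk hr
    (fun w hw => by
      obtain ⟨F, hF, e⟩ := h (∑ i, w i • s i) (s3_perp hs w) fun hc =>
        hw (funext fun i => (s3_dual hd w i).symm.trans (hc (v i) (hv i)))
      exact ⟨_, ⟨F, hF, rfl⟩, by rwa [s3_eval]⟩)
  refine ⟨C, fun j => ?_⟩
  have := hom_finite n j
  let b := finBasisOfFinrankEq ℂ (homogeneousSubmodule (Fin n) ℂ j) (finrank_hom n j)
  choose F hF e using fun a => hC j (b a).2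
  have hI : Indep F x₀ := fun u hu => by
    have h0 : ∑ a, u a • b a = 0 := by
      refine Subtype.ext (MvPolynomial.funext fun w => ?_)
      have h1 := hu _ (s3_perp hs w)
      simp only [← s3_eval, e] at h1
      simpa using h1
    exact funext (Fintype.linearIndependent_iff.1 b.linearIndependent u h0)
  obtain ⟨δ, h1, h2⟩ := spread F hx.1 hI
  exact ⟨δ, F, h1, hF, h2⟩

end Pool.Agent.NEF
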