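import Pool.Agent.P.MP_66e591_ag.Ind
import Pool.Agent.P.MP_66e591_ag.S3
import Pool.Agent.P.MP_66e591_ag.A3

/-! The numerical inequality. -/

noncomputable section
namespace Pool.Agent.NEF
open MvPolynomial Module Finset Pool.Agent.HCF

variable {M : ℕ} {I : Ideal (SS M)} {c n : ℕ} {κ : Type} [Fintype κ] [DecidableEq κ]

theorem key2 (hX : IsManifold I c) (hM : M = n + 1 + c) (hN : TangentNef I) {s : ℕ}
    {D : (Option κ → VV M) → ℂ} (h : Twist κ I s D) (hκ : 1 ≤ Fintype.card κ) {k p q : ℕ}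
    (hk : 1 ≤ k) (hq : 1 ≤ q) :
    (p * s * k) ^ n * q ^ ((n + c) * Fintype.card κ) ≤
      (Fintype.card κ * q * (k + 1)) ^ n * (p + q) ^ ((n + c) * Fintype.card κ) := by
  obtain ⟨x₀, hx⟩ := hX.nonempty
  obtain ⟨r, hr, hsec⟩ := hN k hk
  obtain ⟨C, hE⟩ := enough hX hM hx hk hr (hsec x₀ hx)
  obtain ⟨a₀, ha⟩ := key hX hM hx hE h
  have hM' : M = n + c + 1 := by omega
  generalize Fintype.card κ = K at ha hκ ⊢
  refine grow (HR I) (HR_mono hX) n
    (fun m => (mc_lower n m).trans (Nat.mul_le_mul_left _ (HR_lower hX hM m)))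
    (p * s * k) (K * q * (k + 1)) (a₀ + K * C) _ _
    (Nat.mul_pos (Nat.mul_pos hκ hq) (Nat.succ_pos k)) (Nat.pow_pos hq)
    (Nat.pow_le_pow_left (Nat.le_add_left q p) _) fun y hy => ?_
  have h1 := ha (p * (k * y)) (q * (k * y))
  have h2 := mc_ratio (n + c) (p * (k * y)) (q * (k * y))
  have h3 := mc_pos (n + c) (q * (k * y))
  rw [← hM'] at h2 h3
  have e1 : q * (k * y) / k = q * y := by
    rw [show q * (k * y) = k * (q * y) by ring]
    exact Nat.mul_div_cancel_left _ hk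
  have e2 : p * (k * y) * s = p * s * k * y := by ring
  have e3 : a₀ + K * (q * (k * y) + q * y + C) = K * q * (k + 1) * y + (a₀ + K * C) := by ring
  rw [e1, e2, e3] at h1
  have e4 : p * (k * y) + q * (k * y) = (p + q) * (k * y) := by ring
  rw [e4] at h1 h2
  generalize Nat.multichoose M ((p + q) * (k * y)) = U at h1 h2
  generalize Nat.multichoose M (q * (k * y)) = W at h1 h2 h3
  generalize HR I (p * s * k * y) = H1 at h1 ⊢
  generalize HR I (K * q * (k + 1) * y + (a₀ + K * C)) = H2 at h1 ⊢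
  have hky : 0 < k * y := Nat.mul_pos hk hy
  generalize k * y = t at h2 hky
  generalize n + c = N at h2 ⊢
  have h4 := Nat.pow_le_pow_left h2 K
  have hpos : 0 < W ^ K * t ^ (N * K) := Nat.mul_pos (Nat.pow_pos h3) (Nat.pow_pos hky)
  refine Nat.le_of_mul_le_mul_right ?_ hpos
  calc H1 * q ^ (N * K) * (W ^ K * t ^ (N * K))
      = H1 * W ^ K * (q ^ (N * K) * t ^ (N * K)) := by ring
    _ ≤ H2 * U ^ K * (q ^ (N * K) * t ^ (N * K)) := Nat.mul_le_mul_right _ h1
    _ = H2 * (U * (q * t) ^ N) ^ K := by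
        rw [mul_pow, ← pow_mul, mul_pow, mul_assoc]
    _ ≤ H2 * (W * ((p + q) * t) ^ N) ^ K := Nat.mul_le_mul_left _ h4
    _ = H2 * (p + q) ^ (N * K) * (W ^ K * t ^ (N * K)) := by
        rw [mul_pow, ← pow_mul, mul_pow]
        generalize (p + q) ^ (N * K) = A
        ring

end Pool.Agent.NEF
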