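import Pool.Agent.P.MP_66e591_ag.A5

/-! The algebra of sections; vector fields. -/

noncomputable section
namespace Pool.Agent.NEF
open MvPolynomial Module Pool.Agent.HCF

variable {M : ℕ} {I : Ideal (SS M)} {c n : ℕ}

theorem IsSection.zero (m t : ℕ) : IsSection I m t 0 :=
  ⟨isWeightedHomogeneous_zero _ _ _, fun _ _ _ _ _ _ => by simp⟩

theorem IsSection.one : IsSection I 0 0 1 :=
  ⟨isWeightedHomogeneous_one _ _, fun _ _ _ _ _ _ => by simp⟩

theorem IsSection.add {m t : ℕ} {F G} (hF : IsSection I m t F) (hG : IsSection I m t G) :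
    IsSection I m t (F + G) :=
  ⟨hF.homog.add hG.homog, fun x hx ξ η h1 h2 => by
    rw [map_add, map_add, hF.inv x hx ξ η h1 h2, hG.inv x hx ξ η h1 h2]⟩

theorem IsSection.smul {m t : ℕ} {F} (a : ℂ) (hF : IsSection I m t F) :
    IsSection I m t (a • F) := by
  rw [smul_eq_C_mul]
  exact ⟨hF.homog.C_mul a, fun x hx ξ η h1 h2 => by
    rw [map_mul, map_mul, eval_C, eval_C, hF.inv x hx ξ η h1 h2]⟩

theorem IsSection.mul {m t m' t' : ℕ} {F G} (hF : IsSection I m t F) (hG : IsSection I m' t' G) :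
    IsSection I (m + m') (t + t') (F * G) := by
  refine ⟨?_, fun x hx ξ η h1 h2 => by
    rw [map_mul, map_mul, hF.inv x hx ξ η h1 h2, hG.inv x hx ξ η h1 h2]⟩
  have h := hF.homog.mul hG.homog
  have e : ((m + t, m) : ℕ × ℕ) + (m' + t', m') = (m + m' + (t + t'), m + m') := by
    rw [Prod.mk_add_mk, add_add_add_comm]
  rwa [e] at h

theorem s1_scale {σ : Type} [Fintype σ] {w : σ → ℕ × ℕ} {F : MvPolynomial σ ℂ} {a b : ℕ}
    (hF : F.IsWeightedHomogeneous w (a, b)) (s t : ℂ) (z : σ → ℂ) :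
    eval (fun i => s ^ (w i).1 * t ^ (w i).2 * z i) F = s ^ a * t ^ b * eval z F := by
  rw [eval_eq', eval_eq', Finset.mul_sum]
  refine Finset.sum_congr rfl fun d hd => ?_
  have h := hF (mem_support_iff.1 hd)
  rw [Finsupp.weight_eq_sum] at h
  have h1 : ∑ i, (w i).1 * d i = a := by
    have := congrArg Prod.fst h
    simpa [Prod.fst_sum, mul_comm] using this
  have h2 : ∑ i, (w i).2 * d i = b := by
    have := congrArg Prod.snd h
    simpa [Prod.snd_sum, mul_comm] using this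
  simp only [mul_pow, Finset.prod_mul_distrib, ← pow_mul, Finset.prod_pow_eq_pow_sum, h1, h2]
  ring

theorem IsSection.eval_smul {m t : ℕ} {F} (hF : IsSection I m t F) (x θ : VV M) (τ : ℂ) :
    eval (Sum.elim x (τ • θ)) F = τ ^ m * eval (Sum.elim x θ) F := by
  have h := s1_scale hF.homog 1 τ (Sum.elim x θ)
  rw [one_pow, one_mul] at h
  rw [← h]
  refine congrArg (fun z => eval z F) (funext fun i => ?_)
  cases i <;> simp

theorem IsSection.eval_smul_left {m t : ℕ} {F} (hF : IsSection I m t F) (x θ : VV M) (τ : ℂ) :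
    eval (Sum.elim (τ • x) θ) F = τ ^ (m + t) * eval (Sum.elim x θ) F := by
  have h := s1_scale hF.homog τ 1 (Sum.elim x θ)
  rw [one_pow, mul_one] at h
  rw [← h]
  refine congrArg (fun z => eval z F) (funext fun i => ?_)
  cases i <;> simp

theorem s1_eval_inl (x θ : VV M) (p : SS M) :
    eval (Sum.elim x θ) (rename Sum.inl p) = eval x p := by
  rw [eval_rename]
  rfl

theorem s1_inl_hom {p : SS M} {d : ℕ} (hp : p.IsHomogeneous d) :
    (rename Sum.inl p : MvPolynomial (Fin M ⊕ Fin M) ℂ).IsWeightedHomogeneous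
      (Sum.elim (fun _ => ((1, 0) : ℕ × ℕ)) fun _ => ((0, 1) : ℕ × ℕ)) (d, 0) := by
  intro u hu
  obtain ⟨e, rfl, he⟩ := coeff_rename_ne_zero _ _ _ hu
  have h := hp he
  rw [Finsupp.weight_eq_sum] at h
  rw [Finsupp.weight_eq_sum, Fintype.sum_sum_type]
  have h1 : ∀ j, Finsupp.mapDomain (Sum.inl : Fin M → Fin M ⊕ Fin M) e (Sum.inl j) = e j :=
    fun j => Finsupp.mapDomain_apply Sum.inl_injective e j
  have h2 : ∀ j, Finsupp.mapDomain (Sum.inl : Fin M → Fin M ⊕ Fin M) e (Sum.inr j) = 0 :=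
    fun j => Finsupp.mapDomain_of_notMem_range e _ (by simp)
  simp only [h1, h2, zero_smul, Finset.sum_const_zero, add_zero, Sum.elim_inl]
  refine Prod.ext ?_ ?_
  · simpa [Prod.fst_sum] using h
  · simp [Prod.snd_sum]

theorem s1_inl_sec {p : SS M} {d : ℕ} (hp : p.IsHomogeneous d) :
    IsSection I 0 d (rename Sum.inl p) :=
  ⟨by rw [zero_add]; exact s1_inl_hom hp, fun x _ ξ η _ _ => by rw [s1_eval_inl, s1_eval_inl]⟩

/-- raising the twist without changing the value at `x₀` -/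
theorem IsSection.raise {m t t' : ℕ} {F} (hF : IsSection I m t F) (ht : t ≤ t') {x₀ : VV M}
    (hx : x₀ ≠ 0) : ∃ G, IsSection I m t' G ∧
      ∀ θ, eval (Sum.elim x₀ θ) G = eval (Sum.elim x₀ θ) F := by
  obtain ⟨j, hj⟩ := Function.ne_iff.1 hx
  have hj' : x₀ j ≠ 0 := hj
  have hp : ((C (x₀ j)⁻¹ * X j : SS M) ^ (t' - t)).IsHomogeneous (t' - t) := by
    simpa using (isHomogeneous_C_mul_X (x₀ j)⁻¹ j).pow (t' - t)
  have h := hF.mul (s1_inl_sec (I := I) hp)
  rw [add_zero, Nat.add_sub_cancel' ht] at h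
  refine ⟨_, h, fun θ => ?_⟩
  rw [map_mul, s1_eval_inl, map_pow, map_mul, eval_C, eval_X, inv_mul_cancel₀ hj', one_pow,
    mul_one]

/-- homogenisation with respect to a linear form -/
def s1_hom (ℓ : SS M) (N : ℕ) (p : SS M) : SS M :=
  ∑ a ∈ Finset.range (N + 1), ℓ ^ (N - a) * homogeneousComponent a p

theorem s1_hom_hom {ℓ : SS M} (hℓ : ℓ.IsHomogeneous 1) (N : ℕ) (p : SS M) :
    (s1_hom ℓ N p).IsHomogeneous N := by
  refine IsHomogeneous.sum _ _ _ fun a ha => ?_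
  have h := (hℓ.pow (N - a)).mul (homogeneousComponent_isHomogeneous a p)
  have e : 1 * (N - a) + a = N := by
    have := Finset.mem_range.1 ha
    omega
  rwa [e] at h

theorem s1_hom_eval {ℓ p : SS M} {N : ℕ} (hp : p.totalDegree ≤ N) {y : VV M}
    (hy : eval y ℓ ≠ 0) :
    eval y (s1_hom ℓ N p) = eval y ℓ ^ N * eval ((eval y ℓ)⁻¹ • y) p := by
  have hs : ∑ a ∈ Finset.range (N + 1), homogeneousComponent a p = p := by
    conv_rhs => rw [← sum_homogeneousComponent p]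
    refine (Finset.sum_subset (Finset.range_subset_range.2 (by omega)) fun a _ ha => ?_).symm
    exact homogeneousComponent_eq_zero _ _ (by simpa using ha)
  conv_rhs => rw [← hs]
  rw [s1_hom, map_sum, map_sum, Finset.mul_sum]
  refine Finset.sum_congr rfl fun a ha => ?_
  have ha' : a ≤ N := by
    have := Finset.mem_range.1 ha
    omega
  rw [map_mul, map_pow, eval_smul_hom (homogeneousComponent_isHomogeneous a p),
    pow_sub₀ _ hy ha', inv_pow, mul_assoc]

theorem s1_hom_tang (hX : IsManifold I c) {ℓ : SS M} (hℓI : ℓ ∉ I) {N : ℕ} {w : Fin M → SS M}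
    (hwd : ∀ j, (w j).totalDegree ≤ N)
    (hwt : ∀ y ∈ cone I, (fun j => eval y (w j)) ∈ tangS I y) {y : VV M} (hy : y ∈ cone I) :
    (fun j => eval y (s1_hom ℓ N (w j))) ∈ tang I y := by
  intro h hh
  have h1 : ℓ * ∑ j, s1_hom ℓ N (w j) * pderiv j h ∈ I := basic0_mem hX fun z => by
    rw [map_mul]
    by_cases h0 : eval z.1 ℓ = 0
    · rw [h0, zero_mul]
    · have h2 := hwt _ (hX.smul_mem z.2 (inv_ne_zero h0))
      rw [hX.tang_smul _ (inv_ne_zero h0)] at h2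
      have h3 : ∑ j, eval ((eval z.1 ℓ)⁻¹ • z.1) (w j) * eval z.1 (pderiv j h) = 0 := h2 h hh
      have h4 : ∀ j, eval z.1 (s1_hom ℓ N (w j) * pderiv j h) =
          eval z.1 ℓ ^ N * (eval ((eval z.1 ℓ)⁻¹ • z.1) (w j) * eval z.1 (pderiv j h)) :=
        fun j => by rw [map_mul, s1_hom_eval (hwd j) h0, mul_assoc]
      rw [map_sum, Finset.sum_congr rfl fun j _ => h4 j, ← Finset.mul_sum, h3, mul_zero, mul_zero]
  have h2 := hy.2 _ ((hX.prime.mem_or_mem h1).resolve_left hℓI)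
  rw [map_sum] at h2
  rw [← h2]
  exact Finset.sum_congr rfl fun j _ => (map_mul _ _ _).symm

theorem s1_field_eval (u : Fin M → SS M) (x θ : VV M) :
    eval (Sum.elim x θ) (∑ j, X (Sum.inr j) * rename Sum.inl (u j)) =
      θ ⬝ᵥ fun j => eval x (u j) := by
  simp only [map_sum, map_mul, eval_X, s1_eval_inl, Sum.elim_inr, dotProduct]

theorem s1_field_sec {u : Fin M → SS M} {D : ℕ} (hu : ∀ j, (u j).IsHomogeneous (1 + D))
    (hut : ∀ y ∈ cone I, (fun j => eval y (u j)) ∈ tang I y) :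
    IsSection I 1 D (∑ j, X (Sum.inr j) * rename Sum.inl (u j)) := by
  refine ⟨IsWeightedHomogeneous.sum _ _ _ fun j _ => ?_, fun x hx ξ η _ hη => ?_⟩
  · have h := (isWeightedHomogeneous_X (R := ℂ)
      (Sum.elim (fun _ : Fin M => ((1, 0) : ℕ × ℕ)) fun _ : Fin M => ((0, 1) : ℕ × ℕ))
      (Sum.inr j)).mul (s1_inl_hom (hu j))
    rwa [Sum.elim_inr, Prod.mk_add_mk, zero_add, add_zero] at h
  · rw [s1_field_eval, s1_field_eval, add_dotProduct, hη _ (hut x hx), add_zero]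

theorem s1_raw (hX : IsManifold I c) {x₀ : VV M} (hx : x₀ ∈ cone I) :
    ∃ D : ℕ, ∀ v ∈ tang I x₀, ∃ w : Fin M → SS M, (∀ j, (w j).totalDegree ≤ D) ∧
      (∀ y ∈ cone I, (fun j => eval y (w j)) ∈ tangS I y) ∧ ∀ j, eval x₀ (w j) = v j := by
  obtain ⟨P⟩ := hX.exists_PF hx
  have h2 : ∀ v ∈ tang I x₀, ∀ j, ∑ l, eval x₀ (P.t j l) * v l = eval x₀ P.δ * v j :=
    fun v hv j => P.t_fix hv j
  have h3 : ∀ y ∈ cone I, ∀ l, (fun j => eval y (P.t j l)) ∈ tangS I y :=
    fun y hy l => P.t_tan hX hx hy l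
  have hδ := P.δ_ne
  generalize P.t = T at h2 h3
  generalize eval x₀ P.δ = δ at h2 hδ
  refine ⟨Finset.univ.sup fun q : Fin M × Fin M => (T q.1 q.2).totalDegree, fun v hv =>
    ⟨fun j => ∑ l, C (v l / δ) * T j l, fun j => ?_, fun y hy => ?_, fun j => ?_⟩⟩
  · refine totalDegree_finsetSum_le fun l _ => (totalDegree_mul _ _).trans ?_
    rw [totalDegree_C, zero_add]
    exact Finset.le_sup (f := fun q : Fin M × Fin M => (T q.1 q.2).totalDegree)
      (Finset.mem_univ (j, l))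
  · have e : (fun j => eval y (∑ l, C (v l / δ) * T j l)) =
        ∑ l, (v l / δ) • fun j => eval y (T j l) := by
      funext j
      simp only [map_sum, map_mul, eval_C, Finset.sum_apply, Pi.smul_apply, smul_eq_mul]
    rw [e]
    exact Submodule.sum_mem _ fun l _ => Submodule.smul_mem _ _ (h3 y hy l)
  · have e : ∀ l, eval x₀ (C (v l / δ) * T j l) = δ⁻¹ * (eval x₀ (T j l) * v l) := fun l => by
      rw [map_mul, eval_C]
      ring
    rw [map_sum, Finset.sum_congr rfl fun l _ => e l, ← Finset.mul_sum, h2 v hv j,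
      inv_mul_cancel_left₀ hδ]

/-- `T_X (D)` is generated at `x₀` by polynomial vector fields -/
theorem exists_field (hX : IsManifold I c) {x₀ : VV M} (hx : x₀ ∈ cone I) :
    ∃ D, ∀ v ∈ tang I x₀, ∃ F, IsSection I 1 D F ∧ ∀ θ, eval (Sum.elim x₀ θ) F = θ ⬝ᵥ v := by
  obtain ⟨D, hD⟩ := s1_raw hX hx
  obtain ⟨j₀, hj⟩ := Function.ne_iff.1 hx.1
  have hj' : x₀ j₀ ≠ 0 := hj
  obtain ⟨ℓ, hℓ, hℓ0⟩ : ∃ ℓ : SS M, ℓ.IsHomogeneous 1 ∧ eval x₀ ℓ = 1 :=
    ⟨C (x₀ j₀)⁻¹ * X j₀, isHomogeneous_C_mul_X _ _, by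
      rw [map_mul, eval_C, eval_X, inv_mul_cancel₀ hj']⟩
  have hℓI : ℓ ∉ I := fun h => by
    rw [hx.2 ℓ h] at hℓ0
    exact zero_ne_one hℓ0
  refine ⟨D, fun v hv => ?_⟩
  obtain ⟨w, hwd, hwt, hw0⟩ := hD v hv
  have hwd' : ∀ j, (w j).totalDegree ≤ 1 + D := fun j => (hwd j).trans (Nat.le_add_left _ _)
  refine ⟨_, s1_field_sec (fun j => s1_hom_hom hℓ (1 + D) (w j))
    fun y hy => s1_hom_tang hX hℓI hwd' hwt hy, fun θ => ?_⟩
  rw [s1_field_eval]
  refine congrArg (fun z => θ ⬝ᵥ z) (funext fun j => ?_)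
  have h := s1_hom_eval (ℓ := ℓ) (hwd' j) (y := x₀) (by rw [hℓ0]; exact one_ne_zero)
  rw [hℓ0, one_pow, inv_one, one_smul, one_mul, hw0] at h
  exact h

end Pool.Agent.NEF
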