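import Pool.Agent.P.MP_66e591_ag.Q1
import Pool.Agent.P.MP_66e591_ag.S1

/-! At most one quadric. -/

noncomputable section
namespace Pool.Agent.NEF
open MvPolynomial Module Finset Pool.Agent.HCF

variable {M : ℕ} {I : Ideal (SS M)} {c : ℕ}

theorem q2_poly (F : MvPolynomial (Fin M ⊕ Fin M) ℂ) (v w ξ : VV M) :
    ∃ q : Polynomial ℂ, ∀ t : ℂ, eval (Sum.elim (t • v + (1 : ℂ) • w) ξ) F = q.eval t := by
  refine ⟨aeval (Sum.elim (fun j => Polynomial.C (v j) * Polynomial.X + Polynomial.C (w j))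
    fun j => Polynomial.C (ξ j)) F, fun t => ?_⟩
  induction F using MvPolynomial.induction_on with
  | C a => simp
  | add p q hp hq => simp only [map_add, Polynomial.eval_add, hp, hq]
  | mul_X p j hp =>
    simp only [map_mul, Polynomial.eval_mul, hp, eval_X, aeval_X]
    rcases j with j | j
    · simp only [Sum.elim_inl, Pi.add_apply, Pi.smul_apply, smul_eq_mul, Polynomial.eval_add,
        Polynomial.eval_mul, Polynomial.eval_C, Polynomial.eval_X]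
      ring
    · simp only [Sum.elim_inr, Polynomial.eval_C]

theorem q2_cont (F : MvPolynomial (Fin M ⊕ Fin M) ℂ) (v w ξ : VV M) :
    Continuous fun l : ℂ × ℂ => eval (Sum.elim (l.1 • v + l.2 • w) ξ) F := by
  refine (MvPolynomial.continuous_eval F).comp (continuous_pi fun j => ?_)
  rcases j with j | j
  · simp only [Sum.elim_inl, Pi.add_apply, Pi.smul_apply, smul_eq_mul]
    fun_prop
  · simp only [Sum.elim_inr]
    exact continuous_const

theorem q2_polar (A : VV M →ₗ[ℂ] VV M) (hs : ∀ x y, A x ⬝ᵥ y = A y ⬝ᵥ x) {v w : VV M}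
    (h : ∀ l : ℂ × ℂ, l ≠ 0 → A (l.1 • v + l.2 • w) ⬝ᵥ (l.1 • v + l.2 • w) = 0) :
    A v ⬝ᵥ v = 0 ∧ A v ⬝ᵥ w = 0 ∧ A w ⬝ᵥ v = 0 ∧ A w ⬝ᵥ w = 0 := by
  have h1 : A v ⬝ᵥ v = 0 := by simpa using h (1, 0) (by simp)
  have h2 : A w ⬝ᵥ w = 0 := by simpa using h (0, 1) (by simp)
  have h3 := h (1, 1) (by simp)
  simp only [one_smul, map_add, add_dotProduct, dotProduct_add, h1, h2, hs w v] at h3
  have h4 : A v ⬝ᵥ w = 0 := by linear_combination h3 / 2
  exact ⟨h1, h4, by rw [hs w v, h4], h2⟩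

theorem one_quadric (hX : IsManifold I c) (hN : TangentNef I) {f : Fin c → SS M}
    (hI : I = Ideal.span (Set.range f)) {d : Fin c → ℕ} (hd : ∀ i, (f i).IsHomogeneous (d i))
    (h12 : ∀ i, d i = 1 ∨ d i = 2) (hM : 3 * c < M) {i₁ i₂ : Fin c} (h1 : d i₁ = 2)
    (h2 : d i₂ = 2) : i₁ = i₂ := by
  classical
  by_contra hi
  obtain ⟨v₁, v₂, hl, hsum⟩ := exists_line hX hI hd h12 hM hi h1 h2
  have hfI : ∀ i, f i ∈ I := fun i => hI ▸ Ideal.subset_span ⟨i, rfl⟩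
  obtain ⟨A₁, hA₁, hs₁, he₁⟩ := dif_two (h1 ▸ hd i₁)
  obtain ⟨A₂, hA₂, hs₂, he₂⟩ := dif_two (h2 ▸ hd i₂)
  obtain ⟨a11, a12, a13, a14⟩ := q2_polar A₁ hs₁ (v := v₁) (w := v₂) fun l hl0 => by
    rw [he₁, (hl l hl0).2 _ (hfI i₁), mul_zero]
  obtain ⟨a21, a22, a23, a24⟩ := q2_polar A₂ hs₂ (v := v₁) (w := v₂) fun l hl0 => by
    rw [he₂, (hl l hl0).2 _ (hfI i₂), mul_zero]
  rw [hA₁, hA₂] at hsum
  have hv₂ : v₂ ∈ cone I := by simpa using hl (0, 1) (by simp)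
  have hex : ∃ l : ℂ × ℂ, l ≠ 0 ∧ A₁ v₂ ∉ conormal I (l.1 • v₁ + l.2 • v₂) := by
    by_contra hcon
    push Not at hcon
    have hone : ∀ i, i ∉ univ.filter (fun i => d i = 2) → ∀ x y, dif (f i) x = dif (f i) y := by
      intro i hiS x y
      have hi1 : d i = 1 := (h12 i).resolve_right (by simpa using hiS)
      obtain ⟨a, ha, -⟩ := dif_one (hi1 ▸ hd i)
      rw [ha, ha]
    have hp := pencil (univ.filter fun i => d i = 2) (fun i => dif (f i) v₁)
      (fun i => dif (f i) v₂) (fun i l => dif (f i) (l.1 • v₁ + l.2 • v₂))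
      (fun i hiS l => by
        have hi2 : d i = 2 := by simpa using hiS
        obtain ⟨A, hA, -⟩ := dif_two (hi2 ▸ hd i)
        simp only [hA, map_add, map_smul])
      (fun i hiS l => hone i hiS _ _) (fun l hl0 => ci_indep hX hI (hl l hl0)) (A₁ v₂)
      (fun l hl0 => (ci_conormal hX hI (hl l hl0) _).1 (hcon l hl0))
    have him : (fun i => dif (f i) v₁) '' {i | i ∉ univ.filter fun i => d i = 2} =
        (fun i => dif (f i) v₂) '' {i | i ∉ univ.filter fun i => d i = 2} :=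
      Set.image_congr fun i hiS => hone i hiS _ _
    rw [him, ← hA₁] at hp
    exact (ci_indep hX hI hv₂).notMem_span_image (by simpa using h1) hp
  obtain ⟨l₀, hl₀, hnc⟩ := hex
  obtain ⟨r, hr, hF⟩ := hN 2 (by norm_num)
  obtain ⟨F, hFs, hF0⟩ := hF _ (hl l₀ hl₀) (A₁ v₂)
    (by simp [dotProduct_add, dotProduct_smul, a13, a14]) hnc
  obtain ⟨q, hq⟩ := q2_poly F v₁ v₂ (-A₂ v₁)
  refine hF0 (binary_zero (m := r * 2) (e := r * 2 + r) (by omega)
    (fun l => eval (Sum.elim (l.1 • v₁ + l.2 • v₂) (A₁ v₂)) F)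
    (fun l => eval (Sum.elim (l.1 • v₁ + l.2 • v₂) (-A₂ v₁)) F) (q2_cont F v₁ v₂ _)
    (fun τ l => ?_) q hq (fun l hl0 => ?_) l₀)
  · rw [← hFs.eval_smul_left, smul_add, smul_smul, smul_smul]
    rfl
  · have hη : l.2 • A₁ (l.1 • v₁ + l.2 • v₂) + l.1 • A₂ (l.1 • v₁ + l.2 • v₂) ∈
        conormal I (l.1 • v₁ + l.2 • v₂) := by
      rw [ci_conormal hX hI (hl l hl0), ← hA₁, ← hA₂]
      exact Submodule.add_mem _ (Submodule.smul_mem _ _ (Submodule.subset_span ⟨i₁, rfl⟩))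
        (Submodule.smul_mem _ _ (Submodule.subset_span ⟨i₂, rfl⟩))
    have hkey : l.2 ^ 2 • A₁ v₂ = l.1 ^ 2 • (-A₂ v₁) +
        (l.2 • A₁ (l.1 • v₁ + l.2 • v₂) + l.1 • A₂ (l.1 • v₁ + l.2 • v₂)) := by
      have h0 : A₂ v₂ = -A₁ v₁ := eq_neg_of_add_eq_zero_right hsum
      simp only [map_add, map_smul, h0]
      module
    rw [pow_mul l.2 2, pow_mul l.1 2, ← hFs.eval_smul, ← hFs.eval_smul, hkey]
    exact hFs.inv _ (hl l hl0) _ _
      (by simp [dotProduct_add, dotProduct_smul, smul_dotProduct, a21, a22]) hη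

end Pool.Agent.NEF
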