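import Pool.Agent.P.MP_66e591_ag.W1

/-! The two twists. -/

noncomputable section
namespace Pool.Agent.NEF
open MvPolynomial Module Finset Pool.Agent.HCF

variable {M : ℕ} {I : Ideal (SS M)} {c : ℕ}

/-- the determinant of the pairings with `c` covectors -/
def w2om (η : Fin c → VV M) : VV M [⋀^Fin c]→ₗ[ℂ] ℂ :=
  Matrix.detRowAlternating.compLinearMap (Matrix.of η).mulVecLin

theorem w2_apply (η v : Fin c → VV M) :
    w2om η v = (Matrix.of fun k i => η i ⬝ᵥ v k).det := rfl

theorem w2_kill {x : VV M} {η : Fin c → VV M} (hη : ∀ i, η i ∈ conormal I x) (v : Fin c → VV M)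
    (k : Fin c) (hv : v k ∈ tangS I x) : w2om η v = 0 := by
  rw [w2_apply]
  exact Matrix.det_eq_zero_of_row_eq_zero k fun i => hη i _ hv

theorem w2_single (η : Fin c → VV M) (J : Fin c → Fin M) :
    w2om η (fun k => Pi.single (J k) 1) =
      ∑ σ : Equiv.Perm (Fin c), ((Equiv.Perm.sign σ : ℤ) : ℂ) * ∏ i, η i (J (σ i)) := by
  rw [w2_apply, Matrix.det_apply']
  simp

theorem w2_ne {η : Fin c → VV M} (hη : LinearIndependent ℂ η) : ∃ v, w2om η v = 1 := by
  have h1 : (Matrix.of η).rank = Fintype.card (Fin c) := LinearIndependent.rank_matrix hη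
  have h2 : LinearMap.range (Matrix.of η).mulVecLin = ⊤ :=
    Submodule.eq_top_of_finrank_eq (h1.trans (Module.finrank_fintype_fun_eq_card ℂ).symm)
  choose v hv using fun k => LinearMap.range_eq_top.1 h2 (Pi.single k 1)
  refine ⟨v, ?_⟩
  have h3 : (Matrix.of fun k i => η i ⬝ᵥ v k) = 1 := by
    ext k i
    have h4 : η i ⬝ᵥ v k = (Pi.single k 1 : Fin c → ℂ) i := congrFun (hv k) i
    rw [Matrix.of_apply, h4, Matrix.one_apply, Pi.single_apply]
    simp only [eq_comm]
  rw [w2_apply, h3, Matrix.det_one]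

theorem twist_canon (hX : IsManifold I c) {b : ℤ} (hK : CanonicalIs I c b) {s : ℕ}
    (hs : (s : ℤ) = b + M - c) : ∃ D, Twist (Fin c) I s D := by
  classical
  obtain ⟨ν, hν0, hν1, hν2⟩ := hK
  have hD : ∀ z : Option (Fin c) → VV M, ∃ t : ℂ, ∀ h : z ∈ WW (Fin c) I, ∀ v,
      w2om (fun i => z (some i)) v = t * ν ⟨z none, h.1⟩ v := by
    intro z
    by_cases h : z ∈ WW (Fin c) I
    · obtain ⟨t, ht⟩ := alt_prop (hX.finrank_tang h.1) (ν ⟨z none, h.1⟩)
        (w2om fun i => z (some i)) (hν0 _) (hν1 ⟨z none, h.1⟩) (w2_kill h.2)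
      exact ⟨t, fun _ => ht⟩
    · exact ⟨0, fun h' => absurd h' h⟩
  choose D hD using hD
  refine ⟨D, ?_, fun x hx => ?_⟩
  · obtain ⟨e, he⟩ := ns_sec hX (s := s)
      (fun (J : Fin c → Fin M) x => ν x fun k => Pi.single (J k) 1) (fun J => (hν2 _).1)
      (fun J => hs ▸ (hν2 _).2) (fun x => by
        by_contra h
        refine hν0 x ((Pi.basisFun ℂ (Fin M)).ext_alternating fun J _ => ?_)
        simpa using not_not.1 (not_exists.1 h J))
    refine ⟨e, fun j => ?_⟩
    obtain ⟨g, hg, hx⟩ := he j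
    refine ⟨∑ J : Fin c → Fin M, (fun z => eval (z none) (g J)) *
      ∑ σ : Equiv.Perm (Fin c), ((Equiv.Perm.sign σ : ℤ) : ℂ) •
        ∏ i, fun z : Option (Fin c) → VV M => z (some i) (J (σ i)), ?_, fun z hz => ?_⟩
    · rw [dg_eq]
      exact Submodule.sum_mem _ fun J _ => Pd_mul (eval_mem none (hg J))
        (Submodule.sum_mem _ fun σ _ => Submodule.smul_mem _ _
          (Pd_prod _ fun i _ => coord_mem (some i) _))
    · have h1 := hx ⟨z none, hz.1⟩
      dsimp only at h1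
      rw [h1, Finset.sum_mul, Finset.sum_apply]
      refine Finset.sum_congr rfl fun J _ => ?_
      rw [mul_assoc, mul_comm _ (D z), ← hD z hz, w2_single]
      simp only [Pi.mul_apply, Finset.sum_apply, Pi.smul_apply, Finset.prod_apply, smul_eq_mul]
  · obtain ⟨η, h1, h2⟩ := exists_cobasis hX hx
    have hz : (fun o : Option (Fin c) => o.elim x η) ∈ WW (Fin c) I :=
      ⟨hx, fun i => (h2 _).2 (Submodule.subset_span ⟨i, rfl⟩)⟩
    refine ⟨_, hz, rfl, fun h0 => ?_⟩
    obtain ⟨v, hv⟩ := w2_ne h1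
    have h3 := hD _ hz v
    rw [h0, zero_mul] at h3
    exact one_ne_zero (hv.symm.trans h3)

end Pool.Agent.NEF
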