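import Pool.Agent.P.MP_66e591_ag.Key
import Pool.Agent.P.MP_66e591_ag.W2
import Pool.Agent.P.MP_66e591_ag.Q2
import Pool.Agent.P.MP_66e591_ag.C2

/-! The assembly. -/

noncomputable section
namespace Pool.Agent.NEF
open MvPolynomial Module Pool.Agent.HCF

variable {M : ℕ} {I : Ideal (SS M)} {c n : ℕ}

/-- a nef tangent bundle bounds the degree of the Gauss map -/
theorem gauss_bound (hX : IsManifold I c) (hM : M = n + 1 + c) (hN : TangentNef I) {b : ℤ}
    (hK : CanonicalIs I c b) (hc : 1 ≤ c) (hn : 16 * c ≤ n) : b + n + 1 < 3 * c ^ 2 := by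
  rcases lt_or_ge (b + n + 1) 0 with h | h
  · have : (0 : ℤ) ≤ 3 * c ^ 2 := by positivity
    omega
  obtain ⟨s, hs⟩ := Int.eq_ofNat_of_zero_le h
  obtain ⟨D, hD⟩ := twist_canon hX hK (s := s) (by rw [← hs, hM]; push_cast; ring)
  have h1 := key2 hX hM hN hD (by simpa using hc) (k := 30) (p := 1) (q := c) (by norm_num) hc
  rw [Fintype.card_fin] at h1
  have h2 := arith1 hc hn h1
  rw [hs]
  exact_mod_cast h2

theorem ci_degrees (hX : IsManifold I c) (hM : M = n + 1 + c) (hN : TangentNef I)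
    {f : Fin c → SS M} (hI : I = Ideal.span (Set.range f)) {d : Fin c → ℕ}
    (hd : ∀ i, (f i).IsHomogeneous (d i)) (h1 : 1 ≤ n) (hn : 4 * c ≤ n) (i : Fin c) :
    d i = 1 ∨ d i = 2 := by
  obtain ⟨D, hD⟩ := twist_ci hX hI hd i
  have h2 := key2 hX hM hN hD (by simp) (k := 30) (p := 4) (q := 1) (by norm_num) le_rfl
  rw [Fintype.card_unit] at h2
  have h3 := arith2 h1 hn h2
  have h4 := ci_pos hX hI hd i
  omega

theorem ci_zero (hX : IsManifold I 0) :
    ∃ (f : Fin 0 → SS M) (d : Fin 0 → ℕ), (∀ i, (f i).IsHomogeneous (d i)) ∧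
      I = Ideal.span (Set.range f) := by
  refine ⟨Fin.elim0, Fin.elim0, fun i => i.elim0, ?_⟩
  obtain ⟨x, hx⟩ := hX.nonempty
  obtain ⟨f, g, -, -, hg, h⟩ := hX.smooth x hx
  rw [Set.range_eq_empty, Ideal.span_empty] at h ⊢
  refine (Submodule.eq_bot_iff _).2 fun p hp => ?_
  have h1 : g * p = 0 := h p hp
  exact (mul_eq_zero.1 h1).resolve_left fun h0 => hg (by rw [h0, map_zero])

theorem of_ci (hX : IsManifold I c) (hM : M = n + 1 + c) (hN : TangentNef I) (hn : 4 * c ≤ n)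
    (h : ∃ (f : Fin c → SS M) (d : Fin c → ℕ), (∀ i, (f i).IsHomogeneous (d i)) ∧
      I = Ideal.span (Set.range f)) :
    (∃ (f : Fin c → SS M) (d : Fin c → ℕ), (∀ i, (f i).IsHomogeneous (d i)) ∧
      I = Ideal.span (Set.range f) ∧ (∀ i, d i = 1 ∨ d i = 2) ∧
        ∀ i j, d i = 2 → d j = 2 → i = j) ∧ HasCells (cone I) := by
  obtain ⟨f, d, hd, hI⟩ := h
  have h12 : ∀ i, d i = 1 ∨ d i = 2 := fun i =>
    ci_degrees hX hM hN hI hd (by have := i.pos; omega) hn i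
  have h2 : ∀ i j, d i = 2 → d j = 2 → i = j := fun i j hi hj =>
    one_quadric hX hN hI hd h12 (by omega) hi hj
  refine ⟨⟨f, d, hd, hI, h12, h2⟩, ?_⟩
  rw [hI]
  exact cells_of_ci hd h12 h2

end Pool.Agent.NEF
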