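import Pool.Agent.P.MP_66e591_ag.Main
import Pool.Agent.P.MP_f644fa_ag.YMain

/-! Fano manifolds. -/

noncomputable section
namespace Pool.Agent.NEF
open MvPolynomial Module Pool.Agent.HCF

variable {M : ℕ} {I : Ideal (SS M)} {c n : ℕ}

theorem main_fano (hX : IsManifold I c) (hM : M = n + 1 + c) (hN : TangentNef I)
    (hF : IsFano I c) (hn : c * (2 ^ (c - 1) + 1) ^ 2 ≤ n) :
    (∃ (f : Fin c → SS M) (d : Fin c → ℕ), (∀ i, (f i).IsHomogeneous (d i)) ∧
      I = Ideal.span (Set.range f) ∧ (∀ i, d i = 1 ∨ d i = 2) ∧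
        ∀ i j, d i = 2 → d j = 2 → i = j) ∧ HasCells (cone I) := by
  refine of_ci hX hM hN (le_trans ?_ hn) (main_large hX hM hF (by omega))
  have h1 : 1 ≤ 2 ^ (c - 1) := Nat.one_le_two_pow
  have h2 : 4 ≤ (2 ^ (c - 1) + 1) ^ 2 := by nlinarith
  rw [mul_comm]
  exact Nat.mul_le_mul_left c h2

end Pool.Agent.NEF
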