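import Pool.Agent.P.MP_66e591_ag.RA0

/-! The recurrence for the coefficients. -/

noncomputable section
namespace Pool.Agent.NEF
open Finset Pool.Agent.HCF

variable {H : ℕ → ℕ → ℕ} {N a₀ n c : ℕ} {π : ℕ → ℕ → ℤ}

theorem ra1_deg (k : ℕ) : ((1 - Polynomial.X : Polynomial ℂ) ^ k).natDegree ≤ k := by
  have h : (1 - Polynomial.X : Polynomial ℂ).natDegree ≤ 1 := by compute_degree
  simpa using Polynomial.natDegree_pow_le_of_le k h

theorem ra1_reflect (k : ℕ) :
    ((1 - Polynomial.X : Polynomial ℂ) ^ k).reflect k = (Polynomial.X - 1) ^ k := by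
  induction k with
  | zero => simp
  | succ k ih =>
    have h : (1 - Polynomial.X : Polynomial ℂ).natDegree ≤ 1 := by simpa using ra1_deg 1
    rw [pow_succ, Polynomial.reflect_mul _ _ (ra1_deg k) h, ih, pow_succ]
    simp

theorem ra1_one (k : ℕ) :
    (((1 - Polynomial.X : Polynomial ℂ) ^ k).reflect k).comp (1 + Polynomial.X) =
      Polynomial.X ^ k := by
  rw [ra1_reflect]
  simp

theorem ra1_coeff (D : ℕ) (L : Polynomial ℂ) (hL : L.natDegree ≤ D) :
    ((L.reflect D).comp (1 + Polynomial.X)).coeff 0 = L.eval 1 ∧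
      ((L.reflect D).comp (1 + Polynomial.X)).coeff 1 = D * L.eval 1 - L.derivative.eval 1 := by
  refine Polynomial.induction_with_natDegree_le (fun L : Polynomial ℂ =>
    ((L.reflect D).comp (1 + Polynomial.X)).coeff 0 = L.eval 1 ∧
      ((L.reflect D).comp (1 + Polynomial.X)).coeff 1 = D * L.eval 1 - L.derivative.eval 1)
    D ?_ ?_ ?_ L hL
  · simp
  · intro k r _ hk
    rw [Polynomial.reflect_C_mul_X_pow, Polynomial.revAt_le hk, Polynomial.mul_comp,
      Polynomial.C_comp, Polynomial.X_pow_comp, Polynomial.coeff_C_mul, Polynomial.coeff_C_mul,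
      Polynomial.coeff_one_add_X_pow, Polynomial.coeff_one_add_X_pow]
    refine ⟨by simp, ?_⟩
    simp [Nat.cast_sub hk, Polynomial.derivative_X_pow]
    ring
  · intro f g _ _ hf hg
    rw [Polynomial.reflect_add, Polynomial.add_comp, Polynomial.coeff_add, Polynomial.coeff_add,
      hf.1, hf.2, hg.1, hg.2]
    simp only [Polynomial.eval_add, map_add, true_and]
    ring

theorem ra1_high {D p : ℕ} {L : Polynomial ℂ} (hL : L.natDegree ≤ D) (hp : D < p) :
    ((L.reflect D).comp (1 + Polynomial.X)).coeff p = 0 := by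
  refine Polynomial.coeff_eq_zero_of_natDegree_lt (lt_of_le_of_lt ?_ hp)
  have h1 : (1 + Polynomial.X : Polynomial ℂ).natDegree ≤ 1 := by compute_degree
  have h2 : (L.reflect D).natDegree ≤ D := Polynomial.natDegree_reflect_le.trans (max_le le_rfl hL)
  exact Polynomial.natDegree_comp_le.trans ((Nat.mul_le_mul h2 h1).trans (Nat.mul_one D).le)

theorem ra1_alt {k c : ℕ} (hk : k ≤ c) :
    ∑ r ∈ range (c + 1), (-1 : ℂ) ^ r * (k.choose r : ℂ) = if k = 0 then 1 else 0 := by
  have h1 : ∑ r ∈ range (c + 1), (-1 : ℂ) ^ r * (k.choose r : ℂ) =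
      ∑ r ∈ range (k + 1), (-1 : ℂ) ^ r * (k.choose r : ℂ) := by
    refine (sum_subset (range_subset_range.mpr (by omega)) fun r _ hr => ?_).symm
    rw [Nat.choose_eq_zero_of_lt (by simpa using hr)]
    simp
  rw [h1]
  exact_mod_cast congrArg (Int.cast : ℤ → ℂ) (Int.alternating_sum_range_choose (n := k))

theorem HP.xdeg (h : HP H N a₀ π) (hn : ∀ b, PEq ((1 - PowerSeries.X) ^ (n + 1) *
    PowerSeries.mk fun a => (H a b : ℂ)) 0) : ∀ i j, n < i → π i j = 0 := by
  intro i j hi
  obtain ⟨i, rfl⟩ : ∃ i', i = i' + (n + 1) := ⟨i - (n + 1), by omega⟩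
  have h1 := h.act 0 (n + 1) (fun _ => (1 - Polynomial.X) ^ (n + 1)) (fun _ => ra1_deg _)
    (fun b => by simpa using hn b) i j
  simp only [ra1_one, zero_add, sum_range_one, Polynomial.coeff_X_pow] at h1
  rw [sum_eq_single (n + 1) (fun p _ hp => by simp [hp]) (by simp)] at h1
  simpa using h1

theorem HP.array (h : HP H N a₀ π) {s : ℕ} (L : ℕ → Polynomial ℂ) (h0 : (L 0).eval 1 ≠ 0)
    (h1 : (1 - Polynomial.X) ^ 2 ∣ Polynomial.X ^ s * L c - L 0)
    (h2 : ∀ b, PEq ((1 - PowerSeries.X) ^ c * ∑ m ∈ range (c + 1),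
      (-1) ^ m * (L m : PowerSeries ℂ) * PowerSeries.mk fun a => (H a (b + c - m) : ℂ)) 0) :
    ∃ (D : ℕ) (A : ℕ → ℕ → ℂ), (∀ p r, D < p → A p r = 0) ∧ A 0 c ≠ 0 ∧
      ∑ r ∈ range (c + 1), (-1) ^ (c + r) * A 1 r = A 1 c + s * A 0 c ∧
      ∀ i j, ∑ p ∈ range (D + 1), ∑ r ∈ range (c + 1),
        A p r * (π (i + c + p) (j + r) : ℂ) = 0 := by
  obtain ⟨D, hD⟩ : ∃ D, ∀ m ∈ range (c + 1), (L m).natDegree ≤ D :=
    ⟨(range (c + 1)).sup fun m => (L m).natDegree, fun m hm =>
      le_sup (f := fun m => (L m).natDegree) hm⟩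
  obtain ⟨Q, hQ⟩ : ∃ Q : ℕ → Polynomial ℂ, ∀ m, Q m = ((L m).reflect D).comp (1 + Polynomial.X) :=
    ⟨_, fun _ => rfl⟩
  have hc : ∀ p, ∑ m ∈ range (c + 1), (-1 : ℂ) ^ m * (Q m).coeff p * ((c - m).choose c : ℂ) =
      (Q 0).coeff p := fun p => by
    rw [sum_eq_single 0 (fun m hm hm0 => ?_) (by simp)]
    · simp
    · rw [Nat.choose_eq_zero_of_lt (by have := mem_range.mp hm; omega)]
      simp
  have q0 := ra1_coeff D _ (hD 0 (by simp))
  have qc := ra1_coeff D _ (hD c (by simp))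
  rw [← hQ] at q0 qc
  refine ⟨D, fun p r => ∑ m ∈ range (c + 1), (-1) ^ m * (Q m).coeff p * ((c - m).choose r : ℂ),
    fun p r hp => sum_eq_zero fun m hm => ?_, ?_, ?_, fun i j => ?_⟩
  · rw [hQ, ra1_high (hD m hm) hp]
    simp
  · simp only [hc]
    rwa [q0.1]
  · simp only [hc]
    have e1 : ∑ r ∈ range (c + 1), (-1 : ℂ) ^ (c + r) *
        ∑ m ∈ range (c + 1), (-1) ^ m * (Q m).coeff 1 * ((c - m).choose r : ℂ) =
        ∑ m ∈ range (c + 1), (-1) ^ c * (-1) ^ m * (Q m).coeff 1 *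
          ∑ r ∈ range (c + 1), (-1 : ℂ) ^ r * ((c - m).choose r : ℂ) := by
      simp only [mul_sum]
      rw [sum_comm]
      refine sum_congr rfl fun m _ => sum_congr rfl fun r _ => ?_
      ring
    rw [e1, sum_eq_single c (fun m hm hmc => ?_) (by simp)]
    · obtain ⟨W, hW⟩ := h1
      have e2 := congrArg (Polynomial.eval 1) hW
      have e3 := congrArg (fun P => Polynomial.eval 1 (Polynomial.derivative P)) hW
      simp [Polynomial.derivative_mul, Polynomial.derivative_pow] at e2 e3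
      rw [ra1_alt (Nat.sub_le _ _), if_pos (Nat.sub_self c), ← mul_pow, qc.2, q0.2, q0.1]
      simp only [mul_neg, mul_one, neg_neg, one_pow, one_mul]
      linear_combination (D + s : ℂ) * e2 - e3
    · rw [ra1_alt (Nat.sub_le _ _), if_neg (by have := mem_range.mp hm; omega), mul_zero]
  · have hd : ∀ m ∈ range (c + 1), (Polynomial.C ((-1 : ℂ) ^ m) * L m).natDegree ≤ D := fun m hm =>
      (Polynomial.natDegree_C_mul_le _ _).trans (hD m hm)
    have h3 := h.act c (c + D) (fun m => if m ∈ range (c + 1) then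
        (1 - Polynomial.X) ^ c * (Polynomial.C ((-1) ^ m) * L m) else 0) (fun m => by
      split_ifs with hm
      · exact Polynomial.natDegree_mul_le.trans (add_le_add (ra1_deg c) (hd m hm))
      · simp) (fun b => by
      have := h2 b
      rw [mul_sum] at this
      rw [sum_congr rfl fun m hm => by rw [if_pos hm]]
      simpa [mul_assoc] using this) i j
    rw [← h3]
    simp only [sum_mul]
    rw [sum_congr rfl fun p _ => sum_comm, sum_comm]
    refine sum_congr rfl fun m hm => ?_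
    rw [if_pos hm, Polynomial.reflect_mul _ _ (ra1_deg c) (hd m hm), Polynomial.mul_comp, ra1_one,
      Polynomial.reflect_C_mul, Polynomial.mul_comp, Polynomial.C_comp, ← hQ, add_assoc c,
      sum_range_add _ c (D + 1), sum_eq_zero (s := range c) fun p hp => ?_, zero_add]
    · refine sum_congr rfl fun p _ => sum_congr rfl fun r _ => ?_
      rw [add_comm c p, Polynomial.coeff_X_pow_mul, Polynomial.coeff_C_mul, add_comm p c, add_assoc]
    · refine sum_eq_zero fun r _ => ?_
      rw [Polynomial.coeff_X_pow_mul', if_neg (by simpa using hp), zero_mul, zero_mul]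

end Pool.Agent.NEF
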