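import Mathlib

/-! The part of least weight of the recurrence. -/

noncomputable section
namespace Pool.Agent.NEF
open Finset

theorem ra2_gen {n c D : ℕ} {π A : ℕ → ℕ → ℂ}
    (hx : ∀ i j, n < i → π i j = 0) (hd : ∀ i j, n + c ≤ i + j → π i j = 0)
    (a0 : ∀ p r, D < p → A p r = 0)
    (a3 : ∀ i j, ∑ p ∈ range (D + 1), ∑ r ∈ range (c + 1), A p r * π (i + c + p) (j + r) = 0)
    {w k : ℕ} (hc : 1 ≤ c) (hw : w ≤ c) (hk : k + c ≤ n) (hj : w + 1 ≤ c + k)
    (hv : ∀ p r, p + r < w → A p r = 0) :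
    ∑ p ∈ range (k + 1), (if p ≤ w then A p (w - p) else 0) *
      π (n - (k - p)) (c - 1 + (k - p)) = 0 := by
  obtain ⟨i, hi⟩ : ∃ i, n = i + c + k := ⟨n - (k + c), by omega⟩
  obtain ⟨j, hj'⟩ : ∃ j, c + k = j + w + 1 := ⟨c + k - (w + 1), by omega⟩
  have h1 := a3 i j
  rw [sum_subset (s₂ := range (D + k + 1)) (range_subset_range.2 (by omega)) (fun p _ hp =>
      sum_eq_zero fun r _ => by rw [a0 p r (by simpa using hp), zero_mul]),
    ← sum_subset (s₁ := range (k + 1)) (range_subset_range.2 (by omega)) (fun p _ hp =>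
      sum_eq_zero fun r _ => by
        rw [mem_range] at hp
        rw [hx _ _ (by omega), mul_zero])] at h1
  refine Eq.trans (sum_congr rfl fun p hp => ?_) h1
  rw [mem_range] at hp
  split_ifs with h
  · have e1 : i + c + p = n - (k - p) := by omega
    have e2 : j + (w - p) = c - 1 + (k - p) := by omega
    rw [sum_eq_single (w - p) (fun r _ hr => ?_) fun hr => absurd (mem_range.2 (by omega)) hr,
      e1, e2]
    rcases lt_or_gt_of_ne hr with h2 | h2
    · rw [hv p r (by omega), zero_mul]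
    · rw [hd _ _ (by omega), mul_zero]
  · rw [zero_mul]
    exact (sum_eq_zero fun r _ => by rw [hd _ _ (by omega), mul_zero]).symm

theorem ra2_low {n c D : ℕ} (hn : 2 * c ≤ n + 1) {π A : ℕ → ℕ → ℂ}
    (hx : ∀ i j, n < i → π i j = 0) (hd : ∀ i j, n + c ≤ i + j → π i j = 0)
    (h0 : π n (c - 1) ≠ 0) (a0 : ∀ p r, D < p → A p r = 0)
    (a3 : ∀ i j, ∑ p ∈ range (D + 1), ∑ r ∈ range (c + 1), A p r * π (i + c + p) (j + r) = 0)
    (w : ℕ) (hw : w ≤ c) : ∀ p r, p + r < w → A p r = 0 := by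
  induction w with
  | zero => intro p r h; omega
  | succ w ih =>
    have hv := ih (by omega)
    have key : ∀ k, k ≤ w → A k (w - k) = 0 := by
      intro k
      induction k using Nat.strong_induction_on with
      | _ k ihk =>
        intro hk
        have h1 := ra2_gen hx hd a0 a3 (w := w) (k := k) (by omega) (by omega) (by omega)
          (by omega) hv
        rw [sum_range_succ, sum_eq_zero (fun p hp => by
          rw [mem_range] at hp
          rw [if_pos (by omega), ihk p hp (by omega), zero_mul]), zero_add, if_pos hk,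
          Nat.sub_self, Nat.sub_zero, add_zero] at h1
        exact (mul_eq_zero.1 h1).resolve_right h0
    intro p r h
    rcases Nat.lt_succ_iff_lt_or_eq.1 h with h1 | h1
    · exact hv p r h1
    · rw [show r = w - p by omega]
      exact key p (by omega)

theorem weight_rec {n c D : ℕ} (hc : 1 ≤ c) (hn : 2 * c ≤ n + 1) {π A : ℕ → ℕ → ℂ} {s : ℂ}
    (hx : ∀ i j, n < i → π i j = 0) (hd : ∀ i j, n + c ≤ i + j → π i j = 0)
    (h0 : π n (c - 1) ≠ 0) (a0 : ∀ p r, D < p → A p r = 0) (a1 : A 0 c ≠ 0)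
    (a2 : ∑ r ∈ range (c + 1), (-1) ^ (c + r) * A 1 r = A 1 c + s * A 0 c)
    (a3 : ∀ i j, ∑ p ∈ range (D + 1), ∑ r ∈ range (c + 1), A p r * π (i + c + p) (j + r) = 0) :
    ∃ E : ℕ → ℂ, E 0 = 1 ∧ E 1 = -s ∧ (∀ p, c < p → E p = 0) ∧ ∀ k, 1 ≤ k → k + c ≤ n →
      ∑ p ∈ range (k + 1), E p * π (n - (k - p)) (c - 1 + (k - p)) = 0 := by
  have hv := ra2_low hn hx hd h0 a0 a3 c le_rfl
  refine ⟨fun p => (if p ≤ c then A p (c - p) else 0) / A 0 c, ?_, ?_, fun p hp => ?_,
    fun k h1 h2 => ?_⟩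
  · simp only [Nat.zero_le, if_true, Nat.sub_zero]
    exact div_self a1
  · obtain ⟨e, rfl⟩ := Nat.exists_eq_add_of_le' hc
    rw [sum_range_succ, sum_range_succ, sum_eq_zero (fun r hr => by
      rw [mem_range] at hr
      rw [hv 1 r (by omega), mul_zero]), zero_add,
      Odd.neg_one_pow (n := e + 1 + e) ⟨e, by omega⟩,
      Even.neg_one_pow (n := e + 1 + (e + 1)) ⟨e + 1, rfl⟩] at a2
    simp only [if_pos hc, Nat.add_sub_cancel]
    rw [div_eq_iff a1]
    linear_combination -a2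
  · simp only [if_neg (not_le.2 hp), zero_div]
  · have h3 := ra2_gen hx hd a0 a3 (w := c) (k := k) hc le_rfl h2 (by omega) hv
    simp only [div_mul_eq_mul_div]
    rw [← sum_div, h3, zero_div]

end Pool.Agent.NEF
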