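import Mathlib

/-! The root of largest modulus. -/

noncomputable section
namespace Pool.Agent.NEF
open Finset

open Polynomial in
theorem ra3_fac (c : ℕ) : ∀ F : ℂ[X], F.natDegree ≤ c → F.coeff 0 = 1 →
    ∃ x : Fin c → ℂ, F = ∏ i, (1 - C (x i) * X) := by
  induction c with
  | zero =>
    intro F h h0
    refine ⟨fun _ => 0, ?_⟩
    rw [eq_C_of_natDegree_le_zero h, h0]
    simp
  | succ c ih =>
    intro F h h0
    by_cases hc : F.natDegree ≤ c
    · obtain ⟨x, hx⟩ := ih F hc h0
      exact ⟨Fin.cons 0 x, by rw [Fin.prod_univ_succ]; simpa using hx⟩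
    · have hd : 0 < F.degree := natDegree_pos_iff_degree_pos.1 (by omega)
      obtain ⟨z, hz⟩ := Complex.exists_root hd
      have hz0 : z ≠ 0 := by
        rintro rfl
        rw [IsRoot, ← coeff_zero_eq_eval_zero, h0] at hz
        exact one_ne_zero hz
      obtain ⟨G, hG⟩ := dvd_iff_isRoot.2 hz
      have hG0 : G ≠ 0 := by
        rintro rfl
        rw [hG, mul_zero, coeff_zero] at h0
        exact zero_ne_one h0
      have e : F = (1 - C z⁻¹ * X) * (C (-z) * G) := by
        have h1 : (C z⁻¹ * C z : ℂ[X]) = 1 := by rw [← C_mul, inv_mul_cancel₀ hz0, C_1]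
        rw [hG, C_neg]
        linear_combination (-(X * G)) * h1
      have h1 : (C (-z) * G).natDegree ≤ c := by
        refine (natDegree_C_mul_le _ _).trans ?_
        rw [hG, natDegree_mul (X_sub_C_ne_zero z) hG0, natDegree_X_sub_C] at h
        omega
      have h2 : (C (-z) * G).coeff 0 = 1 := by
        rw [e, mul_coeff_zero] at h0
        simpa using h0
      obtain ⟨x, hx⟩ := ih _ h1 h2
      exact ⟨Fin.cons z⁻¹ x, by rw [Fin.prod_univ_succ, e, hx]; simp⟩

open Polynomial in
theorem ra3_succ (x : ℂ) (P : ℂ[X]) (m : ℕ) :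
    ((1 - C x * X) * P).coeff (m + 1) = P.coeff (m + 1) - x * P.coeff m := by
  rw [sub_mul, one_mul, coeff_sub, mul_assoc, coeff_C_mul, coeff_X_mul]

open Polynomial in
theorem ra3_zero (x : ℂ) (P : ℂ[X]) : ((1 - C x * X) * P).coeff 0 = P.coeff 0 := by
  simp

open Polynomial in
theorem ra3_bound {ι : Type} [DecidableEq ι] {x : ι → ℂ} {R : ℝ} (hR : 0 ≤ R)
    (hx : ∀ i, ‖x i‖ ≤ R) (S : Finset ι) :
    ∀ m, ‖(∏ i ∈ S, (1 - C (x i) * X) : ℂ[X]).coeff m‖ ≤ (S.card.choose m : ℝ) * R ^ m := by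
  induction S using Finset.induction_on with
  | empty =>
    intro m
    cases m with
    | zero => simp
    | succ m => simp [coeff_one]
  | insert a S ha ih =>
    intro m
    rw [prod_insert ha, card_insert_of_notMem ha]
    cases m with
    | zero =>
      rw [ra3_zero]
      simpa using ih 0
    | succ m =>
      rw [ra3_succ, Nat.choose_succ_succ']
      refine (norm_sub_le _ _).trans ?_
      rw [norm_mul]
      have h1 := ih (m + 1)
      have h2 := mul_le_mul (hx a) (ih m) (norm_nonneg _) hR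
      push_cast
      calc _ ≤ (S.card.choose (m + 1) : ℝ) * R ^ (m + 1) + R * ((S.card.choose m : ℝ) * R ^ m) :=
            add_le_add h1 h2
        _ = _ := by ring

theorem root_iso {c K : ℕ} (hc : 1 ≤ c) (hK : c ≤ K + 1) {E : ℕ → ℂ} {δ : ℕ → ℝ} {s : ℝ}
    (e0 : E 0 = 1) (e1 : E 1 = -s) (e2 : ∀ p, c < p → E p = 0) (hδ : ∀ k ≤ K, 0 ≤ δ k)
    (h : ∀ k, 1 ≤ k → k ≤ K → ∑ p ∈ range (k + 1), E p * (δ (k - p) : ℂ) = 0) :
    ∃ R : ℝ, 0 ≤ R ∧ s ≤ c * R ∧
      δ 0 * R ^ K ≤ ∑ m ∈ range c, ((c - 1).choose m : ℝ) * R ^ m * δ (K - m) := by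
  obtain ⟨F, hF, hdeg⟩ : ∃ F : Polynomial ℂ, (∀ p, F.coeff p = E p) ∧ F.natDegree ≤ c := by
    have h1 : ∀ p, (∑ q ∈ range (c + 1), Polynomial.monomial q (E q)).coeff p = E p := by
      intro p
      rw [Polynomial.finsetSum_coeff]
      simp only [Polynomial.coeff_monomial, sum_ite_eq', mem_range]
      split_ifs with h
      · rfl
      · exact (e2 p (by omega)).symm
    exact ⟨_, h1, Polynomial.natDegree_le_iff_coeff_eq_zero.2 fun p hp => (h1 p).trans (e2 p hp)⟩
  obtain ⟨x, hx⟩ := ra3_fac c F hdeg ((hF 0).trans e0)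
  obtain ⟨i, -, hi⟩ := exists_max_image (univ : Finset (Fin c)) (fun i => ‖x i‖)
    ⟨⟨0, hc⟩, mem_univ _⟩
  have hi' : ∀ j, ‖x j‖ ≤ ‖x i‖ := fun j => hi j (mem_univ j)
  refine ⟨‖x i‖, norm_nonneg _, ?_, ?_⟩
  · have h1 := ra3_bound (norm_nonneg (x i)) hi' univ 1
    rw [← hx, hF, e1, norm_neg, Complex.norm_real, Real.norm_eq_abs] at h1
    simp only [card_univ, Fintype.card_fin, Nat.choose_one_right, pow_one] at h1
    exact (le_abs_self s).trans h1
  · have hb := ra3_bound (norm_nonneg (x i)) hi' (univ.erase i)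
    rw [card_erase_of_mem (mem_univ i), card_univ, Fintype.card_fin] at hb
    rw [← mul_prod_erase _ _ (mem_univ i)] at hx
    generalize (∏ j ∈ univ.erase i, (1 - Polynomial.C (x j) * Polynomial.X) : Polynomial ℂ) = G
      at hx hb
    have g0 : G.coeff 0 = 1 := by rw [← ra3_zero (x i), ← hx, hF, e0]
    have g1 : ∀ m, E (m + 1) = G.coeff (m + 1) - x i * G.coeff m := fun m => by
      rw [← hF, hx, ra3_succ]
    have hu : ∀ k, k ≤ K →
        ∑ m ∈ range (k + 1), G.coeff m * (δ (k - m) : ℂ) = δ 0 * x i ^ k := by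
      intro k
      induction k with
      | zero => intro _; simp [g0]
      | succ k ih =>
        intro hk
        have h1 := h (k + 1) (by omega) hk
        have h2 := ih (by omega)
        rw [sum_range_succ'] at h1 ⊢
        simp only [g1, sub_mul, sum_sub_distrib, mul_assoc, ← mul_sum, Nat.add_sub_add_right,
          e0] at h1
        simp only [Nat.add_sub_add_right]
        rw [h2] at h1
        rw [g0]
        linear_combination h1
    have h1 : δ 0 * ‖x i‖ ^ K = ‖∑ m ∈ range (K + 1), G.coeff m * (δ (K - m) : ℂ)‖ := by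
      rw [hu K le_rfl, norm_mul, norm_pow, Complex.norm_real,
        Real.norm_of_nonneg (hδ 0 (Nat.zero_le K))]
    rw [h1]
    refine (norm_sum_le _ _).trans ?_
    rw [sum_subset (range_subset_range.2 hK) (fun m _ hm => by
      rw [Nat.choose_eq_zero_of_lt (by rw [mem_range] at hm; omega)]
      simp)]
    refine sum_le_sum fun m _ => ?_
    have h2 := hδ (K - m) (Nat.sub_le K m)
    rw [norm_mul, Complex.norm_real, Real.norm_of_nonneg h2]
    exact mul_le_mul_of_nonneg_right (hb m) h2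

end Pool.Agent.NEF
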