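import Mathlib

/-! The arithmetic. -/

noncomputable section
namespace Pool.Agent.NEF
open Finset

theorem ra4_choose (r : ℕ) : ∀ N : ℕ, 9 * r ≤ 2 * N → 9 ^ r ≤ 2 ^ r * N.choose r := by
  induction r with
  | zero => intro N _; simp
  | succ r ih =>
    intro N hN
    obtain ⟨M, rfl⟩ : ∃ M, N = M + 1 := ⟨N - 1, by omega⟩
    have h1 := ih M (by omega)
    have h2 := Nat.add_one_mul_choose_eq M r
    refine Nat.le_of_mul_le_mul_right ?_ (Nat.succ_pos r)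
    calc 9 ^ (r + 1) * (r + 1) = 9 ^ r * (9 * (r + 1)) := by ring
      _ ≤ 2 ^ r * M.choose r * (2 * (M + 1)) := Nat.mul_le_mul h1 hN
      _ = 2 ^ (r + 1) * ((M + 1) * M.choose r) := by ring
      _ = 2 ^ (r + 1) * (M + 1).choose (r + 1) * (r + 1) := by rw [h2, mul_assoc]

theorem ra4_id (n r s : ℕ) : (81 : ℝ) ^ n * 270 ^ (r + s + 1) =
    (7 / 2 * (27 / 20) ^ n * (9 / 7) ^ (r + s + 1) * (7 / 3) ^ r) *
      (20 ^ r * 210 ^ s * 60 ^ (n + 1) * (9 / 2) ^ r) := by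
  have e1 : (81 : ℝ) ^ n = (27 / 20) ^ n * 60 ^ n := by rw [← mul_pow]; norm_num
  have e2 : (270 : ℝ) ^ (r + s + 1) = (9 / 7) ^ (r + s + 1) * 210 ^ (r + s + 1) := by
    rw [← mul_pow]; norm_num
  have e3 : (210 : ℝ) ^ r = (7 / 3) ^ r * 20 ^ r * (9 / 2) ^ r := by
    rw [← mul_pow, ← mul_pow]; norm_num
  rw [e1, e2, pow_succ (210 : ℝ), pow_add (210 : ℝ), e3, pow_succ (60 : ℝ)]
  generalize (27 / 20 : ℝ) ^ n = a
  generalize (60 : ℝ) ^ n = b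
  generalize (9 / 7 : ℝ) ^ (r + s + 1) = c
  generalize (7 / 3 : ℝ) ^ r = d
  generalize (20 : ℝ) ^ r = e
  generalize (9 / 2 : ℝ) ^ r = f
  generalize (210 : ℝ) ^ s = g
  ring

theorem ra4_delta {n r s : ℕ} (h1 : 9 * r ≤ 2 * (r + s)) (h2 : n ≤ r + s) {d d0 : ℝ} (h0 : 0 < d0)
    (hb : d * ((20 : ℝ) ^ r * 210 ^ s * 60 ^ (n + 1) * n.factorial * (r + s + 1).factorial) ≤
      d0 * ((81 : ℝ) ^ n * 270 ^ (r + s + 1) * (n + 1).factorial * r.factorial * s.factorial)) :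
    d ≤ d0 * (7 / 2 * (27 / 20) ^ n * (9 / 7) ^ (r + s + 1) * (7 / 3) ^ r) := by
  rcases le_or_gt d 0 with hd | hd
  · exact hd.trans (by positivity)
  have hC : (9 / 2 : ℝ) ^ r ≤ ((r + s).choose r : ℝ) := by
    rw [div_pow, div_le_iff₀ (by positivity), mul_comm]
    exact_mod_cast ra4_choose r (r + s) h1
  have e1 : ((r + s + 1).factorial : ℝ) =
      ((r + s : ℕ) + 1) * (((r + s).choose r : ℝ) * r.factorial * s.factorial) := by
    have e := Nat.add_choose_mul_factorial_mul_factorial r s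
    rw [← Nat.choose_symm_add] at e
    rw [Nat.factorial_succ, ← e]
    push_cast
    ring
  have e2 : ((n + 1).factorial : ℝ) = ((n : ℝ) + 1) * n.factorial := by
    rw [Nat.factorial_succ]
    push_cast
    ring
  have h3 : (n : ℝ) + 1 ≤ ((r + s : ℕ) : ℝ) + 1 := by
    have : (n : ℝ) ≤ ((r + s : ℕ) : ℝ) := by exact_mod_cast h2
    linarith
  rw [e1, e2, ra4_id] at hb
  have f1 : (0 : ℝ) < n.factorial := by exact_mod_cast n.factorial_pos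
  have f2 : (0 : ℝ) < r.factorial := by exact_mod_cast r.factorial_pos
  have f3 : (0 : ℝ) < s.factorial := by exact_mod_cast s.factorial_pos
  have hA : (0 : ℝ) < 20 ^ r * 210 ^ s * 60 ^ (n + 1) := by positivity
  have hq : (0 : ℝ) < (9 / 2) ^ r := by positivity
  generalize (20 : ℝ) ^ r * 210 ^ s * 60 ^ (n + 1) = A at hb hA
  generalize (7 / 2 * (27 / 20) ^ n * (9 / 7) ^ (r + s + 1) * (7 / 3) ^ r : ℝ) = K at hb ⊢
  generalize (9 / 2 : ℝ) ^ r = q at hb hq hC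
  have hn : (0 : ℝ) < (n : ℝ) + 1 := by positivity
  have hP : 0 < A * n.factorial * (((n : ℝ) + 1) * (q * r.factorial * s.factorial)) := by
    positivity
  refine le_of_mul_le_mul_right ?_ hP
  calc d * (A * n.factorial * (((n : ℝ) + 1) * (q * r.factorial * s.factorial)))
      ≤ d * (A * n.factorial * ((((r + s : ℕ) : ℝ) + 1) *
        (((r + s).choose r : ℝ) * r.factorial * s.factorial))) := by gcongr
    _ ≤ _ := hb
    _ = _ := by ring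

theorem ra4_sum (k : ℕ) : ∑ m ∈ range (k + 1), (k.choose m : ℝ) * 7 ^ m = 8 ^ k := by
  have h := add_pow (7 : ℝ) 1 k
  rw [show (7 : ℝ) + 1 = 8 by norm_num] at h
  rw [h]
  exact sum_congr rfl fun m _ => by rw [one_pow]; ring

theorem ra4_fin (c k : ℕ) (hk : 7 * (c + 1) ≤ k) :
    (7 / 2 * (27 / 20) ^ (c + 1 + k) * (9 / 7) ^ (c + 1 + k + (c + 1)) * (7 / 3) ^ (c + 1) : ℝ) *
      8 ^ c < 3 ^ k := by
  have e1 : (27 / 20 : ℝ) ^ (c + 1 + k) * (9 / 7) ^ (c + 1 + k) =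
      (81 / 140) ^ (c + 1 + k) * 3 ^ (c + 1 + k) := by
    rw [← mul_pow, ← mul_pow]; norm_num
  have e2 : (9 / 7 : ℝ) ^ (c + 1) * (7 / 3) ^ (c + 1) * 8 ^ (c + 1) * 3 ^ (c + 1) = 72 ^ (c + 1) := by
    rw [← mul_pow, ← mul_pow, ← mul_pow]; norm_num
  have h1 : (81 / 140 : ℝ) ^ (c + 1 + k) ≤ ((81 / 140) ^ 8) ^ (c + 1) := by
    rw [← pow_mul]
    exact pow_le_pow_of_le_one (by norm_num) (by norm_num) (by omega)
  have h2 : ((81 / 140 : ℝ) ^ 8) ^ (c + 1) * 72 ^ (c + 1) ≤ 1 := by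
    rw [← mul_pow]
    exact pow_le_one₀ (by norm_num) (by norm_num)
  have h3 : (81 / 140 : ℝ) ^ (c + 1 + k) * 72 ^ (c + 1) ≤ 1 :=
    (mul_le_mul_of_nonneg_right h1 (by positivity)).trans h2
  have h4 : (0 : ℝ) < 3 ^ k := by positivity
  have e3 : (7 / 2 * (27 / 20) ^ (c + 1 + k) * (9 / 7) ^ (c + 1 + k + (c + 1)) *
      (7 / 3) ^ (c + 1) : ℝ) * 8 ^ c =
      7 / 16 * ((81 / 140) ^ (c + 1 + k) * 72 ^ (c + 1)) * 3 ^ k := by
    rw [← e2, pow_add (9 / 7 : ℝ) (c + 1 + k), pow_succ (8 : ℝ)]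
    rw [pow_add (3 : ℝ)] at e1
    generalize (27 / 20 : ℝ) ^ (c + 1 + k) = a at e1 ⊢
    generalize (9 / 7 : ℝ) ^ (c + 1 + k) = b at e1 ⊢
    generalize (81 / 140 : ℝ) ^ (c + 1 + k) = u at e1 ⊢
    generalize (3 : ℝ) ^ (c + 1) = v at e1 ⊢
    generalize (3 : ℝ) ^ k = w at e1 ⊢
    generalize (9 / 7 : ℝ) ^ (c + 1) = x
    generalize (7 / 3 : ℝ) ^ (c + 1) = y
    generalize (8 : ℝ) ^ c = z
    linear_combination (7 / 2 * x * y * z) * e1
  rw [e3]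
  nlinarith

theorem arith3 {n c : ℕ} (hc : 1 ≤ c) (hn : 8 * c ≤ n) {δ : ℕ → ℝ} (h0 : 0 < δ 0)
    (hb : ∀ i ≤ n, δ i * ((20 : ℝ) ^ (n - i) * 210 ^ (c - 1 + i) * 60 ^ (n + 1) * n.factorial *
      (n + c).factorial) ≤ δ 0 * ((81 : ℝ) ^ n * 270 ^ (n + c) * (n + 1).factorial *
        (n - i).factorial * (c - 1 + i).factorial)) {R : ℝ} (hR : 0 ≤ R)
    (h : δ 0 * R ^ (n - c) ≤ ∑ m ∈ range c, ((c - 1).choose m : ℝ) * R ^ m * δ (n - c - m)) :
    R < 3 := by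
  by_contra hR3
  have h3 : 3 ≤ R := not_lt.mp hR3
  obtain ⟨c, rfl⟩ : ∃ c', c = c' + 1 := ⟨c - 1, by omega⟩
  obtain ⟨k, rfl⟩ : ∃ k, n = c + 1 + k := ⟨n - (c + 1), by omega⟩
  simp only [Nat.add_sub_cancel, Nat.add_sub_cancel_left] at hb h
  have hf := ra4_fin c k (by omega)
  set K : ℝ := 7 / 2 * (27 / 20) ^ (c + 1 + k) * (9 / 7) ^ (c + 1 + k + (c + 1)) *
    (7 / 3) ^ (c + 1) with hK
  have hK0 : 0 < K := by positivity
  have hRk : 0 < R ^ k := by positivity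
  have key : ∀ m ∈ range (c + 1), (c.choose m : ℝ) * R ^ m * δ (k - m) * 3 ^ k ≤
      δ 0 * R ^ k * K * ((c.choose m : ℝ) * 7 ^ m) := by
    intro m hm
    have hm' := mem_range.mp hm
    obtain ⟨i, hi⟩ : ∃ i, k = m + i := ⟨k - m, by omega⟩
    have h4 := hb i (by omega)
    have e1 : c + 1 + k - i = c + 1 + m := by omega
    have e2 : c + 1 + k + (c + 1) = c + 1 + m + (c + i) + 1 := by omega
    rw [e1, e2] at h4
    have h5 := ra4_delta (by omega) (by omega) h0 h4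
    rw [← e2, pow_add (7 / 3 : ℝ) (c + 1) m, ← mul_assoc, ← mul_assoc, mul_assoc (δ 0), ← hK] at h5
    have e3 : k - m = i := by omega
    have h6 : R ^ m * 3 ^ k ≤ R ^ k * 3 ^ m := by
      rw [hi, pow_add, pow_add]
      have h7 : (3 : ℝ) ^ i ≤ R ^ i := pow_le_pow_left₀ (by norm_num) h3 i
      calc R ^ m * (3 ^ m * 3 ^ i) ≤ R ^ m * (3 ^ m * R ^ i) := by gcongr
        _ = _ := by ring
    have e4 : (7 : ℝ) ^ m = (7 / 3) ^ m * 3 ^ m := by rw [← mul_pow]; norm_num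
    rw [e3, e4]
    calc (c.choose m : ℝ) * R ^ m * δ i * 3 ^ k
        ≤ (c.choose m : ℝ) * R ^ m * (δ 0 * K * (7 / 3) ^ m) * 3 ^ k := by gcongr
      _ = (c.choose m : ℝ) * (δ 0 * K * (7 / 3) ^ m) * (R ^ m * 3 ^ k) := by ring
      _ ≤ (c.choose m : ℝ) * (δ 0 * K * (7 / 3) ^ m) * (R ^ k * 3 ^ m) := by gcongr
      _ = _ := by ring
  have h8 := sum_le_sum key
  rw [← sum_mul, ← mul_sum, ra4_sum] at h8
  have h9 := (mul_le_mul_of_nonneg_right h (show (0 : ℝ) ≤ 3 ^ k by positivity)).trans h8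
  have h10 : δ 0 * R ^ k * (K * 8 ^ c) < δ 0 * R ^ k * 3 ^ k :=
    mul_lt_mul_of_pos_left hf (mul_pos h0 hRk)
  rw [← mul_assoc] at h10
  linarith

end Pool.Agent.NEF
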