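import Pool.Agent.P.MP_66e591_ag.RD1

/-! Hyperplane sections of multigraded ideals. -/

noncomputable section
namespace Pool.Agent.NEF
open MvPolynomial Module Pool.Agent.HCF

variable {ι : Type} [Fintype ι] [DecidableEq ι] {M : ℕ}

theorem Pw_finite (a : ι → ℕ) : Module.Finite ℂ (Pw M a) := by
  have h : Pw M a ≤ restrictTotalDegree (ι × Fin M) ℂ (∑ i, a i) := by
    intro f hf
    rw [mem_restrictTotalDegree]
    refine Finset.sup_le fun d hd => le_of_eq ?_
    have h1 : Finsupp.weight (wt ι M) d = a := hf (mem_support_iff.1 hd)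
    rw [← h1, Finsupp.weight_apply, Finsupp.sum, Finsupp.sum]
    simp only [Finset.sum_apply, Pi.smul_apply, smul_eq_mul]
    rw [Finset.sum_comm]
    refine Finset.sum_congr rfl fun q _ => ?_
    rw [← Finset.mul_sum]
    simp [wt]
  exact Module.Finite.of_injective (Submodule.inclusion h) (Submodule.inclusion_injective h)

theorem rb2_mon (d : ι × Fin M →₀ ℕ) (c : ℂ) :
    (monomial d c : PP ι M) ∈ Pw M (Finsupp.weight (wt ι M) d) :=
  isWeightedHomogeneous_monomial _ d c rfl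

theorem rb2_mul {a u : ι → ℕ} {f l : PP ι M} (hf : f ∈ Pw M a) (hl : l ∈ Pw M u) :
    f * l ∈ Pw M (a + u) :=
  IsWeightedHomogeneous.mul hf hl

theorem rb2_comp {a b : ι → ℕ} {f : PP ι M} (hf : f ∈ Pw M a) :
    weightedHomogeneousComponent (wt ι M) b f = if b = a then f else 0 :=
  weightedHomogeneousComponent_of_mem hf

theorem rb2_key {u : ι → ℕ} {l : PP ι M} (hl : l ∈ Pw M u) (a : ι → ℕ) (g : PP ι M) :
    weightedHomogeneousComponent (wt ι M) (a + u) (g * l) =
      weightedHomogeneousComponent (wt ι M) a g * l := by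
  induction g using MvPolynomial.induction_on' with
  | monomial d c =>
    rw [rb2_comp (rb2_mul (rb2_mon d c) hl), rb2_comp (rb2_mon d c)]
    by_cases h : a = Finsupp.weight (wt ι M) d
    · rw [if_pos h, if_pos (by rw [h])]
    · rw [if_neg h, if_neg fun h' => h (add_right_cancel h'), zero_mul]
  | add p q hp hq => rw [add_mul, map_add, map_add, hp, hq, add_mul]

theorem rb2_span {u : ι → ℕ} {l : PP ι M} (hl : l ∈ Pw M u) (a : ι → ℕ) (g : PP ι M) :
    weightedHomogeneousComponent (wt ι M) a (g * l) ∈ Ideal.span {l} := by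
  induction g using MvPolynomial.induction_on' with
  | monomial d c =>
    rw [rb2_comp (rb2_mul (rb2_mon d c) hl)]
    split_ifs
    · exact Ideal.mul_mem_left _ _ (Ideal.mem_span_singleton_self l)
    · exact zero_mem _
  | add p q hp hq =>
    rw [add_mul, map_add]
    exact add_mem hp hq

theorem MH.sup {J : Ideal (PP ι M)} (hJ : MH J) {u : ι → ℕ} {l : PP ι M} (hl : l ∈ Pw M u) :
    MH (J ⊔ Ideal.span {l}) := by
  intro f hf a
  obtain ⟨j, hj, k, hk, rfl⟩ := Submodule.mem_sup.1 hf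
  obtain ⟨g, rfl⟩ := Ideal.mem_span_singleton'.1 hk
  rw [map_add]
  exact Submodule.add_mem_sup (hJ j hj a) (rb2_span hl a g)

theorem rb2_rank {V W : Type} [AddCommGroup V] [Module ℂ V] [AddCommGroup W] [Module ℂ W]
    (f : V →ₗ[ℂ] W) (S : Submodule ℂ V) [Module.Finite ℂ S] :
    finrank ℂ (S.map f) + finrank ℂ (S ⊓ LinearMap.ker f : Submodule ℂ V) = finrank ℂ S := by
  have h := LinearMap.finrank_range_add_finrank_ker (f.domRestrict S)
  rw [LinearMap.range_domRestrict, LinearMap.ker_domRestrict,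
    ← Submodule.finrank_map_subtype_eq S, Submodule.map_comap_subtype] at h
  exact h

theorem HJ_step {J : Ideal (PP ι M)} (hJ : MH J) {u a : ι → ℕ} {l : PP ι M} (hl : l ∈ Pw M u)
    (h : ∀ f ∈ Pw M a, l * f ∈ J → f ∈ J) :
    HJ (J ⊔ Ideal.span {l}) (a + u) + HJ J a = HJ J (a + u) := by
  have := Pw_finite (M := M) a
  have := Pw_finite (M := M) (a + u)
  let π := (Ideal.Quotient.mkₐ ℂ J).toLinearMap
  let φ := (Ideal.Quotient.factorₐ ℂ (le_sup_left : J ≤ J ⊔ Ideal.span {l})).toLinearMap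
  let μ : (PP ι M ⧸ J) →ₗ[ℂ] (PP ι M ⧸ J) := LinearMap.mulLeft ℂ (π l)
  have hπ : ∀ f, π f = Ideal.Quotient.mk J f := fun _ => rfl
  have hφ : ∀ f, φ (π f) = Ideal.Quotient.mk (J ⊔ Ideal.span {l}) f := fun _ => rfl
  have hμ : ∀ f, μ (π f) = π (l * f) := fun f => by
    rw [hπ (l * f), map_mul]
    rfl
  have h1 := rb2_rank φ ((Pw M (a + u)).map π)
  have h2 := rb2_rank μ ((Pw M a).map π)
  have h3 : (Pw M a).map π ⊓ LinearMap.ker μ = ⊥ := by
    rw [eq_bot_iff]
    rintro _ ⟨⟨f, hf, rfl⟩, h4⟩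
    have h5 : μ (π f) = 0 := h4
    rw [hμ, hπ, Ideal.Quotient.eq_zero_iff_mem] at h5
    rw [Submodule.mem_bot, hπ, Ideal.Quotient.eq_zero_iff_mem]
    exact h f hf h5
  have h4 : (Pw M (a + u)).map π ⊓ LinearMap.ker φ = ((Pw M a).map π).map μ := by
    apply le_antisymm
    · rintro _ ⟨⟨f, hf, rfl⟩, h4⟩
      have h5 : φ (π f) = 0 := h4
      rw [hφ, Ideal.Quotient.eq_zero_iff_mem] at h5
      obtain ⟨j, hj, k, hk, h6⟩ := Submodule.mem_sup.1 h5
      obtain ⟨g, rfl⟩ := Ideal.mem_span_singleton'.1 hk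
      have h7 := congrArg (weightedHomogeneousComponent (wt ι M) (a + u)) h6
      rw [map_add, rb2_key hl, rb2_comp hf, if_pos rfl] at h7
      refine ⟨π (weightedHomogeneousComponent (wt ι M) a g),
        ⟨_, weightedHomogeneousComponent_mem _ g a, rfl⟩, ?_⟩
      rw [hμ, ← h7, map_add, mul_comm l, hπ (weightedHomogeneousComponent _ _ j),
        Ideal.Quotient.eq_zero_iff_mem.2 (hJ j hj _), zero_add]
    · rintro _ ⟨_, ⟨f, hf, rfl⟩, rfl⟩
      rw [hμ]
      refine ⟨⟨l * f, ?_, rfl⟩, ?_⟩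
      · rw [mul_comm]
        exact rb2_mul hf hl
      · show φ (π (l * f)) = 0
        rw [hφ, Ideal.Quotient.eq_zero_iff_mem]
        exact Ideal.mem_sup_right (Ideal.mul_mem_right _ _ (Ideal.mem_span_singleton_self l))
  rw [h3, finrank_bot, add_zero] at h2
  rw [h4, h2, ← Submodule.map_comp] at h1
  exact h1

theorem HJ_zero {J : Ideal (PP ι M)} {a : ι → ℕ} (h : ∀ f ∈ Pw M a, f ∈ J) : HJ J a = 0 := by
  have h1 : (Pw M a).map (Ideal.Quotient.mkₐ ℂ J).toLinearMap = ⊥ := by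
    rw [eq_bot_iff]
    rintro _ ⟨f, hf, rfl⟩
    exact Ideal.Quotient.eq_zero_iff_mem.2 (h f hf)
  rw [HJ, h1, finrank_bot]

end Pool.Agent.NEF
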