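import Pool.Agent.P.MP_66e591_ag.RB1
import Pool.Agent.P.MP_66e591_ag.RB2

/-! Differences of bigraded Hilbert functions. -/

noncomputable section
namespace Pool.Agent.NEF
open MvPolynomial Module Pool.Agent.HCF

variable {M : ℕ}

theorem rb3_dx {f g : ℕ → ℕ → ℤ} {a₀ p q : ℕ} (n : ℕ)
    (h : ∀ a ≥ a₀, ∀ b ≥ a₀, f a b = g (a + p) (b + q)) :
    ∀ a ≥ a₀, ∀ b ≥ a₀, dx^[n] f a b = dx^[n] g (a + p) (b + q) := by
  induction n with
  | zero => exact h
  | succ n ih =>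
    intro a ha b hb
    rw [Function.iterate_succ_apply', Function.iterate_succ_apply']
    simp only [dx]
    rw [ih (a + 1) (by omega) b hb, ih a ha b hb, Nat.add_right_comm a 1 p]

theorem rb3_dy {f g : ℕ → ℕ → ℤ} {a₀ p q : ℕ} (n : ℕ)
    (h : ∀ a ≥ a₀, ∀ b ≥ a₀, f a b = g (a + p) (b + q)) :
    ∀ a ≥ a₀, ∀ b ≥ a₀, dy^[n] f a b = dy^[n] g (a + p) (b + q) := by
  induction n with
  | zero => exact h
  | succ n ih =>
    intro a ha b hb
    rw [Function.iterate_succ_apply', Function.iterate_succ_apply']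
    simp only [dy]
    rw [ih a ha (b + 1) (by omega), ih a ha b hb, Nat.add_right_comm b 1 q]

theorem rb3_comm : Function.Commute dx dy := by
  intro f
  funext a b
  simp only [dx, dy]
  ring

theorem rb3_dgx (a b : ℕ) :
    (dg a fun _ : Unit => b) + Pi.single none 1 = dg (a + 1) fun _ : Unit => b := by
  funext o
  cases o <;> simp [dg]

theorem rb3_dgy (a b : ℕ) :
    (dg a fun _ : Unit => b) + Pi.single (some ()) 1 = dg a fun _ : Unit => b + 1 := by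
  funext o
  cases o <;> simp [dg]

theorem rb3_x {J : Ideal (PP (Option Unit) M)} (hJ : MH J) : ∃ J' : Ideal (PP (Option Unit) M),
    MH J' ∧ ∃ a₀, (∀ a ≥ a₀, ∀ b ≥ a₀,
      dx (fun a b => (H2 J a b : ℤ)) a b = (fun a b => (H2 J' a b : ℤ)) (a + 1) (b + 0)) ∧
      (J < J' ∨ ∀ a ≥ a₀, ∀ b ≥ a₀, (H2 J a b : ℤ) = 0) := by
  obtain ⟨l, hl, a₀, h⟩ := filter_reg hJ none
  refine ⟨_, hJ.sup hl, a₀, fun a ha b _ => ?_, ?_⟩
  · have := HJ_step hJ hl (h (dg a fun _ => b) ha)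
    rw [rb3_dgx] at this
    simp only [dx, H2, add_zero]
    omega
  · by_cases hm : l ∈ J
    · refine Or.inr fun a ha b _ => ?_
      rw [H2, HJ_zero fun f hf => h (dg a fun _ => b) ha f hf (J.mul_mem_right f hm)]
      rfl
    · refine Or.inl (lt_of_le_of_ne le_sup_left fun e => hm ?_)
      rw [e]
      exact Ideal.mem_sup_right (Ideal.mem_span_singleton_self l)

theorem rb3_y {J : Ideal (PP (Option Unit) M)} (hJ : MH J) : ∃ J' : Ideal (PP (Option Unit) M),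
    MH J' ∧ ∃ a₀, (∀ a ≥ a₀, ∀ b ≥ a₀,
      dy (fun a b => (H2 J a b : ℤ)) a b = (fun a b => (H2 J' a b : ℤ)) (a + 0) (b + 1)) ∧
      (J < J' ∨ ∀ a ≥ a₀, ∀ b ≥ a₀, (H2 J a b : ℤ) = 0) := by
  obtain ⟨l, hl, a₀, h⟩ := filter_reg hJ (some ())
  refine ⟨_, hJ.sup hl, a₀, fun a _ b hb => ?_, ?_⟩
  · have := HJ_step hJ hl (h (dg a fun _ => b) hb)
    rw [rb3_dgy] at this
    simp only [dy, H2, add_zero]
    omega
  · by_cases hm : l ∈ J
    · refine Or.inr fun a _ b hb => ?_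
      rw [H2, HJ_zero fun f hf => h (dg a fun _ => b) hb f hf (J.mul_mem_right f hm)]
      rfl
    · refine Or.inl (lt_of_le_of_ne le_sup_left fun e => hm ?_)
      rw [e]
      exact Ideal.mem_sup_right (Ideal.mem_span_singleton_self l)

theorem rb3_posy (j : ℕ) : ∀ J : Ideal (PP (Option Unit) M), MH J →
    ∃ a₀, ∀ a ≥ a₀, ∀ b ≥ a₀, 0 ≤ dy^[j] (fun a b => (H2 J a b : ℤ)) a b := by
  induction j with
  | zero => exact fun J _ => ⟨0, fun a _ b _ => Int.natCast_nonneg _⟩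
  | succ j ih =>
    intro J hJ
    obtain ⟨J', hJ', a₀, h, -⟩ := rb3_y hJ
    obtain ⟨a₁, h1⟩ := ih J' hJ'
    refine ⟨max a₀ a₁, fun a ha b hb => ?_⟩
    rw [Function.iterate_succ_apply,
      rb3_dy (g := fun a b => (H2 J' a b : ℤ)) (a₀ := a₀) j h a (by omega) b (by omega)]
    exact h1 _ (by omega) _ (by omega)

theorem rb3_nilx (J : Ideal (PP (Option Unit) M)) : MH J →
    ∃ N a₀, ∀ a ≥ a₀, ∀ b ≥ a₀, dx^[N] (fun a b => (H2 J a b : ℤ)) a b = 0 := by
  induction J using WellFoundedGT.induction with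
  | ind J ih =>
    intro hJ
    obtain ⟨J', hJ', a₀, h, h' | h'⟩ := rb3_x hJ
    · obtain ⟨N, a₁, h1⟩ := ih J' h' hJ'
      refine ⟨N + 1, max a₀ a₁, fun a ha b hb => ?_⟩
      rw [Function.iterate_succ_apply,
        rb3_dx (g := fun a b => (H2 J' a b : ℤ)) (a₀ := a₀) N h a (by omega) b (by omega)]
      exact h1 _ (by omega) _ (by omega)
    · exact ⟨0, a₀, h'⟩

theorem rb3_nily (J : Ideal (PP (Option Unit) M)) : MH J →
    ∃ N a₀, ∀ a ≥ a₀, ∀ b ≥ a₀, dy^[N] (fun a b => (H2 J a b : ℤ)) a b = 0 := by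
  induction J using WellFoundedGT.induction with
  | ind J ih =>
    intro hJ
    obtain ⟨J', hJ', a₀, h, h' | h'⟩ := rb3_y hJ
    · obtain ⟨N, a₁, h1⟩ := ih J' h' hJ'
      refine ⟨N + 1, max a₀ a₁, fun a ha b hb => ?_⟩
      rw [Function.iterate_succ_apply,
        rb3_dy (g := fun a b => (H2 J' a b : ℤ)) (a₀ := a₀) N h a (by omega) b (by omega)]
      exact h1 _ (by omega) _ (by omega)
    · exact ⟨0, a₀, h'⟩

theorem H2_pos (i j : ℕ) : ∀ J : Ideal (PP (Option Unit) M), MH J →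
    ∃ a₀, ∀ a ≥ a₀, ∀ b ≥ a₀, 0 ≤ dx^[i] (dy^[j] fun a b => (H2 J a b : ℤ)) a b := by
  induction i with
  | zero => exact rb3_posy j
  | succ i ih =>
    intro J hJ
    obtain ⟨J', hJ', a₀, h, -⟩ := rb3_x hJ
    obtain ⟨a₁, h1⟩ := ih J' hJ'
    refine ⟨max a₀ a₁, fun a ha b hb => ?_⟩
    rw [Function.iterate_succ_apply, rb3_comm.iterate_right j,
      rb3_dx (a₀ := a₀) i (rb3_dy (g := fun a b => (H2 J' a b : ℤ)) j h) a (by omega) b (by omega)]
    exact h1 _ (by omega) _ (by omega)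

theorem H2_nil {J : Ideal (PP (Option Unit) M)} (hJ : MH J) :
    ∃ N a₀, ∀ a ≥ a₀, ∀ b ≥ a₀, dx^[N] (fun a b => (H2 J a b : ℤ)) a b = 0 ∧
      dy^[N] (fun a b => (H2 J a b : ℤ)) a b = 0 := by
  obtain ⟨N, a₀, h⟩ := rb3_nilx J hJ
  obtain ⟨N', a₁, h'⟩ := rb3_nily J hJ
  have zx : dx (fun _ _ => 0) = fun _ _ => 0 := by
    funext a b
    simp [dx]
  have zy : dy (fun _ _ => 0) = fun _ _ => 0 := by
    funext a b
    simp [dy]
  refine ⟨N + N', max a₀ a₁, fun a ha b hb => ⟨?_, ?_⟩⟩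
  · rw [add_comm N N', Function.iterate_add_apply,
      rb3_dx (g := fun _ _ => 0) (a₀ := a₀) (p := 0) (q := 0) N' h a (by omega) b (by omega),
      Function.iterate_fixed zx]
  · rw [Function.iterate_add_apply,
      rb3_dy (g := fun _ _ => 0) (a₀ := a₁) (p := 0) (q := 0) N h' a (by omega) b (by omega),
      Function.iterate_fixed zy]

end Pool.Agent.NEF
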