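import Pool.Agent.P.MP_66e591_ag.RG2
import Pool.Agent.P.MP_66e591_ag.Ind
import Pool.Agent.P.MP_66e591_ag.S3

/-! The main inequality. -/

noncomputable section
namespace Pool.Agent.NEF
open MvPolynomial Module Finset Pool.Agent.HCF

variable {M : ℕ} {I : Ideal (SS M)} {c n : ℕ}

theorem HW_key (hX : IsManifold I c) (hM : M = n + 1 + c) (hN : TangentNef I) {k : ℕ}
    (hk : 1 ≤ k) : ∃ C, ∀ J a' b' H₀, (∀ a ≥ a', ∀ b ≥ b', H₀ ≤ HW I a b) →
      Nat.multichoose (n + 2) J * H₀ ≤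
        HR I (a' + (J + J / k + C)) * Nat.multichoose (n + 1 + c) (b' + J) := by
  obtain ⟨x₀, hx⟩ := hX.nonempty
  obtain ⟨r, hr, h1⟩ := hN k hk
  obtain ⟨C, hE⟩ := enough hX hM hx hk hr (h1 x₀ hx)
  choose δ F hδ hF hI using hE
  refine ⟨C, fun J a' b' H₀ h => ?_⟩
  set ε : SS M := ∏ j ∈ range (J + 1), δ j with hε
  have hev : ∀ x, eval x ε ≠ 0 ↔ ∀ j ∈ range (J + 1), eval x (δ j) ≠ 0 := by
    intro x
    rw [hε, map_prod, prod_ne_zero_iff]
  have hεI : ε ∉ I := fun hh => (hev x₀).mpr (fun j _ => hδ j) (hx.2 ε hh)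
  obtain ⟨E, hE⟩ : ∃ E, E = J / k := ⟨_, rfl⟩
  rw [← hE]
  have hc : ∀ z ∈ Zs I ε (∅ : Finset Unit), z none ∈ cone I := fun z hz => hz.1
  have hZ : ∀ z ∈ Zs I ε (∅ : Finset Unit), ∀ θ,
      Function.update z (some ()) θ ∈ Zs I ε (∅ : Finset Unit) := by
    intro z hz θ
    have e : Function.update z (some ()) θ none = z none := Function.update_of_ne (by simp) _ _
    exact ⟨e ▸ hz.1, e ▸ hz.2.1, fun i' hi' => absurd hi' (notMem_empty _)⟩
  have hW : {z ∈ Zs I ε (∅ : Finset Unit) | z (some ()) ∈ conormal I (z none)} =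
      Zs I ε (univ : Finset Unit) := by
    ext z
    exact ⟨fun ⟨⟨h1, h2, _⟩, h4⟩ => ⟨h1, h2, fun _ _ => h4⟩,
      fun ⟨h1, h2, h4⟩ => ⟨⟨h1, h2, fun i' hi' => absurd hi' (notMem_empty _)⟩, h4 () (mem_univ _)⟩⟩
  have hdeg : ∀ p q a m : ℕ, Pi.single none p + Pi.single (some ()) q +
      (dg a fun _ : Unit => m) = dg (p + a) fun _ : Unit => q + m := by
    intro p q a m
    funext o
    rcases o with _ | ⟨⟨⟩⟩ <;> simp
  have hA := stepA (M := M) (o := none) (k := some ()) (by simp) (Zs I ε (∅ : Finset Unit))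
    (fun z hz => (hc z hz).1) hZ (J + 1) (dg (a' + (J + E + C)) fun _ : Unit => b' + J)
    (fun i' => dg (a' + (J + E + C) - i') fun _ : Unit => b' + J - i') (fun i' hi' => by
      rw [hdeg, Nat.add_sub_cancel' (by omega), Nat.add_sub_cancel' (by omega)])
  have hb := bot (Zs I ε (∅ : Finset Unit)) hc (a' + (J + E + C)) fun _ : Unit => b' + J
  rw [Fintype.prod_unique] at hb
  subst hM
  refine le_trans ?_ (hA.trans hb)
  rw [show n + 2 = 1 + (n + 1) by omega, ← mc_conv, sum_mul]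
  refine sum_le_sum fun i' hi' => ?_
  have hi1 : i' ≤ J := Nat.lt_succ_iff.mp (mem_range.mp hi')
  have hdiv : ∀ j ≤ J, j / k ≤ E := fun j hj => hE ▸ Nat.div_le_div_right hj
  have hB := stepB hX (o := none) (k := some ()) (by simp) (Zs I ε (∅ : Finset Unit)) hc hZ
    (J - i' + 1) (fun j => Nat.multichoose n j) (fun j => j / k + C) F (fun j _ => hF j)
    (fun j hj z hz => hI j _ ((hev _).mp hz.2.1 j (mem_range.mpr (by omega))))
    (dg (a' + (J + E + C) - i') fun _ : Unit => b' + J - i')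
    (fun j => dg (a' + (J + E + C) - i' - (j + (j / k + C))) fun _ : Unit => b' + J - i' - j)
    (fun j hj => by
      have := hdiv j (by omega)
      rw [hdeg, Nat.add_sub_cancel' (by omega), Nat.add_sub_cancel' (by omega)])
  refine le_trans ?_ hB
  rw [Nat.multichoose_one, one_mul, ← mc_conv, sum_mul, hW]
  refine sum_le_sum fun j hj => ?_
  have hj1 : j ≤ J - i' := Nat.lt_succ_iff.mp (mem_range.mp hj)
  have := hdiv j (by omega)
  rw [Nat.multichoose_one, mul_one]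
  exact Nat.mul_le_mul_left _ ((h _ (by omega) _ (by omega)).trans (HW_dense hX hεI _ _))

end Pool.Agent.NEF
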