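import Pool.Agent.P.MP_66e591_ag.RD0

/-! Newton interpolation in two variables. -/

noncomputable section
namespace Pool.Agent.NEF
open Finset

theorem rp1_comm : Function.Commute dx dy := by
  intro f
  funext a b
  simp only [dx, dy]
  ring

theorem rp1_iter (i j : ℕ) (f : ℕ → ℕ → ℤ) : dx^[i] (dy^[j] f) = dy^[j] (dx^[i] f) :=
  rp1_comm.iterate_iterate i j f

theorem rp1_dx (i : ℕ) (f : ℕ → ℕ → ℤ) (b : ℕ) :
    (fun a => dx^[i] f a b) = (fwdDiff 1)^[i] (fun a => f a b) := by
  induction i with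
  | zero => rfl
  | succ i ih =>
    rw [Function.iterate_succ_apply', Function.iterate_succ_apply', ← ih]
    funext a
    simp only [dx, fwdDiff]

theorem rp1_dy (j : ℕ) (f : ℕ → ℕ → ℤ) (a : ℕ) :
    dy^[j] f a = (fwdDiff 1)^[j] (f a) := by
  induction j with
  | zero => rfl
  | succ j ih =>
    rw [Function.iterate_succ_apply', Function.iterate_succ_apply', ← ih]
    funext b
    simp only [dy, fwdDiff]

theorem rp1_newton_x (f : ℕ → ℕ → ℤ) (x a b : ℕ) :
    f (x + a) b = ∑ i ∈ range (a + 1), (a.choose i : ℤ) * dx^[i] f x b := by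
  have h := shift_eq_sum_fwdDiff_iter (h := (1 : ℕ)) (fun a => f a b) a x
  simp only [smul_eq_mul, mul_one, nsmul_eq_mul] at h
  rw [h]
  refine sum_congr rfl fun i _ => ?_
  rw [← rp1_dx]

theorem rp1_newton_y (f : ℕ → ℕ → ℤ) (y a b : ℕ) :
    f a (y + b) = ∑ j ∈ range (b + 1), (b.choose j : ℤ) * dy^[j] f a y := by
  have h := shift_eq_sum_fwdDiff_iter (h := (1 : ℕ)) (f a) b y
  simp only [smul_eq_mul, mul_one, nsmul_eq_mul] at h
  rw [h]
  refine sum_congr rfl fun j _ => ?_
  rw [rp1_dy]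

theorem rp1_newton (f : ℕ → ℕ → ℤ) (x a b : ℕ) :
    f (x + a) (x + b) = ∑ i ∈ range (a + 1), (a.choose i : ℤ) *
      ∑ j ∈ range (b + 1), (b.choose j : ℤ) * dx^[i] (dy^[j] f) x x := by
  rw [rp1_newton_x f x a (x + b)]
  refine sum_congr rfl fun i _ => ?_
  rw [rp1_newton_y (dx^[i] f) x x b]
  congr 1
  refine sum_congr rfl fun j _ => ?_
  rw [rp1_iter]

theorem rp1_zero_x (f : ℕ → ℕ → ℤ) (x : ℕ) (h : ∀ a ≥ x, ∀ b ≥ x, f a b = 0) (i : ℕ) :
    ∀ a ≥ x, ∀ b ≥ x, dx^[i] f a b = 0 := by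
  induction i with
  | zero => exact h
  | succ i ih =>
    intro a ha b hb
    rw [Function.iterate_succ_apply']
    simp only [dx]
    rw [ih (a + 1) (by omega) b hb, ih a ha b hb, sub_zero]

theorem rp1_zero_y (f : ℕ → ℕ → ℤ) (x : ℕ) (h : ∀ a ≥ x, ∀ b ≥ x, f a b = 0) (j : ℕ) :
    ∀ a ≥ x, ∀ b ≥ x, dy^[j] f a b = 0 := by
  induction j with
  | zero => exact h
  | succ j ih =>
    intro a ha b hb
    rw [Function.iterate_succ_apply']
    simp only [dy]
    rw [ih a ha (b + 1) (by omega), ih a ha b hb, sub_zero]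

theorem rp1_sum (u : ℕ → ℤ) (N a : ℕ) (h : ∀ i, N ≤ i → u i = 0) :
    ∑ i ∈ range (a + 1), (a.choose i : ℤ) * u i = ∑ i ∈ range N, (a.choose i : ℤ) * u i := by
  have h1 : ∑ i ∈ range (a + 1), (a.choose i : ℤ) * u i
      = ∑ i ∈ range (a + 1 + N), (a.choose i : ℤ) * u i := by
    refine sum_subset (range_mono (by omega)) fun i _ hi => ?_
    rw [mem_range] at hi
    rw [Nat.choose_eq_zero_of_lt (by omega)]
    simp
  have h2 : ∑ i ∈ range N, (a.choose i : ℤ) * u i
      = ∑ i ∈ range (a + 1 + N), (a.choose i : ℤ) * u i := by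
    refine sum_subset (range_mono (by omega)) fun i _ hi => ?_
    rw [mem_range] at hi
    rw [h i (by omega), mul_zero]
  rw [h1, h2]

theorem exists_HP (H : ℕ → ℕ → ℕ)
    (h1 : ∀ i j, ∃ a₀, ∀ a ≥ a₀, ∀ b ≥ a₀, 0 ≤ dx^[i] (dy^[j] fun a b => (H a b : ℤ)) a b)
    (h2 : ∃ N a₀, ∀ a ≥ a₀, ∀ b ≥ a₀, dx^[N] (fun a b => (H a b : ℤ)) a b = 0 ∧
      dy^[N] (fun a b => (H a b : ℤ)) a b = 0) : ∃ N a₀ π, HP H N a₀ π := by
  obtain ⟨N, a₀, h2⟩ := h2
  obtain ⟨a₁, hx⟩ := h1 1 0
  obtain ⟨a₂, hy⟩ := h1 0 1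
  set f : ℕ → ℕ → ℤ := fun a b => (H a b : ℤ) with hf
  set x : ℕ := a₀ + a₁ + a₂ with hxdef
  have hsupp : ∀ i j, N ≤ i ∨ N ≤ j → dx^[i] (dy^[j] f) x x = 0 := by
    intro i j hij
    rcases hij with hi | hj
    · obtain ⟨k, rfl⟩ := Nat.exists_eq_add_of_le' hi
      rw [Function.iterate_add_apply, rp1_iter N j]
      exact rp1_zero_x _ a₀ (rp1_zero_y _ a₀ (fun a ha b hb => (h2 a ha b hb).1) j) k x
        (by omega) x (by omega)
    · obtain ⟨k, rfl⟩ := Nat.exists_eq_add_of_le' hj
      rw [Function.iterate_add_apply]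
      exact rp1_zero_x _ a₀ (rp1_zero_y _ a₀ (fun a ha b hb => (h2 a ha b hb).2) k) i x
        (by omega) x (by omega)
  refine ⟨N, x, fun i j => dx^[i] (dy^[j] f) x x, hsupp, ?_, ?_, ?_⟩
  · intro a b
    have h := rp1_newton f x a b
    change f (x + a) (x + b) = _
    rw [h, rp1_sum _ N a]
    · unfold ev
      refine sum_congr rfl fun i _ => ?_
      rw [rp1_sum _ N b (fun j hj => hsupp i j (Or.inr hj)), mul_sum]
      refine sum_congr rfl fun j _ => ?_
      ring
    · intro i hi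
      exact sum_eq_zero fun j _ => by rw [hsupp i j (Or.inl hi), mul_zero]
  · intro e he i j hij
    obtain ⟨c, hc⟩ := h1 i j
    have h := rp1_newton (dx^[i] (dy^[j] f)) x c c
    have hz : ∀ p q, 0 < p + q → dx^[p] (dy^[q] (dx^[i] (dy^[j] f))) x x = 0 := by
      intro p q hpq
      rw [← rp1_iter i q, ← Function.iterate_add_apply, ← Function.iterate_add_apply]
      exact he (p + i) (q + j) (by omega)
    have hs : ∑ p ∈ range (c + 1), (c.choose p : ℤ) * ∑ q ∈ range (c + 1),
        (c.choose q : ℤ) * dx^[p] (dy^[q] (dx^[i] (dy^[j] f))) x x = dx^[i] (dy^[j] f) x x := by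
      rw [sum_eq_single 0]
      · rw [sum_eq_single 0]
        · simp
        · intro q _ hq
          rw [hz 0 q (by omega), mul_zero]
        · intro h0
          exact absurd (mem_range.2 (Nat.succ_pos c)) h0
      · intro p _ hp
        rw [sum_eq_zero fun q _ => by rw [hz p q (by omega), mul_zero], mul_zero]
      · intro h0
        exact absurd (mem_range.2 (Nat.succ_pos c)) h0
    have h0 := hc (x + c) (by omega) (x + c) (by omega)
    rw [h, hs] at h0
    exact h0
  · intro a b a' b' ha haa hb hbb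
    have e1 : ∀ a', a ≤ a' → H a b ≤ H a' b := by
      intro a' haa
      induction a', haa using Nat.le_induction with
      | base => exact le_rfl
      | succ n hn ih =>
        have := hx n (by omega) b (by omega)
        simp only [Function.iterate_one, Function.iterate_zero, id, dx, hf] at this
        omega
    have e2 : ∀ b', b ≤ b' → H a' b ≤ H a' b' := by
      intro b' hbb
      induction b', hbb using Nat.le_induction with
      | base => exact le_rfl
      | succ n hn ih =>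
        have := hy a' (by omega) n (by omega)
        simp only [Function.iterate_one, Function.iterate_zero, id, dy, hf] at this
        omega
    exact (e1 a' haa).trans (e2 b' hbb)

end Pool.Agent.NEF
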