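import Pool.Agent.P.MP_66e591_ag.RP2

/-! The degree of the polynomial. -/

noncomputable section
namespace Pool.Agent.NEF
open Finset Filter Topology

variable {H : ℕ → ℕ → ℕ} {N a₀ n c : ℕ} {π : ℕ → ℕ → ℤ}

theorem rp3_ev (N : ℕ) (π : ℕ → ℕ → ℝ) (a b : ℕ) :
    ev N π a b = ∑ i ∈ range N, (∑ j ∈ range N, π i j * (b.choose j : ℝ)) * (a.choose i : ℝ) := by
  unfold ev
  refine sum_congr rfl fun i _ => ?_
  rw [sum_mul]
  exact sum_congr rfl fun j _ => by ring

theorem rp3_tend (h : HP H N a₀ π) (hx : ∀ i j, n < i → π i j = 0) (α C b : ℕ) :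
    Tendsto (fun L : ℕ => ev N (fun i j => (π i j : ℝ)) (α * L + C) b / (L : ℝ) ^ n) atTop
      (𝓝 ((∑ j ∈ range N, (π n j : ℝ) * (b.choose j : ℝ)) * (α : ℝ) ^ n / n.factorial)) := by
  simp only [rp3_ev]
  refine tend_one (ρ := fun i => ∑ j ∈ range N, (π i j : ℝ) * (b.choose j : ℝ)) ?_ ?_ α C
  · intro i hi
    exact sum_eq_zero fun j _ => by rw [h.supp i j (Or.inl hi)]; simp
  · intro i hi
    exact sum_eq_zero fun j _ => by rw [hx i j hi]; simp

theorem rp3_mc_pos (hc : 1 ≤ c) (a : ℕ) : 0 < Nat.multichoose c a := by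
  rw [Nat.multichoose_eq]
  exact Nat.choose_pos (by omega)

theorem rp3_step (h : HP H N a₀ π) (hc : 1 ≤ c) (hx : ∀ i j, n < i → π i j = 0) {k C : ℕ}
    (hk : 1 ≤ k) (key : ∀ α β L b : ℕ, (Nat.multichoose (n + 1 + 1) (k * L + 0) : ℝ) *
        ev N (fun i j => (π i j : ℝ)) (α * L + 0) (β * L + 0) * Nat.multichoose c (a₀ + b) ≤
      ev N (fun i j => (π i j : ℝ)) ((α + k + 1) * L + C) b *
        Nat.multichoose (n + c + 1) ((β + k) * L + a₀)) (m : ℕ)
    (he : ∀ i j, n + c + m < i + j → π i j = 0) :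
    ∀ i j, i + j = n + c + m → π i j = 0 := by
  have t1 := tend_mc k 0 (n + 1)
  have t2 := tend_two (N := N) (e := n + c + m) (π := fun i j => (π i j : ℝ))
    (fun i j hij => by rw [h.supp i j hij]; simp) (fun i j hij => by rw [he i j hij]; simp) 1 1 0 0
  have t3 := rp3_tend h hx (1 + k + 1) C 0
  have t4 := tend_mc (1 + k) a₀ (n + c)
  have t5 : Tendsto (fun L : ℕ => ((L : ℝ) ^ (m + 1))⁻¹) atTop (𝓝 0) :=
    tendsto_inv_atTop_zero.comp
      ((tendsto_pow_atTop (Nat.succ_ne_zero m)).comp tendsto_natCast_atTop_atTop)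
  have tl := (t1.mul t2).mul_const (Nat.multichoose c (a₀ + 0) : ℝ)
  have tr := (t3.mul t4).mul t5
  rw [mul_zero] at tr
  have hle := le_of_tendsto_of_tendsto tl tr (by
    filter_upwards [eventually_gt_atTop 0] with L hL
    have hL' : (0 : ℝ) < L := by exact_mod_cast hL
    have hk' := div_le_div_of_nonneg_right (key 1 1 L 0)
      (le_of_lt (mul_pos (pow_pos hL' (n + 1)) (pow_pos hL' (n + c + m))))
    refine le_trans (le_of_eq ?_) (hk'.trans (le_of_eq ?_))
    · field_simp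
    · field_simp
      ring)
  have hp1 : (0 : ℝ) < (k : ℝ) ^ (n + 1) / (n + 1).factorial := by
    have : (0 : ℝ) < k := by exact_mod_cast hk
    positivity
  have hp2 : (0 : ℝ) < (Nat.multichoose c (a₀ + 0) : ℝ) := by exact_mod_cast rp3_mc_pos hc _
  have hnn : ∀ q ∈ antidiagonal (n + c + m), (0 : ℝ) ≤ (π q.1 q.2 : ℝ) *
      (((1 : ℕ) : ℝ) ^ q.1 / q.1.factorial) * (((1 : ℕ) : ℝ) ^ q.2 / q.2.factorial) := by
    intro q hq
    have : (0 : ℝ) ≤ (π q.1 q.2 : ℝ) := by
      exact_mod_cast h.top _ he q.1 q.2 (mem_antidiagonal.1 hq)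
    positivity
  have hS := sum_nonneg hnn
  have hS0 := le_antisymm
    (nonpos_of_mul_nonpos_right (nonpos_of_mul_nonpos_left hle hp2) hp1) hS
  intro i j hij
  have h0 := (sum_eq_zero_iff_of_nonneg hnn).1 hS0 (i, j) (mem_antidiagonal.2 hij)
  have q1 : (((1 : ℕ) : ℝ) ^ i / i.factorial) ≠ 0 := by positivity
  have q2 : (((1 : ℕ) : ℝ) ^ j / j.factorial) ≠ 0 := by positivity
  have h1 := (mul_eq_zero.1 ((mul_eq_zero.1 h0).resolve_right q2)).resolve_right q1
  exact_mod_cast h1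

/-- the main inequality without the function `G` -/
theorem HP.key (h : HP H N a₀ π) {G : ℕ → ℕ} (l2 : ∀ a b, G a * Nat.multichoose c b ≤ H a b)
    {k C : ℕ} (hk : 1 ≤ k) (key : ∀ J a' b' H₀, (∀ a ≥ a', ∀ b ≥ b', H₀ ≤ H a b) →
      Nat.multichoose (n + 2) J * H₀ ≤
        G (a' + (J + J / k + C)) * Nat.multichoose (n + 1 + c) (b' + J)) (α β L b : ℕ) :
    (Nat.multichoose (n + 1 + 1) (k * L + 0) : ℝ) *
        ev N (fun i j => (π i j : ℝ)) (α * L + 0) (β * L + 0) * Nat.multichoose c (a₀ + b) ≤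
      ev N (fun i j => (π i j : ℝ)) ((α + k + 1) * L + C) b *
        Nat.multichoose (n + c + 1) ((β + k) * L + a₀) := by
  have k1 := key (k * L) (a₀ + α * L) (a₀ + β * L) (H (a₀ + α * L) (a₀ + β * L))
    fun a ha b hb => h.mono _ _ _ _ (Nat.le_add_right _ _) ha (Nat.le_add_right _ _) hb
  rw [Nat.mul_div_cancel_left L hk] at k1
  have e1 : a₀ + α * L + (k * L + L + C) = a₀ + ((α + k + 1) * L + C) := by ring
  have e2 : a₀ + β * L + k * L = (β + k) * L + a₀ := by ring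
  have e3 : n + 1 + c = n + c + 1 := by ring
  rw [e1, e2, e3] at k1
  have k2 := l2 (a₀ + ((α + k + 1) * L + C)) (a₀ + b)
  have k3 : Nat.multichoose (n + 2) (k * L) * H (a₀ + α * L) (a₀ + β * L) *
      Nat.multichoose c (a₀ + b) ≤ H (a₀ + ((α + k + 1) * L + C)) (a₀ + b) *
        Nat.multichoose (n + c + 1) ((β + k) * L + a₀) := by
    refine (Nat.mul_le_mul_right _ k1).trans ?_
    rw [mul_right_comm]
    exact Nat.mul_le_mul_right _ k2
  have hc : ∀ x y, ev N (fun i j => (π i j : ℝ)) x y = (H (a₀ + x) (a₀ + y) : ℝ) := by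
    intro x y
    rw [← ev_cast, ← h.eq]
    simp
  rw [hc, hc]
  simp only [add_zero]
  exact_mod_cast k3

/-- the total degree is less than `n + c` -/
theorem HP.deg (h : HP H N a₀ π) (hc : 1 ≤ c) (hx : ∀ i j, n < i → π i j = 0) {k C : ℕ}
    (hk : 1 ≤ k) (key : ∀ α β L b : ℕ, (Nat.multichoose (n + 1 + 1) (k * L + 0) : ℝ) *
        ev N (fun i j => (π i j : ℝ)) (α * L + 0) (β * L + 0) * Nat.multichoose c (a₀ + b) ≤
      ev N (fun i j => (π i j : ℝ)) ((α + k + 1) * L + C) b *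
        Nat.multichoose (n + c + 1) ((β + k) * L + a₀)) :
    ∀ i j, n + c ≤ i + j → π i j = 0 := by
  have main : ∀ d i j, 2 * N ≤ i + j + d → n + c ≤ i + j → π i j = 0 := by
    intro d
    induction d with
    | zero => intro i j h1 _; exact h.supp i j (by omega)
    | succ d ih =>
      intro i j h1 h2
      obtain ⟨m, hm⟩ := Nat.exists_eq_add_of_le h2
      exact rp3_step h hc hx hk key m (fun i' j' h3 => ih i' j' (by omega) (by omega)) i j hm
  intro i j hij
  exact main (2 * N) i j (by omega) hij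

/-- the first top coefficient is positive -/
theorem HP.one_le (h : HP H N a₀ π) (hc : 1 ≤ c) (hx : ∀ i j, n < i → π i j = 0)
    (hd : ∀ i j, n + c ≤ i + j → π i j = 0)
    (l : ∀ a b, Nat.multichoose (n + 1) a * Nat.multichoose c b ≤ H a b) : 1 ≤ π n (c - 1) := by
  obtain ⟨r, rfl⟩ : ∃ r, c = r + 1 := ⟨c - 1, by omega⟩
  have hc' : ∀ x y, ev N (fun i j => (π i j : ℝ)) x y = (H (a₀ + x) (a₀ + y) : ℝ) := by
    intro x y
    rw [← ev_cast, ← h.eq]
    simp
  have s1 : ∀ b, (Nat.multichoose (r + 1) (1 * b + a₀) : ℝ) ≤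
      ∑ j ∈ range N, (π n j : ℝ) * ((1 * b + 0).choose j : ℝ) := by
    intro b
    have tl := (tend_mc 1 a₀ n).mul_const (Nat.multichoose (r + 1) (1 * b + a₀) : ℝ)
    have tr := rp3_tend h hx 1 0 (1 * b + 0)
    have hle := le_of_tendsto_of_tendsto' tl tr (by
      intro L
      rw [hc', div_mul_eq_mul_div]
      refine div_le_div_of_nonneg_right ?_ (by positivity)
      have e1 : 1 * L + a₀ = a₀ + (1 * L + 0) := by ring
      have e2 : 1 * b + a₀ = a₀ + (1 * b + 0) := by ring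
      rw [e1, e2]
      exact_mod_cast l _ _)
    have hf : (0 : ℝ) < n.factorial := by positivity
    rw [div_mul_eq_mul_div, div_le_div_iff_of_pos_right hf] at hle
    simpa using hle
  have tl := tend_mc 1 a₀ r
  have tr := tend_one (N := N) (e := r) (ρ := fun j => (π n j : ℝ))
    (fun j hj => by rw [h.supp n j (Or.inr hj)]; simp)
    (fun j hj => by rw [hd n j (by omega)]; simp) 1 0
  have hle := le_of_tendsto_of_tendsto' tl tr fun b =>
    div_le_div_of_nonneg_right (s1 b) (by positivity)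
  have hf : (0 : ℝ) < r.factorial := by positivity
  rw [div_le_div_iff_of_pos_right hf] at hle
  have h1 : (1 : ℝ) ≤ (π n r : ℝ) := by simpa using hle
  rw [Nat.add_sub_cancel]
  exact_mod_cast h1

end Pool.Agent.NEF
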