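import Pool.Agent.P.MP_66e591_ag.RP2

/-! Bounds for the top coefficients. -/

noncomputable section
namespace Pool.Agent.NEF
open Finset Filter Topology

variable {H : ℕ → ℕ → ℕ} {N a₀ n c : ℕ} {π : ℕ → ℕ → ℤ}

theorem HP.bound (h : HP H N a₀ π) (hc : 1 ≤ c) (hx : ∀ i j, n < i → π i j = 0)
    (hd : ∀ i j, n + c ≤ i + j → π i j = 0) {k C : ℕ}
    (key : ∀ α β L b : ℕ, (Nat.multichoose (n + 1 + 1) (k * L + 0) : ℝ) *
        ev N (fun i j => (π i j : ℝ)) (α * L + 0) (β * L + 0) * Nat.multichoose c (a₀ + b) ≤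
      ev N (fun i j => (π i j : ℝ)) ((α + k + 1) * L + C) b *
        Nat.multichoose (n + c + 1) ((β + k) * L + a₀)) (α β : ℕ) {i : ℕ} (hi : i ≤ n) :
    0 ≤ π (n - i) (c - 1 + i) ∧
      (π (n - i) (c - 1 + i) : ℝ) * ((α : ℝ) ^ (n - i) * (β : ℝ) ^ (c - 1 + i) *
          (k : ℝ) ^ (n + 1) * n.factorial * (n + c).factorial) ≤
        π n (c - 1) * (((α : ℝ) + k + 1) ^ n * ((β : ℝ) + k) ^ (n + c) * (n + 1).factorial *
          (n - i).factorial * (c - 1 + i).factorial) := by
  obtain ⟨r, rfl⟩ : ∃ r, c = r + 1 := ⟨c - 1, by omega⟩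
  simp only [Nat.add_sub_cancel]
  have htop : ∀ i j, i + j = n + r → 0 ≤ π i j :=
    h.top (n + r) (fun i j hij => hd i j (by omega))
  refine ⟨htop _ _ (by omega), ?_⟩
  set S : ℝ := ∑ q ∈ antidiagonal (n + r),
    (π q.1 q.2 : ℝ) * ((α : ℝ) ^ q.1 / q.1.factorial) * ((β : ℝ) ^ q.2 / q.2.factorial) with hS
  set A : ℝ := (k : ℝ) ^ (n + 1) / (n + 1).factorial with hA
  set B : ℝ := ((α + k + 1 : ℕ) : ℝ) ^ n / n.factorial with hB
  set D : ℝ := ((β + k : ℕ) : ℝ) ^ (n + (r + 1)) / (n + (r + 1)).factorial with hD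
  have step1 : ∀ b : ℕ, A * S * (Nat.multichoose (r + 1) (1 * b + a₀) : ℝ) ≤
      (∑ j ∈ range N, (π n j : ℝ) * ((1 * b + 0).choose j : ℝ)) * B * D := by
    intro b
    have t1 := tend_mc k 0 (n + 1)
    have t2 := tend_two (N := N) (e := n + r) (π := fun i j => (π i j : ℝ))
      (fun i j hij => by simp [h.supp i j hij]) (fun i j hij => by simp [hd i j (by omega)])
      α β 0 0
    have t3 := tend_one (N := N) (e := n)
      (ρ := fun i => ∑ j ∈ range N, (π i j : ℝ) * ((1 * b + 0).choose j : ℝ))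
      (fun i hi => Finset.sum_eq_zero fun j _ => by simp [h.supp i j (Or.inl hi)])
      (fun i hi => Finset.sum_eq_zero fun j _ => by simp [hx i j hi]) (α + k + 1) C
    have t4 := tend_mc (β + k) a₀ (n + (r + 1))
    have tl := (t1.mul t2).mul_const (Nat.multichoose (r + 1) (1 * b + a₀) : ℝ)
    have tr := t3.mul t4
    have hle := le_of_tendsto_of_tendsto' tl tr (fun L => by
      have hk := key α β L b
      have e1 : ev N (fun i j => (π i j : ℝ)) ((α + k + 1) * L + C) b =
          ∑ i ∈ range N, (∑ j ∈ range N, (π i j : ℝ) * ((1 * b + 0).choose j : ℝ)) *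
            (((α + k + 1) * L + C).choose i : ℝ) := by
        unfold ev
        refine Finset.sum_congr rfl fun i _ => ?_
        rw [Finset.sum_mul]
        refine Finset.sum_congr rfl fun j _ => ?_
        rw [one_mul, add_zero]
        ring
      have e2 : 1 * b + a₀ = a₀ + b := by omega
      have e3 : (L : ℝ) ^ n * (L : ℝ) ^ (n + (r + 1)) = (L : ℝ) ^ (n + 1) * (L : ℝ) ^ (n + r) := by
        ring
      rw [← e1, e2, div_mul_div_comm, div_mul_div_comm, div_mul_eq_mul_div, e3]
      exact div_le_div_of_nonneg_right hk (by positivity))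
    calc _ ≤ _ := hle
      _ = _ := by rw [hB, hD]; ring
  have t5 := (tend_mc 1 a₀ r).const_mul (A * S)
  have t6 := ((tend_one (N := N) (e := r) (ρ := fun j => (π n j : ℝ))
    (fun j hj => by simp [h.supp n j (Or.inr hj)])
    (fun j hj => by simp [hd n j (by omega)]) 1 0).mul_const B).mul_const D
  have step2 := le_of_tendsto_of_tendsto' t5 t6 (fun b => by
    have := div_le_div_of_nonneg_right (step1 b) (show (0 : ℝ) ≤ (b : ℝ) ^ r by positivity)
    calc _ = _ := by ring
      _ ≤ _ := this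
      _ = _ := by ring)
  have hr : (0 : ℝ) < r.factorial := by exact_mod_cast r.factorial_pos
  have step3 : A * S ≤ (π n r : ℝ) * B * D := by
    simp only [Nat.cast_one, one_pow, mul_one] at step2
    have := mul_le_mul_of_nonneg_right step2 hr.le
    calc A * S = A * S * (1 / r.factorial) * r.factorial := by field_simp
      _ ≤ _ := this
      _ = _ := by field_simp
  have hsingle : (π (n - i) (r + i) : ℝ) * ((α : ℝ) ^ (n - i) / (n - i).factorial) *
      ((β : ℝ) ^ (r + i) / (r + i).factorial) ≤ S := by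
    have hm : (n - i, r + i) ∈ antidiagonal (n + r) := by
      rw [HasAntidiagonal.mem_antidiagonal]; simp only; omega
    refine Finset.single_le_sum (f := fun q : ℕ × ℕ =>
      (π q.1 q.2 : ℝ) * ((α : ℝ) ^ q.1 / q.1.factorial) * ((β : ℝ) ^ q.2 / q.2.factorial))
      (fun q hq => ?_) hm
    have : (0 : ℝ) ≤ π q.1 q.2 := by exact_mod_cast htop _ _ (HasAntidiagonal.mem_antidiagonal.1 hq)
    positivity
  have hA0 : 0 ≤ A := by rw [hA]; positivity
  have step4 := (mul_le_mul_of_nonneg_left hsingle hA0).trans step3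
  have f1 : (0 : ℝ) < n.factorial := by exact_mod_cast n.factorial_pos
  have f2 : (0 : ℝ) < (n + 1).factorial := by exact_mod_cast (n + 1).factorial_pos
  have f3 : (0 : ℝ) < (n + (r + 1)).factorial := by exact_mod_cast (n + (r + 1)).factorial_pos
  have f4 : (0 : ℝ) < (n - i).factorial := by exact_mod_cast (n - i).factorial_pos
  have f5 : (0 : ℝ) < (r + i).factorial := by exact_mod_cast (r + i).factorial_pos
  have step5 := mul_le_mul_of_nonneg_right step4 (show (0 : ℝ) ≤ (n.factorial : ℝ) *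
    (n + 1).factorial * (n + (r + 1)).factorial * (n - i).factorial * (r + i).factorial by
      positivity)
  rw [hA, hB, hD] at step5
  push_cast at step5
  calc _ = _ := by field_simp
    _ ≤ _ := step5
    _ = _ := by field_simp

end Pool.Agent.NEF
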