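import Pool.Agent.P.MP_66e591_ag.RN
import Pool.Agent.P.MP_66e591_ag.RB3
import Pool.Agent.P.MP_66e591_ag.RP1
import Pool.Agent.P.MP_66e591_ag.RP3
import Pool.Agent.P.MP_66e591_ag.RP4
import Pool.Agent.P.MP_66e591_ag.RA1
import Pool.Agent.P.MP_66e591_ag.RA2
import Pool.Agent.P.MP_66e591_ag.RA3
import Pool.Agent.P.MP_66e591_ag.RA4
import Pool.Agent.P.MP_66e591_ag.RG1
import Pool.Agent.P.MP_66e591_ag.RG3

/-! A nef tangent bundle bounds the degree of the Gauss map linearly. -/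

noncomputable section
namespace Pool.Agent.NEF
open Finset Module Pool.Agent.HCF

variable {M : ℕ} {I : Ideal (SS M)} {c n : ℕ}

theorem lin_bound (hX : IsManifold I c) (hM : M = n + 1 + c) (hN : TangentNef I) {b : ℤ}
    (hK : CanonicalIs I c b) (hc : 1 ≤ c) (hn : 8 * c ≤ n) : b + n + 1 < 3 * c := by
  rcases lt_or_ge (b + n + 1) 0 with h | h
  · omega
  obtain ⟨s, hs⟩ := Int.eq_ofNat_of_zero_le h
  obtain ⟨ν, hν, hne⟩ := exists_nu hX hK
  rw [show b + M - c = s by rw [← hs, hM]; push_cast; ring] at hν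
  obtain ⟨n1, L, n2, n3, n4⟩ := numer hX hM hc (by omega) hν hne
  have hJ : MH (JZ (WW Unit I)) := MH_JZ (WW_smul hX)
  have e : H2 (JZ (WW Unit I)) = HW I := funext fun a => funext fun b => HJ_JZ _ _
  obtain ⟨N, a₀, π, hP⟩ := exists_HP (HW I) (fun i j => e ▸ H2_pos i j _ hJ) (e ▸ H2_nil hJ)
  have hx := hP.xdeg n1
  obtain ⟨C, hC⟩ := HW_key hX hM hN (k := 60) (by norm_num)
  have key := hP.key (HW_lower hX) (by norm_num) hC
  have hd := hP.deg hc hx (by norm_num) key
  have h1 := hP.one_le hc hx hd fun a b =>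
    (Nat.mul_le_mul_right _ (HR_lower hX hM a)).trans (HW_lower hX a b)
  have hb := fun i => hP.bound hc hx hd key 20 210 (i := i)
  obtain ⟨D, A, a0, a1, a2, a3⟩ := hP.array L n2 n3 n4
  obtain ⟨E, e0, e1, e2, e3⟩ := weight_rec (n := n) (π := fun i j => (π i j : ℂ)) hc (by omega)
    (fun i j h => Int.cast_eq_zero.2 (hx i j h)) (fun i j h => Int.cast_eq_zero.2 (hd i j h))
    (Int.cast_ne_zero.2 (by omega)) a0 a1 a2 a3
  obtain ⟨R, r0, r1, r2⟩ := root_iso (K := n - c) (s := s)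
    (δ := fun k => (π (n - k) (c - 1 + k) : ℝ)) hc (by omega) e0 (by simpa using e1) e2
    (fun k hk => by exact_mod_cast (hb k (by omega)).1)
    (fun k h1 h2 => by simpa using e3 k h1 (by omega))
  have h3 := arith3 (δ := fun k => (π (n - k) (c - 1 + k) : ℝ)) hc hn
    (by exact_mod_cast (show 0 < π (n - 0) (c - 1 + 0) from h1))
    (fun i hi => by
      have h4 := (hb i hi).2
      norm_num at h4 ⊢
      exact h4) r0 r2
  have h5 : (s : ℝ) < 3 * c := by
    have : (0 : ℝ) < c := by exact_mod_cast hc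
    nlinarith
  rw [hs]
  exact_mod_cast h5

end Pool.Agent.NEF
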