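import Pool.Agent.P.MP_66e591_ag.Main
import Pool.Agent.P.MP_f644fa_ag.Main

/-! Picard number one. -/

noncomputable section
namespace Pool.Agent.NEF
open MvPolynomial Module Pool.Agent.HCF

variable {M : ℕ} {I : Ideal (SS M)} {c n : ℕ}

theorem main_pic (hX : IsManifold I c) (hM : M = n + 1 + c) (hN : TangentNef I)
    [UniqueFactorizationMonoid (secRing I)] {b : ℤ} (hK : CanonicalIs I c b)
    (hn : 6 * c ^ 3 + 12 * c ^ 2 ≤ n) :
    (∃ (f : Fin c → SS M) (d : Fin c → ℕ), (∀ i, (f i).IsHomogeneous (d i)) ∧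
      I = Ideal.span (Set.range f) ∧ (∀ i, d i = 1 ∨ d i = 2) ∧
        ∀ i j, d i = 2 → d j = 2 → i = j) ∧ HasCells (cone I) := by
  rcases Nat.eq_zero_or_pos c with rfl | hc
  · exact of_ci hX hM hN (by omega) (ci_zero hX)
  have hc2 : c ≤ c ^ 2 := by nlinarith
  have hc3 : c ≤ c ^ 3 := Nat.le_self_pow (by norm_num) c
  have h1 := gauss_bound hX hM hN hK hc (by omega)
  have hn' : (6 * c ^ 3 + 12 * c ^ 2 : ℤ) ≤ n := by exact_mod_cast hn
  have hc' : (1 : ℤ) ≤ c := by exact_mod_cast hc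
  exact of_ci hX hM hN (by omega) (HCF.main hX hM (by omega) hK (by nlinarith))

end Pool.Agent.NEF
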