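import Pool.Agent.P.MP_66e591_ag.Defs
import Pool.Agent.P.MP_f644fa_ag.Trdeg

/-! Spaces of multihomogeneous polynomial functions. -/

noncomputable section
namespace Pool.Agent.NEF
open MvPolynomial Module Pool.Agent.HCF

/-- vectors and covectors -/
abbrev VV (M : ℕ) := Fin M → ℂ

/-- the linear forms in the block `i` -/
def Lf (M : ℕ) {ι : Type} (i : ι) : Submodule ℂ ((ι → VV M) → ℂ) :=
  Submodule.span ℂ (Set.range fun j z => z i j)

/-- the polynomial functions of multidegree `a` -/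
def Pd (M : ℕ) {ι : Type} [Fintype ι] (a : ι → ℕ) : Submodule ℂ ((ι → VV M) → ℂ) :=
  ∏ i, Lf M i ^ a i

/-- restriction of functions to a subset -/
def res {Ω : Type} (Z : Set Ω) : (Ω → ℂ) →ₗ[ℂ] (Z → ℂ) := LinearMap.funLeft ℂ ℂ Subtype.val

/-- the dimension of a space of functions after restriction to `Z` -/
def rk {Ω : Type} (Z : Set Ω) (P : Submodule ℂ (Ω → ℂ)) : ℕ := finrank ℂ (P.map (res Z))

variable {M : ℕ}

/-- the Hilbert function of `X` -/
def HR (I : Ideal (SS M)) (a : ℕ) : ℕ :=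
  finrank ℂ ((homogeneousSubmodule (Fin M) ℂ a).map (pf I).toLinearMap)

/-- a multidegree: `a` in the point, `b i` in the covector number `i` -/
def dg {κ : Type} (a : ℕ) (b : κ → ℕ) : Option κ → ℕ := fun o => o.elim a b

/-- points of the open set `δ ≠ 0` with covectors, conormal for `i ∈ S` -/
def Zs {κ : Type} (I : Ideal (SS M)) (δ : SS M) (S : Finset κ) : Set (Option κ → VV M) :=
  {z | z none ∈ cone I ∧ eval (z none) δ ≠ 0 ∧ ∀ i ∈ S, z (some i) ∈ conormal I (z none)}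

/-- points with conormal covectors -/
def WW (κ : Type) (I : Ideal (SS M)) : Set (Option κ → VV M) :=
  {z | z none ∈ cone I ∧ ∀ i, z (some i) ∈ conormal I (z none)}

/-- the functions `F b (x, ·)` are independent on the annihilator of `x` -/
def Indep {β : Type} [Fintype β] (F : β → MvPolynomial (Fin M ⊕ Fin M) ℂ) (x : VV M) : Prop :=
  ∀ u : β → ℂ, (∀ θ, θ ⬝ᵥ x = 0 → ∑ b, u b * eval (Sum.elim x θ) (F b) = 0) → u = 0

/-- enough sections of `S^j T_X (j / k + C)` near `x₀` -/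
def Enough (I : Ideal (SS M)) (n k C : ℕ) (x₀ : VV M) : Prop :=
  ∀ j, ∃ (δ : SS M) (F : Fin (Nat.multichoose n j) → MvPolynomial (Fin M ⊕ Fin M) ℂ),
    eval x₀ δ ≠ 0 ∧ (∀ b, IsSection I j (j / k + C) (F b)) ∧ ∀ x, eval x δ ≠ 0 → Indep F x

/-- `D` is a fibrewise nonzero regular function of degree `-s` in the point and of degree one in
each conormal vector -/
structure Twist (κ : Type) [Fintype κ] (I : Ideal (SS M)) (s : ℕ)
    (D : (Option κ → VV M) → ℂ) : Prop where
  reg : ∃ e, ∀ j, ∃ f ∈ Pd M (dg e fun _ : κ => 1), ∀ z ∈ WW κ I, z none j ^ (e + s) * D z = f z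
  ne : ∀ x ∈ cone I, ∃ z ∈ WW κ I, z none = x ∧ D z ≠ 0

theorem res_apply {Ω : Type} (Z : Set Ω) (f : Ω → ℂ) (z : Z) : res Z f z = f z.1 := rfl

@[simp] theorem dg_none {κ : Type} (a : ℕ) (b : κ → ℕ) : dg a b none = a := rfl
@[simp] theorem dg_some {κ : Type} (a : ℕ) (b : κ → ℕ) (i : κ) : dg a b (some i) = b i := rfl

end Pool.Agent.NEF
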