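import Pool.Agent.P.MP_66e591_ag.RD0
import Pool.Agent.P.MP_f644fa_ag.Graded

/-! From identities of series to identities of coefficients. -/

noncomputable section
namespace Pool.Agent.NEF
open Finset Pool.Agent.HCF

variable {H : ℕ → ℕ → ℕ} {N a₀ n c : ℕ} {π : ℕ → ℕ → ℤ}

/-- a polynomial in one variable, in the binomial basis -/
def ra0_e (N : ℕ) (σ : ℕ → ℂ) (a : ℕ) : ℂ := ∑ i ∈ range N, σ i * (a.choose i : ℂ)

theorem ra0_ev (N : ℕ) (ρ : ℕ → ℕ → ℂ) (a b : ℕ) :
    ev N ρ a b = ra0_e N (fun i => ra0_e N (ρ i) b) a := by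
  simp only [ev, ra0_e, sum_mul]
  exact sum_congr rfl fun i _ => sum_congr rfl fun j _ => by ring

theorem ra0_step (N : ℕ) (σ : ℕ → ℂ) (a : ℕ) :
    ra0_e (N + 1) σ (a + 1) = ra0_e (N + 1) σ a + ra0_e N (fun i => σ (i + 1)) a := by
  simp only [ra0_e, sum_range_succ', Nat.choose_succ_succ', Nat.choose_zero_right, Nat.cast_add,
    mul_add, sum_add_distrib]
  ring

theorem ra0_one (N a₁ : ℕ) : ∀ σ : ℕ → ℂ, (∀ a ≥ a₁, ra0_e N σ a = 0) → ∀ i < N, σ i = 0 := by
  induction N with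
  | zero => intro σ _ i hi; omega
  | succ N ih =>
    intro σ h
    have h1 : ∀ i < N, σ (i + 1) = 0 := by
      refine ih (fun i => σ (i + 1)) fun a ha => ?_
      have h2 := ra0_step N σ a
      rw [h a ha, h (a + 1) (by omega), zero_add] at h2
      exact h2.symm
    intro i hi
    rcases i with _ | i
    · have h2 := h a₁ le_rfl
      rw [ra0_e, sum_range_succ', sum_eq_zero fun i hi => by rw [h1 i (mem_range.1 hi), zero_mul]]
        at h2
      simpa using h2
    · exact h1 i (by omega)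

theorem ra0_succ {σ : ℕ → ℂ} (h : σ N = 0) (a : ℕ) : ra0_e (N + 1) σ a = ra0_e N σ a := by
  rw [ra0_e, sum_range_succ, h, zero_mul, add_zero, ra0_e]

theorem ra0_shift (a u : ℕ) : ∀ σ : ℕ → ℂ, (∀ i, N ≤ i → σ i = 0) →
    ra0_e N σ (a + u) =
      ∑ p ∈ range (u + 1), (u.choose p : ℂ) * ra0_e N (fun i => σ (i + p)) a := by
  induction u with
  | zero => intro σ _; simp
  | succ u ih =>
    intro σ h
    rw [← add_assoc, ← ra0_succ (h N le_rfl), ra0_step, ra0_succ (h N le_rfl), ih σ h,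
      ih (fun i => σ (i + 1)) fun i hi => h _ (by omega)]
    exact (sum_choose_succ_mul (fun p _ => ra0_e N (fun i => σ (i + p)) a) u).symm

theorem ra0_shift' {σ : ℕ → ℂ} (h : ∀ i, N ≤ i → σ i = 0) (a : ℕ) {u D : ℕ} (hu : u ≤ D) :
    ra0_e N σ (a + u) =
      ∑ p ∈ range (D + 1), (u.choose p : ℂ) * ra0_e N (fun i => σ (i + p)) a := by
  rw [ra0_shift a u σ h]
  refine sum_subset (range_subset_range.2 (by omega)) fun p _ hp => ?_
  rw [Nat.choose_eq_zero_of_lt (by simpa using hp), Nat.cast_zero, zero_mul]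

theorem ra0_shift2 {ρ : ℕ → ℕ → ℂ} (h : ∀ i j, N ≤ i ∨ N ≤ j → ρ i j = 0) (a b : ℕ)
    {u v D c : ℕ} (hu : u ≤ D) (hv : v ≤ c) :
    ev N ρ (a + u) (b + v) = ∑ p ∈ range (D + 1), ∑ r ∈ range (c + 1),
      (u.choose p : ℂ) * (v.choose r : ℂ) * ev N (fun i j => ρ (i + p) (j + r)) a b := by
  have h0 : ∀ i, N ≤ i → ra0_e N (ρ i) (b + v) = 0 := fun i hi =>
    sum_eq_zero fun j _ => by rw [h i j (Or.inl hi), zero_mul]
  rw [ra0_ev, ra0_shift' h0 a hu]
  refine sum_congr rfl fun p _ => ?_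
  simp only [ra0_ev, mul_assoc, ← mul_sum]
  congr 1
  rw [ra0_e]
  simp only [ra0_shift' (fun j hj => h _ j (Or.inr hj)) b hv, sum_mul]
  rw [sum_comm]
  refine sum_congr rfl fun r _ => ?_
  rw [ra0_e, mul_sum]
  exact sum_congr rfl fun i _ => mul_assoc _ _ _

theorem ra0_coeff {P : Polynomial ℂ} {D a : ℕ} (hD : P.natDegree ≤ D) (ha : D ≤ a) (f : ℕ → ℂ) :
    PowerSeries.coeff a ((P : PowerSeries ℂ) * PowerSeries.mk f) =
      ∑ s ∈ range (D + 1), P.coeff s * f (a - s) := by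
  rw [PowerSeries.coeff_mul]
  simp only [Polynomial.coeff_coe, PowerSeries.coeff_mk]
  rw [Finset.Nat.sum_antidiagonal_eq_sum_range_succ (fun i j => P.coeff i * f j) a]
  refine (sum_subset (range_subset_range.2 (by omega)) fun s _ hs => ?_).symm
  rw [Polynomial.coeff_eq_zero_of_natDegree_lt (by simp at hs; omega), zero_mul]

theorem ra0_refl_sum (D : ℕ) (S : Finset ℕ) (f : ℕ → Polynomial ℂ) :
    (∑ s ∈ S, f s).reflect D = ∑ s ∈ S, (f s).reflect D := by
  induction S using Finset.induction_on with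
  | empty => simp
  | insert s S hs ih => rw [sum_insert hs, sum_insert hs, Polynomial.reflect_add, ih]

theorem ra0_refl {P : Polynomial ℂ} {D : ℕ} (hD : P.natDegree ≤ D) (p : ℕ) :
    ((P.reflect D).comp (1 + Polynomial.X)).coeff p =
      ∑ s ∈ range (D + 1), P.coeff s * ((D - s).choose p : ℂ) := by
  conv_lhs => rw [P.as_sum_range_C_mul_X_pow' (Nat.lt_succ_of_le hD), ra0_refl_sum]
  rw [Polynomial.sum_comp, Polynomial.finsetSum_coeff]
  refine sum_congr rfl fun s hs => ?_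
  rw [Polynomial.reflect_C_mul_X_pow, Polynomial.revAt_le (by simpa [Nat.lt_succ_iff] using hs)]
  simp [Polynomial.coeff_one_add_X_pow]

theorem ra0_lin {ι : Type} (S : Finset ι) (k : ι → ℂ) (ρ : ι → ℕ → ℕ → ℂ) (a b : ℕ) :
    ev N (fun i j => ∑ x ∈ S, k x * ρ x i j) a b = ∑ x ∈ S, k x * ev N (ρ x) a b := by
  simp only [ev, sum_mul, mul_sum]
  rw [sum_comm (s := S)]
  refine sum_congr rfl fun i _ => ?_
  rw [sum_comm (s := S)]
  exact sum_congr rfl fun j _ => sum_congr rfl fun x _ => by ring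

theorem ra0_sum {ι : Type} (S : Finset ι) (ρ : ι → ℕ → ℕ → ℂ) (a b : ℕ) :
    ev N (fun i j => ∑ x ∈ S, ρ x i j) a b = ∑ x ∈ S, ev N (ρ x) a b := by
  simpa using ra0_lin (N := N) S (fun _ => 1) ρ a b

/-- uniqueness of the coefficients -/
theorem ev_unique {ρ : ℕ → ℕ → ℂ} (h1 : ∀ i j, N ≤ i ∨ N ≤ j → ρ i j = 0)
    (h : ∀ b, ∃ a₁, ∀ a ≥ a₁, ev N ρ a b = 0) : ρ = 0 := by
  funext i j
  by_cases hi : N ≤ i ∨ N ≤ j
  · exact h1 i j hi
  · refine ra0_one N 0 (ρ i) (fun b _ => ?_) j (by omega)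
    obtain ⟨a₁, h2⟩ := h b
    exact ra0_one N a₁ (fun i => ra0_e N (ρ i) b) (fun a ha => by rw [← ra0_ev, h2 a ha]) i
      (by omega)

/-- A polynomial recurrence acts on the coefficients.  `reflect D` passes from backward to forward
shifts, `comp (1 + X)` from shifts to differences. -/
theorem HP.act (h : HP H N a₀ π) (c D : ℕ) (P : ℕ → Polynomial ℂ) (hD : ∀ m, (P m).natDegree ≤ D)
    (hP : ∀ b, PEq (∑ m ∈ range (c + 1),
      (P m : PowerSeries ℂ) * PowerSeries.mk fun a => (H a (b + c - m) : ℂ)) 0) (i j : ℕ) :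
    ∑ m ∈ range (c + 1), ∑ p ∈ range (D + 1), ∑ r ∈ range (c + 1),
      (((P m).reflect D).comp (1 + Polynomial.X)).coeff p * ((c - m).choose r : ℂ) *
        (π (i + p) (j + r) : ℂ) = 0 := by
  have hs : ∀ i j, N ≤ i ∨ N ≤ j → (π i j : ℂ) = 0 := fun i j hij => by
    rw [h.supp i j hij, Int.cast_zero]
  refine congrFun (congrFun (ev_unique (N := N)
    (ρ := fun i j => ∑ m ∈ range (c + 1), ∑ p ∈ range (D + 1), ∑ r ∈ range (c + 1),
      (((P m).reflect D).comp (1 + Polynomial.X)).coeff p * ((c - m).choose r : ℂ) *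
        (π (i + p) (j + r) : ℂ)) (fun i j hij => ?_) fun b => ?_) i) j
  · refine sum_eq_zero fun m _ => sum_eq_zero fun p _ => sum_eq_zero fun r _ => ?_
    rw [hs _ _ (by omega), mul_zero]
  · obtain ⟨q, hq⟩ := hP (a₀ + b)
    refine ⟨q.natDegree + 1, fun a ha => ?_⟩
    have h2 := congrArg (PowerSeries.coeff (a₀ + a + D)) hq
    rw [zero_add, Polynomial.coeff_coe, Polynomial.coeff_eq_zero_of_natDegree_lt (by omega),
      map_sum] at h2
    rw [← h2, ra0_sum]
    refine sum_congr rfl fun m hm => ?_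
    have hm' : m ≤ c := by simpa [Nat.lt_succ_iff] using hm
    rw [ra0_coeff (hD m) (by omega), ra0_sum]
    have h3 : ∀ s ∈ range (D + 1), (P m).coeff s * (H (a₀ + a + D - s) (a₀ + b + c - m) : ℂ) =
        ∑ p ∈ range (D + 1), ∑ r ∈ range (c + 1), (P m).coeff s *
          (((D - s).choose p : ℂ) * ((c - m).choose r : ℂ) *
            ev N (fun i j => (π (i + p) (j + r) : ℂ)) a b) := by
      intro s hs'
      have hs2 : s ≤ D := by simpa [Nat.lt_succ_iff] using hs'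
      have h4 := congrArg (Int.cast : ℤ → ℂ) (h.eq (a + (D - s)) (b + (c - m)))
      rw [ev_cast, Int.cast_natCast, ra0_shift2 hs a b (Nat.sub_le D s) (Nat.sub_le c m)] at h4
      rw [show a₀ + a + D - s = a₀ + (a + (D - s)) by omega,
        show a₀ + b + c - m = a₀ + (b + (c - m)) by omega, h4]
      simp only [mul_sum]
    rw [sum_congr rfl h3, sum_comm]
    refine sum_congr rfl fun p _ => ?_
    rw [ra0_lin, sum_comm]
    refine sum_congr rfl fun r _ => ?_
    rw [ra0_refl (hD m), sum_mul, sum_mul]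
    exact sum_congr rfl fun s _ => by ring

end Pool.Agent.NEF
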