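import Mathlib

/-! Generating series of numerators. -/

noncomputable section
namespace Pool.Agent.NEF
open Finset Polynomial

theorem ra5_coeff (A : Type) [CommRing A] (M k : ℕ) :
    PowerSeries.coeff k ((1 - PowerSeries.X : PowerSeries A) ^ M) = (-1) ^ k * (M.choose k : A) := by
  have h : ((1 - PowerSeries.X : PowerSeries A) ^ M) =
      PowerSeries.rescale (-1) (((1 + X : A[X]) ^ M : A[X]) : PowerSeries A) := by
    rw [Polynomial.coe_pow, Polynomial.coe_add, Polynomial.coe_one, Polynomial.coe_X, map_pow,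
      map_add, map_one, PowerSeries.rescale_neg_one_X, sub_eq_add_neg]
  rw [h, PowerSeries.coeff_rescale, Polynomial.coeff_coe, Polynomial.coeff_one_add_X_pow]

theorem ra5_core {A : Type} [CommRing A] {n c : ℕ} (hc : 1 ≤ c) {y z g : A} {τ Λ γ : ℕ → A}
    (hy : IsUnit y) (hg : IsUnit g)
    (hW : ∀ k, ∑ q ∈ antidiagonal k, Λ q.1 * (y ^ q.2 * τ q.2) =
      ((n + 1 + c).choose k : A) * y ^ k * g ^ 2)
    (hK : ∀ b, γ b = ∑ m ∈ range (b + 1),
      (-1) ^ m * (Nat.multichoose (n + 1 + c) (b - m) : A) * τ m)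
    (hΛ : ∀ m, c < m → Λ m = 0) (hτ : ∀ m, n + 1 < m → τ m = 0) (h1 : τ (n + 1) = z * g) :
    z * Λ c = y ^ c * g ∧
      ∀ b, ∑ m ∈ range (c + 1), (-1) ^ m * (Λ m * y ^ (c - m)) * γ (b + c - m) = 0 := by
  constructor
  · have h := hW (n + 1 + c)
    rw [sum_eq_single (c, n + 1), h1, Nat.choose_self] at h
    · refine ((hy.pow (n + 1)).mul hg).mul_left_cancel ?_
      push_cast at h
      linear_combination h
    · intro q hq hne
      rw [HasAntidiagonal.mem_antidiagonal] at hq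
      by_cases h2 : c < q.1
      · rw [hΛ _ h2, zero_mul]
      · have h3 : q.1 ≠ c := fun h3 => hne (Prod.ext h3 (by omega))
        rw [hτ _ (by omega), mul_zero, mul_zero]
    · intro h2
      exact absurd (HasAntidiagonal.mem_antidiagonal.2 (by omega)) h2
  intro b
  obtain ⟨La, hLa⟩ : ∃ La, La = PowerSeries.mk fun m => (-1) ^ m * Λ m := ⟨_, rfl⟩
  obtain ⟨Ta, hTa⟩ : ∃ Ta, Ta = PowerSeries.mk fun m => (-1) ^ m * (y ^ m * τ m) := ⟨_, rfl⟩
  obtain ⟨Mc, hMc⟩ : ∃ Mc, Mc = PowerSeries.mk fun j => (((n + c + j).choose (n + c) : ℕ) : A) :=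
    ⟨_, rfl⟩
  have e1 : La * Ta = PowerSeries.C (g ^ 2) *
      PowerSeries.rescale y ((1 - PowerSeries.X) ^ (n + c + 1)) := by
    ext k
    rw [PowerSeries.coeff_mul, PowerSeries.coeff_C_mul, PowerSeries.coeff_rescale, ra5_coeff,
      show n + c + 1 = n + 1 + c by omega]
    have : ∀ q ∈ antidiagonal k, PowerSeries.coeff q.1 La * PowerSeries.coeff q.2 Ta =
        (-1) ^ k * (Λ q.1 * (y ^ q.2 * τ q.2)) := by
      intro q hq
      rw [hLa, hTa, PowerSeries.coeff_mk, PowerSeries.coeff_mk, 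
        ← HasAntidiagonal.mem_antidiagonal.1 hq]
      ring
    rw [sum_congr rfl this, ← mul_sum, hW]
    ring
  have e2 : (PowerSeries.mk fun b => y ^ b * γ b) = Ta * PowerSeries.rescale y Mc := by
    ext k
    rw [PowerSeries.coeff_mul, PowerSeries.coeff_mk, hK, mul_sum,
      Finset.Nat.sum_antidiagonal_eq_sum_range_succ_mk]
    refine sum_congr rfl fun m hm => ?_
    obtain ⟨j, rfl⟩ := Nat.exists_eq_add_of_le (Nat.lt_succ_iff.1 (mem_range.1 hm))
    rw [hTa, hMc, PowerSeries.coeff_rescale, PowerSeries.coeff_mk, PowerSeries.coeff_mk,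
      Nat.add_sub_cancel_left, Nat.multichoose_eq, show n + 1 + c + j - 1 = n + c + j by omega,
      Nat.choose_symm_add]
    ring
  have e3 : La * (PowerSeries.mk fun b => y ^ b * γ b) = PowerSeries.C (g ^ 2) := by
    rw [e2, ← mul_assoc, e1, mul_assoc, ← map_mul, mul_comm _ Mc, hMc,
      PowerSeries.mk_add_choose_mul_one_sub_pow_eq_one, map_one, mul_one]
  have e4 := congrArg (PowerSeries.coeff (b + c)) e3
  rw [PowerSeries.coeff_C, if_neg (by omega), PowerSeries.coeff_mul,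
    Finset.Nat.sum_antidiagonal_eq_sum_range_succ_mk, hLa,
    ← sum_subset (range_subset_range.2 (show c + 1 ≤ (b + c).succ by omega))] at e4
  · refine (hy.pow b).mul_left_cancel ?_
    rw [mul_zero, ← e4, mul_sum]
    refine sum_congr rfl fun m hm => ?_
    have hm' := mem_range.1 hm
    rw [PowerSeries.coeff_mk, PowerSeries.coeff_mk, show y ^ (b + c - m) = y ^ b * y ^ (c - m) by
      rw [← pow_add, Nat.add_sub_assoc (by omega)]]
    ring
  · intro m _ hm
    rw [PowerSeries.coeff_mk, hΛ m (by simpa using hm), mul_zero, zero_mul]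

theorem ra5_unit (N : ℕ) {u : ℂ[X]} (hu : u.eval 1 ≠ 0) :
    IsUnit (Ideal.Quotient.mk (Ideal.span {(1 - X : ℂ[X]) ^ N}) u) := by
  have h : IsCoprime (X - C (1 : ℂ)) u :=
    (irreducible_X_sub_C 1).coprime_iff_not_dvd.2 fun h => hu (dvd_iff_isRoot.1 h)
  have h' : IsCoprime ((1 - X : ℂ[X]) ^ N) u := by
    refine IsCoprime.pow_left ?_
    simpa using h.neg_left
  obtain ⟨a, b, e⟩ := h'
  refine IsUnit.of_mul_eq_one_right (Ideal.Quotient.mk _ b) ?_
  rw [← map_mul, eq_sub_of_add_eq' e, map_sub, map_one,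
    (Ideal.Quotient.eq_zero_iff_dvd _ _).2 (dvd_mul_left _ _), sub_zero]

theorem series_rec {N n c e s : ℕ} (hc : 1 ≤ c) {g : ℂ[X]} {τ Λ γ : ℕ → ℂ[X]} (hg : g.eval 1 ≠ 0)
    (hW : ∀ k, (1 - X) ^ N ∣ ∑ q ∈ antidiagonal k, Λ q.1 * (X ^ (e * q.2) * τ q.2) -
      C ((n + 1 + c).choose k : ℂ) * X ^ (e * k) * g ^ 2)
    (hK : ∀ b, (1 - X) ^ N ∣ γ b - ∑ m ∈ range (b + 1),
      C ((-1) ^ m * (Nat.multichoose (n + 1 + c) (b - m) : ℂ)) * τ m)
    (hΛ : ∀ m, c < m → (1 - X) ^ N ∣ Λ m) (hτ : ∀ m, n + 1 < m → (1 - X) ^ N ∣ τ m)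
    (h1 : (1 - X) ^ N ∣ τ (n + 1) - X ^ s * g) :
    (1 - X) ^ N ∣ X ^ s * Λ c - X ^ (e * c) * g ∧ ∀ b, (1 - X) ^ N ∣
      ∑ m ∈ range (c + 1), (-1) ^ m * (Λ m * X ^ (e * (c - m))) * γ (b + c - m) := by
  simp only [← Ideal.Quotient.eq_zero_iff_dvd, map_sub, sub_eq_zero, map_sum, map_mul, map_pow,
    map_neg, map_one, map_natCast, pow_mul] at hW hK hΛ hτ h1 ⊢
  exact ra5_core hc ((ra5_unit N (u := X) (by simp)).pow e) (ra5_unit N hg) hW hK hΛ hτ h1

end Pool.Agent.NEF
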