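import Pool.Agent.P.MP_66e591_ag.RD1

/-! Filter regular linear forms. -/

noncomputable section
namespace Pool.Agent.NEF
open MvPolynomial Module Pool.Agent.HCF

variable {ι : Type} [Fintype ι] [DecidableEq ι] {M : ℕ}

/-- the elements that every monomial of large degree in the block `i` moves into `J` -/
def rb1_sat (J : Ideal (PP ι M)) (i : ι) (N : ℕ) : Ideal (PP ι M) where
  carrier := {f | ∀ μ : ι × Fin M →₀ ℕ, N ≤ Finsupp.weight (wt ι M) μ i → monomial μ 1 * f ∈ J}
  add_mem' ha hb μ h := by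
    rw [mul_add]
    exact J.add_mem (ha μ h) (hb μ h)
  zero_mem' μ _ := by
    rw [mul_zero]
    exact J.zero_mem
  smul_mem' c a ha μ h := by
    rw [smul_eq_mul, mul_left_comm]
    exact J.mul_mem_left c (ha μ h)

omit [Fintype ι] in
theorem rb1_mem {J : Ideal (PP ι M)} {i : ι} {N : ℕ} {f : PP ι M} : f ∈ rb1_sat J i N ↔
    ∀ μ : ι × Fin M →₀ ℕ, N ≤ Finsupp.weight (wt ι M) μ i → monomial μ 1 * f ∈ J := Iff.rfl

omit [Fintype ι] in
theorem rb1_var {μ : ι × Fin M →₀ ℕ} {i : ι} (h : 1 ≤ Finsupp.weight (wt ι M) μ i) :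
    ∃ j, μ (i, j) ≠ 0 := by
  by_contra hn
  simp only [not_exists, not_not] at hn
  have : Finsupp.weight (wt ι M) μ i = 0 := by
    rw [Finsupp.weight_apply, Finsupp.sum, Finset.sum_apply]
    refine Finset.sum_eq_zero fun q _ => ?_
    obtain ⟨k, j⟩ := q
    by_cases e : k = i
    · subst e
      rw [hn j, zero_smul, Pi.zero_apply]
    · simp [wt, Pi.single_eq_of_ne' e]
  omega

omit [Fintype ι] in
theorem rb1_step {J : Ideal (PP ι M)} {i : ι} {N : ℕ} {f : PP ι M}
    (h : ∀ j, X (i, j) * f ∈ rb1_sat J i N) : f ∈ rb1_sat J i (N + 1) := by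
  intro μ hμ
  obtain ⟨j, hj⟩ := rb1_var (μ := μ) (i := i) (by omega)
  obtain ⟨ν, rfl⟩ : ∃ ν, μ = ν + Finsupp.single (i, j) 1 :=
    ⟨μ - Finsupp.single (i, j) 1, (tsub_add_cancel_of_le
      (Finsupp.single_le_iff.2 (Nat.one_le_iff_ne_zero.2 hj))).symm⟩
  have e : Finsupp.weight (wt ι M) (ν + Finsupp.single (i, j) 1) i
      = Finsupp.weight (wt ι M) ν i + 1 := by
    rw [map_add, Finsupp.weight_single, Pi.add_apply, one_smul, wt, Pi.single_eq_same]
  have k := h j ν (by omega)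
  rwa [← mul_assoc, X, monomial_mul, mul_one] at k

theorem rb1_nzd {J : Ideal (PP ι M)} {i : ι} (hJ : ∀ f, (∀ j, X (i, j) * f ∈ J) → f ∈ J) :
    ∃ l ∈ Pw M (Pi.single i 1), ∀ f, l * f ∈ J → f ∈ J := by
  have hf : Finite (associatedPrimes (PP ι M) (PP ι M ⧸ J)) :=
    (associatedPrimes.finite (PP ι M) (PP ι M ⧸ J)).to_subtype
  have hz : ∀ r f : PP ι M, r • Ideal.Quotient.mk J f = 0 ↔ r * f ∈ J := fun r f => by
    rw [← Ideal.Quotient.eq_zero_iff_mem]
    rfl
  obtain ⟨u, hu⟩ := Submodule.exists_forall_notMem_of_forall_ne_top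
    (fun p : associatedPrimes (PP ι M) (PP ι M ⧸ J) => (p.1.restrictScalars ℂ).comap
      (Fintype.linearCombination ℂ fun j : Fin M => (X (i, j) : PP ι M))) fun p hp => by
    obtain ⟨h1, x, h2⟩ := isAssociatedPrime_iff.1 p.2
    obtain ⟨f, rfl⟩ := Ideal.Quotient.mk_surjective x
    have h3 : f ∈ J := hJ f fun j => by
      have k : Pi.single j (1 : ℂ) ∈ (p.1.restrictScalars ℂ).comap
          (Fintype.linearCombination ℂ fun j : Fin M => (X (i, j) : PP ι M)) := by
        rw [hp]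
        trivial
      rw [Submodule.mem_comap, Fintype.linearCombination_apply_single, one_smul,
        Submodule.restrictScalars_mem, h2, Submodule.mem_colon_singleton, Submodule.mem_bot] at k
      exact (hz _ _).1 k
    refine h1.ne_top ((Ideal.eq_top_iff_one _).2 ?_)
    rw [h2, Submodule.mem_colon_singleton, Submodule.mem_bot, hz, one_mul]
    exact h3
  refine ⟨Fintype.linearCombination ℂ (fun j : Fin M => (X (i, j) : PP ι M)) u, ?_, fun f h => ?_⟩
  · rw [Fintype.linearCombination_apply]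
    exact Submodule.sum_mem _ fun j _ => Submodule.smul_mem _ _
      (isWeightedHomogeneous_X ℂ (wt ι M) (i, j))
  · by_contra hn
    have k : Fintype.linearCombination ℂ (fun j : Fin M => (X (i, j) : PP ι M)) u ∈
        ⋃ p ∈ associatedPrimes (PP ι M) (PP ι M ⧸ J), (p : Set (PP ι M)) := by
      rw [biUnion_associatedPrimes_eq_zero_divisors]
      exact ⟨Ideal.Quotient.mk J f, fun e => hn (Ideal.Quotient.eq_zero_iff_mem.1 e), (hz _ _).2 h⟩
    obtain ⟨p, hp, k⟩ := Set.mem_iUnion₂.1 k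
    exact hu ⟨p, hp⟩ k

omit [Fintype ι] in
theorem rb1_comp {J : Ideal (PP ι M)} {i : ι} {N : ℕ} {h : PP ι M} {d a : ι → ℕ}
    (h1 : h ∈ rb1_sat J i N) (h2 : h ∈ Pw M d) (ha : N + d i ≤ a i) (u : PP ι M) :
    weightedHomogeneousComponent (wt ι M) a (u * h) ∈ J := by
  induction u using MvPolynomial.induction_on' with
  | monomial μ c =>
    have k : IsWeightedHomogeneous (wt ι M) (monomial μ c * h) (Finsupp.weight (wt ι M) μ + d) :=
      (isWeightedHomogeneous_monomial _ μ c rfl).mul h2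
    by_cases e : a = Finsupp.weight (wt ι M) μ + d
    · rw [e, k.weightedHomogeneousComponent_same]
      have e1 : a i = Finsupp.weight (wt ι M) μ i + d i := by rw [e, Pi.add_apply]
      have k2 := J.mul_mem_left (C c) (h1 μ (by omega))
      rwa [← mul_assoc, C_mul_monomial, mul_one] at k2
    · rw [k.weightedHomogeneousComponent_ne a e]
      exact J.zero_mem
  | add p q hp hq =>
    rw [add_mul, map_add]
    exact J.add_mem hp hq

theorem rb1_large (J : Ideal (PP ι M)) (i : ι) (N : ℕ) :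
    ∃ a₀ : ℕ, ∀ a : ι → ℕ, a₀ ≤ a i → ∀ f ∈ Pw M a, f ∈ rb1_sat J i N → f ∈ J := by
  let K : ℕ →o Ideal (PP ι M) :=
    ⟨fun D => Ideal.span {h | h ∈ rb1_sat J i N ∧ ∃ d : ι → ℕ, d i ≤ D ∧ h ∈ Pw M d},
      fun D D' hD => Ideal.span_mono fun h ⟨k1, d, k2, k3⟩ => ⟨k1, d, k2.trans hD, k3⟩⟩
  obtain ⟨D, hD⟩ := monotone_stabilizes_iff_noetherian.2
    (inferInstance : IsNoetherian (PP ι M) (PP ι M)) K
  refine ⟨N + D, fun a ha f hf h1 => ?_⟩
  have h2 : f ∈ K D := by
    rw [hD (a i) (by omega)]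
    exact Ideal.subset_span ⟨h1, a, le_rfl, hf⟩
  have h3 : ∀ g ∈ K D, ∀ u, weightedHomogeneousComponent (wt ι M) a (u * g) ∈ J := by
    intro g hg
    induction hg using Submodule.span_induction with
    | mem g hg =>
      obtain ⟨k1, d, k2, k3⟩ := hg
      exact rb1_comp k1 k3 (by omega)
    | zero =>
      intro u
      rw [mul_zero, map_zero]
      exact J.zero_mem
    | add p q _ _ hp hq =>
      intro u
      rw [mul_add, map_add]
      exact J.add_mem (hp u) (hq u)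
    | smul r p _ hp =>
      intro u
      rw [smul_eq_mul, ← mul_assoc]
      exact hp _
  have h4 := h3 f h2 1
  rwa [one_mul, IsWeightedHomogeneous.weightedHomogeneousComponent_same hf] at h4

/-- a linear form in the block `i` that is a nonzero divisor in large degree -/
theorem filter_reg {J : Ideal (PP ι M)} (hJ : MH J) (i : ι) :
    ∃ l ∈ Pw M (Pi.single i 1), ∃ a₀ : ℕ, ∀ a : ι → ℕ, a₀ ≤ a i → ∀ f ∈ Pw M a,
      l * f ∈ J → f ∈ J := by
  let K : ℕ →o Ideal (PP ι M) :=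
    ⟨rb1_sat J i, fun N N' hN f hf μ hμ => hf μ (hN.trans hμ)⟩
  obtain ⟨N, hN⟩ := monotone_stabilizes_iff_noetherian.2
    (inferInstance : IsNoetherian (PP ι M) (PP ι M)) K
  have e : rb1_sat J i N = rb1_sat J i (N + 1) := hN (N + 1) (Nat.le_succ N)
  obtain ⟨l, hl, h1⟩ := rb1_nzd (J := rb1_sat J i N) (i := i) fun f hf => e ▸ rb1_step hf
  obtain ⟨a₀, h2⟩ := rb1_large J i N
  exact ⟨l, hl, a₀, fun a ha f hf h => h2 a ha f hf (h1 f fun μ _ => J.mul_mem_left _ h)⟩

end Pool.Agent.NEF
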