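import Mathlib

/-! Functions of two natural numbers that are eventually polynomial. -/

noncomputable section
namespace Pool.Agent.NEF
open Finset

/-- the difference in the first variable -/
def dx (f : ℕ → ℕ → ℤ) : ℕ → ℕ → ℤ := fun a b => f (a + 1) b - f a b

/-- the difference in the second variable -/
def dy (f : ℕ → ℕ → ℤ) : ℕ → ℕ → ℤ := fun a b => f a (b + 1) - f a b

/-- a polynomial in two variables, in the binomial basis -/
def ev {A : Type} [CommRing A] (N : ℕ) (π : ℕ → ℕ → A) (a b : ℕ) : A :=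
  ∑ i ∈ range N, ∑ j ∈ range N, π i j * (a.choose i : A) * (b.choose j : A)

/-- `H` is a polynomial in the quadrant with corner `(a₀, a₀)`, with nonnegative top coefficients -/
structure HP (H : ℕ → ℕ → ℕ) (N a₀ : ℕ) (π : ℕ → ℕ → ℤ) : Prop where
  supp : ∀ i j, N ≤ i ∨ N ≤ j → π i j = 0
  eq : ∀ a b, (H (a₀ + a) (a₀ + b) : ℤ) = ev N π a b
  top : ∀ e, (∀ i j, e < i + j → π i j = 0) → ∀ i j, i + j = e → 0 ≤ π i j
  mono : ∀ a b a' b', a₀ ≤ a → a ≤ a' → a₀ ≤ b → b ≤ b' → H a b ≤ H a' b'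

theorem ev_cast {A : Type} [CommRing A] (N : ℕ) (π : ℕ → ℕ → ℤ) (a b : ℕ) :
    ((ev N π a b : ℤ) : A) = ev N (fun i j => (π i j : A)) a b := by
  simp [ev]

end Pool.Agent.NEF
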