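import Pool.Agent.P.MP_66e591_ag.A5
import Pool.Agent.P.MP_66e591_ag.RD0

/-! Multigraded ideals and their Hilbert functions. -/

noncomputable section
namespace Pool.Agent.NEF
open MvPolynomial Module Pool.Agent.HCF

variable {ι : Type} [DecidableEq ι]

/-- the polynomial ring in blocks of variables -/
abbrev PP (ι : Type) (M : ℕ) := MvPolynomial (ι × Fin M) ℂ

/-- the multidegree of a variable -/
def wt (ι : Type) [DecidableEq ι] (M : ℕ) : ι × Fin M → ι → ℕ := fun q => Pi.single q.1 1

/-- polynomials of multidegree `a` -/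
def Pw (M : ℕ) (a : ι → ℕ) : Submodule ℂ (PP ι M) := weightedHomogeneousSubmodule ℂ (wt ι M) a

variable {M : ℕ}

/-- a multihomogeneous ideal -/
def MH (J : Ideal (PP ι M)) : Prop := ∀ f ∈ J, ∀ a, weightedHomogeneousComponent (wt ι M) a f ∈ J

/-- the Hilbert function of the quotient -/
def HJ (J : Ideal (PP ι M)) (a : ι → ℕ) : ℕ :=
  finrank ℂ ((Pw M a).map (Ideal.Quotient.mkₐ ℂ J).toLinearMap)

/-- the same with two blocks -/
def H2 (J : Ideal (PP (Option Unit) M)) (a b : ℕ) : ℕ := HJ J (dg a fun _ => b)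

/-- the function given by a polynomial -/
def evZ (ι : Type) (M : ℕ) : PP ι M →ₐ[ℂ] ((ι → VV M) → ℂ) := aeval fun q z => z q.1 q.2

/-- the ideal of a set -/
def JZ {ι : Type} (Z : Set (ι → VV M)) : Ideal (PP ι M) where
  carrier := {f | ∀ z ∈ Z, evZ ι M f z = 0}
  add_mem' ha hb z hz := by rw [map_add, Pi.add_apply, ha z hz, hb z hz, add_zero]
  zero_mem' z _ := by simp
  smul_mem' c a ha z hz := by rw [smul_eq_mul, map_mul, Pi.mul_apply, ha z hz, mul_zero]

/-- the Hilbert function of the conormal variety -/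
def HW (I : Ideal (SS M)) (a b : ℕ) : ℕ := rk (WW Unit I) (Pd M (dg a fun _ : Unit => b))

end Pool.Agent.NEF
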