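import Pool.Agent.P.MP_f644fa_ag.LW
import Pool.Agent.P.MP_f644fa_ag.LConst

/-! The Koszul complex of a subbundle. -/

noncomputable section
namespace Pool.Agent.NEF
open Finset Module MvPolynomial Pool.Agent.HCF

section defs
variable {σ : Type} [LinearOrder σ] [Fintype σ]

/-- monomials of degree `d` -/
abbrev Mon (σ : Type) [LinearOrder σ] [Fintype σ] (d : ℕ) : Type :=
  ↥((univ : Finset σ).finsuppAntidiag d)

/-- the form with given coefficients -/
def pol (A : Type) [CommRing A] (d : ℕ) : (Mon σ d → A) →ₗ[A] MvPolynomial σ A where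
  toFun y := ∑ μ, monomial μ.1 (y μ)
  map_add' a b := by simp [sum_add_distrib]
  map_smul' c a := by simp [smul_sum, smul_monomial]

/-- exterior forms with polynomial coefficients -/
def up (A : Type) [CommRing A] (d : ℕ) :
    (Finset σ × Mon σ d → A) →ₗ[A] Finset σ → MvPolynomial σ A where
  toFun y J := pol A d fun μ => y (J, μ)
  map_add' a b := funext fun J => (pol A d).map_add (fun μ => a (J, μ)) fun μ => b (J, μ)
  map_smul' c a := funext fun J => (pol A d).map_smul c fun μ => a (J, μ)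

/-- their coefficients -/
def dn (A : Type) [CommRing A] (d : ℕ) :
    (Finset σ → MvPolynomial σ A) →ₗ[A] Finset σ × Mon σ d → A where
  toFun z q := coeff q.2.1 (z q.1)
  map_add' a b := by ext q; simp
  map_smul' c a := by ext q; simp

/-- the Koszul differential -/
def dK (A : Type) [CommRing A] (d : ℕ) :
    (Finset σ × Mon σ d → A) →ₗ[A] Finset σ × Mon σ (d + 1) → A :=
  dn A (d + 1) ∘ₗ (iov (MvPolynomial σ A) (X : σ → MvPolynomial σ A)).restrictScalars A ∘ₗ up A d

theorem pol_apply {A : Type} [CommRing A] {d : ℕ} (y : Mon σ d → A) :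
    pol A d y = ∑ μ, monomial μ.1 (y μ) := rfl

theorem up_apply {A : Type} [CommRing A] {d : ℕ} (y : Finset σ × Mon σ d → A) (J : Finset σ) :
    up A d y J = pol A d fun μ => y (J, μ) := rfl

theorem dn_apply {A : Type} [CommRing A] {d : ℕ} (z : Finset σ → MvPolynomial σ A)
    (q : Finset σ × Mon σ d) : dn A d z q = coeff q.2.1 (z q.1) := rfl

theorem dK_apply {A : Type} [CommRing A] {d : ℕ} (y : Finset σ × Mon σ d → A) :
    dK A d y = dn A (d + 1) (iov (MvPolynomial σ A) (X : σ → MvPolynomial σ A) (up A d y)) := rfl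

variable {M n : ℕ} {Y R RR : Type} [CommRing R] [Algebra ℂ R] [CommRing RR] [Algebra ℂ RR]
  {S : NS0 M n Y R RR}

/-- sections of `Λ^m B ⊗ S^d` -/
def KK (B : Sub S σ) (m d : ℕ) : Submodule R (Finset σ × Mon σ d → R) where
  carrier := {y | ∀ μ, (fun J => y (J, μ)) ∈ B.lamG ⊓ degS σ R m}
  add_mem' ha hb μ := Submodule.add_mem _ (ha μ) (hb μ)
  zero_mem' _ := Submodule.zero_mem _
  smul_mem' c _ ha μ := Submodule.smul_mem _ c (ha μ)

/-- the cycles -/
def ZZ (B : Sub S σ) (m d : ℕ) : Submodule R (Finset σ × Mon σ d → R) where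
  carrier := {y | y ∈ KK B m d ∧ (∀ q, dK ℂ d (S.val q y) = 0) ∧
    ∀ q, ∀ ξ ∈ B.T q, eval ξ (up ℂ d (S.val q y) ∅) = 0}
  add_mem' {a b} ha hb := ⟨add_mem ha.1 hb.1,
    fun q => by rw [lses_val_add, map_add, ha.2.1 q, hb.2.1 q, add_zero],
    fun q ξ h => by
      rw [lses_val_add, map_add, Pi.add_apply, map_add, ha.2.2 q ξ h, hb.2.2 q ξ h, add_zero]⟩
  zero_mem' := ⟨zero_mem _, fun q => by rw [lsub_val_zero, map_zero],
    fun q ξ _ => by rw [lsub_val_zero, map_zero, Pi.zero_apply, map_zero]⟩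
  smul_mem' c a ha := ⟨Submodule.smul_mem _ c ha.1,
    fun q => by rw [lses_val_smul, map_smul, ha.2.1 q, smul_zero],
    fun q ξ h => by
      rw [lses_val_smul, map_smul, Pi.smul_apply, smul_eval, ha.2.2 q ξ h, mul_zero]⟩

theorem mem_KK {B : Sub S σ} {m d : ℕ} {y : Finset σ × Mon σ d → R} :
    y ∈ KK B m d ↔ ∀ μ, (fun J => y (J, μ)) ∈ B.lamG ⊓ degS σ R m := Iff.rfl

theorem mem_ZZ {B : Sub S σ} {m d : ℕ} {y : Finset σ × Mon σ d → R} :
    y ∈ ZZ B m d ↔ y ∈ KK B m d ∧ (∀ q, dK ℂ d (S.val q y) = 0) ∧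
      ∀ q, ∀ ξ ∈ B.T q, eval ξ (up ℂ d (S.val q y) ∅) = 0 := Iff.rfl

end defs

variable {M n : ℕ} {Y R RR : Type} [CommRing R] [Algebra ℂ R] [CommRing RR] [Algebra ℂ RR]

theorem tan_loc (S : NS M n Y R RR) (p : Y) :
    ∃ δ t, S.toNS0.Prj (fun q => perp (S.T q)) p δ t := by
  obtain ⟨δ, t, h1, h2, h3⟩ := S.sub0_loc p
  refine ⟨δ, Matrix.of fun j l => (if j = l then δ else 0) - t l j, h1, fun q l v hv => ?_,
    fun q v hv j => ?_⟩
  · have := h3 q v hv l
    simp only [Matrix.of_apply, map_sub, apply_ite (S.ev q), map_zero, sub_mul, sum_sub_distrib,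
      ite_mul, zero_mul, sum_ite_eq', mem_univ, if_true, this, sub_self]
  · have := hv _ (h2 q j)
    simp only [Matrix.of_apply, map_sub, apply_ite (S.ev q), map_zero, sub_mul, sum_sub_distrib,
      ite_mul, zero_mul, sum_ite_eq, mem_univ, if_true]
    rw [sub_eq_self, ← this]
    exact sum_congr rfl fun l _ => mul_comm _ _

/-- the tangent bundle of the cone -/
def tanB (S : NS M n Y R RR) : Sub S.toNS0 (Fin M) where
  w _ := 0
  T q := perp (S.T q)
  T_dbl p v hv := by simpa [S.T_dbl] using hv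
  loc := tan_loc S

end Pool.Agent.NEF
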