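import Pool.Agent.P.MP_66e591_ag.RD1
import Pool.Agent.P.MP_66e591_ag.T2

/-! Lower bound and density. -/

noncomputable section
namespace Pool.Agent.NEF
open MvPolynomial Module Finset Pool.Agent.HCF

variable {M : ℕ} {I : Ideal (SS M)} {c : ℕ}

theorem rg2_grad {f : SS M} (hf : f ∈ I) (x : VV M) :
    (fun j => eval x (pderiv j f)) ∈ conormal I x := by
  intro v hv
  rw [← hv f hf]
  simp only [dotProduct, mul_comm]

theorem rg2_comb {f : Fin c → SS M} (hf : ∀ i, f i ∈ I) (w : Fin c → ℂ) (x : VV M) :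
    (∑ i, w i • fun j => eval x (pderiv j (f i))) ∈ conormal I x := by
  intro v hv
  rw [sum_dotProduct]
  refine Finset.sum_eq_zero fun i _ => ?_
  rw [smul_dotProduct, rg2_grad (hf i) x v hv, smul_zero]

theorem rg2_span (hX : IsManifold I c) {x θ : VV M} (hx : x ∈ cone I) (hθ : θ ∈ conormal I x) :
    ∃ (f : Fin c → SS M) (w : Fin c → ℂ), (∀ i, f i ∈ I) ∧
      (∑ i, w i • fun j => eval x (pderiv j (f i))) = θ := by
  obtain ⟨f, -, hf, hli, -⟩ := hX.smooth x hx
  obtain ⟨η, -, hη⟩ := exists_cobasis hX hx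
  have hle : Submodule.span ℂ (Set.range fun i j => eval x (pderiv j (f i))) ≤
      Submodule.span ℂ (Set.range η) := by
    rw [Submodule.span_le]
    rintro _ ⟨i, rfl⟩
    exact (hη _).1 (rg2_grad (hf i) x)
  have hrk : finrank ℂ (Submodule.span ℂ (Set.range η)) ≤
      finrank ℂ (Submodule.span ℂ (Set.range fun i j => eval x (pderiv j (f i)))) := by
    rw [finrank_span_eq_card hli]
    exact finrank_range_le_card (R := ℂ) η
  have heq := Submodule.eq_of_le_of_finrank_le hle hrk
  have h4 := (hη θ).1 hθ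
  rw [← heq] at h4
  obtain ⟨w, hw⟩ := (Submodule.mem_span_range_iff_exists_fun ℂ).1 h4
  exact ⟨f, w, hf, hw⟩

theorem rg2_rk {Ω : Type} {Z Z' : Set Ω} {P : Submodule ℂ (Ω → ℂ)} [Module.Finite ℂ P]
    (h : ∀ f ∈ P, res Z' f = 0 → res Z f = 0) : rk Z P ≤ rk Z' P := by
  have h1 := LinearMap.finrank_range_add_finrank_ker ((res Z).domRestrict P)
  have h2 := LinearMap.finrank_range_add_finrank_ker ((res Z').domRestrict P)
  rw [LinearMap.range_domRestrict] at h1 h2
  have h3 : LinearMap.ker ((res Z').domRestrict P) ≤ LinearMap.ker ((res Z).domRestrict P) :=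
    fun f hf => h f.1 f.2 hf
  have h4 := Submodule.finrank_mono h3
  unfold rk
  omega

theorem HW_lower (hX : IsManifold I c) (a b : ℕ) :
    HR I a * Nat.multichoose c b ≤ HW I a b := by
  classical
  obtain ⟨x₀, hx⟩ := hX.nonempty
  obtain ⟨Δ, B, hΔ, hB⟩ := exists_cochart hX hx
  have hδ : Δ ∉ I := fun h => hΔ (hx.2 Δ h)
  let R := (homogeneousSubmodule (Fin M) ℂ a).map (pf I).toLinearMap
  let β := ↥(finsuppAntidiag (univ : Finset (Fin c)) b)
  let μ : β → Unit → Fin c → ℕ := fun b _ r => b.1 r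
  let Z := WW Unit I
  have hμ : Function.Injective μ := fun b b' e =>
    Subtype.ext (Finsupp.ext fun r => congrFun (congrFun e ()) r)
  let Φ : (β → R) →ₗ[ℂ] (Z → ℂ) :=
    { toFun := fun g z =>
        ∑ b, (g b).1 ⟨z.1 none, z.2.1⟩ * ∏ i, ∏ r, (z.1 (some i) ⬝ᵥ B r) ^ μ b i r
      map_add' := fun g g' => by
        funext z
        simp only [Pi.add_apply, Submodule.coe_add, add_mul, sum_add_distrib]
      map_smul' := fun t g => by
        funext z
        simp only [Pi.smul_apply, Submodule.coe_smul, smul_eq_mul, RingHom.id_apply, mul_assoc,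
          ← mul_sum] }
  have hdg : (Pi.single none a : Option Unit → ℕ) + (dg 0 fun _ : Unit => b) =
      dg a fun _ : Unit => b := by
    funext o
    cases o <;> simp
  have hmem : ∀ g, Φ g ∈ (Pd M (dg a fun _ : Unit => b)).map (res Z) := by
    intro g
    choose p hp hpe using fun b => Submodule.mem_map.1 (g b).2
    refine ⟨∑ d, (fun y : Option Unit → VV M => eval (y none) (p d)) *
      fun y : Option Unit → VV M => ∏ i, ∏ r, (y (some i) ⬝ᵥ B r) ^ μ d i r,
      Submodule.sum_mem _ fun d _ => ?_, ?_⟩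
    · rw [← hdg]
      exact Pd_mul (eval_mem none (hp d))
        (t2_mon B (fun _ => b) (μ d) fun _ => (mem_finsuppAntidiag.1 d.2).1)
    · funext z
      show (∑ d, (fun y : Option Unit → VV M => eval (y none) (p d)) *
        fun y : Option Unit → VV M => ∏ i, ∏ r, (y (some i) ⬝ᵥ B r) ^ μ d i r) z.1 =
        ∑ d, (g d).1 ⟨z.1 none, z.2.1⟩ * ∏ i, ∏ r, (z.1 (some i) ⬝ᵥ B r) ^ μ d i r
      rw [Finset.sum_apply]
      refine sum_congr rfl fun d _ => ?_
      rw [Pi.mul_apply, ← hpe d]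
      exact congrArg (fun t => t * _) (pf_apply (p d) ⟨z.1 none, z.2.1⟩).symm
  have hinj : Function.Injective Φ := by
    refine (injective_iff_map_eq_zero Φ).2 fun g hg => funext fun d => Subtype.ext ?_
    obtain ⟨p, -, hpe⟩ := Submodule.mem_map.1 (g d).2
    rw [← hpe]
    refine hX.pf_eq_zero.2 (mem_of_vanish hX hδ fun x hxc hxδ => ?_)
    obtain ⟨A, hA1, hA2, -⟩ := hB x hxc hxδ
    have h1 := t2_coeff μ hμ (fun d => (g d).1 ⟨x, hxc⟩) 1 one_ne_zero (fun w => by
      have h2 : ∑ d, (g d).1 ⟨x, hxc⟩ *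
          ∏ i, ∏ r, ((A fun r => w (i, r)) ⬝ᵥ B r) ^ μ d i r = 0 :=
        congrFun hg ⟨fun o => o.elim x fun i => A fun r => w (i, r), hxc, fun i => hA1 _⟩
      simp only [hA2] at h2
      rw [h2, mul_zero]) d
    rw [← hpe] at h1
    exact (pf_apply p ⟨x, hxc⟩).symm.trans h1
  have := Pd_finite (M := M) (dg a fun _ : Unit => b)
  have := hom_finite M a
  have h3 := LinearMap.finrank_le_finrank_of_injective
    (f := Φ.codRestrict _ hmem) fun g g' e => hinj (congrArg Subtype.val e)
  rw [Module.finrank_pi_fintype, sum_const, card_univ, smul_eq_mul, Fintype.card_coe,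
    card_finsuppAntidiag_nat_eq_multichoose, card_univ, Fintype.card_fin] at h3
  rw [mul_comm]
  exact h3

theorem HW_dense (hX : IsManifold I c) {δ : SS M} (hδ : δ ∉ I) (a b : ℕ) :
    HW I a b ≤ rk (Zs I δ (univ : Finset Unit)) (Pd M (dg a fun _ : Unit => b)) := by
  have := Pd_finite (M := M) (dg a fun _ : Unit => b)
  refine rg2_rk fun F hF h0 => funext fun z => ?_
  obtain ⟨f, w, hf, hw⟩ := rg2_span hX z.2.1 (z.2.2 ())
  obtain ⟨G, hG⟩ := Pd_poly (σ := Fin M)
    (fun x (o : Option Unit) => o.elim x fun _ => ∑ i, w i • fun j => eval x (pderiv j (f i))) (by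
      intro o k
      cases o with
      | none => exact ⟨X k, fun x => by simp⟩
      | some i => exact ⟨∑ i, C (w i) * pderiv k (f i), fun x => by simp [Finset.sum_apply]⟩) hF
  have h1 : G ∈ I := mem_of_vanish hX hδ fun x hx hxδ => by
    have hm : (fun o : Option Unit => o.elim x fun _ =>
        ∑ i, w i • fun j => eval x (pderiv j (f i))) ∈ Zs I δ (univ : Finset Unit) :=
      ⟨hx, hxδ, fun _ _ => rg2_comb hf w x⟩
    rw [← hG x]
    exact congrFun h0 ⟨_, hm⟩
  have h2 := z.2.1.2 G h1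
  rw [← hG] at h2
  have h3 : z.1 = fun o : Option Unit => o.elim (z.1 none) fun _ =>
      ∑ i, w i • fun j => eval (z.1 none) (pderiv j (f i)) := by
    funext o
    cases o with
    | none => rfl
    | some i => exact hw.symm
  rw [← h3] at h2
  exact h2

end Pool.Agent.NEF
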