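import Pool.Agent.P.MP_66e591_ag.RD2

/-! Coefficients of forms. -/

noncomputable section
namespace Pool.Agent.NEF
open Finset Module MvPolynomial Pool.Agent.HCF

variable {σ : Type} [LinearOrder σ] [Fintype σ] {A A' : Type} [CommRing A] [CommRing A'] {d : ℕ}

theorem rk0_mem {μ : σ →₀ ℕ} : μ ∈ (univ : Finset σ).finsuppAntidiag d ↔ μ.degree = d := by
  rw [mem_finsuppAntidiag, Finsupp.degree_eq_sum]
  simp

theorem card_Mon (d : ℕ) : Fintype.card (Mon σ d) = Nat.multichoose (Fintype.card σ) d := by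
  rw [Fintype.card_coe, card_finsuppAntidiag_nat_eq_multichoose, card_univ]

theorem pol_hom (y : Mon σ d → A) : (pol A d y).IsHomogeneous d := by
  rw [pol_apply]
  exact IsHomogeneous.sum _ _ _ fun μ _ => isHomogeneous_monomial _ (rk0_mem.1 μ.2)

theorem coeff_pol (y : Mon σ d → A) (μ : Mon σ d) : coeff μ.1 (pol A d y) = y μ := by
  rw [pol_apply, coeff_sum, sum_eq_single μ]
  · rw [coeff_monomial, if_pos rfl]
  · intro ν _ hν
    rw [coeff_monomial, if_neg fun h => hν (Subtype.ext h)]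
  · intro h
    exact absurd (mem_univ μ) h

theorem pol_coeff {p : MvPolynomial σ A} (h : p.IsHomogeneous d) :
    pol A d (fun μ => coeff μ.1 p) = p := by
  ext ν
  by_cases hν : ν.degree = d
  · exact coeff_pol _ ⟨ν, rk0_mem.2 hν⟩
  · rw [(pol_hom _).coeff_eq_zero hν, h.coeff_eq_zero hν]

theorem dn_up (y : Finset σ × Mon σ d → A) : dn A d (up A d y) = y := by
  funext q
  rw [dn_apply, up_apply, coeff_pol]

theorem up_dn {z : Finset σ → MvPolynomial σ A} (h : ∀ J, (z J).IsHomogeneous d) :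
    up A d (dn A d z) = z := by
  funext J
  exact pol_coeff (h J)

theorem iov_X_hom {z : Finset σ → MvPolynomial σ A} (h : ∀ J, (z J).IsHomogeneous d)
    (J : Finset σ) :
    (iov (MvPolynomial σ A) (X : σ → MvPolynomial σ A) z J).IsHomogeneous (d + 1) := by
  rw [fock_iov]
  refine IsHomogeneous.sum _ _ _ fun j _ => ?_
  rw [smul_eq_mul, add_comm]
  refine (isHomogeneous_X A j).mul ?_
  rw [io_apply]
  split_ifs
  · exact isHomogeneous_zero _ _ _
  · exact zsmul_mem (S := Submodule A (MvPolynomial σ A)) (K := homogeneousSubmodule σ A d) (h _) _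

theorem up_dK (y : Finset σ × Mon σ d → A) :
    up A (d + 1) (dK A d y) = iov (MvPolynomial σ A) (X : σ → MvPolynomial σ A) (up A d y) := by
  rw [dK_apply]
  exact up_dn (iov_X_hom fun J => pol_hom _)

theorem up_map (f : A →+* A') (y : Finset σ × Mon σ d → A) (J : Finset σ) :
    up A' d (fun q => f (y q)) J = map f (up A d y J) := by
  simp only [up_apply, pol_apply, map_sum, map_monomial]

theorem dK_map (f : A →+* A') (y : Finset σ × Mon σ d → A) :
    dK A' d (fun q => f (y q)) = fun q => f (dK A d y q) := by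
  funext q
  have h1 : up A' d (fun q => f (y q)) = fun J => map f (up A d y J) := funext (up_map f y)
  have h2 := iov_nat (map f : MvPolynomial σ A →+* MvPolynomial σ A').toAddMonoidHom
    (a := (X : σ → MvPolynomial σ A)) (a' := (X : σ → MvPolynomial σ A'))
    (fun j v => by simp) (up A d y)
  have h3 := congrFun h2 q.1
  rw [dK_apply, dK_apply, dn_apply, dn_apply, h1, ← coeff_map]
  exact congrArg (coeff q.2.1) h3.symm

/-- contraction with a constant vector acts on the coefficients -/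
theorem coeff_iov (v : σ → A) (z : Finset σ → MvPolynomial σ A) (μ : σ →₀ ℕ) :
    (fun J => coeff μ (iov (MvPolynomial σ A) (fun j => (C (v j) : MvPolynomial σ A)) z J)) =
      iov A v fun J => coeff μ (z J) := by
  exact iov_nat (lcoeff A μ : MvPolynomial σ A →ₗ[A] A).toAddMonoidHom
    (a := fun j => (C (v j) : MvPolynomial σ A)) (a' := v) (fun j w => by simp) z

theorem eval_iov (ξ : σ → A) (z : Finset σ → MvPolynomial σ A) :
    (fun J => eval ξ (iov (MvPolynomial σ A) (X : σ → MvPolynomial σ A) z J)) =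
      iov A ξ fun J => eval ξ (z J) := by
  exact iov_nat (eval ξ : MvPolynomial σ A →+* A).toAddMonoidHom
    (a := (X : σ → MvPolynomial σ A)) (a' := ξ) (fun j w => by simp) z

variable {M n : ℕ} {Y R RR : Type} [CommRing R] [Algebra ℂ R] [CommRing RR] [Algebra ℂ RR]
  {S : NS0 M n Y R RR}

theorem val_dK (q : Y) (y : Finset σ × Mon σ d → R) :
    S.val q (dK R d y) = dK ℂ d (S.val q y) := by
  exact (dK_map (S.ev q : R →+* ℂ) y).symm

theorem val_sc0 {I : Type} (q : Y) (y : I → R) :
    S.val q (S.sc (fun _ => 0) y) = S.val (S.dbl q) y := by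
  funext i
  rw [NS0.val_apply, NS0.val_apply, dat_sc_apply, pow_zero, one_smul, S.ev_dbl]

theorem KK_inv (B : Sub S σ) (hw : ∀ j, B.w j = 0) (m d : ℕ) :
    ∀ y ∈ KK B m d, S.sc (fun _ => 0) y ∈ KK B m d := by
  intro y hy μ
  have h0 : B.wt = fun _ => 0 := funext fun J => sum_eq_zero fun j _ => hw j
  have h1 := B.lamG_inv _ (hy μ).1
  rw [h0] at h1
  refine ⟨h1, fun J hJ => ?_⟩
  have h2 : y (J, μ) = 0 := (hy μ).2 J hJ
  show S.sc (fun _ => 0) y (J, μ) = 0
  rw [dat_sc_apply, h2, map_zero, smul_zero]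

theorem ZZ_inv (B : Sub S σ) (hw : ∀ j, B.w j = 0) (m d : ℕ) :
    ∀ y ∈ ZZ B m d, S.sc (fun _ => 0) y ∈ ZZ B m d := by
  intro y hy
  refine ⟨KK_inv B hw m d y hy.1, fun q => ?_, fun q ξ hξ => ?_⟩
  · rw [val_sc0]
    exact hy.2.1 _
  · rw [val_sc0]
    refine hy.2.2 _ ξ ?_
    simpa [hw] using B.T_dbl q ξ hξ

end Pool.Agent.NEF
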