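import Pool.Agent.P.MP_f644fa_ag.Loc

/-! The Koszul homotopy. -/

noncomputable section
namespace Pool.Agent.NEF
open Finset MvPolynomial Pool.Agent.HCF

variable {σ : Type} [LinearOrder σ] [Fintype σ] {R : Type} [CommRing R] [Algebra ℂ R]

/-- the ideal of the image of `t` -/
def rkJ (δ : R) (t : Matrix σ σ R) : Ideal (MvPolynomial σ R) :=
  Ideal.span (Set.range fun k => C δ * X k - ∑ l, C (t k l) * X l)

theorem rk1_sub (a b : σ → MvPolynomial σ R) (F : MvPolynomial σ R) :
    aeval a F - aeval b F ∈ Ideal.span (Set.range fun k => a k - b k) := by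
  induction F using MvPolynomial.induction_on with
  | C r => simp
  | add p q hp hq =>
    rw [map_add, map_add, add_sub_add_comm]
    exact Ideal.add_mem _ hp hq
  | mul_X p k hp =>
    rw [map_mul, map_mul, aeval_X, aeval_X,
      show aeval a p * a k - aeval b p * b k =
        (aeval a p - aeval b p) * a k + aeval b p * (a k - b k) by ring]
    exact Ideal.add_mem _ (Ideal.mul_mem_right _ _ hp)
      (Ideal.mul_mem_left _ _ (Ideal.subset_span ⟨k, rfl⟩))

theorem rk1_scale (δ : R) {d : ℕ} {F : MvPolynomial σ R} (hF : F.IsHomogeneous d) :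
    aeval (fun k => C δ * X k : σ → MvPolynomial σ R) F = C (δ ^ d) * F := by
  conv_rhs => rw [← eval₂_eta F, eval₂_eq', mul_sum]
  rw [aeval_def, eval₂_eq']
  refine sum_congr rfl fun s hs => ?_
  have h := hF (mem_support_iff.1 hs)
  rw [Finsupp.weight_eq_sum] at h
  have h1 : ∑ i, s i = d := by simpa using h
  simp only [mul_pow, prod_mul_distrib, prod_pow_eq_pow_sum, h1, algebraMap_eq, map_pow]
  ring

theorem rk_mem (δ : R) (t : Matrix σ σ R) {d : ℕ} {F : MvPolynomial σ R} (hF : F.IsHomogeneous d)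
    (h : aeval (fun k => ∑ l, C (t k l) * X l : σ → MvPolynomial σ R) F = 0) :
    C (δ ^ d) * F ∈ rkJ δ t := by
  have h1 := rk1_sub (fun k => C δ * X k) (fun k => ∑ l, C (t k l) * X l) F
  rwa [h, sub_zero, rk1_scale δ hF] at h1

/-- a vector field -/
def rk1_der (a : σ → MvPolynomial σ R) : Derivation ℂ (MvPolynomial σ R) (MvPolynomial σ R) :=
  ∑ k, a k • (pderiv k).restrictScalars ℂ

theorem rk1_der_apply (a : σ → MvPolynomial σ R) (f : MvPolynomial σ R) :
    rk1_der a f = ∑ k, a k * pderiv k f := by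
  have := congrArg (fun g : MvPolynomial σ R → MvPolynomial σ R => g f)
    (map_sum Derivation.coeFnAddMonoidHom
      (fun k => a k • (pderiv (R := R) k).restrictScalars ℂ) univ)
  refine Eq.trans this ?_
  rw [Finset.sum_apply]
  rfl

theorem rk1_der_X (a : σ → MvPolynomial σ R) (j : σ) : rk1_der a (X j) = a j := by
  simp [rk1_der_apply, pderiv_X, Pi.single_apply]

theorem rk1_der_C (a : σ → MvPolynomial σ R) (r : R) : rk1_der a (C r) = 0 := by
  simp [rk1_der_apply]

/-- the homotopy -/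
def rk1_h (s : Matrix σ σ R) (z : Finset σ → MvPolynomial σ R) : Finset σ → MvPolynomial σ R :=
  ∑ l, ep (MvPolynomial σ R) (MvPolynomial σ R) l fun J => rk1_der (fun k => C (s k l)) (z J)

theorem rk1_h_deg (s : Matrix σ σ R) {m : ℕ} {z : Finset σ → MvPolynomial σ R} (hm : Deg m z) :
    Deg (m + 1) (rk1_h s z) := fun J hJ => by
  rw [rk1_h, Finset.sum_apply]
  exact sum_eq_zero fun l _ => Deg.ep (fun K hK => by rw [hm K hK, map_zero]) l J hJ

theorem rk1_zsmul {f : MvPolynomial σ R} {d : ℕ} (hf : f.IsHomogeneous d) (n : ℤ) :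
    (n • f).IsHomogeneous d := zsmul_mem (S := Submodule R _) (K := homogeneousSubmodule σ R d) hf n

theorem rk1_h_hom (s : Matrix σ σ R) {d : ℕ} {z : Finset σ → MvPolynomial σ R}
    (hd : ∀ J, (z J).IsHomogeneous (d + 1)) (J : Finset σ) : (rk1_h s z J).IsHomogeneous d := by
  rw [rk1_h, Finset.sum_apply]
  refine IsHomogeneous.sum _ _ _ fun l _ => ?_
  rw [ep_apply]
  split_ifs
  · refine rk1_zsmul ?_ _
    rw [rk1_der_apply]
    exact IsHomogeneous.sum _ _ _ fun k _ => (hd _).pderiv.C_mul _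
  · exact isHomogeneous_zero _ _ _

theorem rk1_iov_hom {d : ℕ} {y : Finset σ → MvPolynomial σ R} (hd : ∀ J, (y J).IsHomogeneous d)
    (J : Finset σ) :
    (iov (MvPolynomial σ R) (X : σ → MvPolynomial σ R) y J).IsHomogeneous (d + 1) := by
  rw [fock_iov]
  refine IsHomogeneous.sum _ _ _ fun l _ => ?_
  rw [io_apply, smul_eq_mul, add_comm]
  refine (isHomogeneous_X R l).mul ?_
  split_ifs
  · exact isHomogeneous_zero _ _ _
  · exact rk1_zsmul (hd _) _

theorem rk1_h_ker (s : Matrix σ σ R) {v : σ → R} (hv : ∀ k, ∑ l, s k l * v l = 0)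
    {z : Finset σ → MvPolynomial σ R}
    (h1 : iov (MvPolynomial σ R) (fun j => (C (v j) : MvPolynomial σ R)) z = 0) :
    iov (MvPolynomial σ R) (fun j => (C (v j) : MvPolynomial σ R)) (rk1_h s z) = 0 := by
  have h2 : ∀ l, iov (MvPolynomial σ R) (fun j => (C (v j) : MvPolynomial σ R))
      (fun J => rk1_der (fun k => C (s k l)) (z J)) = 0 := fun l => by
    have h3 := loc_der (fun j => (C (v j) : MvPolynomial σ R)) (rk1_der fun k => C (s k l)) z
    have h4 : (fun j => rk1_der (fun k => C (s k l)) (C (v j) : MvPolynomial σ R)) = 0 :=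
      funext fun j => rk1_der_C _ _
    rw [h1, h4] at h3
    simp only [Pi.zero_apply, map_zero, iov, zero_smul, sum_const_zero, LinearMap.zero_apply,
      add_zero] at h3
    exact h3.symm
  rw [rk1_h, map_sum]
  simp only [loc_anti, h2, map_zero, sub_zero]
  funext J
  simp only [Finset.sum_apply, Pi.smul_apply, smul_eq_mul, rk1_der_apply, mul_sum, Pi.zero_apply]
  rw [sum_comm]
  refine sum_eq_zero fun k _ => ?_
  have : ∑ l, C (v l) * (C (s k l) * pderiv k (z J)) = C (∑ l, s k l * v l) * pderiv k (z J) := by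
    rw [map_sum, sum_mul]
    exact sum_congr rfl fun l _ => by rw [map_mul]; ring
  rw [this, hv, map_zero, zero_mul]

theorem rk1_u (δ : R) (t : Matrix σ σ R) (k : σ) : (C δ * X k - ∑ l, C (t k l) * X l :
    MvPolynomial σ R) = ∑ l, C ((δ • (1 : Matrix σ σ R) - t) k l) * X l := by
  simp [Matrix.one_apply, sub_mul, apply_ite C]

theorem rk1_homotopy (δ : R) {t : Matrix σ σ R} {m : ℕ} {z : Finset σ → MvPolynomial σ R}
    (hm : Deg m z)
    (h1 : ∀ l, iov (MvPolynomial σ R) (fun j => (C (t j l) : MvPolynomial σ R)) z = 0)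
    (h2 : iov (MvPolynomial σ R) (X : σ → MvPolynomial σ R) z = 0) (J : Finset σ) :
    iov (MvPolynomial σ R) (X : σ → MvPolynomial σ R) (rk1_h (δ • 1 - t) z) J =
      rk1_der (fun k => C δ * X k - ∑ l, C (t k l) * X l) (z J) +
        ((m : MvPolynomial σ R) * C δ) * z J := by
  have h := homotopy (X : σ → MvPolynomial σ R)
    (fun l => rk1_der fun k => C ((δ • (1 : Matrix σ σ R) - t) k l)) z
  have e : (Matrix.of fun j l => rk1_der (fun k => C ((δ • (1 : Matrix σ σ R) - t) k l)) (X j)) =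
      (C δ : MvPolynomial σ R) • (1 : Matrix σ σ (MvPolynomial σ R)) - t.map C := by
    ext1 j l
    simp [rk1_der_X, Matrix.one_apply, apply_ite C]
  have z0 : ∀ l, (fun J : Finset σ => rk1_der (fun k => C ((δ • (1 : Matrix σ σ R) - t) k l))
      ((0 : Finset σ → MvPolynomial σ R) J)) = 0 := fun l => funext fun J => map_zero _
  rw [h2, e, kt_sub, kt_smul, kt_one, LinearMap.sub_apply, ladder_kt_zero (t := t.map C) h1,
    sub_zero] at h
  simp only [z0, map_zero, sum_const_zero, add_zero] at h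
  refine (congrFun h J).trans ?_
  rw [Pi.add_apply, LinearMap.smul_apply, Pi.smul_apply, num_apply]
  congr 1
  · simp only [rk1_der_apply, rk1_u, mul_sum, sum_mul]
    rw [sum_comm]
    exact sum_congr rfl fun k _ => sum_congr rfl fun l _ => by ring
  · by_cases hJ : J.card = m
    · rw [hJ, smul_eq_mul, nsmul_eq_mul]
      ring
    · simp [hm J hJ]

theorem rk1_euler {δ : R} {t : Matrix σ σ R} (ht : t * t = δ • t) (p : ℕ) :
    ∀ r ∈ rkJ δ t ^ p, rk1_der (fun k => C δ * X k - ∑ l, C (t k l) * X l) r -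
      ((p : MvPolynomial σ R) * C δ) * r ∈ rkJ δ t ^ (p + 1) := by
  have h0 : ∀ r, rk1_der (fun k => C δ * X k - ∑ l, C (t k l) * X l) r ∈ rkJ δ t := fun r => by
    rw [rk1_der_apply]
    exact Ideal.sum_mem _ fun l _ => Ideal.mul_mem_right _ _ (Ideal.subset_span ⟨l, rfl⟩)
  refine euler_pow _ _ _ h0 (fun r hr => ?_) p
  obtain ⟨E, hE⟩ : ∃ E, E = rk1_der (fun k => C δ * X k - ∑ l, C (t k l) * X l) := ⟨_, rfl⟩
  rw [← hE] at h0 ⊢
  induction hr using Submodule.span_induction with
  | mem x hx =>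
    obtain ⟨j, rfl⟩ := hx
    have h1 : ∀ k, E (X k) = C δ * X k - ∑ l, C (t k l) * X l := fun k => by rw [hE, rk1_der_X]
    have h2 : ∀ r k, E (C r * X k) = C r * E (X k) := fun r k => by
      rw [Derivation.leibniz, hE, rk1_der_C, smul_zero, add_zero, smul_eq_mul]
    have h3 : ∑ l, C (t j l) * E (X l) = 0 := by
      simp only [h1, mul_sub, sum_sub_distrib, mul_sum]
      rw [sum_comm, sub_eq_zero]
      refine sum_congr rfl fun k _ => ?_
      have h4 : ∑ l, t j l * t l k = δ * t j k := congrFun (congrFun ht j) k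
      simp only [← mul_assoc, ← map_mul, ← sum_mul, ← map_sum, h4, mul_comm δ]
    simp only [map_sub, map_sum, h2, h3]
    rw [h1, sub_zero, sub_self]
    exact Ideal.zero_mem _
  | zero => simp
  | add x y _ _ hx hy =>
    rw [map_add, mul_add, add_sub_add_comm]
    exact Ideal.add_mem _ hx hy
  | smul a x hx' hx =>
    have e : E (a • x) - C δ * (a • x) = a * (E x - C δ * x) + x * E a := by
      rw [smul_eq_mul, Derivation.leibniz]
      simp only [smul_eq_mul]
      ring
    rw [e]
    refine Ideal.add_mem _ (Ideal.mul_mem_left _ _ hx) ?_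
    rw [pow_two]
    exact Ideal.mul_mem_mul hx' (h0 a)

theorem rk1_ind {δ : R} {t : Matrix σ σ R} (ht : t * t = δ • t) {m d : ℕ} (r : ℕ) :
    ∀ (p : ℕ) (z : Finset σ → MvPolynomial σ R), 1 ≤ m + p → d + 2 ≤ p + r → Deg m z →
      (∀ J, (z J).IsHomogeneous (d + 1)) →
      (∀ l, iov (MvPolynomial σ R) (fun j => (C (t j l) : MvPolynomial σ R)) z = 0) →
      iov (MvPolynomial σ R) (X : σ → MvPolynomial σ R) z = 0 → (∀ J, z J ∈ rkJ δ t ^ p) →
      ∃ y : Finset σ → MvPolynomial σ R, Deg (m + 1) y ∧ (∀ J, (y J).IsHomogeneous d) ∧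
        (∀ l, iov (MvPolynomial σ R) (fun j => (C (t j l) : MvPolynomial σ R)) y = 0) ∧
        iov (MvPolynomial σ R) (X : σ → MvPolynomial σ R) y =
          (C (δ ^ r) : MvPolynomial σ R) • z := by
  induction r with
  | zero =>
    intro p z _ hp _ hd _ _ h3
    have hle : rkJ δ t ≤ idealOfVars σ R := Ideal.span_le.2 (by
      rintro _ ⟨k, rfl⟩
      have hX : ∀ l, (X l : MvPolynomial σ R) ∈ idealOfVars σ R := fun l =>
        Ideal.subset_span ⟨l, rfl⟩
      exact Ideal.sub_mem _ (Ideal.mul_mem_left _ _ (hX k))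
        (Ideal.sum_mem _ fun l _ => Ideal.mul_mem_left _ _ (hX l)))
    have hz : z = 0 := funext fun J => MvPolynomial.ext _ _ fun x => by
      by_cases hx : x.degree = d + 1
      · exact (mem_pow_idealOfVars_iff' p _).1 (Ideal.pow_right_mono hle p (h3 J)) x (by omega)
      · exact (hd J).coeff_eq_zero hx
    exact ⟨0, fun _ _ => rfl, fun _ => isHomogeneous_zero _ _ _, fun _ => map_zero _, by
      rw [hz, map_zero, smul_zero]⟩
  | succ r ih =>
    intro p z h hp hm hd h1 h2 h3
    have k1 := rk1_h_deg (δ • 1 - t) hm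
    have k2 := rk1_h_hom (δ • 1 - t) hd
    have k3 : ∀ l, iov (MvPolynomial σ R) (fun j => (C (t j l) : MvPolynomial σ R))
        (rk1_h (δ • 1 - t) z) = 0 := fun l => by
      refine rk1_h_ker _ (fun k => ?_) (h1 l)
      have : (δ • (1 : Matrix σ σ R) - t) * t = 0 := by
        rw [sub_mul, smul_mul_assoc, one_mul, ht, sub_self]
      exact congrFun (congrFun this k) l
    have k4 := rk1_homotopy δ hm h1 h2
    generalize rk1_h (δ • 1 - t) z = w at k1 k2 k3 k4
    obtain ⟨y, y1, y2, y3, y4⟩ := ih (p + 1) (iov (MvPolynomial σ R) (X : σ → MvPolynomial σ R) w -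
      (C (((m + p : ℕ) : R) * δ) : MvPolynomial σ R) • z) (by omega) (by omega)
      (fun J hJ => by rw [Pi.sub_apply, k1.iov _ J hJ, Pi.smul_apply, hm J hJ, smul_zero, sub_zero])
      (fun J => (rk1_iov_hom k2 J).sub ((hd J).C_mul _)) (fun l => by
        have := LinearMap.congr_fun (iov_iov (N := MvPolynomial σ R)
          (fun j => (C (t j l) : MvPolynomial σ R)) (X : σ → MvPolynomial σ R)) w
        rw [LinearMap.add_apply, Module.End.mul_apply, Module.End.mul_apply, k3, map_zero,
          add_zero] at this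
        rw [map_sub, map_smul, h1, this, smul_zero, sub_zero]
        rfl) (by
        have := LinearMap.congr_fun
          (iov_sq (N := MvPolynomial σ R) (X : σ → MvPolynomial σ R)) w
        rw [Module.End.mul_apply] at this
        rw [map_sub, map_smul, h2, this, smul_zero, sub_zero]
        rfl) fun J => by
        have := rk1_euler ht p _ (h3 J)
        rw [Pi.sub_apply, k4, Pi.smul_apply, smul_eq_mul, map_mul, map_natCast, Nat.cast_add,
          add_mul, add_mul, ← sub_sub, add_sub_cancel_right]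
        exact this
    obtain ⟨a, ha⟩ : ∃ a : R, a * ((m + p : ℕ) : R) = 1 :=
      ⟨algebraMap ℂ R ((m + p : ℕ) : ℂ)⁻¹, by
        rw [← map_natCast (algebraMap ℂ R), ← map_mul,
          inv_mul_cancel₀ (Nat.cast_ne_zero.2 (by omega)), map_one]⟩
    refine ⟨(C a : MvPolynomial σ R) • ((C (δ ^ r) : MvPolynomial σ R) • w - y), fun J hJ => ?_,
      fun J => (((k2 J).C_mul _).sub (y2 J)).C_mul _, fun l => ?_, ?_⟩
    · rw [Pi.smul_apply, Pi.sub_apply, Pi.smul_apply, k1 J hJ, y1 J hJ, smul_zero, sub_zero,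
        smul_zero]
    · rw [map_smul, map_sub, map_smul, k3, y3, smul_zero, sub_zero, smul_zero]
    · rw [map_smul, map_sub, map_smul, y4, ← smul_sub, sub_sub_cancel, smul_smul, smul_smul,
        ← map_mul, ← map_mul]
      congr 2
      linear_combination δ ^ (r + 1) * ha

theorem rk_exact {δ : R} {t : Matrix σ σ R} (ht : t * t = δ • t) {m d p : ℕ} (h : 1 ≤ m + p)
    {z : Finset σ → MvPolynomial σ R} (hm : Deg m z) (hd : ∀ J, (z J).IsHomogeneous (d + 1))
    (h1 : ∀ l, iov (MvPolynomial σ R) (fun j => (C (t j l) : MvPolynomial σ R)) z = 0)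
    (h2 : iov (MvPolynomial σ R) (X : σ → MvPolynomial σ R) z = 0)
    (h3 : ∀ J, z J ∈ rkJ δ t ^ p) :
    ∃ y : Finset σ → MvPolynomial σ R, Deg (m + 1) y ∧ (∀ J, (y J).IsHomogeneous d) ∧
      (∀ l, iov (MvPolynomial σ R) (fun j => (C (t j l) : MvPolynomial σ R)) y = 0) ∧
      iov (MvPolynomial σ R) (X : σ → MvPolynomial σ R) y =
        (C (δ ^ (d + 2)) : MvPolynomial σ R) • z :=
  rk1_ind ht (d + 2) p z h (Nat.le_add_left _ _) hm hd h1 h2 h3

end Pool.Agent.NEF
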