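import Pool.Agent.P.MP_66e591_ag.RK0
import Pool.Agent.P.MP_66e591_ag.RK1

/-! The Koszul complex is locally exact. -/

noncomputable section
namespace Pool.Agent.NEF
open Finset Module MvPolynomial Pool.Agent.HCF

variable {σ : Type} [LinearOrder σ] [Fintype σ] {M n : ℕ} {Y R RR : Type} [CommRing R]
  [Algebra ℂ R] [CommRing RR] [Algebra ℂ RR] {S : NS0 M n Y R RR}

theorem rk2_up {A : Type} [CommRing A] {d : ℕ} {v : σ → A} {y : Finset σ × Mon σ d → A}
    (h : ∀ μ, iov A v (fun J => y (J, μ)) = 0) :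
    iov (MvPolynomial σ A) (fun j => (C (v j) : MvPolynomial σ A)) (up A d y) = 0 := by
  funext J
  ext μ
  rw [congrFun (coeff_iov v (up A d y) μ) J]
  by_cases hμ : μ ∈ (univ : Finset σ).finsuppAntidiag d
  · have e : (fun J => coeff μ (up A d y J)) = fun J => y (J, ⟨μ, hμ⟩) :=
      funext fun J => coeff_pol (fun μ => y (J, μ)) ⟨μ, hμ⟩
    rw [e, h]
    rfl
  · have e : (fun J => coeff μ (up A d y J)) = 0 := funext fun J =>
      (pol_hom fun μ => y (J, μ)).coeff_eq_zero fun h' => hμ (by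
        rw [mem_finsuppAntidiag, ← h', Finsupp.degree_eq_sum]
        exact ⟨rfl, subset_univ _⟩)
    rw [e, map_zero]
    rfl

theorem rk2_dn {A : Type} [CommRing A] {v : σ → A} {z : Finset σ → MvPolynomial σ A}
    (h : iov (MvPolynomial σ A) (fun j => (C (v j) : MvPolynomial σ A)) z = 0) (μ : σ →₀ ℕ) :
    iov A v (fun J => coeff μ (z J)) = 0 := by
  rw [← coeff_iov, h]
  rfl

theorem rk2_deg {B : Sub S σ} {m d : ℕ} {y : Finset σ × Mon σ d → R} (h : y ∈ KK B m d) :
    Deg m (up R d y) := fun J hJ => by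
  have e : (fun μ => y (J, μ)) = 0 := funext fun μ => (h μ).2 J hJ
  rw [up_apply, e, map_zero]

omit [LinearOrder σ] [Fintype σ] in
theorem rk2_aeval {A : Type} [CommRing A] (f : A →+* ℂ) (a : σ → MvPolynomial σ A) (ξ : σ → ℂ)
    (F : MvPolynomial σ A) :
    eval ξ (map f (aeval a F)) = eval (fun k => eval ξ (map f (a k))) (map f F) := by
  induction F using MvPolynomial.induction_on with
  | C r => simp
  | add p q hp hq => simp only [map_add, hp, hq]
  | mul_X p k hp => simp only [map_mul, hp, aeval_X, map_X, eval_X]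

theorem rk2_mem {B : Sub S σ} {p : Y} {δ : R} {t : Matrix σ σ R} (h : S.Prj B.T p δ t) {m d : ℕ}
    {γ : Finset σ × Mon σ d → R} (hγ : γ ∈ ZZ B m d) : C (δ ^ d) * up R d γ ∅ ∈ rkJ δ t := by
  refine rk_mem δ t (pol_hom _) (MvPolynomial.ext _ _ fun μ => S.sep _ fun q => ?_)
  have e : map (S.ev q : R →+* ℂ) (aeval (fun k => ∑ l, C (t k l) * X l : σ → MvPolynomial σ R)
      (up R d γ ∅)) = 0 := by
    refine MvPolynomial.funext fun ξ => ?_
    rw [rk2_aeval, ← up_map, map_zero]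
    refine hγ.2.2 q _ ?_
    have e : (fun k => eval ξ (map (S.ev q : R →+* ℂ) (∑ l, C (t k l) * X l))) =
        ∑ l, ξ l • fun j => S.ev q (t j l) := by
      funext k
      simp [mul_comm]
    rw [e]
    exact sum_mem fun l _ => Submodule.smul_mem _ _ (h.2.1 q l)
  have := congrArg (coeff μ) e
  rwa [coeff_map] at this

theorem rk2_C {A : Type} [CommRing A] {d : ℕ} (a : A) (z : Finset σ → MvPolynomial σ A) :
    dn A d ((C a : MvPolynomial σ A) • z) = a • dn A d z :=
  funext fun _ => coeff_C_mul _ _ _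

theorem rk2_zero {A : Type} [CommRing A] (y : Mon σ 0 → A) (μ : Mon σ 0) (ξ : σ → A) :
    eval ξ (pol A 0 y) = y μ := by
  have h0 : ∀ μ : Mon σ 0, μ.1 = 0 := fun ⟨μ, h⟩ => by
    rwa [finsuppAntidiag_zero, mem_singleton] at h
  rw [pol_apply, sum_eq_single μ (fun ν _ h => absurd (Subtype.ext ((h0 ν).trans (h0 μ).symm)) h)
    fun h => absurd (mem_univ μ) h, h0 μ, monomial_zero', eval_C]

theorem dK_mem (B : Sub S σ) {m d : ℕ} {y : Finset σ × Mon σ d → R} (h : y ∈ KK B (m + 1) d) :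
    dK R d y ∈ ZZ B m (d + 1) := by
  have h1 : ∀ q, ∀ v ∈ B.T q, iov (MvPolynomial σ ℂ) (fun j => (C (v j) : MvPolynomial σ ℂ))
      (up ℂ d (S.val q y)) = 0 := fun q v hv => rk2_up fun μ => (h μ).1 q v hv
  refine ⟨fun μ => ⟨fun q v hv => ?_, fun J hJ => ?_⟩, fun q => ?_, fun q ξ hξ => ?_⟩
  · have e : S.val q (fun J => dK R d y (J, μ)) = fun J => coeff μ.1
        (iov (MvPolynomial σ ℂ) (X : σ → MvPolynomial σ ℂ) (up ℂ d (S.val q y)) J) :=
      funext fun J => congrFun (val_dK q y) (J, μ)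
    rw [e]
    refine rk2_dn ?_ _
    have := LinearMap.congr_fun (iov_iov (N := MvPolynomial σ ℂ)
      (fun j => (C (v j) : MvPolynomial σ ℂ)) X) (up ℂ d (S.val q y))
    rwa [LinearMap.add_apply, Module.End.mul_apply, Module.End.mul_apply, h1 q v hv, map_zero,
      add_zero] at this
  · show dK R d y (J, μ) = 0
    rw [dK_apply, dn_apply, (rk2_deg h).iov _ J hJ, coeff_zero]
  · have := LinearMap.congr_fun (iov_sq (N := MvPolynomial σ ℂ) (X : σ → MvPolynomial σ ℂ))
      (up ℂ d (S.val q y))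
    rw [val_dK, dK_apply, up_dK, ← Module.End.mul_apply, this, LinearMap.zero_apply, map_zero]
  · have := iov_nat (eval ξ : MvPolynomial σ ℂ →+* ℂ).toAddMonoidHom
      (a := fun j => (C (ξ j) : MvPolynomial σ ℂ)) (a' := ξ) (fun j v => by simp)
      (up ℂ d (S.val q y))
    rw [val_dK, up_dK, congrFun (eval_iov ξ _) ∅]
    refine (congrFun this ∅).symm.trans ?_
    rw [h1 q ξ hξ]
    exact map_zero _

theorem dK_onto (B : Sub S σ) (m d : ℕ) (p : Y) :
    ∃ g, S.ev p g ≠ 0 ∧ ∀ γ ∈ ZZ B m (d + 1), ∃ ω ∈ KK B (m + 1) d, dK R d ω = g • γ := by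
  obtain ⟨δ, t, h⟩ := B.loc p
  refine ⟨δ * (δ ^ (d + 2) * δ ^ (d + 1)), by simp [h.1], fun γ hγ => ?_⟩
  have h2 : dK R (d + 1) γ = 0 := S.val_inj fun q => by rw [val_dK, hγ.2.1, lsub_val_zero]
  obtain ⟨y, y1, y2, y3, y4⟩ := rk_exact h.tt (m := m) (d := d) (p := if m = 0 then 1 else 0)
    (by split_ifs <;> omega) (z := (C (δ ^ (d + 1)) : MvPolynomial σ R) • up R (d + 1) γ)
    (fun J hJ => by rw [Pi.smul_apply, rk2_deg hγ.1 J hJ, smul_zero])
    (fun J => (pol_hom _).C_mul _)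
    (fun l => by rw [map_smul, rk2_up fun μ => h.iov_col (hγ.1 μ).1 l, smul_zero])
    (by rw [map_smul, ← up_dK, h2, map_zero, smul_zero])
    (fun J => by
      split_ifs with hm
      · rw [pow_one]
        by_cases hJ : J = ∅
        · rw [hJ]
          exact rk2_mem h hγ
        · rw [Pi.smul_apply, rk2_deg hγ.1 J (by rwa [hm, card_ne_zero, nonempty_iff_ne_empty]),
            smul_zero]
          exact zero_mem _
      · rw [pow_zero, Ideal.one_eq_top]
        trivial)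
  refine ⟨δ • dn R d y, fun μ => ⟨h.smul_mem fun l => rk2_dn (y3 l) μ.1, fun J hJ => ?_⟩, ?_⟩
  · show δ * coeff μ.1 (y J) = 0
    rw [y1 J hJ, coeff_zero, mul_zero]
  · rw [map_smul, dK_apply, up_dn y2, y4, rk2_C, rk2_C, dn_up, smul_smul, smul_smul, mul_assoc]

theorem ZZ_zero (B : Sub S σ) (m : ℕ) : ZZ B m 0 = ⊥ := by
  refine eq_bot_iff.2 fun y hy => S.val_inj fun q => funext fun ⟨J, μ⟩ => ?_
  have hd : Deg m fun J => S.val q y (J, μ) := fun J hJ => by
    have : y (J, μ) = 0 := (hy.1 μ).2 J hJ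
    show S.ev q (y (J, μ)) = 0
    rw [this, map_zero]
  have he : ∀ ξ J, eval ξ (up ℂ 0 (S.val q y) J) = S.val q y (J, μ) := fun ξ J => rk2_zero _ μ ξ
  rw [lsub_val_zero, Pi.zero_apply]
  rcases Nat.eq_zero_or_pos m with hm | hm
  · by_cases hJ : J = ∅
    · rw [hJ, ← he 0]
      exact hy.2.2 q 0 (zero_mem _)
    · exact hd J (by rwa [hm, card_ne_zero, nonempty_iff_ne_empty])
  · refine congrFun (ladder_top hm hd fun v => ?_) J
    rw [← funext (he v), ← eval_iov, ← up_dK, hy.2.1 q, map_zero]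
    exact funext fun _ => map_zero _

end Pool.Agent.NEF
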