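import Pool.Agent.P.MP_66e591_ag.RK2

/-! The Euler characteristic of the Koszul complex. -/

noncomputable section
namespace Pool.Agent.NEF
open Finset Module Pool.Agent.HCF

variable {σ : Type} [LinearOrder σ] [Fintype σ] {M n : ℕ} {Y R RR : Type} [CommRing R]
  [Algebra ℂ R] [CommRing RR] [Algebra ℂ RR] {S : NS0 M n Y R RR}

/-- the graded pieces of `KK` are products -/
def rk3_eqv (B : Sub S σ) (m d : ℕ) (a : ℤ) :
    ↥((KK B m d).restrictScalars ℂ ⊓ Eg (S.sc fun _ => 0) a) ≃ₗ[ℂ]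
      (Mon σ d → ↥((B.lamG ⊓ degS σ R m).restrictScalars ℂ ⊓ Eg (S.sc fun _ => 0) a)) where
  toFun y μ := ⟨fun J => y.1 (J, μ), y.2.1 μ,
    (dat_mem_Eg S _ a _).2 fun J => (dat_mem_Eg S _ a _).1 y.2.2 (J, μ)⟩
  invFun z := ⟨fun q => (z q.2).1 q.1, fun μ => (z μ).2.1,
    (dat_mem_Eg S _ a _).2 fun q => (dat_mem_Eg S _ a _).1 (z q.2).2.2 q.1⟩
  map_add' _ _ := rfl
  map_smul' _ _ := rfl
  left_inv _ := rfl
  right_inv _ := rfl

theorem hs_KK (B : Sub S σ) (hw : ∀ j, B.w j = 0) (m d : ℕ) :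
    S.hs (fun _ => 0) (KK B m d) =
      PowerSeries.C (Nat.multichoose (Fintype.card σ) d : ℂ) * B.lam.chi (piM σ m) := by
  have hwt : B.wt = fun _ => 0 := funext fun J => by simp [Sub.wt, hw]
  have hinv : ∀ ω ∈ B.lamG ⊓ degS σ R m, S.sc (fun _ => 0) ω ∈ B.lamG ⊓ degS σ R m :=
    fun ω h => ⟨hwt ▸ B.lamG_inv ω h.1, fun J hJ => by
      rw [dat_sc_apply, h.2 J hJ, map_zero, smul_zero]⟩
  ext a
  have := (S.grd_sub _ hinv).fin a
  rw [Sub.chi_piM, hwt, PowerSeries.coeff_C_mul, S.coeff_hs _ (KK_inv B hw m d), S.coeff_hs _ hinv,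
    (rk3_eqv B m d a).finrank_eq, finrank_pi_fintype, sum_const, card_univ, card_Mon, smul_eq_mul,
    Nat.cast_mul]

theorem rk3_ses (B : Sub S σ) (hw : ∀ j, B.w j = 0) (m d : ℕ) :
    PEq (S.hs (fun _ => 0) (KK B (m + 1) d))
      (S.hs (fun _ => 0) (ZZ B (m + 1) d) + S.hs (fun _ => 0) (ZZ B m (d + 1))) := by
  have h := S.ses (fun _ => 0) (fun _ => 0) 0 (KK B (m + 1) d) (ZZ B (m + 1) d) (ZZ B m (d + 1))
    (fun _ => dK ℂ d) (KK_inv B hw _ _) (ZZ_inv B hw _ _)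
    (fun ω => ⟨fun h => ⟨h.1, h.2.1⟩, fun h => ⟨h.1, h.2, fun q ξ _ => by
      have e : (fun μ => S.val q ω (∅, μ)) = 0 := funext fun μ => by
        rw [NS0.val_apply, show ω (∅, μ) = 0 from (h.1 μ).2 ∅ (by simp), map_zero]
        rfl
      rw [up_apply, e, map_zero, map_zero]⟩⟩)
    (fun ω _ q i => by rw [val_sc0])
    (fun p => ⟨1, by simp, fun ω hω => ⟨dK R d ω, dK_mem B hω, fun q => by
      rw [val_dK, map_one, one_smul]⟩⟩)
    fun p => by
      obtain ⟨g, hg, h⟩ := dK_onto B m d p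
      refine ⟨g, hg, fun γ hγ => ?_⟩
      obtain ⟨ω, hω, e⟩ := h γ hγ
      exact ⟨ω, hω, fun q => by rw [← val_dK, e, lses_val_smul]⟩
  simpa only [pow_zero, one_mul] using h

theorem rk3_ind (B : Sub S σ) (hw : ∀ j, B.w j = 0) (d : ℕ) : ∀ m,
    PEq (S.hs (fun _ => 0) (KK B m d) - S.hs (fun _ => 0) (ZZ B m d))
      (∑ i ∈ range (d + 1),
        PowerSeries.C ((-1) ^ i * (Nat.multichoose (Fintype.card σ) (d - i) : ℂ)) *
          B.lam.chi (piM σ (m + i))) := by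
  induction d with
  | zero =>
    intro m
    rw [ZZ_zero, NS0.hs_bot, sub_zero, hs_KK B hw]
    simpa using PEq.refl _
  | succ d ih =>
    intro m
    obtain ⟨p, hp⟩ := ih (m + 1)
    obtain ⟨q, hq⟩ := rk3_ses B hw m d
    refine ⟨q - p, ?_⟩
    have e : ∑ i ∈ range (d + 1),
        PowerSeries.C ((-1) ^ (i + 1) * (Nat.multichoose (Fintype.card σ) (d + 1 - (i + 1)) : ℂ)) *
          B.lam.chi (piM σ (m + (i + 1))) = -∑ i ∈ range (d + 1),
        PowerSeries.C ((-1) ^ i * (Nat.multichoose (Fintype.card σ) (d - i) : ℂ)) *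
          B.lam.chi (piM σ (m + 1 + i)) := by
      rw [← sum_neg_distrib]
      refine sum_congr rfl fun i _ => ?_
      rw [Nat.add_sub_add_right, show m + (i + 1) = m + 1 + i by ring, pow_succ, mul_neg_one,
        neg_mul, map_neg, neg_mul]
    rw [sum_range_succ', e, pow_zero, one_mul, Nat.sub_zero, add_zero, ← hs_KK B hw,
      Polynomial.coe_sub]
    linear_combination hq - hp

theorem koszul (B : Sub S σ) (hw : ∀ j, B.w j = 0) (b : ℕ) :
    PEq (S.hs (fun _ => 0) (KK B 0 b) - S.hs (fun _ => 0) (ZZ B 0 b))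
      (∑ m ∈ range (b + 1),
        PowerSeries.C ((-1) ^ m * (Nat.multichoose (Fintype.card σ) (b - m) : ℂ)) *
          B.lam.chi (piM σ m)) := by
  simpa only [zero_add] using rk3_ind B hw b 0

end Pool.Agent.NEF
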