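import Pool.Agent.P.MP_66e591_ag.RD2

/-! The determinant of the tangent bundle. -/

noncomputable section
namespace Pool.Agent.NEF
open Finset Module Pool.Agent.HCF

variable {M n c : ℕ} {Y R RR : Type} [CommRing R] [Algebra ℂ R] [CommRing RR] [Algebra ℂ RR]

/-- the sign of the star operator -/
def rt1_eps (J : Finset (Fin M)) : ℤ := ∏ j ∈ J, (-1) ^ (j : ℕ)

theorem rt1_eps_sq (J : Finset (Fin M)) : rt1_eps J * rt1_eps J = 1 := by
  rw [rt1_eps, ← prod_mul_distrib]
  exact prod_eq_one fun j _ => by rw [← mul_pow]; simp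

theorem rt1_eps_compl (J : Finset (Fin M)) :
    rt1_eps J * rt1_eps Jᶜ = rt1_eps (univ : Finset (Fin M)) := prod_mul_prod_compl J _

theorem rt1_sg (j : Fin M) (J : Finset (Fin M)) : sg j J * (-1) ^ (j : ℕ) = sg j Jᶜ := by
  have h : (J.filter (· < j)).card + (Jᶜ.filter (· < j)).card = (j : ℕ) := by
    rw [← card_union_of_disjoint (disjoint_filter_filter disjoint_compl_right), ← filter_union,
      union_compl, filter_gt_eq_Iio, Fin.card_Iio]
  have h2 := sg_mul_self j J
  rw [← h, pow_add, ← mul_assoc]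
  exact (congrArg (· * sg j Jᶜ) h2).trans (one_mul _)

/-- the star operator -/
def rt1_star (M : ℕ) (A : Type) [CommRing A] [Algebra ℂ A] :
    (Finset (Fin M) → A) →ₗ[ℂ] Finset (Fin M) → A where
  toFun y J := rt1_eps J • y Jᶜ
  map_add' a b := by ext J; simp only [Pi.add_apply, smul_add]
  map_smul' r a := by ext J; simp only [Pi.smul_apply, RingHom.id_apply, smul_comm r]

theorem rt1_star_apply {A : Type} [CommRing A] [Algebra ℂ A] (y : Finset (Fin M) → A)
    (J : Finset (Fin M)) : rt1_star M A y J = rt1_eps J • y Jᶜ := rfl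

theorem rt1_star_star {A : Type} [CommRing A] [Algebra ℂ A] (y : Finset (Fin M) → A) :
    rt1_star M A (rt1_star M A y) = rt1_eps (univ : Finset (Fin M)) • y := by
  funext J
  rw [rt1_star_apply, rt1_star_apply, compl_compl, smul_smul, rt1_eps_compl, Pi.smul_apply]

theorem rt1_iov (v : Fin M → ℂ) (y : Finset (Fin M) → ℂ) (J : Finset (Fin M)) :
    iov ℂ v (rt1_star M ℂ y) J = rt1_eps J • epv ℂ v y Jᶜ := by
  rw [fock_iov, fock_epv, smul_sum]
  refine sum_congr rfl fun j _ => ?_
  rw [io_apply, ep_apply, smul_comm (rt1_eps J)]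
  congr 1
  by_cases hj : j ∈ J
  · rw [if_pos hj, if_neg (by simpa using hj), smul_zero]
  · rw [if_neg hj, if_pos (mem_compl.2 hj), rt1_star_apply, compl_insert, smul_smul, smul_smul,
      ← rt1_sg, rt1_eps, prod_insert hj, rt1_eps]
    congr 1
    ring

theorem rt1_Kf {T : Submodule ℂ (Fin M → ℂ)} {c k : ℕ} (h : finrank ℂ T + c = M) (hk : c + k = M)
    {y : Finset (Fin M) → ℂ} (hy : y ∈ Kf T c) : rt1_star M ℂ y ∈ Kf (perp T) k := by
  refine ⟨fun J hJ => ?_, fun η hη => funext fun J => ?_⟩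
  · have h1 : Jᶜ.card ≠ c := by
      have := card_add_card_compl J
      rw [Fintype.card_fin] at this
      omega
    rw [rt1_star_apply, hy.1 _ h1, smul_zero]
  · have h1 : epv ℂ η y = 0 := by
      refine deg_gt_eq_zero T (c := c) (by rw [Fintype.card_fin]; exact h.ge) (Nat.lt_succ_self c)
        (hy.1.epv η) fun v hv => ?_
      have h2 := LinearMap.congr_fun (iov_epv (N := ℂ) v η) y
      have h3 : ∑ j, v j * η j = 0 := by simpa only [mul_comm] using hη v hv
      rw [h3, zero_smul, LinearMap.add_apply, Module.End.mul_apply, Module.End.mul_apply,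
        hy.2 v hv, map_zero, add_zero] at h2
      exact h2
    rw [rt1_iov, h1, Pi.zero_apply, smul_zero, Pi.zero_apply]

theorem rt1_val (S : NS0 M n Y R RR) (p : Y) (ω : Finset (Fin M) → R) :
    S.val p (rt1_star M R ω) = rt1_star M ℂ (S.val p ω) :=
  funext fun _ => map_zsmul (S.ev p) _ _

theorem rt1_deg {k l : ℕ} (hk : k + l = M) {ω : Finset (Fin M) → R} (h : ω ∈ degS (Fin M) R k) :
    rt1_star M R ω ∈ degS (Fin M) R l := fun J hJ => by
  have h1 : Jᶜ.card ≠ k := by
    have := card_add_card_compl J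
    rw [Fintype.card_fin] at this
    omega
  rw [rt1_star_apply, h _ h1, smul_zero]

theorem rt1_val_deg (S : NS0 M n Y R RR) (p : Y) {k : ℕ} {ω : Finset (Fin M) → R}
    (h : ω ∈ degS (Fin M) R k) : Deg k (S.val p ω) := fun J hJ => by
  rw [NS0.val_apply, h J hJ, map_zero]

theorem star_top (S : NS M n Y R RR) (hM : M = n + 1 + c) (hT : ∀ p, finrank ℂ (S.T p) + c = M) :
    PEq ((tanB S).lam.chi (piM (Fin M) (n + 1))) (S.HS c) := by
  have hw : (tanB S).wt = fun _ => 0 := funext fun J => sum_const_zero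
  have hmap : (((tanB S).lamG ⊓ degS (Fin M) R (n + 1)).restrictScalars ℂ).map (rt1_star M R) =
      (S.lamG ⊓ degS (Fin M) R c).restrictScalars ℂ := by
    ext γ
    constructor
    · rintro ⟨ω, hω, rfl⟩
      refine ⟨fun p v hv => ?_, rt1_deg hM.symm hω.2⟩
      have h1 := finrank_perp (S.T p)
      rw [Fintype.card_fin] at h1
      have h2 := hT p
      have h3 := rt1_Kf (T := perp (S.T p)) (c := n + 1) (k := c) (by omega) hM.symm
        ⟨rt1_val_deg S.toNS0 p hω.2, hω.1 p⟩
      rw [perp_perp, ← rt1_val] at h3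
      exact h3.2 v hv
    · intro hγ
      have h1 : rt1_star M R γ ∈ (tanB S).lamG ⊓ degS (Fin M) R (n + 1) := by
        refine ⟨fun p v hv => ?_, rt1_deg (by omega) hγ.2⟩
        have h3 := rt1_Kf (k := n + 1) (hT p) (by omega) ⟨rt1_val_deg S.toNS0 p hγ.2, hγ.1 p⟩
        rw [← rt1_val] at h3
        exact h3.2 v hv
      refine ⟨rt1_eps (univ : Finset (Fin M)) • rt1_star M R γ, zsmul_mem h1 _, ?_⟩
      rw [map_zsmul, rt1_star_star, smul_smul, rt1_eps_sq, one_smul]
  have key := chi_congr (T := 1) (T' := 1) (s' := S.sc fun _ : Finset (Fin M) => 0)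
    (lsub1_grd (tanB S) (n + 1)) (rt1_star M R) (fun _ h => h) (fun _ _ => rfl)
    (fun ω _ => funext fun J => by
      rw [hw, rt1_star_apply, dat_sc_apply, dat_sc_apply, rt1_star_apply, map_zsmul, smul_comm])
    (fun _ _ => rfl) fun ω _ h => by
      have h1 := rt1_star_star ω
      rw [h, map_zero] at h1
      rw [← one_smul ℤ ω, ← rt1_eps_sq (univ : Finset (Fin M)), mul_smul, ← h1, smul_zero]
  rw [hmap] at key
  rw [Sub.chi_piM, ← NS0.hs_HS]
  exact ⟨0, by rw [Polynomial.coe_zero, add_zero]; exact key.symm⟩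

end Pool.Agent.NEF
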