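import Pool.Agent.P.MP_66e591_ag.RD2

/-! The Whitney formula for the normal sequence. -/

noncomputable section
namespace Pool.Agent.NEF
open Finset Module Pool.Agent.HCF

variable {M n c : ℕ} {Y R RR : Type} [CommRing R] [Algebra ℂ R] [CommRing RR] [Algebra ℂ RR]

/-- the graph of the map given by the generators -/
def rt2T (S : NS0 M n Y R RR) {K : ℕ} (φ : Fin K → Fin M → R) (p : Y) :
    Submodule ℂ (Fin (M + K) → ℂ) where
  carrier := {v | ∀ j, v (Fin.castAdd K j) + ∑ i, v (Fin.natAdd M i) * S.val p (φ i) j = 0}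
  add_mem' {a b} ha hb j := by
    simp only [Pi.add_apply, add_mul, sum_add_distrib]
    linear_combination ha j + hb j
  zero_mem' j := by simp
  smul_mem' t a ha j := by
    simp only [Pi.smul_apply, smul_eq_mul, mul_assoc, ← mul_sum]
    linear_combination t * ha j

theorem rt2_mem {S : NS0 M n Y R RR} {K : ℕ} {φ : Fin K → Fin M → R} {p : Y}
    {v : Fin (M + K) → ℂ} : v ∈ rt2T S φ p ↔
      ∀ j, v (Fin.castAdd K j) + ∑ i, v (Fin.natAdd M i) * S.val p (φ i) j = 0 := Iff.rfl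

theorem rt2_loc (S : NS0 M n Y R RR) {K : ℕ} (φ : Fin K → Fin M → R) (p : Y) :
    ∃ δ t, S.Prj (rt2T S φ) p δ t := by
  refine ⟨1, Matrix.of fun j l => Fin.addCases (motive := fun _ => R) (fun _ => 0)
    (fun i => Fin.addCases (motive := fun _ => R) (fun j' => -φ i j')
      (fun i' => if i' = i then 1 else 0) j) l, by simp, fun q l => ?_, fun q v hv j => ?_⟩
  · rw [rt2_mem]
    intro j
    refine Fin.addCases (fun l => ?_) (fun i => ?_) l
    · simp
    · simp [apply_ite (S.ev q), NS0.val_apply]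
  · rw [Fin.sum_univ_add]
    refine Fin.addCases (fun j => ?_) (fun i => ?_) j
    · have h := hv j
      simp only [Matrix.of_apply, Fin.addCases_left, Fin.addCases_right, map_zero, zero_mul,
        sum_const_zero, zero_add, map_neg, map_one, one_mul, neg_mul, sum_neg_distrib]
      simp only [NS0.val_apply, mul_comm (v _)] at h
      linear_combination -h
    · simp [apply_ite (S.ev q)]

/-- the middle bundle -/
def rt2B (S : NS0 M n Y R RR) {K e : ℕ} (φ : Fin K → Fin M → R) (d : Fin K → ℕ)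
    (hd : ∀ i, d i ≤ e) (hφ : ∀ i p, S.val (S.dbl p) (φ i) = (2 : ℂ) ^ d i • S.val p (φ i)) :
    Sub S (Fin (M + K)) where
  w := Fin.addCases (motive := fun _ => ℕ) (fun _ => e) fun i => e - d i
  T := rt2T S φ
  T_dbl p v hv j := by
    have h1 : ∀ i, (2 : ℂ) ^ (e - d i) * v (Fin.natAdd M i) * (2 ^ d i * S.val p (φ i) j) =
        2 ^ e * (v (Fin.natAdd M i) * S.val p (φ i) j) := fun i => by
      have h2 : (2 : ℂ) ^ e = 2 ^ (e - d i) * 2 ^ d i := by
        rw [← pow_add, Nat.sub_add_cancel (hd i)]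
      rw [h2]
      ring
    simp only [Fin.addCases_left, Fin.addCases_right, hφ, Pi.smul_apply, smul_eq_mul, h1,
      ← mul_sum]
    linear_combination 2 ^ e * hv j
  loc := rt2_loc S φ

/-- the tangent bundle with a shifted weight -/
def rt2B0 (S : NS M n Y R RR) (e : ℕ) : Sub S.toNS0 (Fin M) where
  w _ := e
  T q := perp (S.T q)
  T_dbl p v hv := by
    rw [S.T_dbl]
    exact Submodule.smul_mem _ ((2 : ℂ) ^ e) hv
  loc := tan_loc S

/-- the zero bundle -/
def rt2Z (S : NS0 M n Y R RR) {K : ℕ} (w : Fin K → ℕ) : Sub S (Fin K) where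
  w := w
  T _ := ⊤
  T_dbl _ _ _ := trivial
  loc := S.const_loc ⊤

theorem rt2_w0 (S : NS0 M n Y R RR) {K e : ℕ} (φ : Fin K → Fin M → R) (d : Fin K → ℕ)
    (hd : ∀ i, d i ≤ e) (hφ : ∀ i p, S.val (S.dbl p) (φ i) = (2 : ℂ) ^ d i • S.val p (φ i))
    (a : Fin M) : (rt2B S φ d hd hφ).w (Fin.castAdd K a) = e := by simp [rt2B]

theorem rt2_w1 (S : NS0 M n Y R RR) {K e : ℕ} (φ : Fin K → Fin M → R) (d : Fin K → ℕ)
    (hd : ∀ i, d i ≤ e) (hφ : ∀ i p, S.val (S.dbl p) (φ i) = (2 : ℂ) ^ d i • S.val p (φ i))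
    (b : Fin K) : (rt2B S φ d hd hφ).w (Fin.natAdd M b) = e - d b := by simp [rt2B]

theorem rt2_ne {K : ℕ} (a : Fin M) (b : Fin K) : Fin.castAdd K a ≠ Fin.natAdd M b := fun h => by
  have h1 := congrArg Fin.val h
  have h2 := a.2
  simp only [Fin.val_castAdd, Fin.val_natAdd] at h1
  omega

theorem whitney (S : NS M n Y R RR) (hM : M = n + 1 + c) {K e : ℕ} (φ : Fin K → Fin M → R)
    (d : Fin K → ℕ) (hd : ∀ i, d i ≤ e)
    (hφ : ∀ i p, S.val (S.dbl p) (φ i) = (2 : ℂ) ^ d i • S.val p (φ i))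
    (h0 : ∀ p, perp (S.T p) = Submodule.span ℂ (Set.range fun i => S.val p (φ i)))
    (B : Sub S.toNS0 (Fin K)) (hw : ∀ i, B.w i = e - d i)
    (hB : ∀ p v, v ∈ B.T p ↔ ∑ i, v i • S.val p (φ i) = 0)
    {τ Λ : ℕ → Polynomial ℂ} {g : Polynomial ℂ}
    (hτ : ∀ m, Nm n (τ m) ((tanB S).lam.chi (piM (Fin M) m)))
    (hΛ : ∀ m, Nm n (Λ m) (B.lam.chi (piM (Fin K) m))) (hg : Nm n g (S.HS 0)) (k : ℕ) :
    (1 - Polynomial.X) ^ (n + 1 - c) ∣
      ∑ q ∈ antidiagonal k, Λ q.1 * (Polynomial.X ^ (e * q.2) * τ q.2) -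
        Polynomial.C (M.choose k : ℂ) * Polynomial.X ^ (e * k) * g ^ 2 := by
  classical
  have cov : ∀ j : Fin (M + K), (∃ a, Fin.castAdd K a = j) ∨ ∃ b, Fin.natAdd M b = j := fun j =>
    Fin.addCases (fun a => Or.inl ⟨a, rfl⟩) (fun b => Or.inr ⟨b, rfl⟩) j
  have s1 : Spl (rt2B S.toNS0 φ d hd hφ) (rt2B0 S e) B (Fin.castAddOrderEmb K)
      (Fin.natAddOrderEmb M) := by
    refine ⟨cov, rt2_ne, fun a => ?_, fun b => ?_, fun p v0 => ?_, fun p v hv => ?_⟩
    · exact (rt2_w0 S.toNS0 φ d hd hφ a).symm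
    · exact (hw b).trans (rt2_w1 S.toNS0 φ d hd hφ b).symm
    · change v0 ∈ perp (S.T p) ↔ ∃ v ∈ rt2T S.toNS0 φ p, ∀ a, v (Fin.castAdd K a) = v0 a
      rw [h0, Submodule.mem_span_range_iff_exists_fun]
      constructor
      · rintro ⟨u, rfl⟩
        refine ⟨Fin.addCases (motive := fun _ => ℂ) (∑ i, u i • S.val p (φ i)) fun i => -u i,
          fun j => ?_, fun a => Fin.addCases_left a⟩
        simp
      · rintro ⟨v, hv, h1⟩
        refine ⟨fun i => -v (Fin.natAdd M i), funext fun j => ?_⟩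
        have h2 := hv j
        simp only [Finset.sum_apply, Pi.smul_apply, smul_eq_mul, neg_mul, sum_neg_distrib, ← h1]
        linear_combination -h2
    · have hv' : ∀ a, v (Fin.castAdd K a) = 0 := hv
      change v ∈ rt2T S.toNS0 φ p ↔ (fun b => v (Fin.natAdd M b)) ∈ B.T p
      rw [hB, rt2_mem, funext_iff]
      simp only [hv', zero_add, Finset.sum_apply, Pi.smul_apply, smul_eq_mul, Pi.zero_apply]
  have s2 : Spl (rt2B S.toNS0 φ d hd hφ) (rt2Z S.toNS0 fun i => e - d i)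
      (Sub.const S.toNS0 ⊥ e) (Fin.natAddOrderEmb M) (Fin.castAddOrderEmb K) := by
    refine ⟨fun j => (cov j).symm, fun a b => (rt2_ne b a).symm, fun a => ?_, fun b => ?_,
      fun p v0 => ?_, fun p v hv => ?_⟩
    · exact (rt2_w1 S.toNS0 φ d hd hφ a).symm
    · exact (rt2_w0 S.toNS0 φ d hd hφ b).symm
    · change v0 ∈ (⊤ : Submodule ℂ (Fin K → ℂ)) ↔
        ∃ v ∈ rt2T S.toNS0 φ p, ∀ a, v (Fin.natAdd M a) = v0 a
      refine ⟨fun _ => ⟨Fin.addCases (motive := fun _ => ℂ)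
        (fun j => -∑ i, v0 i * S.val p (φ i) j) v0, fun j => ?_, fun a => Fin.addCases_right a⟩,
        fun _ => trivial⟩
      simp
    · have hv' : ∀ a, v (Fin.natAdd M a) = 0 := hv
      change v ∈ rt2T S.toNS0 φ p ↔ (fun b => v (Fin.castAdd K b)) ∈ (⊥ : Submodule ℂ (Fin M → ℂ))
      rw [Submodule.mem_bot, rt2_mem, funext_iff]
      simp only [hv', zero_mul, sum_const_zero, add_zero, Pi.zero_apply]
  have hsh : ∀ m, (rt2B0 S e).lam.chi (piM _ m) =
      PowerSeries.X ^ (e * m) * (tanB S).lam.chi (piM _ m) :=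
    Sub.chi_shift (B := tanB S) (B' := rt2B0 S e) (d := e) rfl fun _ => (zero_add e).symm
  choose μ hμ using fun q : ℕ × ℕ => num_rat ((B.ok_piM q.1).kron ((rt2B0 S e).ok_piM q.2))
  have hm : ∀ q : ℕ × ℕ, (1 - Polynomial.X) ^ (n + 1 - c) ∣
      μ q * g - Λ q.1 * (Polynomial.X ^ (e * q.2) * τ q.2) := fun q =>
    NS.mult hM (B.ok_piM q.1) ((rt2B0 S e).ok_piM q.2) (hΛ q.1)
      (by
        have := num_mul (hτ q.2) (Polynomial.X ^ (e * q.2))
        rw [hsh]
        simpa using this) (hμ q) hg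
  have hc : finrank ℂ (⊥ : Submodule ℂ (Fin M → ℂ)) + M = Fintype.card (Fin M) := by simp
  have h2 : ∑ q ∈ antidiagonal k,
      ((Sub.const S.toNS0 ⊥ e).lam.tensor (rt2Z S.toNS0 fun i => e - d i).lam).chi
        (Matrix.kroneckerMap (· * ·) (piM (Fin M) q.1) (piM (Fin K) q.2)) =
      PowerSeries.C (M.choose k : ℂ) * PowerSeries.X ^ (e * k) * S.HS 0 := by
    rw [sum_eq_single (k, 0) (fun q hq hne => ?_) (by simp),
      Sub.chi_const S.toNS0 _ e hc (Sub.ok_piM _ 0), Sub.chi_zero, NS.chi_one]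
    have h3 : 0 < q.2 := Nat.pos_of_ne_zero fun h4 => hne (by
      rw [HasAntidiagonal.mem_antidiagonal, h4, add_zero] at hq
      exact Prod.ext hq h4)
    rw [Sub.chi_const S.toNS0 _ e hc (Sub.ok_piM _ q.2), Sub.chi_gt _ (r := 0) (fun p => ?_) h3,
      mul_zero]
    change _ ≤ finrank ℂ (⊤ : Submodule ℂ (Fin K → ℂ)) + 0
    simp
  have h3 : Nm n (Polynomial.C (M.choose k : ℂ) * Polynomial.X ^ (e * k) * g)
      (PowerSeries.C (M.choose k : ℂ) * PowerSeries.X ^ (e * k) * S.HS 0) := by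
    have := num_mul hg (Polynomial.C (M.choose k : ℂ) * Polynomial.X ^ (e * k))
    rwa [Polynomial.coe_mul, Polynomial.coe_C, Polynomial.coe_pow, Polynomial.coe_X] at this
  have h4 := Nm.dvd (num_sum (antidiagonal k) fun q _ => hμ q) h3
    (h2 ▸ (s1.chi k).symm.trans (s2.chi k))
  have h5 := (((pow_dvd_pow _ (Nat.sub_le (n + 1) c)).trans h4).mul_left g).sub
    (dvd_sum (s := antidiagonal k) fun q _ => hm q)
  refine (num_dvd ?_).1 h5
  rw [sum_sub_distrib, ← sum_mul]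
  ring

end Pool.Agent.NEF
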