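import Pool.Agent.P.MP_66e591_ag.RD2
import Pool.Agent.P.MP_f644fa_ag.LI0
import Pool.Agent.P.MP_f644fa_ag.LG0

/-! The normal bundle as a subbundle of a trivial bundle. -/

noncomputable section
namespace Pool.Agent.NEF
open Finset Module MvPolynomial Pool.Agent.HCF

variable {M : ℕ} {I : Ideal (SS M)} {c n : ℕ}

/-- the relations between the gradients -/
def rt3_T {K : ℕ} (h : Fin K → SS M) (z : Fin M → ℂ) : Submodule ℂ (Fin K → ℂ) :=
  LinearMap.ker (Fintype.linearCombination ℂ fun i => pv z (gr (h i)))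

theorem rt3_mem {K : ℕ} {h : Fin K → SS M} {z : Fin M → ℂ} {v : Fin K → ℂ} :
    v ∈ rt3_T h z ↔ ∑ i, v i • pv z (gr (h i)) = 0 := by
  rw [rt3_T, LinearMap.mem_ker, Fintype.linearCombination_apply]

theorem rt3_rank (hX : IsManifold I c) {K : ℕ} {h : Fin K → SS M}
    (hI : I = Ideal.span (Set.range h)) {z : Fin M → ℂ} (hz : z ∈ cone I) :
    finrank ℂ (rt3_T h z) + c = K := by
  have h1 := LinearMap.finrank_range_add_finrank_ker
    (Fintype.linearCombination ℂ fun i => pv z (gr (h i)))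
  rw [Fintype.range_linearCombination, hX.span_gens hI hz, Es, Module.finrank_fin_fun] at h1
  have h2 := finrank_perp (tangS I z)
  have h3 := hX.finrank_tang hz
  rw [Fintype.card_fin] at h2
  rw [rt3_T]
  omega

theorem rt3_scale {f : SS M} {d : ℕ} (hf : f.IsHomogeneous (d + 1)) (t : ℂ) (z : Fin M → ℂ) :
    pv (t • z) (gr f) = t ^ d • pv z (gr f) :=
  funext fun j => eval_smul_hom (hf.pderiv (i := j)) t z

theorem rt3_syz {K : ℕ} {h : Fin K → SS M} (hI : I = Ideal.span (Set.range h)) {z : Fin M → ℂ}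
    (hz : z ∈ cone I) {r : Fin K → SS M} (hr : ∑ k, r k * h k = 0) : pv z r ∈ rt3_T h z := by
  have hh : ∀ k, h k ∈ I := fun k => hI ▸ Ideal.subset_span ⟨k, rfl⟩
  refine rt3_mem.2 (funext fun j => ?_)
  have h1 := lg0_der (fun k => hz.2 _ (hh k)) r j
  rw [hr, map_zero, map_zero] at h1
  rw [Finset.sum_apply, Pi.zero_apply, h1]
  rfl

theorem exists_normal (hX : IsManifold I c) {S : NS M n (cone I) (Pol I) (Pol2 I)}
    (hE : Expl I S.toNS0) : ∃ (K e : ℕ) (φ : Fin K → Fin M → Pol I) (d : Fin K → ℕ)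
      (B : Sub S.toNS0 (Fin K)), (∀ i, d i ≤ e) ∧
      (∀ i p, S.val (S.dbl p) (φ i) = (2 : ℂ) ^ d i • S.val p (φ i)) ∧
      (∀ p, perp (S.T p) = Submodule.span ℂ (Set.range fun i => S.val p (φ i))) ∧
      (∀ i, B.w i = e - d i) ∧ (∀ p v, v ∈ B.T p ↔ ∑ i, v i • S.val p (φ i) = 0) ∧
      ∀ p, finrank ℂ (B.T p) + c = K := by
  obtain ⟨K, h, d, hd, hI⟩ := hX.exists_gens
  have hv : ∀ i (p : cone I), S.val p (fun j => aeval S.x (gr (h i) j)) = pv p.1 (gr (h i)) :=
    fun i p => hE.val_aeval p (gr (h i))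
  have he : ∀ i, d i ≤ univ.sup d := fun i => Finset.le_sup (mem_univ i)
  refine ⟨K, univ.sup d, fun i j => aeval S.x (gr (h i) j), d,
    ⟨fun i => univ.sup d - d i, fun p => rt3_T h p.1, fun p v hp => ?_,
      S.toNS0.loc_of_gen _ (τ := K - c) (fun p => ?_) fun p => ?_⟩, he, fun i p => ?_,
    fun p => ?_, fun i => rfl, fun p v => ?_, fun p => rt3_rank hX hI p.2⟩
  · rw [rt3_mem] at hp ⊢
    have h1 : ∀ i, ((2 : ℂ) ^ (univ.sup d - d i) * v i) • pv (S.dbl p).1 (gr (h i)) =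
        (2 : ℂ) ^ univ.sup d • (v i • pv p.1 (gr (h i))) := fun i => by
      rw [hE.dbl, rt3_scale (hd i), smul_smul, smul_smul, mul_right_comm, ← pow_add,
        Nat.sub_add_cancel (he i)]
    rw [sum_congr rfl fun i _ => h1 i, ← Finset.smul_sum, hp, smul_zero]
  · have h1 := rt3_rank hX hI p.2
    omega
  · refine (perp_perp _).ge.trans (lx1_le fun θ hθ a ha => ?_)
    rw [lx1_comm]
    refine hX.syz hI p.2 (fun r hr => ?_) (rt3_mem.1 ha)
    rw [lx1_comm]
    exact hθ _ ⟨fun k => aeval S.x (r k),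
      fun q => by rw [hE.val_aeval]; exact rt3_syz hI q.2 hr, (hE.val_aeval p r).symm⟩
  · rw [hv, hv, hE.dbl, rt3_scale (hd i)]
  · simp only [hv]
    rw [hE.T, hX.span_gens hI p.2, Es]
  · simp only [hv]
    exact rt3_mem

end Pool.Agent.NEF
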