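import Pool.Agent.P.MP_66e591_ag.RK3
import Pool.Agent.P.MP_66e591_ag.RK4
import Pool.Agent.P.MP_66e591_ag.RT1
import Pool.Agent.P.MP_66e591_ag.RT2
import Pool.Agent.P.MP_66e591_ag.RT3
import Pool.Agent.P.MP_66e591_ag.RA5
import Pool.Agent.P.MP_f644fa_ag.LM0

/-! The recurrence for the Hilbert series of the symmetric powers of the normal bundle. -/

noncomputable section
namespace Pool.Agent.NEF
open Finset Module Pool.Agent.HCF

variable {M : ℕ} {I : Ideal (SS M)} {c n : ℕ}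

theorem rn_poly {g : Polynomial ℂ} {f : PowerSeries ℂ} (h : Nm n g f) {k : ℕ} (hk : k ≤ n + 1)
    (hd : (1 - Polynomial.X) ^ (n + 1 - k) ∣ g) : PEq ((1 - PowerSeries.X) ^ k * f) 0 := by
  obtain ⟨p, hp⟩ := h
  obtain ⟨q, rfl⟩ := hd
  refine ⟨q - (1 - Polynomial.X) ^ k * p, ?_⟩
  have h1 : (1 - PowerSeries.X : PowerSeries ℂ) ^ (n + 1 - k) ≠ 0 := pow_ne_zero _ one_sub_X_ne
  refine mul_left_cancel₀ h1 ?_
  simp only [Polynomial.coe_mul, Polynomial.coe_pow, Polynomial.coe_sub, Polynomial.coe_one,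
    Polynomial.coe_X] at hp ⊢
  have e : (1 - PowerSeries.X : PowerSeries ℂ) ^ (n + 1) =
      (1 - PowerSeries.X) ^ (n + 1 - k) * (1 - PowerSeries.X) ^ k := by
    rw [← pow_add, Nat.sub_add_cancel hk]
  rw [e] at hp
  linear_combination -hp

theorem numer (hX : IsManifold I c) (hM : M = n + 1 + c) (hc : 1 ≤ c) (hn : c + 1 ≤ n) {s : ℕ}
    {ν : Finset (Fin M) → secRing I} (hν : ν ∈ Hm (secRing I) c s)
    (hne : ∀ x : cone I, ∃ J, (ν J).1 x ≠ 0) :
    (∀ b, PEq ((1 - PowerSeries.X) ^ (n + 1) * PowerSeries.mk fun a => (HW I a b : ℂ)) 0) ∧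
    ∃ L : ℕ → Polynomial ℂ, (L 0).eval 1 ≠ 0 ∧
      (1 - Polynomial.X) ^ 2 ∣ Polynomial.X ^ s * L c - L 0 ∧
      ∀ b, PEq ((1 - PowerSeries.X) ^ c * ∑ m ∈ range (c + 1),
        (-1) ^ m * (L m : PowerSeries ℂ) * PowerSeries.mk fun a => (HW I a (b + c - m) : ℂ)) 0 := by
  obtain ⟨S, g, hS⟩ := exists_Nx hX hM (by omega) hν hne
  obtain ⟨K, e, φ, d, B, hd, hφ, h0, hw, hB, hr⟩ := exists_normal hX hS.expl
  have hT : ∀ p, finrank ℂ (S.T p) + c = M := fun p => by
    rw [hS.expl.T]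
    exact hX.finrank_tang p.2
  choose τ hτ using fun m => num_rat ((tanB S).ok_piM m)
  choose Λ hΛ using fun m => num_rat (B.ok_piM m)
  have hz : Nm n 0 0 := ⟨0, by simp⟩
  have hle : (1 - Polynomial.X : Polynomial ℂ) ^ (n + 1 - c) ∣ (1 - Polynomial.X) ^ (n + 1) :=
    pow_dvd_pow _ (Nat.sub_le _ _)
  set γ : ℕ → Polynomial ℂ := fun b => ∑ m ∈ range (b + 1),
    Polynomial.C ((-1) ^ m * (Nat.multichoose (n + 1 + c) (b - m) : ℂ)) * τ m with hγ
  have hγN : ∀ b, Nm n (γ b) (PowerSeries.mk fun a => (HW I a b : ℂ)) := fun b => by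
    have h1 := koszul (tanB S) (fun _ => rfl) b
    rw [← HW_series hX hS.expl, Fintype.card_fin] at h1
    refine num_peq ?_ h1.symm
    refine num_sum _ fun m _ => ?_
    have h2 := num_mul (hτ m) (Polynomial.C ((-1) ^ m * (Nat.multichoose M (b - m) : ℂ)))
    rw [Polynomial.coe_C] at h2
    exact hM ▸ h2
  have hΛ0 : (1 - Polynomial.X) ^ (n + 1) ∣ Λ 0 - g 0 :=
    Nm.dvd (hΛ 0) (hS.nm 0) (by rw [B.chi_zero, S.chi_one]; exact PEq.refl _)
  obtain ⟨a1, a2⟩ := series_rec (N := n + 1 - c) (n := n) (e := e) (s := s) (τ := τ) (Λ := Λ)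
    (γ := γ) hc hS.ne
    (fun k => hM ▸ whitney S hM φ d hd hφ h0 B hw hB hτ hΛ (hS.nm 0) k)
    (fun b => by rw [sub_self]; exact dvd_zero _)
    (fun m hm => by
      have h1 := Nm.dvd (hΛ m) hz (by
        rw [B.chi_gt (r := c) (fun p => by rw [Fintype.card_fin, hr]) hm]
        exact PEq.refl _)
      rw [sub_zero] at h1
      exact hle.trans h1)
    (fun m hm => by
      have h1 := Nm.dvd (hτ m) hz (by
        rw [(tanB S).chi_gt (r := n + 1) (fun p => by
          have h2 := finrank_perp (S.T p)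
          have h3 := hT p
          change _ ≤ finrank ℂ (perp (S.T p)) + (n + 1)
          rw [Fintype.card_fin] at h2 ⊢
          omega) hm]
        exact PEq.refl _)
      rw [sub_zero] at h1
      exact hle.trans h1)
    (by
      have h1 := Nm.dvd (hτ (n + 1)) (hS.nm c) (star_top S hM hT)
      have h2 := dvd_add h1 hS.top
      rw [sub_add_sub_cancel] at h2
      exact hle.trans h2)
  refine ⟨fun b => rn_poly (hγN b) le_rfl (by simp), fun m => Λ m * Polynomial.X ^ (e * (c - m)),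
    ?_, ?_, fun b => rn_poly ?_ (by omega) (a2 b)⟩
  · obtain ⟨q, hq⟩ := hΛ0
    have h1 := congrArg (Polynomial.eval 1) hq
    simp only [Polynomial.eval_sub, Polynomial.eval_mul, Polynomial.eval_pow, Polynomial.eval_one,
      Polynomial.eval_X, sub_self, zero_pow (Nat.succ_ne_zero n), zero_mul, sub_eq_zero] at h1
    simpa [h1] using hS.ne
  · have h1 : (1 - Polynomial.X : Polynomial ℂ) ^ 2 ∣ (1 - Polynomial.X) ^ (n + 1 - c) :=
      pow_dvd_pow _ (by omega)
    have h2 := dvd_sub (h1.trans a1) (((h1.trans hle).trans hΛ0).mul_left (Polynomial.X ^ (e * c)))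
    refine (num_dvd ?_).1 h2
    simp only [Nat.sub_self, Nat.sub_zero, mul_zero, pow_zero]
    ring
  · refine num_sum _ fun m _ => ?_
    have h1 := num_mul (hγN (b + c - m)) ((-1) ^ m * (Λ m * Polynomial.X ^ (e * (c - m))))
    rwa [Polynomial.coe_mul, Polynomial.coe_pow, Polynomial.coe_neg, Polynomial.coe_one] at h1

end Pool.Agent.NEF
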