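import Pool.Agent.P.MP_66e591_ag.RD0

/-! Asymptotics of binomial sums. -/

noncomputable section
namespace Pool.Agent.NEF
open Finset Filter Topology

theorem rp2_inv : Tendsto (fun L : ℕ => ((L : ℝ))⁻¹) atTop (𝓝 0) :=
  tendsto_inv_atTop_zero.comp tendsto_natCast_atTop_atTop

theorem rp2_lin (a c : ℝ) : Tendsto (fun L : ℕ => (a * L + c) / (L : ℝ)) atTop (𝓝 a) := by
  have h := (rp2_inv.const_mul c).const_add a
  rw [mul_zero, add_zero] at h
  refine h.congr' ?_
  filter_upwards [eventually_gt_atTop 0] with L hL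
  have : (L : ℝ) ≠ 0 := by positivity
  field_simp

theorem rp2_succ (y i : ℕ) :
    (y.choose (i + 1) : ℝ) * ((i : ℝ) + 1) = (y.choose i : ℝ) * ((y : ℝ) - i) := by
  rcases le_or_gt i y with h | h
  · have := Nat.choose_succ_right_eq y i
    rw [← Nat.cast_sub h]
    exact_mod_cast this
  · rw [Nat.choose_eq_zero_of_lt h, Nat.choose_eq_zero_of_lt (by omega)]
    simp

theorem tend_choose (α C i : ℕ) :
    Tendsto (fun L : ℕ => ((α * L + C).choose i : ℝ) / (L : ℝ) ^ i) atTop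
      (𝓝 ((α : ℝ) ^ i / i.factorial)) := by
  induction i with
  | zero => simp
  | succ i ih =>
    have h := (ih.mul (rp2_lin α ((C : ℝ) - i))).div_const ((i : ℝ) + 1)
    have e : (α : ℝ) ^ i / i.factorial * α / ((i : ℝ) + 1) =
        (α : ℝ) ^ (i + 1) / (i + 1).factorial := by
      rw [Nat.factorial_succ]
      push_cast
      field_simp
      ring
    rw [e] at h
    refine h.congr fun L => ?_
    have h1 := rp2_succ (α * L + C) i
    have h2 : (((α * L + C).choose (i + 1) : ℕ) : ℝ) =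
        ((α * L + C).choose i : ℝ) * ((α : ℝ) * L + (C - i)) / ((i : ℝ) + 1) := by
      rw [eq_div_iff (by positivity), h1]
      push_cast
      ring
    rw [h2, pow_succ]
    ring

theorem tend_mc (α C r : ℕ) :
    Tendsto (fun L : ℕ => (Nat.multichoose (r + 1) (α * L + C) : ℝ) / (L : ℝ) ^ r) atTop
      (𝓝 ((α : ℝ) ^ r / r.factorial)) := by
  refine (tend_choose α (C + r) r).congr fun L => ?_
  rw [Nat.multichoose_eq, show r + 1 + (α * L + C) - 1 = α * L + C + r by omega,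
    Nat.choose_symm_add, add_assoc]

theorem rp2_term {c v : ℝ} {k e : ℕ} {g : ℕ → ℝ} (hc : e < k → c = 0)
    (hg : Tendsto (fun L : ℕ => g L / (L : ℝ) ^ k) atTop (𝓝 v)) :
    Tendsto (fun L : ℕ => c * (g L / (L : ℝ) ^ e)) atTop (𝓝 (if k = e then c * v else 0)) := by
  rcases lt_trichotomy k e with h | h | h
  · rw [if_neg h.ne]
    obtain ⟨s, rfl⟩ := Nat.exists_eq_add_of_lt h
    have h1 := (hg.mul (rp2_inv.pow (s + 1))).const_mul c
    rw [zero_pow (Nat.succ_ne_zero s), mul_zero, mul_zero] at h1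
    refine h1.congr fun L => ?_
    rw [add_assoc, pow_add (L : ℝ) k, inv_pow]
    ring
  · subst h
    rw [if_pos rfl]
    exact hg.const_mul c
  · rw [if_neg h.ne', hc h]
    simp

/-- one variable -/
theorem tend_one {N e : ℕ} {ρ : ℕ → ℝ} (h1 : ∀ i, N ≤ i → ρ i = 0) (h2 : ∀ i, e < i → ρ i = 0)
    (α C : ℕ) :
    Tendsto (fun L : ℕ => (∑ i ∈ range N, ρ i * ((α * L + C).choose i : ℝ)) / (L : ℝ) ^ e) atTop
      (𝓝 (ρ e * (α : ℝ) ^ e / e.factorial)) := by
  have h : Tendsto (fun L : ℕ => ∑ i ∈ range N, ρ i * ((α * L + C).choose i : ℝ) / (L : ℝ) ^ e)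
      atTop (𝓝 (∑ i ∈ range N, if i = e then ρ i * ((α : ℝ) ^ i / i.factorial) else 0)) :=
    tendsto_finsetSum _ fun i _ => by
      have := rp2_term (e := e) (h2 i) (tend_choose α C i)
      refine this.congr fun L => ?_
      rw [mul_div_assoc]
  rw [sum_ite_eq'] at h
  have e1 : (if e ∈ range N then ρ e * ((α : ℝ) ^ e / e.factorial) else 0) =
      ρ e * (α : ℝ) ^ e / e.factorial := by
    split_ifs with h3
    · rw [mul_div_assoc]
    · rw [h1 e (by simpa using h3)]
      simp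
  rw [e1] at h
  refine h.congr fun L => ?_
  rw [sum_div]

/-- two variables -/
theorem tend_two {N e : ℕ} {π : ℕ → ℕ → ℝ} (h1 : ∀ i j, N ≤ i ∨ N ≤ j → π i j = 0)
    (h2 : ∀ i j, e < i + j → π i j = 0) (α β C C' : ℕ) :
    Tendsto (fun L : ℕ => ev N π (α * L + C) (β * L + C') / (L : ℝ) ^ e) atTop
      (𝓝 (∑ q ∈ antidiagonal e,
        π q.1 q.2 * ((α : ℝ) ^ q.1 / q.1.factorial) * ((β : ℝ) ^ q.2 / q.2.factorial))) := by
  have h : Tendsto (fun L : ℕ => ∑ q ∈ range N ×ˢ range N,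
      π q.1 q.2 * (((α * L + C).choose q.1 : ℝ) * ((β * L + C').choose q.2 : ℝ) / (L : ℝ) ^ e))
      atTop (𝓝 (∑ q ∈ range N ×ˢ range N, if q.1 + q.2 = e then
        π q.1 q.2 * ((α : ℝ) ^ q.1 / q.1.factorial * ((β : ℝ) ^ q.2 / q.2.factorial)) else 0)) :=
    tendsto_finsetSum _ fun q _ => rp2_term (e := e) (h2 q.1 q.2) (by
      refine ((tend_choose α C q.1).mul (tend_choose β C' q.2)).congr fun L => ?_
      rw [pow_add, mul_div_mul_comm])
  have e1 : (∑ q ∈ range N ×ˢ range N, if q.1 + q.2 = e then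
      π q.1 q.2 * ((α : ℝ) ^ q.1 / q.1.factorial * ((β : ℝ) ^ q.2 / q.2.factorial)) else 0) =
      ∑ q ∈ antidiagonal e,
        π q.1 q.2 * ((α : ℝ) ^ q.1 / q.1.factorial) * ((β : ℝ) ^ q.2 / q.2.factorial) := by
    rw [← sum_filter]
    refine (sum_congr rfl fun q _ => (mul_assoc _ _ _).symm).trans (sum_subset ?_ ?_)
    · intro q hq
      exact mem_antidiagonal.2 (mem_filter.1 hq).2
    · intro q hq hq'
      have h3 := mem_antidiagonal.1 hq
      rw [h1 q.1 q.2 (by
        by_contra hh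
        exact hq' (mem_filter.2 ⟨mem_product.2 ⟨mem_range.2 (by omega), mem_range.2 (by omega)⟩, h3⟩))]
      simp
  rw [e1] at h
  refine h.congr fun L => ?_
  rw [ev, sum_product, sum_div]
  refine sum_congr rfl fun i _ => ?_
  rw [sum_div]
  refine sum_congr rfl fun j _ => ?_
  ring

end Pool.Agent.NEF
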