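import Pool.Agent.P.MP_66e591_ag.A4
import Pool.Agent.P.MP_66e591_ag.S1

/-! The two filtration steps. -/

noncomputable section
namespace Pool.Agent.NEF
open MvPolynomial Module Finset Pool.Agent.HCF

variable {M : ℕ} {I : Ideal (SS M)} {c : ℕ} {ι : Type} [Fintype ι] [DecidableEq ι]

omit [Fintype ι] in
theorem st_path_cont (k : ι) (z : ι → VV M) (e : VV M) :
    Continuous fun τ : ℂ => Function.update z k (τ • e + z k) := by
  refine continuous_const.update k ?_
  exact (continuous_id.smul continuous_const).add continuous_const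

theorem st_unit {x : VV M} (hx : x ≠ 0) : ∃ e : VV M, e ⬝ᵥ x = 1 := by
  obtain ⟨j, hj⟩ := Function.ne_iff.mp hx
  refine ⟨Pi.single j (x j)⁻¹, ?_⟩
  rw [single_dotProduct]
  exact inv_mul_cancel₀ hj

omit [Fintype ι] in
theorem st_smul (o k : ι) (i : ℕ) :
    i • ((Pi.single o 1 : ι → ℕ) + Pi.single k 1) = Pi.single o i + Pi.single k i := by
  funext x
  simp only [Pi.smul_apply, Pi.add_apply, Pi.single_apply, smul_eq_mul]
  split_ifs <;> ring

/-- from the product to the incidence variety -/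
theorem stepA {o k : ι} (hok : k ≠ o) (Z : Set (ι → VV M)) (h0 : ∀ z ∈ Z, z o ≠ 0)
    (hZ : ∀ z ∈ Z, ∀ θ, Function.update z k θ ∈ Z) (N : ℕ) (a : ι → ℕ) (d : ℕ → ι → ℕ)
    (hd : ∀ i < N, Pi.single o i + Pi.single k i + d i = a) :
    ∑ i ∈ range N, rk {z ∈ Z | z k ⬝ᵥ z o = 0} (Pd M (d i)) ≤ rk Z (Pd M a) := by
  have := Pd_finite (M := M) a
  have := fun i => Pd_finite (M := M) (d i)
  have key := filt Z {z ∈ Z | z k ⬝ᵥ z o = 0} N (fun _ => 1) (Pd M a) (fun i => Pd M (d i))
    (fun i _ => (fun z : ι → VV M => z k ⬝ᵥ z o) ^ i) ?_ ?_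
  · simpa only [one_mul] using key
  · intro i hi b g hg
    rw [← hd i hi]
    refine Pd_mul ?_ hg
    have h1 := Pd_pow (dot2_mem (M := M) o k) i
    rwa [st_smul] at h1
  · intro g hg hs i hi hlt b z hz
    obtain ⟨e, he⟩ := st_unit (h0 z hz.1)
    have h1 := low N i (fun i τ => g i 0 (Function.update z k (τ • e + z k)))
      (fun i => (Pd_cont (hg i 0)).comp (st_path_cont k z e))
      (fun i' hi' => by funext τ; rw [hlt i' hi' 0]; rfl) ?_ hi
    · rw [Subsingleton.elim b 0]
      simpa only [zero_smul, zero_add, Function.update_eq_self] using h1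
    · intro τ
      have h2 := hs _ (hZ z hz.1 (τ • e + z k))
      have h3 : (τ • e + z k) ⬝ᵥ z o = τ := by
        rw [add_dotProduct, smul_dotProduct, he, hz.2, smul_eq_mul, mul_one, add_zero]
      rw [← h2]
      refine Finset.sum_congr rfl fun j _ => ?_
      rw [Fin.sum_univ_one, Pi.pow_apply, Function.update_self, Function.update_of_ne hok.symm, h3]

/-- from the incidence variety to the conormal variety -/
theorem stepB (hX : IsManifold I c) {o k : ι} (hok : k ≠ o) (Z : Set (ι → VV M))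
    (h0 : ∀ z ∈ Z, z o ∈ cone I) (hZ : ∀ z ∈ Z, ∀ θ, Function.update z k θ ∈ Z) (N : ℕ)
    (r t : ℕ → ℕ) (F : ∀ j, Fin (r j) → MvPolynomial (Fin M ⊕ Fin M) ℂ)
    (hF : ∀ j < N, ∀ b, IsSection I j (t j) (F j b)) (hI : ∀ j < N, ∀ z ∈ Z, Indep (F j) (z o))
    (a : ι → ℕ) (d : ℕ → ι → ℕ)
    (hd : ∀ j < N, Pi.single o (j + t j) + Pi.single k j + d j = a) :
    ∑ j ∈ range N, r j * rk {z ∈ Z | z k ∈ conormal I (z o)} (Pd M (d j)) ≤
      rk {z ∈ Z | z k ⬝ᵥ z o = 0} (Pd M a) := by
  have := Pd_finite (M := M) a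
  have := fun i => Pd_finite (M := M) (d i)
  refine filt {z ∈ Z | z k ⬝ᵥ z o = 0} {z ∈ Z | z k ∈ conormal I (z o)} N r (Pd M a)
    (fun i => Pd M (d i))
    (fun j b => fun z : ι → VV M => eval (Sum.elim (z o) (z k)) (F j b)) ?_ ?_
  · intro j hj b g hg
    rw [← hd j hj]
    exact Pd_mul (bi_mem o k (hF j hj b).homog) hg
  · intro g hg hs i hi hlt b z hz
    have hx := h0 z hz.1
    have hp : z k ⬝ᵥ z o = 0 := conormal_perp hX hx hz.2
    have hu := hI i hi z hz.1 (fun b => g i b z) ?_
    · exact congrFun hu b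
    intro θ hθ
    have h1 := low N i (fun j τ => ∑ b, g j b (Function.update z k (τ • θ + z k)) *
        eval (Sum.elim (z o) θ) (F j b))
      (fun j => continuous_finsetSum _ fun b _ =>
        ((Pd_cont (hg j b)).comp (st_path_cont k z θ)).mul continuous_const)
      (fun i' hi' => by
        funext τ
        refine Finset.sum_eq_zero fun b _ => ?_
        rw [hlt i' hi' b, Pi.zero_apply, zero_mul]) ?_ hi
    · simpa only [zero_smul, zero_add, Function.update_eq_self] using h1
    · intro τ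
      have h4 : (τ • θ) ⬝ᵥ z o = 0 := by rw [smul_dotProduct, hθ, smul_zero]
      have h2 := hs (Function.update z k (τ • θ + z k)) ⟨hZ z hz.1 _, by
        rw [Function.update_self, Function.update_of_ne hok.symm, add_dotProduct, h4, hp, add_zero]⟩
      rw [← h2]
      refine Finset.sum_congr rfl fun j hj => ?_
      have hj' := Finset.mem_range.mp hj
      rw [Finset.mul_sum]
      refine Finset.sum_congr rfl fun b _ => ?_
      rw [Function.update_self, Function.update_of_ne hok.symm,
        (hF j hj' b).inv (z o) hx _ _ h4 hz.2, (hF j hj' b).eval_smul]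
      ring

end Pool.Agent.NEF
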