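import Pool.Agent.P.MP_66e591_ag.W1

/-! Powers of a twist; a chart of the conormal bundle. -/

noncomputable section
namespace Pool.Agent.NEF
open MvPolynomial Module Finset Pool.Agent.HCF

variable {M : ℕ} {I : Ideal (SS M)} {c : ℕ} {κ : Type} [Fintype κ] [DecidableEq κ]

theorem Twist.pow {s : ℕ} {D : (Option κ → VV M) → ℂ} (h : Twist κ I s D) :
    ∃ a₀, ∀ l, ∀ a ≥ a₀, ∀ p : SS M, p.IsHomogeneous (a + l * s) →
      ∃ f ∈ Pd M (dg a fun _ : κ => l), ∀ z ∈ WW κ I, D z ^ l * eval (z none) p = f z := by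
  obtain ⟨e, he⟩ := h.reg
  refine ⟨M * (e + s) + 1, fun l => ?_⟩
  induction l with
  | zero =>
    intro a _ p hp
    refine ⟨fun z => eval (z none) p, ?_, fun z _ => by simp⟩
    have h1 : dg a (fun _ : κ => 0) = Pi.single none a := by
      funext o
      cases o <;> simp
    rw [h1]
    exact eval_mem none (by simpa using hp)
  | succ l ih =>
    intro a ha p hp
    let N : Submodule ℂ (SS M) :=
      { carrier := {p | ∃ f ∈ Pd M (dg a fun _ : κ => l + 1),
          ∀ z ∈ WW κ I, D z ^ (l + 1) * eval (z none) p = f z}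
        add_mem' := by
          rintro p q ⟨f, hf, h1⟩ ⟨g, hg, h2⟩
          exact ⟨f + g, add_mem hf hg, fun z hz => by
            rw [map_add, mul_add, h1 z hz, h2 z hz, Pi.add_apply]⟩
        zero_mem' := ⟨0, zero_mem _, fun z _ => by simp⟩
        smul_mem' := by
          rintro t p ⟨f, hf, h1⟩
          exact ⟨t • f, Submodule.smul_mem _ t hf, fun z hz => by
            rw [smul_eval, Pi.smul_apply, ← h1 z hz, smul_eq_mul]; ring⟩ }
    change p ∈ N
    rw [p.as_sum]
    refine N.sum_mem fun m hm => ?_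
    have h2 : m.degree = a + (l + 1) * s := by
      have := hp (mem_support_iff.mp hm)
      rw [← this, Finsupp.degree_eq_weight_one]
      rfl
    obtain ⟨j, hj⟩ : ∃ j, e + s ≤ m j := by
      by_contra hc
      push Not at hc
      have h3 : m.degree ≤ M * (e + s) := by
        rw [Finsupp.degree_eq_sum]
        calc ∑ j, m j ≤ ∑ _j : Fin M, (e + s) := Finset.sum_le_sum fun j _ => (hc j).le
          _ = M * (e + s) := by simp
      omega
    have h3 : m = Finsupp.single j (e + s) + (m - Finsupp.single j (e + s)) := by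
      rw [add_tsub_cancel_of_le]
      exact Finsupp.single_le_iff.mpr hj
    set m' := m - Finsupp.single j (e + s) with hm'
    have h4 : m'.degree + e = a + l * s := by
      have h5 := congrArg Finsupp.degree h3
      rw [map_add, Finsupp.degree_single, h2] at h5
      have h6 : (l + 1) * s = l * s + s := by ring
      omega
    have hq : (monomial m' (coeff m p) : SS M).IsHomogeneous m'.degree :=
      isHomogeneous_monomial _ rfl
    obtain ⟨g, hg, hgz⟩ := he j
    have h5 : dg e (fun _ : κ => 1) = Pi.single none e + dg 0 fun _ : κ => 1 := by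
      funext o
      cases o <;> simp
    rw [h5, Pd_add, Pd_single] at hg
    have h6 : ∃ f ∈ Pd M (dg a fun _ : κ => l + 1), ∀ z ∈ WW κ I,
        D z ^ l * eval (z none) (monomial m' (coeff m p)) * g z = f z := by
      clear hgz
      refine Submodule.mul_induction_on hg (fun q hq' r hr => ?_) fun g1 g2 h7 h8 => ?_
      · obtain ⟨q0, hq0, rfl⟩ := mem_Lf_pow.mp hq'
        obtain ⟨f, hf, hfz⟩ := ih a ha _ (h4 ▸ hq.mul hq0)
        have h9 : (dg a fun _ : κ => l + 1) = (dg a fun _ : κ => l) + dg 0 fun _ : κ => 1 := by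
          funext o
          cases o <;> simp
        refine ⟨f * r, h9 ▸ Pd_mul hf hr, fun z hz => ?_⟩
        rw [Pi.mul_apply, Pi.mul_apply, ← hfz z hz, map_mul]
        ring
      · obtain ⟨f1, hf1, k1⟩ := h7
        obtain ⟨f2, hf2, k2⟩ := h8
        exact ⟨f1 + f2, add_mem hf1 hf2, fun z hz => by
          rw [Pi.add_apply, Pi.add_apply, mul_add, k1 z hz, k2 z hz]⟩
    obtain ⟨f, hf, hfz⟩ := h6
    refine ⟨f, hf, fun z hz => ?_⟩
    have h7 : (monomial m (coeff m p) : SS M) = X j ^ (e + s) * monomial m' (coeff m p) := by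
      rw [← monomial_single_add, ← h3]
    rw [h7, ← hfz z hz, ← hgz z hz, map_mul, map_pow, eval_X]
    ring

theorem exists_cochart (hX : IsManifold I c) {x₀ : VV M} (hx : x₀ ∈ cone I) :
    ∃ (Δ : SS M) (B : Fin c → VV M), eval x₀ Δ ≠ 0 ∧ ∀ x ∈ cone I, eval x Δ ≠ 0 →
      ∃ A : (Fin c → ℂ) →ₗ[ℂ] VV M, (∀ w, A w ∈ conormal I x) ∧ (∀ w r, A w ⬝ᵥ B r = w r) ∧
        ∀ η ∈ conormal I x, ∃ w, A w = η := by
  classical
  obtain ⟨F⟩ := hX.exists_PF hx
  let B : Fin c → VV M := fun r j => eval x₀ (F.b r j)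
  let P : Matrix (Fin c) (Fin c) (SS M) :=
    Matrix.of fun i r => ∑ j, pderiv j (F.f i) * C (B r j)
  let df : VV M → Fin c → VV M := fun x i j => eval x (pderiv j (F.f i))
  have hP : ∀ x : VV M, (eval x).mapMatrix P = Matrix.of fun i r => df x i ⬝ᵥ B r := by
    intro x
    ext i r
    simp [P, df, dotProduct]
  have hdet : ∀ x : VV M, eval x P.det = (Matrix.of fun i r => df x i ⬝ᵥ B r).det := by
    intro x
    rw [RingHom.map_det, hP]
  refine ⟨P.det, B, ?_, fun x hxc hxd => ?_⟩
  · have h1 : (Matrix.of fun i r => df x₀ i ⬝ᵥ B r) =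
        eval x₀ F.δ • (1 : Matrix (Fin c) (Fin c) ℂ) := by
      ext i r
      have h2 := congrArg (eval x₀) (F.Jb i r)
      simp only [map_sum, map_mul] at h2
      simp only [Matrix.of_apply, df, B, dotProduct, h2, Matrix.smul_apply, Matrix.one_apply]
      split_ifs <;> simp
    rw [hdet, h1, Matrix.det_smul, Matrix.det_one, mul_one]
    exact pow_ne_zero _ F.δ_ne
  · rw [hdet] at hxd
    set N : Matrix (Fin c) (Fin c) ℂ := Matrix.of fun i r => df x i ⬝ᵥ B r with hN
    have hu : IsUnit N.det := isUnit_iff_ne_zero.mpr hxd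
    let A : (Fin c → ℂ) →ₗ[ℂ] VV M := (Matrix.of (df x)).vecMulLinear ∘ₗ N⁻¹.vecMulLinear
    have hA : ∀ w, A w = ∑ i, (Matrix.vecMul w N⁻¹) i • df x i := by
      intro w
      funext j
      simp [A, Matrix.vecMul, dotProduct]
    have h1 : ∀ w, A w ∈ conormal I x := by
      intro w v hv
      rw [hA, sum_dotProduct]
      refine Finset.sum_eq_zero fun i _ => ?_
      have h2 : df x i ⬝ᵥ v = 0 := by
        rw [← hv _ (F.f_mem i)]
        simp only [df, dotProduct, mul_comm]
      rw [smul_dotProduct, h2, smul_zero]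
    have h2 : ∀ w r, A w ⬝ᵥ B r = w r := by
      intro w r
      have h3 : Matrix.vecMul (Matrix.vecMul w N⁻¹) N = w := by
        rw [Matrix.vecMul_vecMul, Matrix.nonsing_inv_mul _ hu, Matrix.vecMul_one]
      rw [hA, sum_dotProduct]
      conv_rhs => rw [← h3]
      simp only [smul_dotProduct, smul_eq_mul]
      rfl
    refine ⟨A, h1, h2, fun η hη => ?_⟩
    obtain ⟨θ, -, hθ⟩ := exists_cobasis hX hxc
    have hinj : Function.Injective A := by
      intro w w' hw
      funext r
      rw [← h2 w r, ← h2 w' r, hw]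
    have hle : LinearMap.range A ≤ Submodule.span ℂ (Set.range θ) := by
      rintro _ ⟨w, rfl⟩
      exact (hθ _).mp (h1 w)
    have hrk : finrank ℂ (Submodule.span ℂ (Set.range θ)) ≤ finrank ℂ (LinearMap.range A) := by
      rw [LinearMap.finrank_range_of_inj hinj, Module.finrank_fin_fun]
      exact (finrank_range_le_card (R := ℂ) θ).trans (Fintype.card_fin c).le
    have heq := Submodule.eq_of_le_of_finrank_le hle hrk
    have h4 : η ∈ LinearMap.range A := heq ▸ (hθ η).mp hη
    exact h4

end Pool.Agent.NEF
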