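import Pool.Agent.P.MP_f644fa_ag.QA0

/-! Exponential sums. -/

noncomputable section
namespace Pool.Agent.NEF
open Finset PowerSeries Pool.Agent.HCF

/-- `f` is the series and `F` the function of an exponential sum of type `T` and mass `B` -/
def ES (f : ℂ⟦X⟧) (F : ℂ → ℂ) (T B : ℝ) : Prop :=
  ∃ (ι : Type) (_ : Fintype ι) (a z : ι → ℂ), f = ∑ i, C (a i) * ex (z i) ∧
    (∀ w, F w = ∑ i, a i * Complex.exp (z i * w)) ∧ (∀ i, ‖z i‖ ≤ T) ∧ ∑ i, ‖a i‖ ≤ B

/-- the period -/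
def per : ℂ := 2 * Real.pi * Complex.I

/-- the product of the factors, as a series -/
def vg {c : ℕ} (x : Fin c → ℂ) (J : Finset (Fin c)) : ℂ⟦X⟧ := ∏ i ∈ J, (ex (-1) - ex (x i))

/-- the product of the factors, as a function -/
def vG {c : ℕ} (x : Fin c → ℂ) (J : Finset (Fin c)) (w : ℂ) : ℂ :=
  ∏ i ∈ J, (Complex.exp (-w) - Complex.exp (x i * w))

/-- the elementary symmetric function of the factors, as a series -/
def vp {c : ℕ} (x : Fin c → ℂ) (j : ℕ) : ℂ⟦X⟧ :=
  ∑ J ∈ powersetCard j (univ : Finset (Fin c)), vg x J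

/-- the elementary symmetric function of the factors, as a function -/
def vP {c : ℕ} (x : Fin c → ℂ) (j : ℕ) (w : ℂ) : ℂ :=
  ∑ J ∈ powersetCard j (univ : Finset (Fin c)), vG x J w

end Pool.Agent.NEF
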