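import Pool.Agent.P.MP_66e591_ag.VA0

/-! Operations on exponential sums. -/

noncomputable section
namespace Pool.Agent.NEF
open Finset PowerSeries Pool.Agent.HCF

variable {f g : ℂ⟦X⟧} {F G : ℂ → ℂ} {T T' B B' : ℝ}

theorem ES.mono (h : ES f F T B) (hT : T ≤ T') (hB : B ≤ B') : ES f F T' B' := by
  obtain ⟨ι, _, a, z, h1, h2, h3, h4⟩ := h
  exact ⟨ι, _, a, z, h1, h2, fun i => (h3 i).trans hT, h4.trans hB⟩

theorem es_ex (z : ℂ) (h : ‖z‖ ≤ T) : ES (ex z) (fun w => Complex.exp (z * w)) T 1 :=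
  ⟨Unit, inferInstance, fun _ => 1, fun _ => z, by simp, fun w => by simp, fun _ => h, by simp⟩

theorem es_zero (T : ℝ) : ES 0 (fun _ => 0) T 0 :=
  ⟨Empty, inferInstance, fun _ => 0, fun _ => 0, by simp, fun w => by simp, fun i => i.elim, by simp⟩

theorem ES.add (h : ES f F T B) (h' : ES g G T B') :
    ES (f + g) (fun w => F w + G w) T (B + B') := by
  obtain ⟨ι, _, a, z, h1, h2, h3, h4⟩ := h
  obtain ⟨κ, _, b, y, k1, k2, k3, k4⟩ := h'
  refine ⟨ι ⊕ κ, inferInstance, Sum.elim a b, Sum.elim z y, ?_, fun w => ?_, fun i => ?_, ?_⟩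
  · rw [Fintype.sum_sum_type, h1, k1]
    rfl
  · beta_reduce
    rw [Fintype.sum_sum_type, h2, k2]
    rfl
  · cases i with
    | inl i => exact h3 i
    | inr i => exact k3 i
  · rw [Fintype.sum_sum_type]
    exact add_le_add h4 k4

theorem ES.smul (h : ES f F T B) (a : ℂ) : ES (C a * f) (fun w => a * F w) T (‖a‖ * B) := by
  obtain ⟨ι, _, b, z, h1, h2, h3, h4⟩ := h
  refine ⟨ι, inferInstance, fun i => a * b i, z, ?_, fun w => ?_, h3, ?_⟩
  · simp only [h1, mul_sum, map_mul, mul_assoc]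
  · simp only [h2, mul_sum, mul_assoc]
  · simp only [norm_mul, ← mul_sum]
    exact mul_le_mul_of_nonneg_left h4 (norm_nonneg _)

theorem ES.sub (h : ES f F T B) (h' : ES g G T B') :
    ES (f - g) (fun w => F w - G w) T (B + B') := by
  have := h.add (h'.smul (-1))
  simpa [sub_eq_add_neg] using this

theorem ES.mul (h : ES f F T B) (h' : ES g G T' B') :
    ES (f * g) (fun w => F w * G w) (T + T') (B * B') := by
  obtain ⟨ι, _, a, z, h1, h2, h3, h4⟩ := h
  obtain ⟨κ, _, b, y, k1, k2, k3, k4⟩ := h'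
  refine ⟨ι × κ, inferInstance, fun q => a q.1 * b q.2, fun q => z q.1 + y q.2, ?_, fun w => ?_,
    fun q => (norm_add_le _ _).trans (add_le_add (h3 _) (k3 _)), ?_⟩
  · rw [Fintype.sum_prod_type, h1, k1, sum_mul_sum]
    refine sum_congr rfl fun i _ => sum_congr rfl fun j _ => ?_
    beta_reduce
    rw [map_mul, ex_add]
    ring
  · beta_reduce
    rw [Fintype.sum_prod_type, h2, k2, sum_mul_sum]
    refine sum_congr rfl fun i _ => sum_congr rfl fun j _ => ?_
    rw [add_mul, Complex.exp_add]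
    ring
  · simp only [Fintype.sum_prod_type, norm_mul, ← sum_mul_sum]
    exact mul_le_mul h4 k4 (sum_nonneg fun _ _ => norm_nonneg _)
      ((sum_nonneg fun _ _ => norm_nonneg _).trans h4)

theorem ES.sum {ι : Type} (s : Finset ι) {f : ι → ℂ⟦X⟧} {F : ι → ℂ → ℂ} {B : ι → ℝ}
    (h : ∀ i ∈ s, ES (f i) (F i) T (B i)) :
    ES (∑ i ∈ s, f i) (fun w => ∑ i ∈ s, F i w) T (∑ i ∈ s, B i) := by
  classical
  induction s using Finset.induction_on with
  | empty => simpa using es_zero T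
  | insert i s hi ih =>
    simp only [sum_insert hi]
    exact (h i (mem_insert_self _ _)).add (ih fun j hj => h j (mem_insert_of_mem hj))

theorem ES.prod {ι : Type} (s : Finset ι) {f : ι → ℂ⟦X⟧} {F : ι → ℂ → ℂ}
    (h : ∀ i ∈ s, ES (f i) (F i) T B) :
    ES (∏ i ∈ s, f i) (fun w => ∏ i ∈ s, F i w) (s.card * T) (B ^ s.card) := by
  classical
  induction s using Finset.induction_on with
  | empty => simpa [ex_zero] using es_ex (T := 0) 0 (by simp)
  | insert i s hi ih =>
    simp only [prod_insert hi, card_insert_of_notMem hi]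
    exact ((h i (mem_insert_self _ _)).mul (ih fun j hj => h j (mem_insert_of_mem hj))).mono
      (le_of_eq (by push_cast; ring)) (le_of_eq (by ring))

theorem ES.pow (h : ES f F T B) (k : ℕ) : ES (f ^ k) (fun w => F w ^ k) (k * T) (B ^ k) := by
  simpa using ES.prod (range k) (f := fun _ => f) (F := fun _ => F) fun _ _ => h

theorem ES.norm_le (h : ES f F T B) (w : ℂ) : ‖F w‖ ≤ B * Real.exp (T * ‖w‖) := by
  obtain ⟨ι, _, a, z, -, h2, h3, h4⟩ := h
  rw [h2]
  refine (norm_sum_le _ _).trans (le_trans ?_ (mul_le_mul_of_nonneg_right h4 (Real.exp_nonneg _)))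
  rw [sum_mul]
  refine sum_le_sum fun i _ => ?_
  rw [norm_mul]
  refine mul_le_mul_of_nonneg_left ((Complex.norm_exp_le_exp_norm _).trans ?_) (norm_nonneg _)
  rw [norm_mul]
  exact Real.exp_le_exp.2 (mul_le_mul_of_nonneg_right (h3 i) (norm_nonneg _))

theorem ES.tail (h : ES f F T B) (hT : 0 ≤ T) {L : ℕ} (hL : (X : ℂ⟦X⟧) ^ L ∣ f) {w : ℂ}
    (hw : 2 * (T * ‖w‖) ≤ L + 1) : ‖F w‖ ≤ B * (2 * ((T * ‖w‖) ^ L / L.factorial)) := by
  obtain ⟨ι, _, a, z, h1, h2, h3, h4⟩ := h
  have e : F w = ∑ i, a i * (Complex.exp (z i * w) - ∑ k ∈ range L, (z i * w) ^ k / k.factorial) := by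
    simp only [mul_sub, sum_sub_distrib, h2, mul_sum]
    rw [sum_comm, sum_eq_zero (s := range L) fun k hk => ?_, sub_zero]
    have h5 := X_pow_dvd_iff.1 hL k (mem_range.1 hk)
    rw [h1, map_sum] at h5
    rw [← zero_mul (w ^ k), ← h5, sum_mul]
    refine sum_congr rfl fun i _ => ?_
    rw [coeff_C_mul, coeff_ex]
    ring
  rw [e]
  refine (norm_sum_le _ _).trans (le_trans ?_ (mul_le_mul_of_nonneg_right h4 (by positivity)))
  rw [sum_mul]
  refine sum_le_sum fun i _ => ?_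
  have h5 : ‖z i * w‖ ≤ T * ‖w‖ := by
    rw [norm_mul]
    exact mul_le_mul_of_nonneg_right (h3 i) (norm_nonneg _)
  rw [norm_mul]
  refine mul_le_mul_of_nonneg_left ((Complex.exp_bound' ?_).trans ?_) (norm_nonneg _)
  · rw [div_le_iff₀ (by positivity)]
    push_cast
    linarith
  · rw [mul_comm]
    gcongr

theorem es_vg {c : ℕ} {x : Fin c → ℂ} (hx : ∀ i, ‖x i‖ ≤ 3) (J : Finset (Fin c)) :
    ES (vg x J) (vG x J) (3 * c) (2 ^ J.card) := by
  have h := ES.prod J (f := fun i => ex (-1) - ex (x i))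
    (F := fun i w => Complex.exp (-1 * w) - Complex.exp (x i * w)) (T := 3) (B := 1 + 1)
    fun i _ => (es_ex (-1) (by norm_num)).sub (es_ex (x i) (hx i))
  simp only [neg_one_mul, one_add_one_eq_two] at h
  refine h.mono ?_ le_rfl
  have : (J.card : ℝ) ≤ c := by exact_mod_cast (card_le_univ J).trans (Fintype.card_fin c).le
  linarith

theorem es_vp {c : ℕ} {x : Fin c → ℂ} (hx : ∀ i, ‖x i‖ ≤ 3) (j : ℕ) :
    ES (vp x j) (vP x j) (3 * c) (3 ^ c) := by
  refine (ES.sum _ fun J _ => es_vg hx J).mono le_rfl ?_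
  have h := prod_one_add (f := fun _ : Fin c => (2 : ℝ)) univ
  simp only [prod_const, card_univ, Fintype.card_fin] at h
  rw [show (3 : ℝ) = 1 + 2 by norm_num, h]
  exact sum_le_sum_of_subset_of_nonneg (fun J _ => mem_powerset.2 (subset_univ J))
    fun _ _ _ => by positivity

end Pool.Agent.NEF
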