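import Pool.Agent.P.MP_66e591_ag.VA0
import Pool.Agent.P.MP_f644fa_ag.QA3

/-! The Newton expansion. -/

noncomputable section
namespace Pool.Agent.NEF
open Finset PowerSeries Pool.Agent.HCF

/-- the polynomial of the binomial coefficient -/
def va2P (k : ℕ) : Polynomial ℂ :=
  Polynomial.C ((k.factorial : ℂ)⁻¹) * ∏ j ∈ range k, (Polynomial.X - Polynomial.C (j : ℂ))

theorem va2P_eval (k : ℕ) (z : ℂ) : (va2P k).eval z = bin z k := by
  rw [va2P, Polynomial.eval_mul, Polynomial.eval_C, Polynomial.eval_prod, bin, div_eq_inv_mul]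
  congr 1
  refine prod_congr rfl fun i _ => ?_
  rw [Polynomial.eval_sub, Polynomial.eval_X, Polynomial.eval_C]

theorem va2P_deg (k : ℕ) : (va2P k).natDegree ≤ k := by
  refine (Polynomial.natDegree_C_mul_le _ _).trans ((Polynomial.natDegree_prod_le _ _).trans ?_)
  simp only [Polynomial.natDegree_X_sub_C, sum_const, card_range, smul_eq_mul, mul_one, le_refl]

theorem va2_zero (z : ℂ) : bin z 0 = 1 := by simp [bin]

theorem va2_step (z : ℂ) (u : ℂ⟦X⟧) (L : ℕ) :
    ∑ k ∈ range (L + 1), C (bin (z + 1) k) * u ^ k =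
      ∑ k ∈ range (L + 1), C (bin z k) * u ^ k + u * ∑ k ∈ range L, C (bin z k) * u ^ k := by
  induction L with
  | zero => simp [va2_zero]
  | succ L ih =>
    rw [sum_range_succ _ (L + 1), ih, sum_range_succ _ (L + 1), sum_range_succ _ L, qa3_pascal,
      map_add]
    ring

theorem va2_nat (N : ℕ) : ∀ L : ℕ,
    (X : ℂ⟦X⟧) ^ L ∣ ex N - ∑ k ∈ range L, C (bin N k) * (ex 1 - 1) ^ k := by
  induction N with
  | zero =>
    intro L
    cases L with
    | zero => rw [pow_zero]; exact one_dvd _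
    | succ L =>
      have h : ∀ k, bin 0 (k + 1) = 0 := fun k => by simp [bin, prod_range_succ']
      rw [sum_range_succ', Nat.cast_zero, ex_zero, va2_zero]
      simp [h]
  | succ N ih =>
    intro L
    cases L with
    | zero => rw [pow_zero]; exact one_dvd _
    | succ L =>
      obtain ⟨u, hu, -⟩ := one_sub_ex 1
      have h1 : (X : ℂ⟦X⟧) ∣ ex 1 - 1 := ⟨-u, by rw [mul_neg, ← hu]; ring⟩
      have e : ex ((N + 1 : ℕ) : ℂ) -
          ∑ k ∈ range (L + 1), C (bin ((N + 1 : ℕ) : ℂ) k) * (ex 1 - 1) ^ k =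
          (ex N - ∑ k ∈ range (L + 1), C (bin (N : ℂ) k) * (ex 1 - 1) ^ k) +
            (ex 1 - 1) * (ex N - ∑ k ∈ range L, C (bin (N : ℂ) k) * (ex 1 - 1) ^ k) := by
        rw [Nat.cast_succ, va2_step, ex_add]
        ring
      rw [e]
      refine dvd_add (ih _) ?_
      rw [pow_succ']
      exact mul_dvd_mul h1 (ih L)

theorem ex_newton (y : ℂ) (L : ℕ) :
    (X : ℂ⟦X⟧) ^ L ∣ ex y - ∑ k ∈ range L, C (bin y k) * (ex 1 - 1) ^ k := by
  refine X_pow_dvd_iff.2 fun e he => ?_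
  have hP : ∀ z : ℂ, coeff e (ex z - ∑ k ∈ range L, C (bin z k) * (ex 1 - 1) ^ k) =
      (Polynomial.C ((e.factorial : ℂ)⁻¹) * Polynomial.X ^ e -
        ∑ k ∈ range L, Polynomial.C (coeff e ((ex 1 - 1) ^ k)) * va2P k).eval z := by
    intro z
    rw [map_sub, map_sum, coeff_ex, Polynomial.eval_sub, Polynomial.eval_mul, Polynomial.eval_C,
      Polynomial.eval_pow, Polynomial.eval_X, Polynomial.eval_finsetSum, div_eq_inv_mul]
    congr 1
    refine sum_congr rfl fun k _ => ?_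
    rw [coeff_C_mul, Polynomial.eval_mul, Polynomial.eval_C, va2P_eval, mul_comm]
  rw [hP]
  have h0 : (Polynomial.C ((e.factorial : ℂ)⁻¹) * Polynomial.X ^ e -
      ∑ k ∈ range L, Polynomial.C (coeff e ((ex 1 - 1) ^ k)) * va2P k) = 0 := by
    refine Polynomial.eq_zero_of_infinite_isRoot _
      (Set.infinite_of_injective_forall_mem (f := fun N : ℕ => (N : ℂ)) Nat.cast_injective
        fun N => ?_)
    rw [Set.mem_setOf_eq, Polynomial.IsRoot, ← hP]
    exact X_pow_dvd_iff.1 (va2_nat N L) e he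
  rw [h0, Polynomial.eval_zero]

theorem intTo_bin {ι : Type} [Fintype ι] {a y : ι → ℂ} {L : ℕ}
    (h : IntTo L (∑ i, C (a i) * ex (y i))) {k : ℕ} (hk : k < L) :
    IsInt (∑ i, a i * bin (y i) k) := by
  obtain ⟨G, hG⟩ := h
  have hP : (va2P k).natDegree < L := (va2P_deg k).trans_lt hk
  have h1 : qa3L (va2P k) L (∑ i, C (a i) * ex (y i) - Ez G) = 0 := by
    rw [qa3L_apply]
    exact sum_eq_zero fun j hj => by rw [X_pow_dvd_iff.1 hG j (mem_range.1 hj), mul_zero]
  have h2 : ∀ G : Polynomial ℤ, IsInt (qa3L (va2P k) L (Ez G)) := by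
    intro G
    induction G using Polynomial.induction_on' with
    | add p q hp hq => rw [map_add, map_add]; exact hp.add hq
    | monomial n b =>
      rw [← Polynomial.C_mul_X_pow_eq_monomial, map_mul, Ez_X_pow, Ez_C, qa3L_C, qa3L_ex hP,
        va2P_eval]
      refine (isInt_int b).mul ?_
      have := isInt_bin (n : ℤ) k
      rwa [Int.cast_natCast] at this
  rw [map_sub, sub_eq_zero, map_sum] at h1
  simp only [qa3L_C, qa3L_ex hP, va2P_eval] at h1
  rw [h1]
  exact h2 G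

theorem isInt_small {z : ℂ} (h : IsInt z) (h1 : ‖z‖ < 1) : z = 0 := by
  obtain ⟨a, rfl⟩ := h
  rw [Complex.norm_intCast] at h1
  have h2 : |a| < 1 := by exact_mod_cast h1
  rw [Int.abs_lt_one_iff.1 h2, Int.cast_zero]

theorem isInt_large {z : ℂ} (h : IsInt z) (h1 : z ≠ 0) : 1 ≤ ‖z‖ :=
  not_lt.1 fun h2 => h1 (isInt_small h h2)

theorem intTo_mul_Ez {L : ℕ} {r : ℂ⟦X⟧} (h : IntTo L r) (G : Polynomial ℤ) :
    IntTo L (Ez G * r) := by
  obtain ⟨H, hH⟩ := h
  refine ⟨G * H, ?_⟩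
  rw [map_mul, ← mul_sub]
  exact hH.mul_left _

theorem intTo_congr {L : ℕ} {r r' : ℂ⟦X⟧} (h : IntTo L r) (e : (X : ℂ⟦X⟧) ^ L ∣ r - r') :
    IntTo L r' := by
  obtain ⟨H, hH⟩ := h
  refine ⟨H, ?_⟩
  have := dvd_sub hH e
  rwa [sub_sub_sub_cancel_left] at this

end Pool.Agent.NEF
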