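import Pool.Agent.P.MP_66e591_ag.VA0
import Pool.Agent.P.MP_f644fa_ag.QA7

/-! Small binomial coefficients. -/

noncomputable section
namespace Pool.Agent.NEF
open Finset Pool.Agent.HCF

theorem bin_le {y : ℂ} {N : ℕ} (h : ‖y‖ ≤ N) (k : ℕ) : ‖bin y k‖ ≤ 2 ^ (N + k) := by
  have h1 : ∏ j ∈ range k, ‖y - j‖ ≤ ((k.factorial * (N + k).choose k : ℕ) : ℝ) := by
    rw [← qa7_asc, Nat.cast_prod]
    refine prod_le_prod (fun _ _ => norm_nonneg _) fun j _ => ?_
    refine (norm_sub_le _ _).trans ?_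
    rw [Complex.norm_natCast]
    push_cast
    linarith
  have hf : (0 : ℝ) < k.factorial := by exact_mod_cast Nat.factorial_pos _
  rw [qa7_norm, div_le_iff₀ hf]
  refine h1.trans ?_
  rw [mul_comm]
  exact_mod_cast Nat.mul_le_mul_right _ (Nat.choose_le_two_pow (N + k) k)

theorem va3_ratio {τ b e : ℕ} (h1 : τ ≤ b) (h2 : b ≤ e) :
    (τ + e).choose e * (2 * b).choose b ≤ (τ + b).choose b * (b + e).choose b := by
  induction e, h2 using Nat.le_induction with
  | base => rw [two_mul]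
  | succ e he ih =>
    have a1 := Nat.add_one_mul_choose_eq (τ + e) e
    have a2 := Nat.choose_mul_succ_eq (b + e) b
    rw [show b + e + 1 - b = e + 1 by omega] at a2
    refine Nat.le_of_mul_le_mul_right ?_ (Nat.succ_pos e)
    calc (τ + (e + 1)).choose (e + 1) * (2 * b).choose b * (e + 1)
        = ((τ + e + 1).choose (e + 1) * (e + 1)) * (2 * b).choose b := by
          rw [← add_assoc]; ring
      _ = (τ + e + 1) * ((τ + e).choose e * (2 * b).choose b) := by rw [← a1]; ring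
      _ ≤ (b + e + 1) * ((τ + b).choose b * (b + e).choose b) :=
          Nat.mul_le_mul (by omega) ih
      _ = (τ + b).choose b * ((b + e).choose b * (b + e + 1)) := by ring
      _ = (τ + b).choose b * (b + (e + 1)).choose b * (e + 1) := by
          rw [a2, ← add_assoc]; ring

theorem va3_five (τ b : ℕ) : (τ + b).choose b * 4 ^ b ≤ 5 ^ (τ + b) := by
  have h : (5 : ℕ) ^ (τ + b) = (4 + 1) ^ (τ + b) := by norm_num
  rw [h, add_pow]
  have hb : b ∈ range (τ + b + 1) := mem_range.2 (by omega)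
  refine le_trans (le_of_eq ?_) (single_le_sum
    (f := fun m => 4 ^ m * 1 ^ (τ + b - m) * ((τ + b).choose m : ℕ)) (fun _ _ => Nat.zero_le _) hb)
  simp [mul_comm]

theorem va3_nat {τ b e : ℕ} (h1 : τ ≤ b) (h2 : b ≤ e) :
    (τ + b).choose b * (τ + e).choose e * 64 ^ b ≤
      25 ^ τ * 25 ^ b * ((b + e + 1) * (b + e).choose b) := by
  have a1 := va3_ratio h1 h2
  have a2 : 4 ^ b ≤ (b + e + 1) * (2 * b).choose b :=
    (Nat.four_pow_le_two_mul_add_one_mul_central_binom b).trans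
      (Nat.mul_le_mul_right _ (by omega))
  have a3 := va3_five τ b
  have e1 : (64 : ℕ) ^ b = 4 ^ b * 4 ^ b * 4 ^ b := by
    rw [← mul_pow, ← mul_pow]; norm_num
  have e2 : (25 : ℕ) ^ τ * 25 ^ b = 5 ^ (τ + b) * 5 ^ (τ + b) := by
    rw [← pow_add, ← mul_pow]; norm_num
  rw [e1, e2]
  calc (τ + b).choose b * (τ + e).choose e * (4 ^ b * 4 ^ b * 4 ^ b)
      ≤ (τ + b).choose b * (τ + e).choose e *
          (4 ^ b * 4 ^ b * ((b + e + 1) * (2 * b).choose b)) :=
        Nat.mul_le_mul_left _ (Nat.mul_le_mul_left _ a2)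
    _ = (τ + b).choose b * (4 ^ b * 4 ^ b * (b + e + 1)) *
          ((τ + e).choose e * (2 * b).choose b) := by ring
    _ ≤ (τ + b).choose b * (4 ^ b * 4 ^ b * (b + e + 1)) *
          ((τ + b).choose b * (b + e).choose b) := Nat.mul_le_mul_left _ a1
    _ = ((τ + b).choose b * 4 ^ b) * ((τ + b).choose b * 4 ^ b) *
          ((b + e + 1) * (b + e).choose b) := by ring
    _ ≤ _ := Nat.mul_le_mul_right _ (Nat.mul_le_mul a3 a3)

theorem va3_real {τ b e B₀ : ℕ} (h1 : τ ≤ b) (h2 : b ≤ e) (h3 : B₀ ≤ b) :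
    (((τ + b).choose b * (τ + e).choose e : ℕ) : ℝ) ≤
      25 ^ τ * (25 / 64) ^ B₀ * (((b + e + 1) * (b + e).choose b : ℕ) : ℝ) := by
  have a1 : (((τ + b).choose b * (τ + e).choose e : ℕ) : ℝ) * 64 ^ b ≤
      25 ^ τ * 25 ^ b * (((b + e + 1) * (b + e).choose b : ℕ) : ℝ) := by
    exact_mod_cast va3_nat h1 h2
  have a2 : ((25 : ℝ) / 64) ^ b ≤ (25 / 64) ^ B₀ :=
    pow_le_pow_of_le_one (by norm_num) (by norm_num) h3
  have a3 : (0 : ℝ) < 64 ^ b := by positivity
  rw [← le_div_iff₀ a3] at a1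
  refine a1.trans ?_
  have e1 : (25 : ℝ) ^ τ * 25 ^ b * (((b + e + 1) * (b + e).choose b : ℕ) : ℝ) / 64 ^ b =
      25 ^ τ * (25 / 64) ^ b * (((b + e + 1) * (b + e).choose b : ℕ) : ℝ) := by
    rw [div_pow]; ring
  rw [e1]
  exact mul_le_mul_of_nonneg_right (mul_le_mul_of_nonneg_left a2 (by positivity))
    (Nat.cast_nonneg _)

theorem bin_mid {z : ℂ} {b e τ B₀ : ℕ} (h : ‖z - b‖ ≤ τ) (hτ : τ ≤ B₀) (hb : B₀ ≤ b)
    (he : B₀ ≤ e) : ‖bin z (b + e + 1)‖ ≤ τ * 25 ^ τ * (25 / 64) ^ B₀ := by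
  have h1 : ∏ j ∈ range b, ‖z - j‖ ≤ ((b.factorial * (τ + b).choose b : ℕ) : ℝ) := by
    rw [← qa7_asc, ← prod_range_reflect (fun i => τ + 1 + i) b, Nat.cast_prod]
    refine prod_le_prod (fun _ _ => norm_nonneg _) fun j hj => ?_
    have hj' := mem_range.1 hj
    refine (qa7_lo h hj'.le).trans (le_of_eq ?_)
    congr 1
    omega
  have h2 : ∏ i ∈ range (e + 1), ‖z - ((b + i : ℕ) : ℂ)‖ ≤
      ((e.factorial * (τ + e).choose e * τ : ℕ) : ℝ) := by
    have : ∏ i ∈ range (e + 1), (τ + i) = e.factorial * (τ + e).choose e * τ := by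
      rw [prod_range_succ', ← qa7_asc]
      congr 1
      exact prod_congr rfl fun i _ => by ring
    rw [← this, Nat.cast_prod]
    exact prod_le_prod (fun _ _ => norm_nonneg _) fun i _ => qa7_hi h i
  have h3 : ∏ j ∈ range (b + e + 1), ‖z - j‖ ≤
      ((b.factorial * (τ + b).choose b : ℕ) : ℝ) *
        ((e.factorial * (τ + e).choose e * τ : ℕ) : ℝ) := by
    rw [add_assoc, prod_range_add]
    exact mul_le_mul h1 h2 (prod_nonneg fun _ _ => norm_nonneg _) (Nat.cast_nonneg _)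
  have h4 : (((τ + b).choose b * (τ + e).choose e : ℕ) : ℝ) ≤
      25 ^ τ * (25 / 64) ^ B₀ * (((b + e + 1) * (b + e).choose b : ℕ) : ℝ) := by
    rcases le_total b e with hbe | hbe
    · exact va3_real (hτ.trans hb) hbe hb
    · have := va3_real (hτ.trans he) hbe he
      rwa [mul_comm ((τ + e).choose e), Nat.choose_symm_add (a := e), add_comm e b] at this
  have h5 : (b + e + 1).factorial =
      (b + e + 1) * (b + e).choose b * (b.factorial * e.factorial) := by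
    have := Nat.choose_mul_factorial_mul_factorial (Nat.le_add_right b e)
    rw [Nat.add_sub_cancel_left] at this
    rw [Nat.factorial_succ, ← this]; ring
  have hf : (0 : ℝ) < (b + e + 1).factorial := by exact_mod_cast Nat.factorial_pos _
  rw [qa7_norm, div_le_iff₀ hf]
  refine h3.trans ?_
  have h6 := mul_le_mul_of_nonneg_right h4
    (Nat.cast_nonneg (α := ℝ) (τ * (b.factorial * e.factorial)))
  rw [h5]
  push_cast at h6 ⊢
  refine le_trans (le_of_eq ?_) (h6.trans (le_of_eq ?_)) <;> ring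

theorem bin_small {c k : ℕ} (hc : 1 ≤ c) {z : ℂ} (hz : ‖z‖ ≤ 6 * c) (hk : 2 * (40 * c) ≤ k) :
    6 ^ c * ‖bin (z + (40 * c : ℕ)) k‖ < 1 := by
  obtain ⟨e, rfl⟩ : ∃ e, k = 40 * c + e + 1 := ⟨k - 40 * c - 1, by omega⟩
  have h1 : ‖z + ((40 * c : ℕ) : ℂ) - ((40 * c : ℕ) : ℂ)‖ ≤ ((6 * c : ℕ) : ℝ) := by
    rw [add_sub_cancel_right]
    push_cast
    exact hz
  have h2 := bin_mid (B₀ := 39 * c) (e := e) h1 (by omega) (by omega) (by omega)
  have h3 : ∀ n : ℕ, 6 * (n + 1) ≤ 6 ^ (n + 1) := by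
    intro n
    induction n with
    | zero => norm_num
    | succ n ih => rw [pow_succ]; omega
  have h4 : ((6 * c : ℕ) : ℝ) ≤ 6 ^ c := by
    obtain ⟨n, rfl⟩ : ∃ n, c = n + 1 := ⟨c - 1, by omega⟩
    exact_mod_cast h3 n
  have h5 : ((36 : ℝ) * 25 ^ 6 * (25 / 64) ^ 39) ^ c < 1 :=
    pow_lt_one₀ (by positivity) (by norm_num) (by omega)
  refine lt_of_le_of_lt ?_ h5
  calc (6 : ℝ) ^ c * ‖bin (z + ((40 * c : ℕ) : ℂ)) (40 * c + e + 1)‖
      ≤ 6 ^ c * (((6 * c : ℕ) : ℝ) * 25 ^ (6 * c) * (25 / 64) ^ (39 * c)) :=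
        mul_le_mul_of_nonneg_left h2 (by positivity)
    _ ≤ 6 ^ c * (6 ^ c * 25 ^ (6 * c) * (25 / 64) ^ (39 * c)) :=
        mul_le_mul_of_nonneg_left (mul_le_mul_of_nonneg_right
          (mul_le_mul_of_nonneg_right h4 (by positivity)) (by positivity)) (by positivity)
    _ = _ := by
        rw [mul_pow, mul_pow, ← pow_mul, ← pow_mul, show (36 : ℝ) = 6 * 6 by norm_num, mul_pow]
        ring

end Pool.Agent.NEF
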