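import Pool.Agent.P.MP_66e591_ag.VA1
import Pool.Agent.P.MP_66e591_ag.VA2
import Pool.Agent.P.MP_66e591_ag.VA3

/-! An exponential sum that is an integer polynomial to a high order is almost periodic. -/

noncomputable section
namespace Pool.Agent.NEF
open Finset PowerSeries Pool.Agent.HCF

theorem es_shift {a k : ℕ} (hk : k ≤ 2 * a) :
    ES (ex (-a) * (ex 1 - 1) ^ k) (fun w => Complex.exp (-a * w) * (Complex.exp w - 1) ^ k) a
      (2 ^ k) := by
  have hn : ∀ j ∈ range (k + 1), ‖((j : ℂ) - a)‖ ≤ (a : ℝ) := by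
    intro j hj
    have hj' : j ≤ 2 * a := (Nat.lt_succ_iff.1 (mem_range.1 hj)).trans hk
    have hj2 : (j : ℝ) ≤ 2 * a := by exact_mod_cast hj'
    have e : ((j : ℂ) - a) = (((j : ℝ) - a : ℝ) : ℂ) := by push_cast; rfl
    rw [e, Complex.norm_real, Real.norm_eq_abs, abs_le]
    constructor <;> linarith [(Nat.cast_nonneg j : (0 : ℝ) ≤ j)]
  have h2 := ES.sum (range (k + 1)) fun j hj =>
    (es_ex _ (hn j hj)).smul ((-1) ^ (j + k) * (k.choose j : ℂ))
  have e1 : ∑ j ∈ range (k + 1), C ((-1) ^ (j + k) * (k.choose j : ℂ)) * ex ((j : ℂ) - a) =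
      ex (-a) * (ex 1 - 1) ^ k := by
    rw [sub_pow, mul_sum]
    refine sum_congr rfl fun j _ => ?_
    rw [ex_pow, mul_one, one_pow, sub_eq_add_neg, ex_add, map_mul, map_pow, map_neg, map_one,
      map_natCast]
    ring
  have e2 : (fun w : ℂ => ∑ j ∈ range (k + 1),
      (-1) ^ (j + k) * (k.choose j : ℂ) * Complex.exp (((j : ℂ) - a) * w)) =
      fun w => Complex.exp (-a * w) * (Complex.exp w - 1) ^ k := by
    funext w
    rw [sub_pow, mul_sum]
    refine sum_congr rfl fun j _ => ?_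
    rw [← Complex.exp_nat_mul, one_pow, sub_mul, sub_eq_add_neg, Complex.exp_add, neg_mul]
    ring
  have e3 : ∑ j ∈ range (k + 1), ‖(-1 : ℂ) ^ (j + k) * (k.choose j : ℂ)‖ * 1 = (2 : ℝ) ^ k := by
    have h3 : ((∑ j ∈ range (k + 1), k.choose j : ℕ) : ℝ) = ((2 ^ k : ℕ) : ℝ) := by
      rw [Nat.sum_range_choose]
    push_cast at h3
    rw [← h3]
    refine sum_congr rfl fun j _ => ?_
    simp
  rw [e1, e2, e3] at h2
  exact h2

theorem tail_num {a L : ℕ} (ha : 1 ≤ a) (hL : 24 * a ≤ L) {r : ℝ} (h0 : 0 ≤ r) (hr : r ≤ 13 / 2) :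
    (a * r) ^ L / L.factorial ≤ (3 / 4) ^ L := by
  have ha' : (1 : ℝ) ≤ a := by exact_mod_cast ha
  have hL' : 24 * (a : ℝ) ≤ L := by exact_mod_cast hL
  have hL0 : (0 : ℝ) < L := by linarith
  have h1 : (L : ℝ) ^ L / L.factorial ≤ Real.exp 1 ^ L := by
    rw [← Real.exp_nat_mul, mul_one]
    exact Real.pow_div_factorial_le_exp _ hL0.le L
  have h2 : a * r / L * Real.exp 1 ≤ 3 / 4 := by
    rw [div_mul_eq_mul_div, div_le_iff₀ hL0]
    have h3 : r * Real.exp 1 ≤ 13 / 2 * (2.7182818286 : ℝ) :=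
      mul_le_mul hr Real.exp_one_lt_d9.le (Real.exp_pos 1).le (by norm_num)
    nlinarith
  have h4 : (0 : ℝ) ≤ a * r / L := by positivity
  calc (a * r) ^ L / (L.factorial : ℝ) = (a * r / L) ^ L * ((L : ℝ) ^ L / L.factorial) := by
        rw [div_pow]
        field_simp
    _ ≤ (a * r / L) ^ L * Real.exp 1 ^ L := by gcongr
    _ = (a * r / L * Real.exp 1) ^ L := by rw [mul_pow]
    _ ≤ (3 / 4) ^ L := by gcongr

theorem norm_add_per {w : ℂ} (hw : ‖w‖ ≤ 1 / 8) : ‖w + per‖ ≤ 13 / 2 := by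
  have h1 : ‖per‖ = 2 * Real.pi := by
    simp [per, abs_of_pos Real.pi_pos]
  have h2 := norm_add_le w per
  linarith [Real.pi_lt_d2]

theorem ES.period {f : ℂ⟦X⟧} {F : ℂ → ℂ} {T B : ℝ} (h : ES f F T B) {a L : ℕ} (ha : 1 ≤ a)
    (hT : T ≤ a) (hL : 24 * a ≤ L) (hI : IntTo L (ex a * f))
    (hs : ∀ z : ℂ, ‖z‖ ≤ T → ∀ k, 2 * a ≤ k → B * ‖bin (z + a) k‖ < 1) {w : ℂ}
    (hw : ‖w‖ ≤ 1 / 8) : ‖F (w + per) - F w‖ ≤ B * 2 ^ (6 * a + 3) * (3 / 4) ^ L := by
  have h0 := h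
  obtain ⟨ι, _, α, z, rfl, hF, hz, hB⟩ := h0
  have hB0 : 0 ≤ B := (sum_nonneg fun i _ => norm_nonneg _).trans hB
  have ha' : (1 : ℝ) ≤ a := by exact_mod_cast ha
  have hL' : 24 * (a : ℝ) ≤ L := by exact_mod_cast hL
  obtain ⟨μ, hμ⟩ : ∃ μ : ℕ → ℂ, ∀ k, μ k = ∑ i, α i * bin (z i + a) k := ⟨_, fun _ => rfl⟩
  have hle : ∀ (k : ℕ) (M : ℝ), 0 ≤ M → (∀ i, ‖bin (z i + a) k‖ ≤ M) → ‖μ k‖ ≤ B * M := by
    intro k M hM hi
    rw [hμ]
    calc ‖∑ i, α i * bin (z i + a) k‖ ≤ ∑ i, ‖α i‖ * M :=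
          (norm_sum_le _ _).trans (sum_le_sum fun i _ => by
            rw [norm_mul]
            exact mul_le_mul_of_nonneg_left (hi i) (norm_nonneg _))
      _ ≤ B * M := by
          rw [← sum_mul]
          exact mul_le_mul_of_nonneg_right hB hM
  have hI' : IntTo L (∑ i, C (α i) * ex (z i + a)) := by
    have e : ex a * ∑ i, C (α i) * ex (z i) = ∑ i, C (α i) * ex (z i + a) := by
      rw [mul_sum]
      refine sum_congr rfl fun i _ => ?_
      rw [ex_add]
      ring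
    rwa [e] at hI
  have hz0 : ∀ k, 2 * a ≤ k → k < L → μ k = 0 := by
    intro k hk hkL
    refine isInt_small (by rw [hμ]; exact intTo_bin hI' hkL) ?_
    rcases isEmpty_or_nonempty ι with hι | hι
    · rw [hμ, sum_of_isEmpty, norm_zero]
      exact one_pos
    · obtain ⟨i₀, -, hi₀⟩ := exists_max_image univ (fun i => ‖bin (z i + a) k‖) univ_nonempty
      exact (hle k _ (norm_nonneg _) fun i => hi₀ i (mem_univ i)).trans_lt
        (hs _ (hz i₀) k hk)
  have hm : ∀ k : ℕ, ‖μ k‖ ≤ B * 2 ^ (2 * a + k) := by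
    intro k
    refine hle k _ (by positivity) fun i => bin_le ?_ k
    have h1 := norm_add_le (z i) (a : ℂ)
    rw [Complex.norm_natCast] at h1
    push_cast
    linarith [hz i]
  have hG := ES.sum (range (2 * a)) fun k hk =>
    (es_shift (a := a) (mem_range.1 hk).le).smul (μ k)
  have hmass : ∑ k ∈ range (2 * a), ‖μ k‖ * 2 ^ k ≤ B * 2 ^ (6 * a) := by
    have h1 : ∑ k ∈ range (2 * a), (2 : ℝ) ^ k ≤ 2 ^ (2 * a) := by
      rw [geom_sum_eq (by norm_num)]
      norm_num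
    calc ∑ k ∈ range (2 * a), ‖μ k‖ * 2 ^ k ≤ ∑ k ∈ range (2 * a), B * 2 ^ (4 * a) * 2 ^ k := by
          refine sum_le_sum fun k hk => mul_le_mul_of_nonneg_right ((hm k).trans ?_) (by positivity)
          have := mem_range.1 hk
          exact mul_le_mul_of_nonneg_left (pow_le_pow_right₀ one_le_two (by omega)) hB0
      _ ≤ B * 2 ^ (4 * a) * 2 ^ (2 * a) := by
          rw [← mul_sum]
          exact mul_le_mul_of_nonneg_left h1 (by positivity)
      _ = B * 2 ^ (6 * a) := by ring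
  have hD := (h.mono hT le_rfl).sub (hG.mono le_rfl hmass)
  have hdvd : (X : ℂ⟦X⟧) ^ L ∣ ∑ i, C (α i) * ex (z i) -
      ∑ k ∈ range (2 * a), C (μ k) * (ex (-a) * (ex 1 - 1) ^ k) := by
    have e1 : ∑ k ∈ range (2 * a), C (μ k) * (ex (-a) * (ex 1 - 1) ^ k) =
        ∑ k ∈ range L, C (μ k) * (ex (-a) * (ex 1 - 1) ^ k) := by
      refine sum_subset (range_subset_range.2 (by omega)) fun k hk hk' => ?_
      rw [hz0 k (by simpa using hk') (mem_range.1 hk), map_zero, zero_mul]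
    have e2 : ∑ i, C (α i) * ex (z i) - ∑ k ∈ range L, C (μ k) * (ex (-a) * (ex 1 - 1) ^ k) =
        ∑ i, C (α i) * ex (-a) *
          (ex (z i + a) - ∑ k ∈ range L, C (bin (z i + a) k) * (ex 1 - 1) ^ k) := by
      have e3 : ∀ k, C (μ k) * (ex (-a) * (ex 1 - 1) ^ k) =
          ∑ i, C (α i) * ex (-a) * (C (bin (z i + a) k) * (ex 1 - 1) ^ k) := fun k => by
        rw [hμ, map_sum, sum_mul]
        refine sum_congr rfl fun i _ => ?_
        rw [map_mul]
        ring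
      rw [sum_congr rfl fun k _ => e3 k, sum_comm, ← sum_sub_distrib]
      refine sum_congr rfl fun i _ => ?_
      rw [mul_sub (C (α i) * ex (-a)), mul_sum, mul_assoc (C (α i)) (ex (-a)) (ex _), ← ex_add,
        neg_add_cancel_comm_assoc]
    rw [e1, e2]
    exact dvd_sum fun i _ => (ex_newton _ L).mul_left _
  have htail : ∀ v : ℂ, ‖v‖ ≤ 13 / 2 → ‖F v - ∑ k ∈ range (2 * a),
      μ k * (Complex.exp (-a * v) * (Complex.exp v - 1) ^ k)‖ ≤
        B * 2 ^ (6 * a + 2) * (3 / 4) ^ L := by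
    intro v hv
    have h1 := hD.tail (by linarith) hdvd (w := v) (by nlinarith [norm_nonneg v])
    have h2 := tail_num ha hL (norm_nonneg v) hv
    have h3 : (1 : ℝ) ≤ 2 ^ (6 * a) := one_le_pow₀ one_le_two
    refine h1.trans ?_
    calc (B + B * 2 ^ (6 * a)) * (2 * ((a * ‖v‖) ^ L / L.factorial))
        ≤ (B * 2 ^ (6 * a) + B * 2 ^ (6 * a)) * (2 * (3 / 4) ^ L) := by
          gcongr
          exact le_mul_of_one_le_right hB0 h3
      _ = B * 2 ^ (6 * a + 2) * (3 / 4) ^ L := by ring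
  have hp1 : Complex.exp (w + per) = Complex.exp w := Complex.exp_periodic w
  have hp2 : Complex.exp (-a * (w + per)) = Complex.exp (-a * w) := by
    have h1 := Complex.exp_nat_mul_two_pi_mul_I a
    rw [mul_add, Complex.exp_add, neg_mul (a : ℂ) per, Complex.exp_neg, per, h1, inv_one, mul_one]
  have t1 := htail (w + per) (norm_add_per hw)
  have t2 := htail w (by linarith)
  rw [hp1, hp2] at t1
  have t3 := norm_sub_le_of_le t1 t2
  rw [sub_sub_sub_cancel_right] at t3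
  refine t3.trans (le_of_eq ?_)
  ring

end Pool.Agent.NEF
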