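import Pool.Agent.P.MP_66e591_ag.VA2
import Pool.Agent.P.MP_f644fa_ag.QA4

/-! The denominators of the roots. -/

noncomputable section
namespace Pool.Agent.NEF
open Finset PowerSeries Pool.Agent.HCF

variable {c : ℕ} {d : Fin c → ℂ}

theorem esy_mem {R : Subring ℂ⟦X⟧} (h1 : ∀ k, esy d k ∈ R) (j : ℕ) :
    ∑ J ∈ powersetCard j (univ : Finset (Fin c)), ∏ i ∈ J, (1 - ex (d i)) ∈ R := by
  have hP : ∏ i, (Polynomial.X + Polynomial.C (-ex (d i))) ∈ Polynomial.lifts R.subtype := by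
    rw [Polynomial.lifts_iff_coeff_lifts]
    intro k
    rcases le_or_gt k c with hk | hk
    · rw [qa4_coeff _ hk, ls0_neg, ← ls0_esy]
      exact ⟨⟨_, mul_mem (pow_mem (neg_mem (one_mem R)) _) (h1 _)⟩, rfl⟩
    · rw [qa4_gt _ hk]
      exact ⟨0, rfl⟩
  obtain ⟨q, hq⟩ := (Polynomial.mem_lifts _).1 hP
  have hT : (Polynomial.taylor 1 q).map R.subtype =
      ∏ i, (Polynomial.X + Polynomial.C (1 - ex (d i))) := by
    rw [Polynomial.map_taylor, hq, map_one, qa4_taylor]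
    simp only [sub_eq_add_neg]
  rcases le_or_gt j c with hj | hj
  · have := congrArg (fun p => p.coeff (c - j)) hT
    simp only [Polynomial.coeff_map, Subring.subtype_apply] at this
    rw [qa4_coeff _ (Nat.sub_le c j), Nat.sub_sub_self hj] at this
    rw [← this]
    exact ((Polynomial.taylor 1 q).coeff (c - j)).2
  · rw [powersetCard_eq_empty.2 (by simpa using hj), sum_empty]
    exact zero_mem R

theorem chi_rat {L : ℕ} {h : Polynomial ℤ} {R : Subring ℂ⟦X⟧} (hR : Rng L h R)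
    (h1 : ∀ k, esy d k ∈ R) (hL : c < L) : ∃ χ : Polynomial ℤ, χ.map (Int.castRingHom ℂ) =
      Polynomial.C ((h.eval 1 : ℤ) : ℂ) * ∏ i, (Polynomial.X - Polynomial.C (d i)) := by
  choose u hu hu0 using fun i => one_sub_ex (d i)
  refine (Polynomial.mem_lifts _).1 ((Polynomial.lifts_iff_coeff_lifts _).2 fun k => ?_)
  rw [Polynomial.coeff_C_mul]
  simp only [sub_eq_add_neg, ← Polynomial.C_neg]
  rcases le_or_gt k c with hk | hk
  · have e1 : (∑ J ∈ powersetCard (c - k) (univ : Finset (Fin c)), ∏ i ∈ J, (1 - ex (d i))) * Ez h =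
        X ^ (c - k) * ((∑ J ∈ powersetCard (c - k) (univ : Finset (Fin c)), ∏ j ∈ J, u j) *
          Ez h) := by
      rw [← mul_assoc, mul_sum]
      congr 1
      refine sum_congr rfl fun J hJ => ?_
      simp only [hu]
      rw [prod_mul_distrib, prod_const, (mem_powersetCard.1 hJ).2]
    obtain ⟨a, ha⟩ := (hR.int _ (esy_mem h1 (c - k))).lead (e := c - k) (by omega) ⟨_, e1⟩
    refine ⟨a, ?_⟩
    rw [e1, qa3_coeff, map_mul, constantCoeff_Ez, map_sum] at ha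
    simp only [map_prod, hu0] at ha
    rw [qa4_coeff _ hk, mul_comm, ha]
    rfl
  · rw [qa4_gt _ hk, mul_zero]
    exact ⟨0, map_zero _⟩

theorem chi_low {χ : Polynomial ℤ} {D : ℂ} (hD : D ≠ 0) (hχ : χ.map (Int.castRingHom ℂ) =
      Polynomial.C D * ∏ i, (Polynomial.X - Polynomial.C (d i))) {J : Finset (Fin c)}
    (hJ : ∀ i, i ∈ J ↔ ¬ IsInt (d i)) (k : ℤ) : 1 ≤ ‖D‖ * ∏ i ∈ J, ‖(k : ℂ) - d i‖ := by
  classical
  have hm : ∀ i, ∃ m : ℤ, i ∉ J → d i = m := fun i => by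
    by_cases hi : i ∈ J
    · exact ⟨0, fun h => absurd hi h⟩
    · obtain ⟨m, hm⟩ := not_not.1 ((hJ i).not.1 hi)
      exact ⟨m, fun _ => hm⟩
  choose m hm using hm
  have hQ : (∏ i ∈ Jᶜ, (Polynomial.X - Polynomial.C (m i))).Monic :=
    Polynomial.monic_prod_of_monic _ _ fun i _ => Polynomial.monic_X_sub_C _
  have hQm : (∏ i ∈ Jᶜ, (Polynomial.X - Polynomial.C (m i))).map (Int.castRingHom ℂ) =
      ∏ i ∈ Jᶜ, (Polynomial.X - Polynomial.C (d i)) := by
    rw [Polynomial.map_prod]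
    refine prod_congr rfl fun i hi => ?_
    rw [Polynomial.map_sub, Polynomial.map_X, Polynomial.map_C, hm i (mem_compl.1 hi)]
    rfl
  have hχ' : χ.map (Int.castRingHom ℂ) = (∏ i ∈ Jᶜ, (Polynomial.X - Polynomial.C (d i))) *
      (Polynomial.C D * ∏ i ∈ J, (Polynomial.X - Polynomial.C (d i))) := by
    rw [hχ, ← prod_mul_prod_compl J]
    ring
  obtain ⟨χ', rfl⟩ := (Polynomial.map_dvd_map (y := χ) (Int.castRingHom ℂ) Int.cast_injective hQ).1
    (by rw [hQm]; exact ⟨_, hχ'⟩)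
  have hne : ∏ i ∈ Jᶜ, (Polynomial.X - Polynomial.C (d i)) ≠ 0 :=
    (Polynomial.monic_prod_of_monic _ _ fun i _ => Polynomial.monic_X_sub_C _).ne_zero
  rw [Polynomial.map_mul, hQm] at hχ'
  have e := congrArg (Polynomial.eval (k : ℂ)) (mul_left_cancel₀ hne hχ')
  rw [Polynomial.eval_intCast_map, Polynomial.eval_mul, Polynomial.eval_C,
    Polynomial.eval_prod] at e
  simp only [Polynomial.eval_sub, Polynomial.eval_X, Polynomial.eval_C] at e
  have h2 : D * ∏ i ∈ J, ((k : ℂ) - d i) ≠ 0 :=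
    mul_ne_zero hD (prod_ne_zero_iff.2 fun i hi h0 =>
      (hJ i).1 hi ⟨k, (sub_eq_zero.1 h0).symm⟩)
  have h3 := isInt_large ⟨_, e.symm⟩ h2
  rwa [norm_mul, norm_prod] at h3

theorem va5_vg (x : Fin c → ℂ) (J : Finset (Fin c)) :
    vg x J = ex (-1) ^ J.card * ∏ i ∈ J, (1 - ex (x i + 1)) := by
  rw [vg, ← prod_const, ← prod_mul_distrib]
  refine prod_congr rfl fun i _ => ?_
  rw [mul_sub, mul_one, ← ex_add]
  congr 2
  ring

theorem va5_ex (a b : ℕ) : ex ((a + b : ℕ) : ℂ) * ex (-1) ^ b = ex a := by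
  rw [ex_pow, ← ex_add]
  congr 1
  push_cast
  ring

theorem intTo_vg {n a : ℕ} {x : Fin c → ℂ} {h : Polynomial ℤ} (A : Ari c n (fun i => x i + 1) h)
    (ha : c ≤ a) : IntTo (n + 1 - c) (ex a * vg x univ) := by
  obtain ⟨a', rfl⟩ := Nat.exists_eq_add_of_le' ha
  refine ⟨Polynomial.X ^ a' * h * (1 - Polynomial.X) ^ c, ?_⟩
  rw [va5_vg, card_univ, Fintype.card_fin, ← mul_assoc, va5_ex, map_mul, map_mul, Ez_X_pow,
    map_pow, map_sub, map_one, Ez_X]
  obtain ⟨w, hw⟩ := A.rel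
  refine ⟨-(ex a' * w), ?_⟩
  linear_combination (-ex a') * hw

theorem intTo_vp {n a j : ℕ} {x : Fin c → ℂ} {h : Polynomial ℤ} {R : Subring ℂ⟦X⟧}
    (A : Ari c n (fun i => x i + 1) h) (hR : Rng (n + 1 - c) h R)
    (h1 : ∀ k, esy (fun i => x i + 1) k ∈ R) (ha : j + c ≤ a) :
    IntTo (n + 1 - c) (ex a * (vp x j * vg x univ)) := by
  obtain ⟨a', rfl⟩ := Nat.exists_eq_add_of_le' ha
  have e1 : vp x j = ex (-1) ^ j *
      ∑ J ∈ powersetCard j (univ : Finset (Fin c)), ∏ i ∈ J, (1 - ex (x i + 1)) := by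
    rw [vp, mul_sum]
    exact sum_congr rfl fun J hJ => by rw [va5_vg, (mem_powersetCard.1 hJ).2]
  have hr := esy_mem h1 j
  rw [e1, va5_vg, card_univ, Fintype.card_fin]
  generalize ∑ J ∈ powersetCard j (univ : Finset (Fin c)), ∏ i ∈ J, (1 - ex (x i + 1)) = r at hr ⊢
  refine intTo_congr (intTo_mul_Ez (hR.int r hr)
    (Polynomial.X ^ a' * (1 - Polynomial.X) ^ c)) ?_
  rw [map_mul, Ez_X_pow, map_pow, map_sub, map_one, Ez_X]
  obtain ⟨w, hw⟩ := A.rel
  have e2 := va5_ex a' (j + c)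
  rw [pow_add] at e2
  refine ⟨ex a' * r * w, ?_⟩
  linear_combination (ex a' * r) * hw - (r * ∏ i, (1 - ex (x i + 1))) * e2

end Pool.Agent.NEF
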