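import Pool.Agent.P.MP_66e591_ag.VA0

/-! Lower bounds for exponentials. -/

noncomputable section
namespace Pool.Agent.NEF
open Finset Pool.Agent.HCF

theorem va6_real {s y ρ c : ℝ} (h1 : |s| ≤ 1 / 2) (h2 : |y| ≤ 3)
    (hρ : ρ = Real.exp (-(2 * Real.pi * y))) (hc : c ≤ 1 - 8 * s ^ 2) :
    s ^ 2 + y ^ 2 ≤ 64 * (1 - 2 * ρ * c + ρ ^ 2) := by
  have hp : 0 < ρ := hρ ▸ Real.exp_pos _
  have hpi := Real.pi_gt_three
  have e1 : (1 - ρ) ^ 2 + 16 * ρ * s ^ 2 ≤ 1 - 2 * ρ * c + ρ ^ 2 := by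
    nlinarith [mul_le_mul_of_nonneg_left hc hp.le]
  have hs : s ^ 2 ≤ 1 / 4 := by
    have := abs_le.1 h1
    nlinarith [this.1, this.2]
  have hy := abs_le.1 h2
  have hs0 := sq_nonneg s
  rcases le_or_gt y 0 with hy0 | hy0
  · have e2 : 1 - 6 * y ≤ ρ := by
      have := Real.add_one_le_exp (-(2 * Real.pi * y))
      rw [← hρ] at this
      nlinarith
    have e3 : 36 * y ^ 2 ≤ (1 - ρ) ^ 2 := by nlinarith
    have e4 : 16 * s ^ 2 ≤ 16 * ρ * s ^ 2 := by nlinarith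
    nlinarith [sq_nonneg y]
  · have e2 : ρ * (1 + 6 * y) ≤ 1 := by
      have h3 := Real.add_one_le_exp (2 * Real.pi * y)
      have h4 : ρ * Real.exp (2 * Real.pi * y) = 1 := by
        rw [hρ, ← Real.exp_add]; simp
      have h5 : 1 + 6 * y ≤ Real.exp (2 * Real.pi * y) := by nlinarith
      nlinarith [mul_le_mul_of_nonneg_left h5 hp.le]
    have hρ1 : ρ ≤ 1 := by nlinarith
    have e3 : 6 * y ≤ 19 * (1 - ρ) := by nlinarith
    have e4 : y ^ 2 ≤ 64 * (1 - ρ) ^ 2 := by nlinarith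
    rcases le_or_gt (1 / 1024) ρ with h | h
    · nlinarith
    · have e5 : 63 ≤ 64 * (1 - ρ) ^ 2 := by nlinarith
      have e6 : 0 ≤ ρ * s ^ 2 := by positivity
      nlinarith

theorem exp_near {η : ℂ} (h1 : |η.re| ≤ 1 / 2) (h2 : |η.im| ≤ 3) :
    ‖η‖ ≤ 8 * ‖1 - Complex.exp (η * per)‖ := by
  have hre : (η * per).re = -(2 * Real.pi * η.im) := by simp [per]; ring
  have him : (η * per).im = 2 * Real.pi * η.re := by simp [per]; ring
  have hpi := Real.pi_pos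
  have hθ : |2 * Real.pi * η.re| ≤ Real.pi := by
    rw [abs_mul, abs_of_pos (by positivity : 0 < 2 * Real.pi)]
    nlinarith
  have hc : Real.cos (2 * Real.pi * η.re) ≤ 1 - 8 * η.re ^ 2 := by
    refine (Real.cos_le_one_sub_mul_cos_sq hθ).trans (le_of_eq ?_)
    field_simp
    ring
  have key := va6_real h1 h2 rfl hc
  have e1 : ‖1 - Complex.exp (η * per)‖ ^ 2 =
      1 - 2 * Real.exp (-(2 * Real.pi * η.im)) * Real.cos (2 * Real.pi * η.re) +
        Real.exp (-(2 * Real.pi * η.im)) ^ 2 := by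
    rw [Complex.sq_norm, Complex.normSq_apply, Complex.sub_re, Complex.sub_im, Complex.exp_re,
      Complex.exp_im, hre, him, Complex.one_re, Complex.one_im]
    nlinarith [Real.sin_sq_add_cos_sq (2 * Real.pi * η.re)]
  have e2 : ‖η‖ ^ 2 = η.re ^ 2 + η.im ^ 2 := by
    rw [Complex.sq_norm, Complex.normSq_apply]; ring
  refine abs_le_of_sq_le_sq' ?_ (by positivity) |>.2
  rw [mul_pow, e1, e2]
  linarith

theorem exp_int {x : ℂ} (h : IsInt x) : Complex.exp (x * per) = 1 := by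
  obtain ⟨m, rfl⟩ := h
  exact Complex.exp_int_mul_two_pi_mul_I m

theorem prod_near {x : ℂ} (hx : ‖x‖ ≤ 3) :
    ∏ k ∈ range 7, ‖(((k : ℤ) - 2 : ℤ) : ℂ) - (x + 1)‖ ≤ 2 ^ 19 * ‖1 - Complex.exp (x * per)‖ := by
  have hre : |x.re| ≤ 3 := (Complex.abs_re_le_norm x).trans hx
  have him : |x.im| ≤ 3 := (Complex.abs_im_le_norm x).trans hx
  obtain ⟨m, hm⟩ : ∃ m : ℤ, |x.re - m| ≤ 1 / 2 := ⟨round x.re, abs_sub_round _⟩
  have hm1 : -4 < m := by
    have := abs_le.1 hm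
    have := abs_le.1 hre
    have : (-4 : ℝ) < m := by linarith
    exact_mod_cast this
  have hm2 : m < 4 := by
    have := abs_le.1 hm
    have := abs_le.1 hre
    have : (m : ℝ) < 4 := by linarith
    exact_mod_cast this
  obtain ⟨k, hk⟩ : ∃ k : ℕ, (k : ℤ) = m + 3 := ⟨(m + 3).toNat, Int.toNat_of_nonneg (by omega)⟩
  have hk7 : k ∈ range 7 := mem_range.2 (by omega)
  have e1 : Complex.exp (x * per) = Complex.exp ((x - m) * per) := by
    rw [sub_mul, Complex.exp_sub, exp_int (x := (m : ℂ)) ⟨m, rfl⟩, div_one]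
  have e2 := exp_near (η := x - m) (by simpa using hm) (by simpa using him)
  rw [← e1] at e2
  rw [← mul_prod_erase _ _ hk7]
  have e3 : ‖(((k : ℤ) - 2 : ℤ) : ℂ) - (x + 1)‖ = ‖x - m‖ := by
    rw [hk, ← norm_neg]
    congr 1
    push_cast
    ring
  have e4 : ∏ j ∈ (range 7).erase k, ‖(((j : ℤ) - 2 : ℤ) : ℂ) - (x + 1)‖ ≤ 6 ^ 6 := by
    have h6 : ∀ j ∈ (range 7).erase k, ‖(((j : ℤ) - 2 : ℤ) : ℂ) - (x + 1)‖ ≤ 6 := by
      intro j hj
      have hj7 := mem_range.1 (mem_of_mem_erase hj)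
      have e : (((j : ℤ) - 2 : ℤ) : ℂ) - (x + 1) = (((j : ℤ) - 3 : ℤ) : ℂ) - x := by
        push_cast; ring
      rw [e]
      refine (norm_sub_le _ _).trans ?_
      rw [Complex.norm_intCast]
      have : |((j : ℤ) - 3 : ℤ)| ≤ 3 := abs_le.2 ⟨by omega, by omega⟩
      have : |(((j : ℤ) - 3 : ℤ) : ℝ)| ≤ 3 := by exact_mod_cast this
      linarith
    refine (prod_le_prod (fun j _ => norm_nonneg _) h6).trans (le_of_eq ?_)
    rw [prod_const, card_erase_of_mem hk7, card_range]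
  rw [e3]
  have h0 := norm_nonneg (1 - Complex.exp (x * per))
  calc _ ≤ (8 * ‖1 - Complex.exp (x * per)‖) * 6 ^ 6 :=
        mul_le_mul e2 e4 (prod_nonneg fun j _ => norm_nonneg _) (by positivity)
    _ ≤ _ := by nlinarith

theorem va6_fac {x w : ℂ} (hx : ‖x‖ ≤ 3) (hw : ‖w‖ = 1 / 8) :
    ‖x + 1‖ ≤ 32 * ‖Complex.exp (-w) - Complex.exp (x * w)‖ := by
  have e1 : Complex.exp (-w) - Complex.exp (x * w) =
      -(Complex.exp (-w) * (Complex.exp ((x + 1) * w) - 1)) := by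
    rw [mul_sub, ← Complex.exp_add]
    ring_nf
  have h4 : ‖x + 1‖ ≤ 4 := by
    have := norm_add_le x 1
    rw [norm_one] at this
    linarith
  have hz : ‖(x + 1) * w‖ = ‖x + 1‖ / 8 := by rw [norm_mul, hw]; ring
  have h0 := norm_nonneg (x + 1)
  have e2 := Complex.norm_exp_sub_one_sub_id_le (x := (x + 1) * w) (by rw [hz]; linarith)
  have e3 : ‖(x + 1) * w‖ ≤ ‖Complex.exp ((x + 1) * w) - 1‖ +
      ‖Complex.exp ((x + 1) * w) - 1 - (x + 1) * w‖ := by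
    refine le_trans (le_of_eq ?_) (norm_sub_le _ _)
    congr 1
    ring
  rw [hz] at e2 e3
  have e4 : ‖x + 1‖ / 16 ≤ ‖Complex.exp ((x + 1) * w) - 1‖ := by nlinarith
  have e5 : 7 / 8 ≤ ‖Complex.exp (-w)‖ := by
    rw [Complex.norm_exp]
    have := Real.add_one_le_exp (-w).re
    have h1 := abs_le.1 ((Complex.abs_re_le_norm (-w)).trans (le_of_eq ((norm_neg w).trans hw)))
    linarith [h1.1]
  rw [e1, norm_neg, norm_mul]
  nlinarith [mul_le_mul e5 e4 (by positivity) (norm_nonneg _)]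

theorem vG_lower {c : ℕ} {x : Fin c → ℂ} (hx : ∀ i, ‖x i‖ ≤ 3) {w : ℂ} (hw : ‖w‖ = 1 / 8) :
    ‖∏ i, (x i + 1)‖ ≤ 32 ^ c * ‖vG x univ w‖ := by
  rw [vG, norm_prod, norm_prod]
  refine (prod_le_prod (fun i _ => norm_nonneg _) fun i _ => va6_fac (hx i) hw).trans (le_of_eq ?_)
  rw [prod_mul_distrib, prod_const, card_univ, Fintype.card_fin]

end Pool.Agent.NEF
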