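import Pool.Agent.P.MP_66e591_ag.VA4
import Pool.Agent.P.MP_66e591_ag.VA6

/-! The maximum principle. -/

noncomputable section
namespace Pool.Agent.NEF
open Finset Pool.Agent.HCF

variable {c : ℕ} {x : Fin c → ℂ}

theorem vP_zero {j : ℕ} (hj : 1 ≤ j) : vP x j 0 = 0 := by
  unfold vP
  refine Finset.sum_eq_zero fun J hJ => ?_
  have hc : J.card = j := (Finset.mem_powersetCard.1 hJ).2
  obtain ⟨i, hi⟩ : J.Nonempty := Finset.card_pos.1 (by omega)
  unfold vG
  exact Finset.prod_eq_zero hi (by simp)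

theorem va7_exp_neg_per : Complex.exp (-per) = 1 := by
  have h := exp_int (x := (-1 : ℂ)) ⟨-1, by simp⟩
  rwa [neg_one_mul] at h

theorem vP_per {J : Finset (Fin c)} (hJ : ∀ i, i ∉ J → IsInt (x i)) :
    vP x J.card per = ∏ i ∈ J, (1 - Complex.exp (x i * per)) := by
  unfold vP
  rw [Finset.sum_eq_single J]
  · unfold vG
    rw [va7_exp_neg_per]
  · intro J' hJ' hne
    have hc : J'.card = J.card := (Finset.mem_powersetCard.1 hJ').2
    have hns : ¬ J' ⊆ J := fun h => hne (Finset.eq_of_subset_of_card_le h hc.ge)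
    obtain ⟨i, hi, hi'⟩ := Finset.not_subset.1 hns
    unfold vG
    refine Finset.prod_eq_zero hi ?_
    rw [va7_exp_neg_per, exp_int (hJ i hi'), sub_self]
  · intro h
    exact absurd (Finset.mem_powersetCard.2 ⟨Finset.subset_univ _, rfl⟩) h

theorem va7_diff (j : ℕ) : Differentiable ℂ (vP x j) := by
  unfold vP vG
  fun_prop

theorem va7_bound (hx : ∀ i, ‖x i‖ ≤ 3) (j : ℕ) {w : ℂ} (hw : ‖w‖ ≤ 13 / 2) :
    ‖vP x j w‖ ≤ 2 ^ (34 * c) := by
  have h := (es_vp hx j).norm_le w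
  have hc : (0 : ℝ) ≤ c := Nat.cast_nonneg c
  have h1 : 3 * (c : ℝ) * ‖w‖ ≤ ((20 * c : ℕ) : ℝ) * 1 := by
    push_cast
    nlinarith
  have h2 : Real.exp (3 * (c : ℝ) * ‖w‖) ≤ 3 ^ (20 * c) := by
    refine (Real.exp_le_exp.2 h1).trans ?_
    rw [Real.exp_nat_mul]
    refine pow_le_pow_left₀ (Real.exp_pos 1).le ?_ _
    have := Real.exp_one_lt_d9
    linarith
  calc ‖vP x j w‖ ≤ 3 ^ c * Real.exp (3 * (c : ℝ) * ‖w‖) := h
    _ ≤ 3 ^ c * 3 ^ (20 * c) := by gcongr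
    _ = (3 * 3 ^ 20) ^ c := by rw [mul_pow, ← pow_mul]
    _ ≤ (2 ^ 34) ^ c := pow_le_pow_left₀ (by norm_num) (by norm_num) _
    _ = 2 ^ (34 * c) := by rw [← pow_mul]

theorem vP_small (hx : ∀ i, ‖x i‖ ≤ 3) (hD : 1 ≤ ‖∏ i, (x i + 1)‖) {j : ℕ} {ε : ℝ}
    (h0 : ∀ w, ‖w‖ ≤ 1 / 8 → ‖vG x univ (w + per) - vG x univ w‖ ≤ ε)
    (h1 : ∀ w, ‖w‖ ≤ 1 / 8 →
      ‖vP x j (w + per) * vG x univ (w + per) - vP x j w * vG x univ w‖ ≤ ε) :
    ‖vP x j per - vP x j 0‖ ≤ ε * 2 ^ (39 * c + 1) := by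
  have hε : 0 ≤ ε := (norm_nonneg _).trans (h0 0 (by simp))
  have hd : Differentiable ℂ (fun w => vP x j (w + per) - vP x j w) :=
    ((va7_diff j).comp (differentiable_id.add_const per)).sub (va7_diff j)
  have key : ∀ w ∈ frontier (Metric.ball (0 : ℂ) (1 / 8)),
      ‖vP x j (w + per) - vP x j w‖ ≤ ε * 2 ^ (39 * c + 1) := by
    intro w hw
    rw [frontier_ball _ (by norm_num), mem_sphere_zero_iff_norm] at hw
    have hG : 1 ≤ 32 ^ c * ‖vG x univ w‖ := hD.trans (vG_lower hx hw)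
    have hP := va7_bound hx j (norm_add_per hw.le)
    have he : (vP x j (w + per) - vP x j w) * vG x univ w =
        (vP x j (w + per) * vG x univ (w + per) - vP x j w * vG x univ w) -
          vP x j (w + per) * (vG x univ (w + per) - vG x univ w) := by ring
    have h2 : ‖vP x j (w + per) - vP x j w‖ * ‖vG x univ w‖ ≤ ε + 2 ^ (34 * c) * ε := by
      rw [← norm_mul, he]
      refine (norm_sub_le _ _).trans (add_le_add (h1 w hw.le) ?_)
      rw [norm_mul]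
      exact mul_le_mul hP (h0 w hw.le) (norm_nonneg _) (by positivity)
    have h3 : (1 : ℝ) ≤ 2 ^ (34 * c) := one_le_pow₀ (by norm_num)
    have h4 : (32 : ℝ) ^ c * (2 * 2 ^ (34 * c)) = 2 ^ (39 * c + 1) := by
      rw [show (32 : ℝ) = 2 ^ 5 by norm_num, ← pow_mul]
      ring
    calc ‖vP x j (w + per) - vP x j w‖
        ≤ ‖vP x j (w + per) - vP x j w‖ * (32 ^ c * ‖vG x univ w‖) :=
          le_mul_of_one_le_right (norm_nonneg _) hG
      _ = 32 ^ c * (‖vP x j (w + per) - vP x j w‖ * ‖vG x univ w‖) := by ring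
      _ ≤ 32 ^ c * (ε + 2 ^ (34 * c) * ε) := by gcongr
      _ ≤ 32 ^ c * (2 ^ (34 * c) * ε + 2 ^ (34 * c) * ε) := by
          gcongr
          exact le_mul_of_one_le_left hε h3
      _ = ε * (32 ^ c * (2 * 2 ^ (34 * c))) := by ring
      _ = ε * 2 ^ (39 * c + 1) := by rw [h4]
  have h := Complex.norm_le_of_forall_mem_frontier_norm_le (U := Metric.ball (0 : ℂ) (1 / 8))
    Metric.isBounded_ball hd.diffContOnCl key (z := 0)
    (subset_closure (Metric.mem_ball_self (by norm_num)))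
  simpa using h

end Pool.Agent.NEF
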