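import Pool.Agent.P.MP_66e591_ag.VA5
import Pool.Agent.P.MP_66e591_ag.VA7
import Pool.Agent.P.MP_f644fa_ag.QA12

/-! Bounded roots are integers. -/

noncomputable section
namespace Pool.Agent.NEF
open Finset Pool.Agent.HCF

variable {c n : ℕ} {x : Fin c → ℂ} {h : Polynomial ℤ} {R : Subring (PowerSeries ℂ)}

theorem va8_num {c L : ℕ} (hc : 1 ≤ c) (hL : 960 * c ≤ L) :
    (6 : ℝ) ^ c * 2 ^ (6 * (40 * c) + 3) * (3 / 4) ^ L * 2 ^ (39 * c + 1) *
      ((4 ^ c) ^ 7 * (2 ^ 19) ^ c) < 1 := by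
  have h1 : (3 / 4 : ℝ) ^ L ≤ ((1 / 2) ^ 384) ^ c := by
    refine (pow_le_pow_of_le_one (by norm_num) (by norm_num) hL).trans ?_
    rw [pow_mul, show 960 = 5 * 192 from rfl, show 384 = 2 * 192 from rfl, pow_mul, pow_mul]
    gcongr
    norm_num
  have h2 : (6 : ℝ) ^ c ≤ (2 ^ 3) ^ c := by
    gcongr
    norm_num
  have h3 : (2 : ℝ) ^ (6 * (40 * c) + 3) ≤ (2 ^ 243) ^ c := by
    rw [← pow_mul]
    exact pow_le_pow_right₀ one_le_two (by omega)
  have h4 : (2 : ℝ) ^ (39 * c + 1) ≤ (2 ^ 40) ^ c := by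
    rw [← pow_mul]
    exact pow_le_pow_right₀ one_le_two (by omega)
  have h5 : ((4 : ℝ) ^ c) ^ 7 = (2 ^ 14) ^ c := by
    rw [← pow_mul, mul_comm, pow_mul]
    norm_num
  rw [h5]
  calc _ ≤ ((2 : ℝ) ^ 3) ^ c * (2 ^ 243) ^ c * ((1 / 2) ^ 384) ^ c * (2 ^ 40) ^ c *
        ((2 ^ 14) ^ c * (2 ^ 19) ^ c) := by gcongr
    _ = ((1 / 2) ^ 65) ^ c := by
      simp only [← mul_pow]
      refine congrArg (· ^ c) ?_
      rw [show 384 = 319 + 65 from rfl, pow_add (1 / 2 : ℝ), one_div_pow (2 : ℝ) 319,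
        show (2 : ℝ) ^ 319 = 2 ^ 3 * 2 ^ 243 * 2 ^ 40 * (2 ^ 14 * 2 ^ 19) by
          simp only [← pow_add]]
      field_simp
    _ < 1 := pow_lt_one₀ (by positivity) (pow_lt_one₀ (by norm_num) (by norm_num) (by norm_num))
      (by omega)

theorem va8_D (A : Ari c n (fun i => x i + 1) h) (hx : ∀ i, ‖x i‖ ≤ 3) (hn : 2 * c ≤ n) :
    ‖((h.eval 1 : ℤ) : ℂ)‖ ≤ 4 ^ c := by
  rw [← A.prod hn, norm_prod]
  refine (prod_le_prod (g := fun _ => 4) (fun _ _ => norm_nonneg _) fun i _ => ?_).trans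
    (by rw [prod_const, card_univ, Fintype.card_fin])
  refine (norm_add_le _ _).trans ?_
  rw [norm_one]
  linarith [hx i]

theorem roots_int (A : Ari c n (fun i => x i + 1) h) (hR : Rng (n + 1 - c) h R)
    (hd : ∀ k, esy (fun i => x i + 1) k ∈ R) (hx : ∀ i, ‖x i‖ ≤ 3) (hc : 1 ≤ c)
    (hn : 1000 * c ≤ n) (i₀ : Fin c) : IsInt (x i₀ + 1) := by
  classical
  by_contra hi₀
  obtain ⟨J, hJ⟩ : ∃ J : Finset (Fin c), ∀ i, i ∈ J ↔ ¬ IsInt (x i + 1) :=
    ⟨univ.filter fun i => ¬ IsInt (x i + 1), fun i => by simp⟩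
  have hj : 1 ≤ J.card := card_pos.2 ⟨i₀, (hJ i₀).2 hi₀⟩
  have hj' : J.card ≤ c := by simpa using card_le_univ J
  have hD0 : ((h.eval 1 : ℤ) : ℂ) ≠ 0 := Int.cast_ne_zero.2 A.pos.ne'
  have hD1 : 1 ≤ ‖∏ i, (x i + 1)‖ := by
    rw [A.prod (by omega)]
    exact isInt_large (isInt_int _) hD0
  have c0 : (0 : ℝ) ≤ c := Nat.cast_nonneg c
  have hT : (6 : ℝ) * c ≤ (40 * c : ℕ) := by
    push_cast
    linarith
  have e0 : ES (vg x univ) (vG x univ) (6 * c) (6 ^ c) := (es_vg hx univ).mono (by linarith) (by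
    rw [card_univ, Fintype.card_fin]
    gcongr
    norm_num)
  have e1 : ES (vp x J.card * vg x univ) (fun w => vP x J.card w * vG x univ w) (6 * c) (6 ^ c) :=
    ((es_vp hx J.card).mul (es_vg hx univ)).mono (by linarith) (by
      rw [card_univ, Fintype.card_fin, ← mul_pow]
      norm_num)
  have h1 := vP_small hx hD1 (j := J.card)
    (fun w hw => e0.period (by omega) hT (by omega) (intTo_vg A (by omega))
      (fun z hz k hk => bin_small hc hz hk) hw)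
    (fun w hw => e1.period (by omega) hT (by omega) (intTo_vp A hR hd (by omega))
      (fun z hz k hk => bin_small hc hz hk) hw)
  rw [vP_zero hj, sub_zero, vP_per fun i hi => by
    simpa using (not_not.1 fun k => hi ((hJ i).2 k)).sub (isInt_int 1), norm_prod] at h1
  obtain ⟨χ, hχ⟩ := chi_rat hR hd (by omega)
  have h2 : (1 : ℝ) ≤ (4 ^ c) ^ 7 * ((2 ^ 19) ^ c * ∏ i ∈ J, ‖1 - Complex.exp (x i * per)‖) := by
    have a1 : (1 : ℝ) ≤ ∏ k ∈ range 7, (4 ^ c * ∏ i ∈ J, ‖(((k : ℤ) - 2 : ℤ) : ℂ) - (x i + 1)‖) :=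
      (prod_const_one (s := range 7)).symm.le.trans (prod_le_prod (fun _ _ => zero_le_one)
        fun k _ => (chi_low hD0 hχ hJ ((k : ℤ) - 2)).trans (mul_le_mul_of_nonneg_right
          (va8_D A hx (by omega)) (prod_nonneg fun _ _ => norm_nonneg _)))
    rw [prod_mul_distrib, prod_const, card_range, prod_comm] at a1
    refine a1.trans (mul_le_mul_of_nonneg_left ?_ (by positivity))
    refine (prod_le_prod (fun _ _ => prod_nonneg fun _ _ => norm_nonneg _)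
      fun i _ => prod_near (hx i)).trans ?_
    rw [prod_mul_distrib, prod_const]
    exact mul_le_mul_of_nonneg_right (pow_le_pow_right₀ (by norm_num) hj')
      (prod_nonneg fun _ _ => norm_nonneg _)
  have h3 := va8_num (L := n + 1 - c) hc (by omega)
  rw [← mul_assoc, mul_comm] at h2
  exact absurd (h2.trans (mul_le_mul_of_nonneg_right h1 (by positivity))) (not_le.2 h3)

theorem arith_lin (A : Ari c n (fun i => x i + 1) h) (hR : Rng (n + 1 - c) h R)
    (hd : ∀ k, esy (fun i => x i + 1) k ∈ R) (hx : ∀ i, ‖x i‖ ≤ 3) (hc : 1 ≤ c)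
    (hn : 1000 * c ≤ n) : ∃ β : Fin c → ℕ, (∀ i, x i + 1 = β i + 1) ∧ ∑ i, β i ≤ n ∧
      h * (1 - Polynomial.X) ^ c = ∏ i, (1 - Polynomial.X ^ (β i + 1)) := by
  have h4 : ∀ i, ‖x i + 1‖ ≤ 4 := fun i => by
    refine (norm_add_le _ _).trans ?_
    rw [norm_one]
    linarith [hx i]
  have hs : ∀ f : Fin c → ℝ, (∀ i, f i ≤ 4) → ∑ i, f i ≤ ((4 * c : ℕ) : ℝ) := fun f hf => by
    refine (sum_le_sum fun i _ => hf i).trans ?_
    simp [mul_comm]
  have hre : ∀ i, |(x i + 1).re| ≤ 4 := fun i => (Complex.abs_re_le_norm _).trans (h4 i)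
  have c0 : (0 : ℝ) ≤ (4 * c : ℕ) := Nat.cast_nonneg _
  refine A.exact (η := 4 * c) (θ := 5 * c) (j₀ := 2 * c + 1) ⟨?_, ?_, ?_⟩ (by omega) (by omega) ?_
    (by omega) (roots_int A hR hd hx hc hn)
  · exact (hs _ fun i => max_le (abs_le.1 (hre i)).2 (by norm_num)).trans
      (le_add_of_nonneg_left (Nat.cast_nonneg n))
  · exact hs _ fun i => max_le (neg_le.1 (abs_le.1 (hre i)).1) (by norm_num)
  · exact (hs _ fun i => (Complex.abs_im_le_norm _).trans (h4 i)).trans (by linarith)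
  · have h1 := va8_D A hx (by omega)
    rw [Complex.norm_intCast] at h1
    have h2 : ((h.eval 1 : ℤ) : ℝ) < 2 ^ (2 * c + 1) := by
      refine ((le_abs_self _).trans h1).trans_lt ?_
      rw [pow_succ, pow_mul]
      have : (0 : ℝ) < 4 ^ c := by positivity
      norm_num
    exact_mod_cast h2

end Pool.Agent.NEF
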