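import Pool.Agent.P.MP_f644fa_ag.LW

/-! Raising and lowering operators on the tensor product of two exterior algebras. -/

noncomputable section
namespace Pool.Agent.NEF
open Finset Module Pool.Agent.HCF

variable {τ σ ι : Type} [LinearOrder τ] [Fintype τ] [LinearOrder σ] [Fintype σ] [Fintype ι]
  {A : Type} [CommRing A]

/-- an operator on the second factor -/
def inn (τ : Type) {N : Type} [AddCommGroup N] [Module A N] (f : End A N) :
    End A (Finset τ → N) := f.compLeft (Finset τ)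

/-- the raising operator -/
def Dup (φ : τ → σ → A) : End A (Finset τ → Finset σ → A) :=
  ∑ i, ep A (Finset σ → A) i * inn τ (epv A (φ i))

/-- the lowering operator -/
def Ddn (s : ι → τ) (u : ι → σ → A) : End A (Finset τ → Finset σ → A) :=
  ∑ a, io A (Finset σ → A) (s a) * inn τ (iov A (u a))

/-- elements of bidegree `(j, k)` killed by `T1` and `T0` -/
def Pq (T1 : Submodule ℂ (τ → ℂ)) (T0 : Submodule ℂ (σ → ℂ)) (j k : ℕ) :
    Submodule ℂ (Finset τ → Finset σ → ℂ) where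
  carrier := {z | Deg j z ∧ (∀ v ∈ T1, iov (Finset σ → ℂ) v z = 0) ∧ ∀ J, z J ∈ Kf T0 k}
  add_mem' ha hb := ⟨fun J h => by simp [ha.1 J h, hb.1 J h],
    fun v hv => by rw [map_add, ha.2.1 v hv, hb.2.1 v hv, add_zero],
    fun J => add_mem (ha.2.2 J) (hb.2.2 J)⟩
  zero_mem' := ⟨fun _ _ => rfl, fun _ _ => map_zero _, fun _ => zero_mem _⟩
  smul_mem' c _ ha := ⟨fun J h => by simp [ha.1 J h],
    fun v hv => by rw [map_smul, ha.2.1 v hv, smul_zero],
    fun J => Submodule.smul_mem _ c (ha.2.2 J)⟩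

omit [LinearOrder τ] [Fintype τ] in
theorem inn_apply {N : Type} [AddCommGroup N] [Module A N] (f : End A N) (z : Finset τ → N)
    (J : Finset τ) : inn τ f z J = f (z J) := rfl

theorem mem_Pq {T1 : Submodule ℂ (τ → ℂ)} {T0 : Submodule ℂ (σ → ℂ)} {j k : ℕ}
    {z : Finset τ → Finset σ → ℂ} : z ∈ Pq T1 T0 j k ↔
      Deg j z ∧ (∀ v ∈ T1, iov (Finset σ → ℂ) v z = 0) ∧ ∀ J, z J ∈ Kf T0 k := Iff.rfl

end Pool.Agent.NEF
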