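import Pool.Agent.P.MP_66e591_ag.VL0

/-! Formal properties of the operators. -/

noncomputable section
namespace Pool.Agent.NEF
open Finset Module Pool.Agent.HCF

variable {τ σ ι : Type} [LinearOrder τ] [Fintype τ] [LinearOrder σ] [Fintype σ] [Fintype ι]
  {A A' : Type} [CommRing A] [CommRing A']

theorem vl1_up (φ : τ → σ → A) (z : Finset τ → Finset σ → A) :
    Dup φ z = ∑ i, ep A (Finset σ → A) i fun J => epv A (φ i) (z J) := by
  rw [Dup, LinearMap.sum_apply]; rfl

omit [Fintype τ] in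
theorem vl1_dn (s : ι → τ) (u : ι → σ → A) (z : Finset τ → Finset σ → A) :
    Ddn s u z = ∑ a, io A (Finset σ → A) (s a) fun J => iov A (u a) (z J) := by
  rw [Ddn, LinearMap.sum_apply]; rfl

theorem vl1_up_map (f : A →+* A') (φ : τ → σ → A) (z : Finset τ → Finset σ → A) :
    (fun J K => f (Dup φ z J K)) = Dup (fun i j => f (φ i j)) fun J K => f (z J K) := by
  rw [vl1_up, vl1_up]
  funext J
  show f.toAddMonoidHom.compLeft (Finset σ) _ = _
  rw [Finset.sum_apply, Finset.sum_apply, map_sum]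
  refine sum_congr rfl fun i _ => ?_
  refine (congrFun (ep_nat (R := A) (R' := A') (f.toAddMonoidHom.compLeft (Finset σ)) i _) J).trans ?_
  refine congrArg (fun y => ep A' (Finset σ → A') i y J) (funext fun K => ?_)
  exact epv_nat f.toAddMonoidHom (a := φ i) (a' := fun j => f (φ i j)) (fun j v => map_mul f _ _) _

omit [Fintype τ] in
theorem vl1_dn_map (f : A →+* A') (s : ι → τ) (u : ι → σ → A) (z : Finset τ → Finset σ → A) :
    (fun J K => f (Ddn s u z J K)) = Ddn s (fun a j => f (u a j)) fun J K => f (z J K) := by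
  rw [vl1_dn, vl1_dn]
  funext J
  show f.toAddMonoidHom.compLeft (Finset σ) _ = _
  rw [Finset.sum_apply, Finset.sum_apply, map_sum]
  refine sum_congr rfl fun a _ => ?_
  refine (congrFun
    (io_nat (R := A) (R' := A') (f.toAddMonoidHom.compLeft (Finset σ)) (s a) _) J).trans ?_
  refine congrArg (fun y => io A' (Finset σ → A') (s a) y J) (funext fun K => ?_)
  exact iov_nat f.toAddMonoidHom (a := u a) (a' := fun j => f (u a j)) (fun j v => map_mul f _ _) _

theorem Dup_map (f : A →+* A') (φ : τ → σ → A) (m : ℕ) (z : Finset τ → Finset σ → A) :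
    (fun J K => f ((Dup φ ^ m) z J K)) =
      (Dup (fun i j => f (φ i j)) ^ m) fun J K => f (z J K) := by
  induction m with
  | zero => rfl
  | succ m ih =>
    rw [pow_succ', pow_succ', Module.End.mul_apply, Module.End.mul_apply, vl1_up_map, ih]

theorem Ddn_map (f : A →+* A') (s : ι → τ) (u : ι → σ → A) (m : ℕ)
    (z : Finset τ → Finset σ → A) : (fun J K => f ((Ddn s u ^ m) z J K)) =
      (Ddn s (fun a j => f (u a j)) ^ m) fun J K => f (z J K) := by
  induction m with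
  | zero => rfl
  | succ m ih =>
    rw [pow_succ', pow_succ', Module.End.mul_apply, Module.End.mul_apply, vl1_dn_map, ih]

theorem Dup_scale (φ : τ → σ → A) {a b : τ → A} {r : A} (h : ∀ i, a i * b i = r) (m : ℕ)
    (α : Finset σ → A) (J : Finset τ) :
    (∏ i ∈ J, a i) • (Dup (fun i => b i • φ i) ^ m) (Pi.single ∅ α) J =
      r ^ m • (Dup φ ^ m) (Pi.single ∅ α) J := by
  induction m generalizing J with
  | zero =>
    rw [pow_zero, pow_zero, pow_zero, Module.End.one_apply, one_smul]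
    by_cases hJ : J = ∅
    · rw [hJ, prod_empty, one_smul]
    · rw [Pi.single_eq_of_ne hJ, smul_zero]
  | succ m ih =>
    rw [pow_succ' (Dup _), pow_succ' (Dup _), Module.End.mul_apply, Module.End.mul_apply, vl1_up,
      vl1_up, Finset.sum_apply, Finset.sum_apply, smul_sum, smul_sum]
    refine sum_congr rfl fun i _ => ?_
    rw [ep_apply, ep_apply]
    split_ifs with hi
    · rw [smul_comm _ (sg i J), smul_comm _ (sg i J), ← mul_prod_erase J a hi, epv_smul,
        LinearMap.smul_apply, smul_smul (a i * _), mul_right_comm, h, mul_smul, ← map_smul, ih,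
        map_smul, smul_smul r, pow_succ']
    · rw [smul_zero, smul_zero]

variable {T1 : Submodule ℂ (τ → ℂ)} {T0 : Submodule ℂ (σ → ℂ)} {j k : ℕ}
  {z : Finset τ → Finset σ → ℂ}

theorem vl1_Kf_ep {φ : σ → ℂ} (h0 : φ ∈ perp T0) {α : Finset σ → ℂ} (h : α ∈ Kf T0 k) :
    epv ℂ φ α ∈ Kf T0 (k + 1) := by
  refine ⟨h.1.epv φ, fun t ht => ?_⟩
  have h1 : iov ℂ t (epv ℂ φ α) + epv ℂ φ (iov ℂ t α) = (∑ j, t j * φ j) • α :=
    LinearMap.congr_fun (iov_epv (N := ℂ) t φ) α
  have h2 : ∑ j, t j * φ j = 0 := by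
    rw [← h0 t ht]
    exact sum_congr rfl fun j _ => mul_comm _ _
  rwa [h.2 t ht, map_zero, add_zero, h2, zero_smul] at h1

theorem vl1_Kf_io (u : σ → ℂ) {α : Finset σ → ℂ} (h : α ∈ Kf T0 (k + 1)) :
    iov ℂ u α ∈ Kf T0 k := by
  refine ⟨h.1.iov u, fun t ht => ?_⟩
  have h1 : iov ℂ t (iov ℂ u α) + iov ℂ u (iov ℂ t α) = 0 :=
    LinearMap.congr_fun (iov_iov (N := ℂ) t u) α
  rwa [h.2 t ht, map_zero, add_zero] at h1

omit [LinearOrder σ] [Fintype σ] in
theorem vl1_comm (g : End ℂ (Finset σ → ℂ)) {v : τ → ℂ} (h : iov (Finset σ → ℂ) v z = 0) :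
    iov (Finset σ → ℂ) v (fun J => g (z J)) = 0 := by
  have h1 := iov_nat (R := ℂ) (R' := ℂ) g.toAddMonoidHom (a := v) (a' := v)
    (fun j w => map_smul g _ _) z
  refine h1.symm.trans ?_
  rw [h]
  funext J
  exact map_zero g

omit [LinearOrder τ] [Fintype τ] [LinearOrder σ] [Fintype σ] in
theorem vl1_deg (g : End ℂ (Finset σ → ℂ)) (h : Deg j z) : Deg j fun J => g (z J) :=
  fun J hJ => by
    show g (z J) = 0
    rw [h J hJ, map_zero]

theorem Dup_mem {φ : τ → σ → ℂ} (h0 : ∀ i, φ i ∈ perp T0) (h1 : ∀ v ∈ T1, ∑ i, v i • φ i = 0)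
    (hz : z ∈ Pq T1 T0 j k) : Dup φ z ∈ Pq T1 T0 (j + 1) (k + 1) := by
  rw [vl1_up]
  refine ⟨fun J hJ => ?_, fun v hv => ?_, fun J => ?_⟩
  · rw [Finset.sum_apply]
    exact sum_eq_zero fun i _ => (vl1_deg _ hz.1).ep i J hJ
  · have h2 : ∀ i, iov (Finset σ → ℂ) v (ep ℂ (Finset σ → ℂ) i fun J => epv ℂ (φ i) (z J)) =
        fun J => epv ℂ (v i • φ i) (z J) := fun i => by
      rw [← Module.End.mul_apply, ladder_iov_ep, LinearMap.sub_apply, Module.End.mul_apply,
        vl1_comm _ (hz.2.1 v hv), map_zero, sub_zero, epv_smul]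
      rfl
    rw [map_sum]
    simp only [h2]
    funext J
    rw [Finset.sum_apply, ← LinearMap.sum_apply, ← epv_sum, h1 v hv]
    simp [epv]
  · rw [Finset.sum_apply]
    refine sum_mem fun i _ => ?_
    rw [ep_apply]
    split_ifs
    · exact zsmul_mem (vl1_Kf_ep (h0 i) (hz.2.2 _)) _
    · exact zero_mem _

theorem Ddn_mem (s : ι → τ) (u : ι → σ → ℂ) (hz : z ∈ Pq T1 T0 (j + 1) (k + 1)) :
    Ddn s u z ∈ Pq T1 T0 j k := by
  rw [vl1_dn]
  refine ⟨fun J hJ => ?_, fun v hv => ?_, fun J => ?_⟩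
  · rw [Finset.sum_apply]
    exact sum_eq_zero fun a _ => (vl1_deg _ hz.1).io (s a) J hJ
  · rw [map_sum]
    refine sum_eq_zero fun a _ => ?_
    have h1 := LinearMap.congr_fun (iov_iov (N := Finset σ → ℂ) v (Pi.single (s a) (1 : ℂ)))
      fun J => iov ℂ (u a) (z J)
    rwa [iov_single, LinearMap.add_apply, Module.End.mul_apply, Module.End.mul_apply,
      vl1_comm _ (hz.2.1 v hv), map_zero, add_zero, LinearMap.zero_apply] at h1
  · rw [Finset.sum_apply]
    refine sum_mem fun a _ => ?_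
    rw [io_apply]
    split_ifs
    · exact zero_mem _
    · exact zsmul_mem (vl1_Kf_io (u a) (hz.2.2 _)) _

theorem Ddn_zero (s : ι → τ) (u : ι → σ → ℂ) (hz : z ∈ Pq T1 T0 0 k) : Ddn s u z = 0 := by
  rw [vl1_dn]
  exact sum_eq_zero fun a _ => (vl1_deg _ hz.1).io_zero (s a)

theorem Dup_pow_mem {φ : τ → σ → ℂ} (h0 : ∀ i, φ i ∈ perp T0) (h1 : ∀ v ∈ T1, ∑ i, v i • φ i = 0)
    (hz : z ∈ Pq T1 T0 j k) (m : ℕ) : (Dup φ ^ m) z ∈ Pq T1 T0 (j + m) (k + m) := by
  induction m with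
  | zero => exact hz
  | succ m ih =>
    rw [pow_succ', Module.End.mul_apply]
    exact Dup_mem h0 h1 ih

theorem Ddn_pow_mem (s : ι → τ) (u : ι → σ → ℂ) (m : ℕ) (hz : z ∈ Pq T1 T0 (j + m) (k + m)) :
    (Ddn s u ^ m) z ∈ Pq T1 T0 j k := by
  induction m generalizing z with
  | zero => exact hz
  | succ m ih =>
    rw [pow_succ, Module.End.mul_apply]
    exact ih (Ddn_mem s u hz)

theorem single_mem_Pq {α : Finset σ → ℂ} (h : α ∈ Kf T0 k) : Pi.single ∅ α ∈ Pq T1 T0 0 k := by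
  have hd : Deg 0 (Pi.single ∅ α : Finset τ → Finset σ → ℂ) := fun J hJ =>
    Pi.single_eq_of_ne (fun h => hJ (by rw [h, card_empty])) _
  refine ⟨hd, fun v _ => Lev.iov_zero (fun J hJ => hd J hJ.ne') v, fun J => ?_⟩
  by_cases hJ : J = ∅
  · rw [hJ, Pi.single_eq_same]
    exact h
  · rw [Pi.single_eq_of_ne hJ]
    exact zero_mem _

theorem Pq_zero (hz : z ∈ Pq T1 T0 0 k) : Pi.single ∅ (z ∅) = z := by
  funext J
  by_cases hJ : J = ∅
  · rw [hJ, Pi.single_eq_same]
  · rw [Pi.single_eq_of_ne hJ, hz.1 J fun h => hJ (card_eq_zero.1 h)]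

end Pool.Agent.NEF
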