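import Mathlib

/-! Strings of raising and lowering operators. -/

noncomputable section
namespace Pool.Agent.NEF
open Finset Module

theorem vl1a_prod (m : ℕ) (δ : ℂ) :
    ∏ i ∈ range m, (δ * ((i : ℂ) + 1) * ((m : ℂ) - i)) = (m.factorial : ℂ) ^ 2 * δ ^ m := by
  have h1 : ∏ i ∈ range m, ((i : ℂ) + 1) = (m.factorial : ℂ) := by
    rw [← prod_range_add_one_eq_factorial]
    push_cast
    rfl
  have h2 : ∏ i ∈ range m, ((m : ℂ) - i) = (m.factorial : ℂ) := by
    rw [← h1, ← prod_range_reflect (fun i : ℕ => ((i : ℂ) + 1)) m]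
    refine prod_congr rfl fun i hi => ?_
    have hi' : i < m := mem_range.1 hi
    have h3 : m - 1 - i + 1 + i = m := by omega
    have h4 : ((m - 1 - i : ℕ) : ℂ) + 1 + i = m := by exact_mod_cast h3
    linear_combination -h4
  rw [prod_mul_distrib, prod_mul_distrib, h1, h2, prod_const, card_range]
  ring

theorem vl1a_aux {V : Type} [AddCommGroup V] [Module ℂ V] (D D' : End ℂ V)
    (P : ℕ → Submodule ℂ V) (m : ℕ) (δ : ℂ) (h1 : ∀ j < m, ∀ z ∈ P j, D z ∈ P (j + 1))
    (h3 : ∀ z ∈ P 0, D' z = 0)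
    (h5 : ∀ j ≤ m, ∀ z ∈ P j, D' (D z) - D (D' z) = (δ * ((m : ℂ) - 2 * j)) • z) :
    ∀ z ∈ P 0, (D' ^ m) ((D ^ m) z) = ((m.factorial : ℂ) ^ 2 * δ ^ m) • z := by
  intro z hz
  have hA : ∀ j ≤ m, (D ^ j) z ∈ P j := by
    intro j
    induction j with
    | zero => intro _; simpa using hz
    | succ j ih =>
      intro hj
      rw [pow_succ', End.mul_apply]
      exact h1 j (by omega) _ (ih (by omega))
  have hB : ∀ j ≤ m, D' ((D ^ (j + 1)) z) = (δ * ((j : ℂ) + 1) * ((m : ℂ) - j)) • (D ^ j) z := by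
    intro j
    induction j with
    | zero =>
      intro _
      have h := h5 0 (Nat.zero_le _) z hz
      rw [h3 z hz, map_zero, sub_zero] at h
      simpa using h
    | succ j ih =>
      intro hj
      have h := h5 (j + 1) hj _ (hA (j + 1) hj)
      rw [ih (by omega), map_smul, sub_eq_iff_eq_add] at h
      have e1 : (D ^ (j + 1 + 1)) z = D ((D ^ (j + 1)) z) := by
        rw [pow_succ' D (j + 1), End.mul_apply]
      have e2 : D ((D ^ j) z) = (D ^ (j + 1)) z := by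
        rw [pow_succ' D j, End.mul_apply]
      rw [e1, h, e2, ← add_smul]
      congr 1
      push_cast
      ring
  have hC : ∀ j ≤ m, (D' ^ j) ((D ^ j) z)
      = (∏ i ∈ range j, (δ * ((i : ℂ) + 1) * ((m : ℂ) - i))) • z := by
    intro j
    induction j with
    | zero => intro _; simp
    | succ j ih =>
      intro hj
      rw [pow_succ D' j, End.mul_apply, hB j (by omega), map_smul, ih (by omega), smul_smul,
        prod_range_succ, mul_comm]
  rw [hC m le_rfl, vl1a_prod]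

theorem sl2_iso {V : Type} [AddCommGroup V] [Module ℂ V] (D D' : End ℂ V) (P : ℕ → Submodule ℂ V)
    (m : ℕ) (δ : ℂ) (h1 : ∀ j < m, ∀ z ∈ P j, D z ∈ P (j + 1))
    (h2 : ∀ j < m, ∀ z ∈ P (j + 1), D' z ∈ P j) (h3 : ∀ z ∈ P 0, D' z = 0)
    (h4 : ∀ z ∈ P m, D z = 0)
    (h5 : ∀ j ≤ m, ∀ z ∈ P j, D' (D z) - D (D' z) = (δ * ((m : ℂ) - 2 * j)) • z) :
    (∀ z ∈ P 0, (D' ^ m) ((D ^ m) z) = ((m.factorial : ℂ) ^ 2 * δ ^ m) • z) ∧
      ∀ z ∈ P m, (D ^ m) ((D' ^ m) z) = ((m.factorial : ℂ) ^ 2 * δ ^ m) • z := by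
  refine ⟨vl1a_aux D D' P m δ h1 h3 h5, ?_⟩
  have h := vl1a_aux D' D (fun j => P (m - j)) m δ ?_ ?_ ?_
  · simpa using h
  · intro j hj z hz
    have e : m - j = m - (j + 1) + 1 := by omega
    refine h2 (m - (j + 1)) (by omega) z ?_
    rw [← e]
    exact hz
  · intro z hz
    exact h4 z (by simpa using hz)
  · intro j hj z hz
    have h6 := h5 (m - j) (by omega) z hz
    rw [← neg_sub, h6, ← neg_smul]
    congr 1
    rw [Nat.cast_sub hj]
    ring

end Pool.Agent.NEF
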