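import Pool.Agent.P.MP_66e591_ag.VL1
import Pool.Agent.P.MP_66e591_ag.VL1a

/-! The duality isomorphism in a fibre. -/

noncomputable section
namespace Pool.Agent.NEF
open Finset Module Pool.Agent.HCF

theorem vl2_ring {E : Type} [Ring E] [Algebra ℂ E] {e f P Q ε : E} {p : ℂ} (hQ : Q * e = e * Q)
    (hP : P * f = f * P) (h1 : f * e + e * f = ε) (h2 : Q * P + P * Q = p • 1) :
    f * Q * (e * P) - e * P * (f * Q) = p • ε - p • (e * f) - ε * (P * Q) := by
  have h3 : f * Q * (e * P) = f * e * (Q * P) := by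
    rw [mul_assoc, ← mul_assoc Q, hQ, mul_assoc, mul_assoc]
  have h4 : e * P * (f * Q) = e * f * (P * Q) := by
    rw [mul_assoc, ← mul_assoc P, hP, mul_assoc, mul_assoc]
  rw [h3, h4, eq_sub_of_add_eq h2, ← h1, mul_sub, mul_smul_comm, mul_one, smul_add, add_mul]
  abel

theorem vl2_num {ρ N : Type} [LinearOrder ρ] [Fintype ρ] [AddCommGroup N] [Module ℂ N] {c k : ℕ}
    {δ : ℂ} {y : Finset ρ → N} (hy : Deg k y) (v u : Fin c → ρ → ℂ)
    (h : ∀ l, iov N (fun j => (if j = l then δ else 0) - ∑ a, u a j * v a l) y = 0) :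
    ∑ a, epv N (v a) (iov N (u a) y) = (δ * k) • y := by
  have h1 : kt N (δ • (1 : Matrix ρ ρ ℂ) - ∑ a, Matrix.of fun j l => u a j * v a l) y = 0 := by
    refine ladder_kt_zero fun l => ?_
    rw [← h l]
    congr 2
    funext j
    simp [Matrix.sum_apply, Matrix.one_apply]
  rw [kt_sub, kt_smul, kt_one, kt_sum, LinearMap.sub_apply, sub_eq_zero, LinearMap.sum_apply] at h1
  simp only [kt_rank_one, Module.End.mul_apply] at h1
  rw [← h1, LinearMap.smul_apply, mul_smul]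
  congr 1
  funext J
  rw [num_apply, Pi.smul_apply]
  by_cases hJ : J.card = k
  · rw [hJ, Nat.cast_smul_eq_nsmul]
  · rw [hy J hJ, smul_zero, smul_zero]

theorem vl2_inn_ep {τ N : Type} [LinearOrder τ] [AddCommGroup N] [Module ℂ N] (g : End ℂ N)
    (i : τ) : inn τ g * ep ℂ N i = ep ℂ N i * inn τ g :=
  LinearMap.ext fun y => ep_nat (R := ℂ) (R' := ℂ) g.toAddMonoidHom i y

theorem vl2_inn_io {τ N : Type} [LinearOrder τ] [AddCommGroup N] [Module ℂ N] (g : End ℂ N)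
    (i : τ) : inn τ g * io ℂ N i = io ℂ N i * inn τ g :=
  LinearMap.ext fun y => io_nat (R := ℂ) (R' := ℂ) g.toAddMonoidHom i y

variable {τ σ : Type} [LinearOrder τ] [Fintype τ] [LinearOrder σ] [Fintype σ]
  {T1 : Submodule ℂ (τ → ℂ)} {T0 : Submodule ℂ (σ → ℂ)} {φ : τ → σ → ℂ} {c : ℕ} {s : Fin c → τ}
  {u : Fin c → σ → ℂ} {δ : ℂ}

omit [LinearOrder τ] [Fintype τ] in
theorem vl2_inn (a b : σ → ℂ) : inn τ (iov ℂ a) * inn τ (epv ℂ b) +
    inn τ (epv ℂ b) * inn τ (iov ℂ a) = (∑ j, a j * b j) • 1 :=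
  LinearMap.ext fun y => funext fun J => LinearMap.congr_fun (iov_epv (N := ℂ) a b) (y J)

theorem vl2_one (t : τ) (w : σ → ℂ) :
    io ℂ (Finset σ → ℂ) t * inn τ (iov ℂ w) * Dup φ -
      Dup φ * (io ℂ (Finset σ → ℂ) t * inn τ (iov ℂ w)) =
      (∑ j, w j * φ t j) • 1 -
        epv (Finset σ → ℂ) (fun i => ∑ j, w j * φ i j) * iov (Finset σ → ℂ) (Pi.single t 1) -
        inn τ (epv ℂ (φ t)) * inn τ (iov ℂ w) := by
  rw [Dup, mul_sum, sum_mul, ← sum_sub_distrib,
    sum_congr rfl fun i _ => vl2_ring (vl2_inn_ep _ i) (vl2_inn_io _ t) (io_ep t i)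
      (vl2_inn w (φ i)), sum_sub_distrib, sum_sub_distrib, iov_single, epv, sum_mul]
  simp only [smul_ite, smul_zero, ite_mul, one_mul, zero_mul, sum_ite_eq, mem_univ, if_true,
    smul_mul_assoc]

omit [LinearOrder τ] [Fintype τ] [LinearOrder σ] in
theorem vl2_expand (hc : finrank ℂ T0 + c = Fintype.card σ) (hδ : δ ≠ 0)
    (h0 : perp T0 = Submodule.span ℂ (Set.range φ))
    (hu : ∀ a b, ∑ j, φ (s a) j * u b j = if a = b then δ else 0) {w : σ → ℂ}
    (hw : w ∈ perp T0) : δ • w = ∑ a, (∑ j, w j * u a j) • φ (s a) := by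
  have h1 : Submodule.span ℂ (Set.range fun a => φ (s a)) = perp T0 := by
    refine Submodule.eq_of_le_of_finrank_eq ?_ ?_
    · rw [h0]
      exact Submodule.span_mono (Set.range_comp_subset_range s φ)
    · have h2 := finrank_perp T0
      rw [finrank_span_eq_card (indep_of_dual hδ hu), Fintype.card_fin]
      omega
  exact expand_of_dual hu (h1 ▸ hw)

theorem dual_comm (h0 : perp T0 = Submodule.span ℂ (Set.range φ))
    (h1 : ∀ v, v ∈ T1 ↔ ∑ i, v i • φ i = 0) (hc : finrank ℂ T0 + c = Fintype.card σ) (hδ : δ ≠ 0)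
    (hu : ∀ a b, ∑ j, φ (s a) j * u b j = if a = b then δ else 0) {j k : ℕ}
    {z : Finset τ → Finset σ → ℂ} (hz : z ∈ Pq T1 T0 j k) :
    Ddn s u (Dup φ z) - Dup φ (Ddn s u z) = (δ * ((c : ℂ) - j - k)) • z := by
  have ha : ∑ a, epv (Finset σ → ℂ) (fun i => ∑ l, u a l * φ i l)
      (iov (Finset σ → ℂ) (Pi.single (s a) (1 : ℂ)) z) = (δ * j) • z := by
    refine vl2_num hz.1 (fun a i => ∑ l, u a l * φ i l) (fun a => Pi.single (s a) 1) fun l =>
      hz.2.1 _ ((h1 _).2 ?_)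
    have h2 := vl2_expand hc hδ h0 hu (w := φ l) (h0 ▸ Submodule.subset_span ⟨l, rfl⟩)
    simp only [sub_smul, sum_sub_distrib, ite_smul, zero_smul, sum_ite_eq', mem_univ, if_true]
    rw [h2, sub_eq_zero]
    simp only [sum_smul (s := (univ : Finset (Fin c)))]
    rw [sum_comm]
    refine sum_congr rfl fun a _ => ?_
    simp only [Pi.single_apply, ite_mul, one_mul, zero_mul, ite_smul, zero_smul, sum_ite_eq',
      mem_univ, if_true, mul_comm]
  have hb : ∑ a, inn τ (epv ℂ (φ (s a))) (inn τ (iov ℂ (u a)) z) = (δ * k) • z := by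
    funext J
    rw [Finset.sum_apply, Pi.smul_apply]
    refine vl2_num (hz.2.2 J).1 (fun a => φ (s a)) u fun l => (hz.2.2 J).2 _ ?_
    rw [← perp_perp T0]
    intro w hw
    have h2 := congrFun (vl2_expand hc hδ h0 hu hw) l
    simp only [Pi.smul_apply, Finset.sum_apply, smul_eq_mul] at h2
    simp only [sub_mul, sum_sub_distrib, ite_mul, zero_mul, sum_ite_eq', mem_univ, if_true]
    rw [h2, sub_eq_zero]
    simp only [sum_mul]
    rw [sum_comm]
    exact sum_congr rfl fun _ _ => sum_congr rfl fun _ _ => by ring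
  have hd : ∀ a, ∑ l, u a l * φ (s a) l = δ := fun a => by
    have h2 := hu a a
    rw [if_pos rfl] at h2
    rw [← h2]
    exact sum_congr rfl fun _ _ => mul_comm _ _
  have he : Ddn s u * Dup φ - Dup φ * Ddn s u = ∑ a, (δ • 1 -
      epv (Finset σ → ℂ) (fun i => ∑ l, u a l * φ i l) * iov (Finset σ → ℂ) (Pi.single (s a) 1) -
      inn τ (epv ℂ (φ (s a))) * inn τ (iov ℂ (u a))) := by
    rw [Ddn, sum_mul, mul_sum, ← sum_sub_distrib]
    exact sum_congr rfl fun a _ => by rw [vl2_one, hd]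
  have hf := LinearMap.congr_fun he z
  simp only [LinearMap.sub_apply, LinearMap.sum_apply, Module.End.mul_apply, sum_sub_distrib,
    LinearMap.smul_apply, Module.End.one_apply, sum_const, card_univ, Fintype.card_fin] at hf
  rw [hf, ha, hb, ← Nat.cast_smul_eq_nsmul ℂ, smul_smul, ← sub_smul, ← sub_smul]
  congr 1
  ring

theorem dual_fibre (h0 : perp T0 = Submodule.span ℂ (Set.range φ))
    (h1 : ∀ v, v ∈ T1 ↔ ∑ i, v i • φ i = 0) (hc : finrank ℂ T0 + c = Fintype.card σ) (hδ : δ ≠ 0)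
    (hu : ∀ a b, ∑ j, φ (s a) j * u b j = if a = b then δ else 0) {m k : ℕ} (hm : k + m = c) :
    (∀ z ∈ Pq T1 T0 0 k,
      (Ddn s u ^ m) ((Dup φ ^ m) z) = ((m.factorial : ℂ) ^ 2 * δ ^ m) • z) ∧
    ∀ z ∈ Pq T1 T0 m c,
      (Dup φ ^ m) ((Ddn s u ^ m) z) = ((m.factorial : ℂ) ^ 2 * δ ^ m) • z := by
  have hφ : ∀ i, φ i ∈ perp T0 := fun i => h0 ▸ Submodule.subset_span ⟨i, rfl⟩
  have hT : ∀ v ∈ T1, ∑ i, v i • φ i = 0 := fun v hv => (h1 v).1 hv
  have h := sl2_iso (Dup φ) (Ddn s u) (fun j => Pq T1 T0 j (k + j)) m δ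
    (fun j _ z hz => Dup_mem hφ hT hz) (fun j _ z hz => Ddn_mem s u hz)
    (fun z hz => Ddn_zero s u hz)
    (fun z hz => funext fun J => by
      have h2 := (Dup_mem hφ hT hz).2.2 J
      exact deg_gt_eq_zero T0 (c := c) hc.ge (by omega) h2.1 h2.2)
    (fun j _ z hz => by
      rw [dual_comm h0 h1 hc hδ hu hz, ← hm]
      congr 2
      push_cast
      ring)
  subst hm
  exact h

end Pool.Agent.NEF
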