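import Pool.Agent.P.MP_66e591_ag.VL2

/-! The exterior powers of the normal and of the conormal bundle. -/

noncomputable section
namespace Pool.Agent.NEF
open Finset Module Pool.Agent.HCF
open scoped Kronecker

variable {M n c : ℕ} {Y R RR : Type} [CommRing R] [Algebra ℂ R] [CommRing RR] [Algebra ℂ RR]

theorem vl3_iov {τ σ : Type} [LinearOrder τ] [Fintype τ] (v : τ → ℂ)
    (z : Finset τ → σ → ℂ) (J : Finset τ) (K : σ) :
    iov (σ → ℂ) v z J K = iov ℂ v (fun J => z J K) J :=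
  congrFun (iov_nat (Pi.evalAddMonoidHom (fun _ : σ => ℂ) K) (a := v) (a' := v)
    (fun _ _ => rfl) z) J

theorem vl3_N (S : NS M n Y R RR) {k : ℕ} {ω : Finset (Fin M) → R} :
    ω ∈ S.lamG ⊓ degS (Fin M) R k ↔ ∀ q, S.val q ω ∈ Kf (S.T q) k :=
  ⟨fun h q => ⟨fun J hJ => by rw [NS0.val_apply, h.2 J hJ, map_zero], h.1 q⟩,
    fun h => ⟨fun q => (h q).2, fun J hJ => S.sep _ fun q => (h q).1 J hJ⟩⟩

theorem vl3_N' (S : NS M n Y R RR) {K : ℕ} (B : Sub S.toNS0 (Fin K)) {m k : ℕ}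
    {γ : Finset (Fin K) × Finset (Fin M) → R} :
    γ ∈ (B.lam.tensor S.sub0.lam).G ⊓ lwB (Fin K) (Fin M) R m k ↔
      ∀ q, (fun J L => S.ev q (γ (J, L))) ∈ Pq (B.T q) (S.T q) m k := by
  refine ⟨fun h q => ⟨fun J hJ => funext fun L => ?_, fun v hv => funext fun J => funext fun L => ?_,
    fun J => ⟨fun L hL => ?_, h.1.2 J q⟩⟩, fun h => ⟨⟨fun L q v hv => funext fun J => ?_,
      fun J q => ((h q).2.2 J).2⟩, fun r hr => S.sep _ fun q => ?_⟩⟩
  · show S.ev q (γ (J, L)) = 0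
    rw [h.2 (J, L) fun k => hJ k.1, map_zero]
  · rw [vl3_iov]
    exact congrFun (h.1.1 L q v hv) J
  · show S.ev q (γ (J, L)) = 0
    rw [h.2 (J, L) fun k => hL k.2, map_zero]
  · exact (vl3_iov v (fun J L => S.ev q (γ (J, L))) J L).symm.trans
      (congrFun (congrFun ((h q).2.1 v hv) J) L)
  · by_cases h1 : r.1.card = m
    · exact ((h q).2.2 r.1).1 r.2 fun h2 => hr ⟨h1, h2⟩
    · exact congrFun ((h q).1 r.1 h1) r.2

/-- the map in a fibre -/
def vl3Φ {τ σ : Type} [LinearOrder τ] [Fintype τ] [LinearOrder σ] [Fintype σ] (φ : τ → σ → ℂ)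
    (m : ℕ) : (Finset σ → ℂ) →ₗ[ℂ] Finset τ × Finset σ → ℂ where
  toFun y r := (Dup φ ^ m) (Pi.single ∅ y) r.1 r.2
  map_add' x y := by
    funext r
    rw [Pi.single_add, map_add]
    rfl
  map_smul' a x := by
    funext r
    rw [Pi.single_smul', map_smul]
    rfl

theorem vl3_single {τ σ A : Type} [DecidableEq τ] [CommRing A] (f : A →+* ℂ) (ω : σ → A) :
    (fun J K => f ((Pi.single ∅ ω : Finset τ → σ → A) J K)) =
      Pi.single ∅ fun K => f (ω K) := by
  funext J K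
  by_cases h : J = ∅
  · subst h
    simp
  · simp [Pi.single_eq_of_ne h]

theorem dual_chi (S : NS M n Y R RR) (hT : ∀ p, finrank ℂ (S.T p) + c = M) {K e : ℕ}
    (φ : Fin K → Fin M → R) (d : Fin K → ℕ) (hd : ∀ i, d i ≤ e)
    (hφ : ∀ i p, S.val (S.dbl p) (φ i) = (2 : ℂ) ^ d i • S.val p (φ i))
    (h0 : ∀ p, perp (S.T p) = Submodule.span ℂ (Set.range fun i => S.val p (φ i)))
    (B : Sub S.toNS0 (Fin K)) (hw : ∀ i, B.w i = e - d i)
    (hB : ∀ p v, v ∈ B.T p ↔ ∑ i, v i • S.val p (φ i) = 0) {m k : ℕ} (hm : k + m = c) :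
    PEq (PowerSeries.X ^ (e * m) * S.HS k)
      ((B.lam.tensor S.sub0.lam).chi (piM (Fin K) m ⊗ₖ piM (Fin M) c)) := by
  have hT' : ∀ p, finrank ℂ (S.T p) + c = Fintype.card (Fin M) := fun p => by
    rw [hT, Fintype.card_fin]
  have loc : ∀ p, ∃ (s : Fin c → Fin K) (δ : R) (u : Fin c → Fin M → R), S.ev p δ ≠ 0 ∧
      ∀ q a b, ∑ j, S.val q (φ (s a)) j * S.val q (u b) j = if a = b then S.ev q δ else 0 := by
    intro p
    have h1 := finrank_perp (S.T p)
    have h2 := hT' p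
    rw [h0] at h1
    obtain ⟨s, -, hs, -⟩ := exists_sel (fun i => S.val p (φ i)) (τ := c) (by omega)
    obtain ⟨δ, u, h3, h4⟩ := dual_fields (S.ev p) (fun a => φ (s a)) hs
    refine ⟨s, δ, u, h3, fun q a b => ?_⟩
    have h5 := congrArg (S.ev q) (h4 a b)
    simp only [map_sum, map_mul, apply_ite (S.ev q), map_zero] at h5
    exact h5
  have hp : ∀ q i, S.val q (φ i) ∈ perp (S.T q) := fun q i => by
    rw [h0]
    exact Submodule.subset_span ⟨i, rfl⟩
  have e1 : S.sub0.wt = fun _ => 0 := funext fun J => sum_const_zero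
  have hf : ((m.factorial : ℂ)) ≠ 0 := Nat.cast_ne_zero.2 m.factorial_ne_zero
  have key := S.toNS0.ses (fun _ => 0) (B.lam.tensor S.sub0.lam).w (e * m)
    (S.lamG ⊓ degS (Fin M) R k) ⊥ ((B.lam.tensor S.sub0.lam).G ⊓ lwB (Fin K) (Fin M) R m c)
    (fun q => vl3Φ (fun i => S.val q (φ i)) m)
    (fun ω hω => ⟨e1 ▸ S.sub0.lamG_inv ω hω.1, fun J hJ => lw_sc _ (hω.2 J hJ)⟩)
    (fun ω hω => ⟨(B.lam.tensor S.sub0.lam).inv ω hω.1, fun r hr => lw_sc _ (hω.2 r hr)⟩)
    (fun ω => ⟨fun hω => by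
      rw [(Submodule.mem_bot R).1 hω]
      refine ⟨zero_mem _, fun q => ?_⟩
      rw [show S.val q (0 : Finset (Fin M) → R) = 0 from funext fun _ => map_zero _, map_zero],
      fun hω => (Submodule.mem_bot R).2 (funext fun L => S.sep _ fun q => by
        obtain ⟨s, δ, u, h1, h2⟩ := loc q
        have h3 := (dual_fibre (h0 q) (hB q) (hT' q) h1 (h2 q) hm).1 _
          (single_mem_Pq ((vl3_N S).1 hω.1 q))
        rw [show (Dup (fun i => S.val q (φ i)) ^ m) (Pi.single ∅ (S.val q ω)) = 0 from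
          funext fun J => funext fun L => congrFun (hω.2 q) (J, L), map_zero] at h3
        have h4 := congrFun (congrFun h3 ∅) L
        simp only [Pi.zero_apply, Pi.smul_apply, Pi.single_eq_same, smul_eq_mul] at h4
        exact (mul_eq_zero.1 h4.symm).resolve_left
          (mul_ne_zero (pow_ne_zero _ hf) (pow_ne_zero _ h1)))⟩)
    (fun ω _ q r => by
      have a1 : S.val q (S.sc (fun _ => 0) ω) = S.val (S.dbl q) ω := funext fun J => by
        rw [NS0.val_sc, pow_zero, one_mul]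
      have a2 : (B.lam.tensor S.sub0.lam).w r = ∑ i ∈ r.1, (e - d i) := by
        show ∑ i ∈ r.1, B.w i + S.sub0.wt r.2 = _
        rw [e1, add_zero, funext hw]
      have a3 := congrFun (Dup_scale (fun i => S.val q (φ i)) (a := fun i => 2 ^ (e - d i))
        (b := fun i => 2 ^ d i) (r := 2 ^ e) (fun i => by
          rw [← pow_add, Nat.sub_add_cancel (hd i)]) m (S.val (S.dbl q) ω) r.1) r.2
      rw [a1, a2, ← prod_pow_eq_pow_sum, pow_mul, funext fun i => hφ i q]
      exact a3)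
    (fun p => ⟨1, by simp, fun ω hω => by
      have a1 : ∀ q, (fun J L => S.ev q ((Dup φ ^ m) (Pi.single ∅ ω) J L)) =
          (Dup (fun i => S.val q (φ i)) ^ m) (Pi.single ∅ (S.val q ω)) := fun q => by
        have a2 := Dup_map (S.ev q : R →+* ℂ) φ m (Pi.single ∅ ω)
        rw [vl3_single] at a2
        exact a2
      refine ⟨fun r => (Dup φ ^ m) (Pi.single ∅ ω) r.1 r.2, (vl3_N' S B).2 fun q => ?_,
        fun q => funext fun r => ?_⟩
      · have a2 := Dup_pow_mem (hp q) (fun v hv => (hB q v).1 hv)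
          (single_mem_Pq (T1 := B.T q) ((vl3_N S).1 hω q)) m
        rw [zero_add, hm, ← a1] at a2
        exact a2
      · rw [map_one, one_smul]
        exact congrFun (congrFun (a1 q) r.1) r.2⟩)
    (fun p => by
      obtain ⟨s, δ, u, h1, h2⟩ := loc p
      refine ⟨δ * ((m.factorial : R) ^ 2 * δ ^ m), ?_, fun γ hγ => ?_⟩
      · simp only [map_mul, map_pow, map_natCast]
        exact mul_ne_zero h1 (mul_ne_zero (pow_ne_zero _ hf) (pow_ne_zero _ h1))
      have a0 := (vl3_N' S B).1 hγ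
      have a1 : ∀ q, S.val q (δ • (Ddn s u ^ m) (fun J L => γ (J, L)) ∅) = S.ev q δ •
          (Ddn s (fun a => S.val q (u a)) ^ m) (fun J L => S.ev q (γ (J, L))) ∅ := fun q => by
        have a2 := congrFun (Ddn_map (S.ev q : R →+* ℂ) s u m fun J L => γ (J, L)) ∅
        funext L
        rw [NS0.val_apply, Pi.smul_apply, smul_eq_mul, map_mul]
        exact congrArg (S.ev q δ * ·) (congrFun a2 L)
      have a2 : ∀ q, (Ddn s (fun a => S.val q (u a)) ^ m) (fun J L => S.ev q (γ (J, L))) ∈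
          Pq (B.T q) (S.T q) 0 k := fun q =>
        Ddn_pow_mem s _ m (by rw [zero_add, hm]; exact a0 q)
      refine ⟨δ • (Ddn s u ^ m) (fun J L => γ (J, L)) ∅, (vl3_N S).2 fun q => ?_,
        fun q => funext fun r => ?_⟩
      · rw [a1]
        exact Submodule.smul_mem _ _ ((a2 q).2.2 ∅)
      · rw [a1, map_smul]
        simp only [map_mul, map_pow, map_natCast, Pi.smul_apply, smul_eq_mul, mul_assoc]
        by_cases h3 : S.ev q δ = 0
        · rw [h3, zero_mul, zero_mul]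
        · refine congrArg (S.ev q δ * ·) ?_
          have a3 := (dual_fibre (h0 q) (hB q) (hT' q) h3 (h2 q) hm).2 _ (a0 q)
          rw [← Pq_zero (a2 q)] at a3
          refine (congrFun (congrFun a3 r.1) r.2).trans ?_
          simp only [Pi.smul_apply, smul_eq_mul, mul_assoc]
          rfl)
  rwa [NS0.hs_bot, mul_zero, zero_add, NS0.hs_HS, ← lw_chi] at key

end Pool.Agent.NEF
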