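import Pool.Agent.P.MP_66e591_ag.VL3
import Pool.Agent.P.MP_66e591_ag.RN

/-! The recurrence in terms of the conormal bundle. -/

noncomputable section
namespace Pool.Agent.NEF
open Finset Module Pool.Agent.HCF

theorem series_dual {N n c e : ℕ} (hc : 1 ≤ c) {g τ Λ γ : ℕ → Polynomial ℂ}
    (hg : (g 0).eval 1 ≠ 0)
    (hW : ∀ k, (1 - Polynomial.X) ^ N ∣
      ∑ q ∈ antidiagonal k, Λ q.1 * (Polynomial.X ^ (e * q.2) * τ q.2) -
        Polynomial.C ((n + 1 + c).choose k : ℂ) * Polynomial.X ^ (e * k) * g 0 ^ 2)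
    (hK : ∀ b, (1 - Polynomial.X) ^ N ∣ γ b - ∑ m ∈ range (b + 1),
      Polynomial.C ((-1) ^ m * (Nat.multichoose (n + 1 + c) (b - m) : ℂ)) * τ m)
    (hΛ : ∀ m, c < m → (1 - Polynomial.X) ^ N ∣ Λ m)
    (hτ : ∀ m, n + 1 < m → (1 - Polynomial.X) ^ N ∣ τ m)
    (hD : ∀ m ≤ c, (1 - Polynomial.X) ^ N ∣
      Polynomial.X ^ (e * m) * g (c - m) * g 0 - Λ m * g c) (b : ℕ) :
    (1 - Polynomial.X) ^ N ∣ ∑ m ∈ range (c + 1), (-1) ^ m * g (c - m) * γ (b + c - m) := by
  simp only [← Ideal.Quotient.eq_zero_iff_dvd, map_sub, sub_eq_zero, map_sum, map_mul, map_pow,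
    map_neg, map_one, map_natCast, pow_mul] at hW hK hΛ hτ hD ⊢
  have hy := (ra5_unit N (u := Polynomial.X) (by simp)).pow e
  have h0 := ra5_unit N hg
  obtain ⟨v, hv⟩ := h0.exists_left_inv
  have h1 := (ra5_core hc hy h0 hW hK hΛ hτ (z := _ * v)
    (by rw [mul_assoc, hv, mul_one])).2 b
  refine ((hy.pow c).mul h0).mul_left_cancel ?_
  rw [mul_zero, ← mul_zero (Ideal.Quotient.mk _ (g c)), ← h1, mul_sum, mul_sum]
  refine sum_congr rfl fun m hm => ?_
  have hm' : m ≤ c := Nat.lt_succ_iff.1 (mem_range.1 hm)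
  have h2 := hD m hm'
  obtain ⟨k, rfl⟩ := Nat.exists_eq_add_of_le hm'
  rw [Nat.add_sub_cancel_left] at h2 ⊢
  rw [pow_add]
  linear_combination ((-1) ^ m * ((Ideal.Quotient.mk _ Polynomial.X) ^ e) ^ k *
    Ideal.Quotient.mk _ (γ (b + (m + k) - m))) * h2

variable {M : ℕ} {I : Ideal (SS M)} {c n : ℕ}

theorem numer' (hX : IsManifold I c) (hM : M = n + 1 + c) (hc : 1 ≤ c) (hn : c + 1 ≤ n)
    {S : NS M n (cone I) (Pol I) (Pol2 I)} (hE : Expl I S.toNS0) {g : ℕ → Polynomial ℂ}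
    (hg : ∀ k, Nm n (g k) (S.HS k)) (hne : (g 0).eval 1 ≠ 0) :
    (∀ b, PEq ((1 - PowerSeries.X) ^ (n + 1) * PowerSeries.mk fun a => (HW I a b : ℂ)) 0) ∧
      ∀ b, PEq ((1 - PowerSeries.X) ^ c * ∑ m ∈ range (c + 1), (-1) ^ m *
        (g (c - m) : PowerSeries ℂ) * PowerSeries.mk fun a => (HW I a (b + c - m) : ℂ)) 0 := by
  obtain ⟨K, e, φ, d, B, hd, hφ, h0, hw, hB, hr⟩ := exists_normal hX hE
  have hT : ∀ p, finrank ℂ (S.T p) + c = M := fun p => by
    rw [hE.T]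
    exact hX.finrank_tang p.2
  choose τ hτ using fun m => num_rat ((tanB S).ok_piM m)
  choose Λ hΛ using fun m => num_rat (B.ok_piM m)
  have hz : Nm n 0 0 := ⟨0, by simp⟩
  have hle : (1 - Polynomial.X : Polynomial ℂ) ^ (n + 1 - c) ∣ (1 - Polynomial.X) ^ (n + 1) :=
    pow_dvd_pow _ (Nat.sub_le _ _)
  set γ : ℕ → Polynomial ℂ := fun b => ∑ m ∈ range (b + 1),
    Polynomial.C ((-1) ^ m * (Nat.multichoose (n + 1 + c) (b - m) : ℂ)) * τ m with hγ
  have hγN : ∀ b, Nm n (γ b) (PowerSeries.mk fun a => (HW I a b : ℂ)) := fun b => by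
    have h1 := koszul (tanB S) (fun _ => rfl) b
    rw [← HW_series hX hE, Fintype.card_fin] at h1
    refine num_peq ?_ h1.symm
    refine num_sum _ fun m _ => ?_
    have h2 := num_mul (hτ m) (Polynomial.C ((-1) ^ m * (Nat.multichoose M (b - m) : ℂ)))
    rw [Polynomial.coe_C] at h2
    exact hM ▸ h2
  have a2 := series_dual (N := n + 1 - c) (n := n) (e := e) (g := g) (τ := τ) (Λ := Λ)
    (γ := γ) hc hne
    (fun k => hM ▸ whitney S hM φ d hd hφ h0 B hw hB hτ hΛ (hg 0) k)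
    (fun b => by rw [sub_self]; exact dvd_zero _)
    (fun m hm => by
      have h1 := Nm.dvd (hΛ m) hz (by
        rw [B.chi_gt (r := c) (fun p => by rw [Fintype.card_fin, hr]) hm]
        exact PEq.refl _)
      rw [sub_zero] at h1
      exact hle.trans h1)
    (fun m hm => by
      have h1 := Nm.dvd (hτ m) hz (by
        rw [(tanB S).chi_gt (r := n + 1) (fun p => by
          have h2 := finrank_perp (S.T p)
          have h3 := hT p
          change _ ≤ finrank ℂ (perp (S.T p)) + (n + 1)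
          rw [Fintype.card_fin] at h2 ⊢
          omega) hm]
        exact PEq.refl _)
      rw [sub_zero] at h1
      exact hle.trans h1)
    (fun m hm => by
      have h1 := num_mul (hg (c - m)) (Polynomial.X ^ (e * m))
      rw [Polynomial.coe_pow, Polynomial.coe_X] at h1
      exact NS.mult hM (B.ok_piM m) (S.sub0.ok_piM c) (hΛ m) (by rw [S.chi_sub0]; exact hg c)
        (num_peq h1 (dual_chi S hT φ d hd hφ h0 B hw hB (Nat.sub_add_cancel hm))) (hg 0))
  refine ⟨fun b => rn_poly (hγN b) le_rfl (by simp), fun b => rn_poly ?_ (by omega) (a2 b)⟩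
  refine num_sum _ fun m _ => ?_
  have h1 := num_mul (hγN (b + c - m)) ((-1) ^ m * g (c - m))
  rwa [Polynomial.coe_mul, Polynomial.coe_pow, Polynomial.coe_neg, Polynomial.coe_one] at h1

end Pool.Agent.NEF
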