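import Pool.Agent.P.MP_66e591_ag.RA1
import Pool.Agent.P.MP_66e591_ag.RA2
import Pool.Agent.P.MP_f644fa_ag.LS0

/-! The part of least weight of the recurrence. -/

noncomputable section
namespace Pool.Agent.NEF
open Finset Pool.Agent.HCF

variable {H : ℕ → ℕ → ℕ} {N a₀ n c : ℕ} {π : ℕ → ℕ → ℤ}

/-- the coefficients of the recurrence -/
def vA (c D : ℕ) (L : ℕ → Polynomial ℂ) (p r : ℕ) : ℂ := ∑ m ∈ range (c + 1),
  (-1) ^ m * (((L m).reflect D).comp (1 + Polynomial.X)).coeff p * ((c - m).choose r : ℂ)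

theorem vA_high {D : ℕ} {L : ℕ → Polynomial ℂ} (hD : ∀ m ∈ range (c + 1), (L m).natDegree ≤ D)
    (p r : ℕ) (hp : D < p) : vA c D L p r = 0 := by
  refine sum_eq_zero fun m hm => ?_
  rw [ra1_high (hD m hm) hp]
  simp

theorem HP.array' (h : HP H N a₀ π) {D : ℕ} {L : ℕ → Polynomial ℂ}
    (hD : ∀ m ∈ range (c + 1), (L m).natDegree ≤ D)
    (h2 : ∀ b, PEq ((1 - PowerSeries.X) ^ c * ∑ m ∈ range (c + 1),
      (-1) ^ m * (L m : PowerSeries ℂ) * PowerSeries.mk fun a => (H a (b + c - m) : ℂ)) 0)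
    (i j : ℕ) : ∑ p ∈ range (D + 1), ∑ r ∈ range (c + 1),
      vA c D L p r * (π (i + c + p) (j + r) : ℂ) = 0 := by
  have hd : ∀ m ∈ range (c + 1), (Polynomial.C ((-1 : ℂ) ^ m) * L m).natDegree ≤ D := fun m hm =>
    (Polynomial.natDegree_C_mul_le _ _).trans (hD m hm)
  have h3 := h.act c (c + D) (fun m => if m ∈ range (c + 1) then
      (1 - Polynomial.X) ^ c * (Polynomial.C ((-1) ^ m) * L m) else 0) (fun m => by
    split_ifs with hm
    · exact Polynomial.natDegree_mul_le.trans (add_le_add (ra1_deg c) (hd m hm))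
    · simp) (fun b => by
    have := h2 b
    rw [mul_sum] at this
    rw [sum_congr rfl fun m hm => by rw [if_pos hm]]
    simpa [mul_assoc] using this) i j
  rw [← h3]
  simp only [vA, sum_mul]
  rw [sum_congr rfl fun p _ => sum_comm, sum_comm]
  refine sum_congr rfl fun m hm => ?_
  rw [if_pos hm, Polynomial.reflect_mul _ _ (ra1_deg c) (hd m hm), Polynomial.mul_comp, ra1_one,
    Polynomial.reflect_C_mul, Polynomial.mul_comp, Polynomial.C_comp, add_assoc c,
    sum_range_add _ c (D + 1), sum_eq_zero (s := range c) fun p hp => ?_, zero_add]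
  · refine sum_congr rfl fun p _ => sum_congr rfl fun r _ => ?_
    rw [add_comm c p, Polynomial.coeff_X_pow_mul, Polynomial.coeff_C_mul, add_comm p c, add_assoc]
  · refine sum_eq_zero fun r _ => ?_
    rw [Polynomial.coeff_X_pow_mul', if_neg (by simpa using hp), zero_mul, zero_mul]

theorem vl5_reflect (D : ℕ) (L : Polynomial ℂ) (hL : L.natDegree ≤ D) :
    Polynomial.aeval (ex (-1)) (L.reflect D) = ex (-D) * Ex L := by
  refine Polynomial.induction_with_natDegree_le (fun L : Polynomial ℂ =>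
    Polynomial.aeval (ex (-1)) (L.reflect D) = ex (-D) * Ex L) D ?_ ?_ ?_ L hL
  · simp
  · intro k r _ hk
    rw [Polynomial.reflect_C_mul_X_pow, Polynomial.revAt_le hk, map_mul, map_mul, Ex_X_pow,
      ls0_Ex_C, map_pow, Polynomial.aeval_X, Polynomial.aeval_C, ex_pow, mul_left_comm, ← ex_add,
      Nat.cast_sub hk]
    congr 2
    ring
  · intro f g _ _ hf hg
    rw [Polynomial.reflect_add, map_add, map_add, hf, hg, mul_add]

theorem vl5_binom {A : Type} [CommRing A] (v : A) {k c : ℕ} (hk : k ≤ c) :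
    (1 + v) ^ k = ∑ r ∈ range (c + 1), (k.choose r : A) * v ^ r := by
  rw [add_comm, add_pow, sum_subset (range_subset_range.2 (Nat.succ_le_succ hk)) fun r _ hr => by
    rw [Nat.choose_eq_zero_of_lt (by simpa using hr), Nat.cast_zero, mul_zero]]
  exact sum_congr rfl fun r _ => by rw [one_pow, mul_one, mul_comm]

theorem vl5_sum {D : ℕ} {L : ℕ → Polynomial ℂ} (hD : ∀ m ∈ range (c + 1), (L m).natDegree ≤ D)
    (v : PowerSeries ℂ) :
    ∑ p ∈ range (D + c + 1), ∑ r ∈ range (c + 1),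
      PowerSeries.C (vA c D L p r) * (ex (-1) - 1) ^ p * v ^ r =
    ∑ m ∈ range (c + 1), PowerSeries.C ((-1 : ℂ) ^ m) * (ex (-D) * Ex (L m)) * (1 + v) ^ (c - m) := by
  simp only [vA, map_sum, sum_mul]
  rw [sum_congr rfl fun p _ => sum_comm, sum_comm]
  refine sum_congr rfl fun m hm => ?_
  have h1 : Polynomial.aeval (ex (-1) - 1) (((L m).reflect D).comp (1 + Polynomial.X)) =
      ex (-D) * Ex (L m) := by
    rw [Polynomial.aeval_comp, map_add, map_one, Polynomial.aeval_X, add_sub_cancel,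
      vl5_reflect D _ (hD m hm)]
  have h2 : (((L m).reflect D).comp (1 + Polynomial.X)).natDegree < D + c + 1 :=
    lt_of_le_of_lt (Polynomial.natDegree_le_iff_coeff_eq_zero.2 fun p hp => ra1_high (hD m hm) hp)
      (by omega)
  rw [← h1, Polynomial.aeval_eq_sum_range' h2, vl5_binom v (Nat.sub_le c m), mul_assoc,
    sum_mul_sum, mul_sum]
  refine sum_congr rfl fun p _ => ?_
  rw [mul_sum]
  refine sum_congr rfl fun r _ => ?_
  rw [map_mul, map_mul, map_natCast, PowerSeries.smul_eq_C_mul]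
  ring

theorem vl5_term (a ζ : ℂ) (p r : ℕ) (ha : p + r < c → a = 0) :
    PowerSeries.coeff c (PowerSeries.C a * (ex (-1) - 1) ^ p * (ex (-ζ) - 1) ^ r) =
      if p + r = c then (-1) ^ c * (a * ζ ^ r) else 0 := by
  obtain ⟨u, hu, hu'⟩ := one_sub_ex (-1)
  obtain ⟨v, hv, hv'⟩ := one_sub_ex (-ζ)
  have h1 : ex (-1) - 1 = PowerSeries.X * -u := by rw [mul_neg, ← hu, neg_sub]
  have h2 : ex (-ζ) - 1 = PowerSeries.X * -v := by rw [mul_neg, ← hv, neg_sub]
  have h3 : PowerSeries.C a * (ex (-1) - 1) ^ p * (ex (-ζ) - 1) ^ r =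
      PowerSeries.X ^ (p + r) * (PowerSeries.C a * (-u) ^ p * (-v) ^ r) := by
    rw [h1, h2, mul_pow, mul_pow, pow_add]
    ring
  rw [h3, PowerSeries.coeff_X_pow_mul']
  rcases lt_trichotomy (p + r) c with h | h | h
  · rw [if_neg h.ne, ha h]
    simp
  · rw [if_pos h.le, if_pos h, h, Nat.sub_self, PowerSeries.coeff_zero_eq_constantCoeff_apply,
      map_mul, map_mul, map_pow, map_pow, map_neg, map_neg, hu', hv', PowerSeries.constantCoeff_C,
      neg_neg (1 : ℂ), neg_neg ζ, ← h, pow_add, neg_pow ζ]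
    ring
  · rw [if_neg h.not_ge, if_neg h.ne']

theorem vl5_coeff (x : Fin c → ℂ) (p : ℕ) :
    (∏ i, (1 - Polynomial.C (x i) * Polynomial.X)).coeff p =
      ∑ J ∈ powersetCard p (univ : Finset (Fin c)), ∏ j ∈ J, -x j := by
  rw [← ls0_coeff]
  simp only [map_neg, neg_mul, sub_eq_add_neg]

theorem vl5_eval {D : ℕ} {g : ℕ → Polynomial ℂ}
    (hD : ∀ m ∈ range (c + 1), (g (c - m)).natDegree ≤ D) {U : PowerSeries ℂ}
    (hU : Ex (g 0) * U = 1) {x : Fin c → ℂ} (hx : Ch c (fun k => Ex (g k) * U) x)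
    (hv : ∀ p r, p + r < c → vA c D (fun m => g (c - m)) p r = 0) (ζ : ℂ) :
    ∑ p ∈ range (c + 1), vA c D (fun m => g (c - m)) p (c - p) * ζ ^ (c - p) =
      (g 0).eval 1 * ∏ j, (ζ - x j) := by
  have h1 := vl5_sum (L := fun m => g (c - m)) hD (ex (-ζ) - 1)
  have h2 : ∑ m ∈ range (c + 1), PowerSeries.C ((-1 : ℂ) ^ m) * (ex (-D) * Ex (g (c - m))) *
      (1 + (ex (-ζ) - 1)) ^ (c - m) =
      (PowerSeries.C ((-1 : ℂ) ^ c) * ex (-D) * Ex (g 0)) * gz c (fun k => Ex (g k) * U) ζ := by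
    rw [gz, ← sum_range_reflect _ (c + 1), mul_sum]
    refine sum_congr rfl fun k hk => ?_
    have hk' : k ≤ c := Nat.lt_succ_iff.1 (mem_range.1 hk)
    have e1 : (-1 : ℂ) ^ (c - k) = (-1) ^ c * (-1) ^ k := by
      obtain ⟨d, rfl⟩ := Nat.exists_eq_add_of_le' hk'
      rw [Nat.add_sub_cancel, pow_add, mul_assoc, ← mul_pow]
      simp
    rw [Nat.add_sub_cancel, Nat.sub_sub_self hk', add_sub_cancel, ex_pow, mul_neg, e1, map_mul]
    linear_combination (-(PowerSeries.C ((-1 : ℂ) ^ c) * PowerSeries.C ((-1 : ℂ) ^ k) * ex (-D) *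
      Ex (g k) * ex (-(k * ζ)))) * hU
  obtain ⟨w, hw⟩ := PowerSeries.X_pow_dvd_iff.2 (hx ζ).1
  have h3 : PowerSeries.constantCoeff w = ∏ j, (ζ - x j) := by
    rw [← (hx ζ).2, hw, PowerSeries.coeff_X_pow_mul', if_pos le_rfl, Nat.sub_self,
      PowerSeries.coeff_zero_eq_constantCoeff_apply]
  have h4 := congrArg (PowerSeries.coeff c) (h1.trans h2)
  rw [hw, mul_left_comm, PowerSeries.coeff_X_pow_mul', if_pos le_rfl, Nat.sub_self,
    PowerSeries.coeff_zero_eq_constantCoeff_apply, map_mul, map_mul, map_mul, h3,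
    PowerSeries.constantCoeff_C, constantCoeff_ex, constantCoeff_Ex, map_sum] at h4
  simp only [map_sum, vl5_term _ ζ _ _ (hv _ _)] at h4
  rw [← sum_subset (s₁ := range (c + 1)) (range_subset_range.2 (by omega)) (fun p _ hp =>
    sum_eq_zero fun r _ => if_neg (by rw [mem_range] at hp; omega)),
    sum_congr rfl (g := fun p => (-1) ^ c * (vA c D (fun m => g (c - m)) p (c - p) * ζ ^ (c - p)))
      fun p hp => by
        rw [mem_range] at hp
        rw [sum_eq_single (c - p) (fun r _ hr => if_neg (by omega))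
          (fun hr => absurd (mem_range.2 (by omega)) hr), if_pos (by omega)],
    ← mul_sum, mul_one, mul_assoc] at h4
  exact mul_left_cancel₀ (pow_ne_zero c (neg_ne_zero.2 one_ne_zero)) h4

theorem vA_low {D : ℕ} {g : ℕ → Polynomial ℂ}
    (hD : ∀ m ∈ range (c + 1), (g (c - m)).natDegree ≤ D) {U : PowerSeries ℂ}
    (hU : Ex (g 0) * U = 1) {x : Fin c → ℂ} (hx : Ch c (fun k => Ex (g k) * U) x)
    (hv : ∀ p r, p + r < c → vA c D (fun m => g (c - m)) p r = 0) (p : ℕ) (hp : p ≤ c) :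
    vA c D (fun m => g (c - m)) p (c - p) =
      (g 0).eval 1 * (∏ i, (1 - Polynomial.C (x i) * Polynomial.X)).coeff p := by
  have h1 : ∑ q ∈ range (c + 1), Polynomial.C (vA c D (fun m => g (c - m)) q (c - q)) *
      Polynomial.X ^ (c - q) =
      Polynomial.C ((g 0).eval 1) * ∏ j, (Polynomial.X + Polynomial.C (-x j)) := by
    refine Polynomial.funext fun ζ => ?_
    simp only [Polynomial.eval_finsetSum, Polynomial.eval_mul, Polynomial.eval_C,
      Polynomial.eval_pow, Polynomial.eval_X, Polynomial.eval_prod, Polynomial.eval_add,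
      ← sub_eq_add_neg]
    exact vl5_eval hD hU hx hv ζ
  have h2 := congrArg (fun P => P.coeff (c - p)) h1
  simp only [Polynomial.finsetSum_coeff, Polynomial.coeff_C_mul, Polynomial.coeff_X_pow] at h2
  rw [sum_eq_single p (fun q hq hqp => by
      rw [mem_range] at hq
      rw [if_neg (by omega), mul_zero]) (fun h => absurd (mem_range.2 (by omega)) h), if_pos rfl,
    mul_one, Finset.prod_X_add_C_coeff _ _ (by simp), card_univ, Fintype.card_fin,
    Nat.sub_sub_self hp] at h2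
  rw [h2, vl5_coeff]

theorem HP.roots (h : HP H N a₀ π) (hc : 1 ≤ c) (hn : 2 * c ≤ n + 1)
    (h1 : ∀ i j, n < i → π i j = 0) (hd : ∀ i j, n + c ≤ i + j → π i j = 0)
    (h0 : π n (c - 1) ≠ 0) {g : ℕ → Polynomial ℂ} {U : PowerSeries ℂ} (hU : Ex (g 0) * U = 1)
    {x : Fin c → ℂ} (hx : Ch c (fun k => Ex (g k) * U) x)
    (h2 : ∀ b, PEq ((1 - PowerSeries.X) ^ c * ∑ m ∈ range (c + 1),
      (-1) ^ m * (g (c - m) : PowerSeries ℂ) * PowerSeries.mk fun a => (H a (b + c - m) : ℂ)) 0)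
    (k : ℕ) (k1 : 1 ≤ k) (k2 : k + c ≤ n) :
    ∑ p ∈ range (k + 1), (∏ i, (1 - Polynomial.C (x i) * Polynomial.X)).coeff p *
      (π (n - (k - p)) (c - 1 + (k - p)) : ℂ) = 0 := by
  obtain ⟨D, hD⟩ : ∃ D, ∀ m ∈ range (c + 1), (g (c - m)).natDegree ≤ D :=
    ⟨(range (c + 1)).sup fun m => (g (c - m)).natDegree, fun m hm =>
      le_sup (f := fun m => (g (c - m)).natDegree) hm⟩
  have hx' : ∀ i j, n < i → ((π i j : ℤ) : ℂ) = 0 := fun i j hi => by rw [h1 i j hi, Int.cast_zero]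
  have hd' : ∀ i j, n + c ≤ i + j → ((π i j : ℤ) : ℂ) = 0 := fun i j hi => by
    rw [hd i j hi, Int.cast_zero]
  have a0 := vA_high (L := fun m => g (c - m)) hD
  have a3 := h.array' (L := fun m => g (c - m)) hD h2
  have hv := ra2_low (π := fun i j => ((π i j : ℤ) : ℂ)) hn hx' hd' (Int.cast_ne_zero.2 h0) a0 a3
    c le_rfl
  have h3 := ra2_gen (π := fun i j => ((π i j : ℤ) : ℂ)) hx' hd' a0 a3 (w := c) (k := k) hc le_rfl
    k2 (by omega) hv
  have he : (g 0).eval 1 ≠ 0 := by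
    have h4 := congrArg PowerSeries.constantCoeff hU
    rw [map_mul, constantCoeff_Ex, map_one] at h4
    exact left_ne_zero_of_mul_eq_one h4
  refine (mul_eq_zero.1 ?_).resolve_left he
  rw [mul_sum, ← h3]
  refine sum_congr rfl fun p _ => ?_
  split_ifs with hp
  · rw [vA_low hD hU hx hv p hp, mul_assoc]
  · rw [vl5_coeff, powersetCard_eq_empty.2 (by rw [card_univ, Fintype.card_fin]; omega), sum_empty,
      zero_mul, mul_zero]

end Pool.Agent.NEF
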