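import Pool.Agent.P.MP_66e591_ag.VL4
import Pool.Agent.P.MP_66e591_ag.VL5
import Pool.Agent.P.MP_66e591_ag.RMain

/-! A nef tangent bundle bounds the Chern roots of the normal bundle. -/

noncomputable section
namespace Pool.Agent.NEF
open Finset Module Pool.Agent.HCF

theorem root_max {c K : ℕ} (hK : c ≤ K + 1) {x : Fin c → ℂ} {δ : ℕ → ℝ} (hδ : ∀ k ≤ K, 0 ≤ δ k)
    (h : ∀ k, 1 ≤ k → k ≤ K → ∑ p ∈ range (k + 1),
      (∏ i, (1 - Polynomial.C (x i) * Polynomial.X)).coeff p * (δ (k - p) : ℂ) = 0)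
    {i : Fin c} (hi' : ∀ j, ‖x j‖ ≤ ‖x i‖) :
    δ 0 * ‖x i‖ ^ K ≤ ∑ m ∈ range c, ((c - 1).choose m : ℝ) * ‖x i‖ ^ m * δ (K - m) := by
  have hb := ra3_bound (norm_nonneg (x i)) hi' (univ.erase i)
  rw [card_erase_of_mem (mem_univ i), card_univ, Fintype.card_fin] at hb
  have g0 : (∏ j ∈ univ.erase i, (1 - Polynomial.C (x j) * Polynomial.X) : Polynomial ℂ).coeff 0 =
      1 := by
    rw [Polynomial.coeff_zero_eq_eval_zero, Polynomial.eval_prod]
    simp
  rw [← mul_prod_erase _ _ (mem_univ i)] at h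
  generalize (∏ j ∈ univ.erase i, (1 - Polynomial.C (x j) * Polynomial.X) : Polynomial ℂ) = G
    at h hb g0
  have hu : ∀ k, k ≤ K →
      ∑ m ∈ range (k + 1), G.coeff m * (δ (k - m) : ℂ) = δ 0 * x i ^ k := by
    intro k
    induction k with
    | zero => intro _; simp [g0]
    | succ k ih =>
      intro hk
      have h1 := h (k + 1) (by omega) hk
      have h2 := ih (by omega)
      rw [sum_range_succ'] at h1 ⊢
      simp only [ra3_succ, ra3_zero] at h1
      simp only [sub_mul, sum_sub_distrib, mul_assoc, ← mul_sum, Nat.add_sub_add_right] at h1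
      simp only [Nat.add_sub_add_right]
      rw [h2] at h1
      linear_combination h1
  have h1 : δ 0 * ‖x i‖ ^ K = ‖∑ m ∈ range (K + 1), G.coeff m * (δ (K - m) : ℂ)‖ := by
    rw [hu K le_rfl, norm_mul, norm_pow, Complex.norm_real,
      Real.norm_of_nonneg (hδ 0 (Nat.zero_le K))]
  rw [h1]
  refine (norm_sum_le _ _).trans ?_
  have hc := i.pos
  rw [sum_subset (range_subset_range.2 hK) (fun m _ hm => by
    rw [Nat.choose_eq_zero_of_lt (by rw [mem_range] at hm; omega)]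
    simp)]
  refine sum_le_sum fun m _ => ?_
  have h2 := hδ (K - m) (Nat.sub_le K m)
  rw [norm_mul, Complex.norm_real, Real.norm_of_nonneg h2]
  exact mul_le_mul_of_nonneg_right (hb m) h2

variable {M : ℕ} {I : Ideal (SS M)} {c n : ℕ}

theorem root_bound (hX : IsManifold I c) (hM : M = n + 1 + c) (hN : TangentNef I) (hc : 1 ≤ c)
    (hn : 8 * c ≤ n) {S : NS M n (cone I) (Pol I) (Pol2 I)} (hE : Expl I S.toNS0)
    {g : ℕ → Polynomial ℂ} (hg : ∀ k, Nm n (g k) (S.HS k)) (hne : (g 0).eval 1 ≠ 0)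
    {U : PowerSeries ℂ} (hU : Ex (g 0) * U = 1) {x : Fin c → ℂ}
    (hx' : Ch c (fun k => Ex (g k) * U) x) (j : Fin c) : ‖x j‖ ≤ 3 := by
  obtain ⟨n1, n2⟩ := numer' hX hM hc (by omega) hE hg hne
  have hJ : MH (JZ (WW Unit I)) := MH_JZ (WW_smul hX)
  have e : H2 (JZ (WW Unit I)) = HW I := funext fun a => funext fun b => HJ_JZ _ _
  obtain ⟨N, a₀, π, hP⟩ := exists_HP (HW I) (fun i j => e ▸ H2_pos i j _ hJ) (e ▸ H2_nil hJ)
  have hx := hP.xdeg n1
  obtain ⟨C, hC⟩ := HW_key hX hM hN (k := 60) (by norm_num)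
  have key := hP.key (HW_lower hX) (by norm_num) hC
  have hd := hP.deg hc hx (by norm_num) key
  have h1 := hP.one_le hc hx hd fun a b =>
    (Nat.mul_le_mul_right _ (HR_lower hX hM a)).trans (HW_lower hX a b)
  have hb := fun i => hP.bound hc hx hd key 20 210 (i := i)
  obtain ⟨i, -, hi⟩ := exists_max_image (univ : Finset (Fin c)) (fun i => ‖x i‖) ⟨j, mem_univ _⟩
  have r2 := root_max (K := n - c) (δ := fun k => (π (n - k) (c - 1 + k) : ℝ)) (by omega)
    (fun k hk => by exact_mod_cast (hb k (by omega)).1)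
    (fun k h2 h3 => by
      simpa using hP.roots hc (by omega) hx hd (by omega) hU hx' n2 k h2 (by omega))
    fun j => hi j (mem_univ j)
  have h3 := arith3 (δ := fun k => (π (n - k) (c - 1 + k) : ℝ)) hc hn
    (by exact_mod_cast (show 0 < π (n - 0) (c - 1 + 0) from h1))
    (fun i hi => by
      have h4 := (hb i hi).2
      norm_num at h4 ⊢
      exact h4) (norm_nonneg _) r2
  exact (hi j (mem_univ j)).trans h3.le

end Pool.Agent.NEF
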