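import Pool.Agent.P.MP_66e591_ag.VA8
import Pool.Agent.P.MP_66e591_ag.VL6
import Pool.Agent.P.MP_66e591_ag.MainF
import Pool.Agent.P.MP_f644fa_ag.QMain

/-! Fano manifolds with nef tangent bundle whose dimension is at least linear in the
codimension. -/

noncomputable section
namespace Pool.Agent.NEF
open Finset Module Polynomial Pool.Agent.HCF

variable {M : ℕ} {I : Ideal (SS M)} {c n : ℕ}

theorem lin_num (hX : IsManifold I c) (hM : M = n + 1 + c) (hF : IsFano I c) (hT : TangentNef I)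
    (hc : 1 ≤ c) (hn : 1000 * c ≤ n) :
    ∃ S g, Nf I c n S g ∧ ∃ β : Fin c → ℕ, Monotone β ∧ (∀ i, β i ≤ 3) ∧
      (∀ k, (1 - X) ^ (n + 1 - c) ∣
        g k - g 0 * ∑ J ∈ powersetCard k (univ : Finset (Fin c)), X ^ (∑ j ∈ J, β j)) ∧
      (1 - PowerSeries.X) ^ M *
        PowerSeries.mk (fun m : ℕ => (finrank ℂ (Gr (secRing I) m) : ℂ)) =
          ∏ i, (1 - PowerSeries.X ^ (β i + 1)) := by
  have n2 : 2 * c ≤ n := by omega
  obtain ⟨h, hnn, hd, hh⟩ := fano_h hX hM (by omega) hF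
  obtain ⟨S, g, hN, e0, hz, hg⟩ := exists_Nf hX hM (by omega) hh
  obtain ⟨U, hU⟩ : ∃ U : PowerSeries ℂ, Ex (g 0) * U = 1 :=
    ⟨_, PowerSeries.mul_inv_cancel _ (by rw [constantCoeff_Ex]; exact hN.ne)⟩
  have F := ls1_fem (g 0) g U hU (S.num1 hM g hN.nm)
  have z : ∀ k, c < k → Ex (g k) * U = 0 := fun k hk => by rw [hz k hk, map_zero, zero_mul]
  have hD : (g 0).eval 1 = ((h.eval 1 : ℤ) : ℂ) := by
    rw [e0, eval_one_map]
    rfl
  have hne : h ≠ 0 := fun k => hN.ne (by rw [hD, k]; simp)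
  have hpos : 0 < h.eval 1 := by
    rw [eval_eq_sum_range]
    simp only [one_pow, mul_one]
    exact sum_pos' (fun i _ => hnn i) ⟨h.natDegree, self_mem_range_succ _,
      lt_of_le_of_ne (hnn _) (leadingCoeff_ne_zero.2 hne).symm⟩
  obtain ⟨x, hx⟩ := fem_exists' F hc (by omega) (by simp only [hU, map_one]) z (by
    have a1 := rank_one hX hM (by omega) (hg 0) (hg 1)
    have a2 := congrArg PowerSeries.constantCoeff hU
    rw [map_mul, constantCoeff_Ex, map_one, hD] at a2
    have a3 : (0 : ℝ) < (h.eval 1 : ℤ) := by exact_mod_cast hpos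
    have a4 : (g 1).eval 1 = ((h.eval 1 : ℤ) : ℂ) *
        PowerSeries.constantCoeff (Ex (g 1) * U) := by
      rw [map_mul, constantCoeff_Ex]
      linear_combination (-(g 1).eval 1) * a2
    rw [hD, a4] at a1
    simp only [Complex.sub_re, Complex.mul_re, Complex.intCast_re, Complex.intCast_im,
      Complex.natCast_re, Complex.natCast_im, zero_mul, sub_zero, mul_zero] at a1
    nlinarith)
  have ru := fem_unique F (by simp only [hU, sub_self, dvd_zero]) z hx
  have rv : ∀ k, (PowerSeries.X : PowerSeries ℂ) ^ (n + 1 - c) ∣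
      esy (fun i => x i + 1) k * Ex (g 0) - Ex (X ^ k * g k) := fun k => by
    have a1 := (ru k).mul_left (-(ex k * Ex (g 0)))
    refine a1.trans (dvd_of_eq ?_)
    rw [esy_succ, map_mul, Ex_X_pow]
    linear_combination (-(ex k * Ex (g k))) * hU
  obtain ⟨R, hR, hd'⟩ := S.exists_ring hM hN.nm e0 hN.ne _ rv
  have A : Ari c n (fun i => x i + 1) h := ⟨hnn, hne, hd, by
    have N2 := S.num2 hM g hN.nm
    have e : ∑ k ∈ range (M + 1), (-X) ^ k * g k = ∑ k ∈ range (c + 1), (-X) ^ k * g k := by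
      symm
      refine sum_subset (range_subset_range.2 (by omega)) fun k _ hk => ?_
      rw [hz k (by simpa [Nat.lt_succ_iff] using hk), mul_zero]
    rw [e] at N2
    have a1 := ((Ex_dvd_iff _ _).2 ((pow_dvd_pow _ (Nat.sub_le (n + 1) c)).trans N2)).mul_right U
    have a2 : (PowerSeries.X : PowerSeries ℂ) ^ (n + 1 - c) ∣ ∑ k ∈ range (c + 1),
        (-ex 1) ^ k * (Ex (g k) * U - esy x k) := dvd_sum fun k _ => (ru k).mul_left _
    have a3 : ∏ i, (1 - ex (x i + 1)) = ∑ k ∈ range (c + 1), (-ex 1) ^ k * esy x k := by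
      have := gz_esy x (-1)
      simp only [sub_neg_eq_add] at this
      rw [← this, gz]
      refine sum_congr rfl fun k _ => ?_
      rw [neg_pow (ex 1), ex_pow, map_pow, map_neg, map_one, mul_neg, neg_neg]
      ring
    have a4 : Ex X = ex 1 := by simpa using Ex_X_pow 1
    refine (dvd_add a1 a2).trans (dvd_of_eq ?_)
    rw [a3, Ez_apply, ← e0]
    simp only [map_sub, map_mul, map_pow, map_one, map_sum, map_neg, a4, sub_mul, sum_mul, mul_sub,
      sum_sub_distrib, mul_assoc]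
    linear_combination (Ex (g 0) * (1 - ex 1) ^ c) * hU⟩
  have h3 := root_bound hX hM hT hc (by omega) hN.expl hN.nm hN.ne hU hx
  obtain ⟨b, hb, -, he⟩ := arith_lin A hR hd' h3 hc hn
  have hxb : x = fun i => (b i : ℂ) := funext fun i => add_right_cancel (hb i)
  refine ⟨S, g, hN, b ∘ Tuple.sort b, Tuple.monotone_sort b, fun i => ?_, fun k => ?_, ?_⟩
  · have a1 := h3 (Tuple.sort b i)
    rw [hxb, Complex.norm_natCast] at a1
    exact_mod_cast a1
  · rw [← Ex_dvd_iff]
    have a1 := (ru k).mul_left (Ex (g 0))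
    rw [hxb, ← ls1_perm _ (Tuple.sort b)] at a1
    have e : Ex (g k - g 0 * ∑ J ∈ powersetCard k (univ : Finset (Fin c)),
        X ^ (∑ j ∈ J, (b ∘ Tuple.sort b) j)) =
        Ex (g 0) * (Ex (g k) * U - esy (fun j => (b (Tuple.sort b j) : ℂ)) k) := by
      simp only [map_sub, map_mul, map_sum, Ex_X_pow, esy, Nat.cast_sum, Function.comp]
      linear_combination (-Ex (g k)) * hU
    rwa [e]
  · have h2 := congrArg (fun p : ℤ[X] => ((p.map (Int.castRingHom ℂ) : ℂ[X]) : PowerSeries ℂ)) he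
    simp only [Polynomial.map_mul, Polynomial.map_prod, Polynomial.map_pow, Polynomial.map_sub,
      Polynomial.map_one, map_X, Polynomial.coe_mul, main_coe_prod, Polynomial.coe_sub,
      Polynomial.coe_pow, Polynomial.coe_one, coe_X, hh] at h2
    have e2 : PowerSeries.mk (fun m : ℕ => (finrank ℂ (Gr (secRing I) m) : ℂ)) = HS I 0 := by
      simp only [HS, finrank_Fm_zero]
    rw [e2, show (1 - PowerSeries.X : PowerSeries ℂ) ^ M =
      (1 - PowerSeries.X) ^ (n + 1 + c) from congrArg _ hM]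
    refine Eq.trans ?_ (h2.trans (Equiv.prod_comp (Tuple.sort b)
      fun i => (1 - PowerSeries.X ^ (b i + 1) : PowerSeries ℂ)).symm)
    ring

theorem main_linear (hX : IsManifold I c) (hM : M = n + 1 + c) (hN : TangentNef I)
    (hF : IsFano I c) (hn : 1000 * c ≤ n ∨ c * (2 ^ (c - 1) + 1) ^ 2 ≤ n) :
    (∃ (f : Fin c → SS M) (d : Fin c → ℕ), (∀ i, (f i).IsHomogeneous (d i)) ∧
      I = Ideal.span (Set.range f) ∧ (∀ i, d i = 1 ∨ d i = 2) ∧
        ∀ i j, d i = 2 → d j = 2 → i = j) ∧ HasCells (cone I) := by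
  rcases hn with hn | hn
  · refine of_ci hX hM hN (by omega) ?_
    rcases Nat.eq_zero_or_pos c with rfl | hc
    · exact lmain_zero hX
    obtain ⟨S, g, hS, β, h1, h2, h3, h4⟩ := lin_num hX hM hF hN hc hn
    have h5 : ∑ i, β i ≤ c * 3 := by
      simpa using sum_le_card_nsmul univ β 3 fun i _ => h2 i
    obtain ⟨f, h6, h7⟩ := Nsp.main ⟨hS.expl, hS.sub, hS.nm, hS.ne, h3⟩ hX hM (by omega) h1
      (by omega) (Or.inr fun i => by omega) h4
    exact ⟨f, _, h6, h7⟩
  · exact main_fano hX hM hN hF hn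

end Pool.Agent.NEF
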