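import Pool.Agent.P.MP_66e591_ag.MainP

/-! Manifolds of small codimension with nef tangent bundle, polynomial range. -/

namespace Pool.Agent.P.MP_66e591_ag.VariantPicardOne
open Pool.Agent.HCF Pool.Agent.NEF

/-- Let `X ⊆ ℙ^(n+c)` be a manifold of dimension `n` and codimension `c` with nef tangent bundle,
`Pic X = ℤ H` and `n ≥ 6 c^3 + 12 c^2`.  Then `X` is a linear space or a quadric in a linear
space, and it has a cellular decomposition. -/
theorem result (n c : ℕ) (b : ℤ) (I : Ideal (MvPolynomial (Fin (n + 1 + c)) ℂ))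
    (hX : IsManifold I c) (hN : TangentNef I) (hPic : UniqueFactorizationMonoid (secRing I))
    (hK : CanonicalIs I c b) (hn : 6 * c ^ 3 + 12 * c ^ 2 ≤ n) :
    (∃ (f : Fin c → MvPolynomial (Fin (n + 1 + c)) ℂ) (d : Fin c → ℕ),
      (∀ i, (f i).IsHomogeneous (d i)) ∧ I = Ideal.span (Set.range f) ∧
        (∀ i, d i = 1 ∨ d i = 2) ∧ ∀ i j, d i = 2 → d j = 2 → i = j) ∧ HasCells (cone I) :=
  main_pic hX rfl hN hK hn

end Pool.Agent.P.MP_66e591_ag.VariantPicardOne
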