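import Pool.Agent.P.MP_66e591_ag.A5

/-! The twist given by the canonical class. -/

noncomputable section
namespace Pool.Agent.NEF
open MvPolynomial Module Finset Pool.Agent.HCF

variable {M : ℕ} {I : Ideal (SS M)} {c : ℕ}

theorem w1_line (G : SS M) (x : VV M) : ∃ q : Polynomial ℂ,
    (∀ τ : ℂ, q.eval τ = eval (τ • x) G) ∧ ∀ d, q.coeff d = eval x (homogeneousComponent d G) := by
  refine ⟨∑ d ∈ range (G.totalDegree + 1),
    Polynomial.monomial d (eval x (homogeneousComponent d G)), fun τ => ?_, fun d => ?_⟩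
  · conv_rhs => rw [← sum_homogeneousComponent G]
    rw [Polynomial.eval_finsetSum, map_sum]
    refine sum_congr rfl fun d _ => ?_
    rw [Polynomial.eval_monomial, eval_smul_hom (homogeneousComponent_isHomogeneous d G), mul_comm]
  · rw [Polynomial.finsetSum_coeff]
    simp only [Polynomial.coeff_monomial]
    rw [sum_ite_eq']
    split_ifs with h
    · rfl
    · rw [homogeneousComponent_eq_zero d G (by simpa using h), map_zero]

theorem w1_hom (hX : IsManifold I c) {α : Type} [Fintype α] {s e : ℕ} (ν : α → cone I → ℂ)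
    (h2 : ∀ J, IsHom (s : ℤ) (ν J)) (j : Fin M) (G : α → SS M)
    (hG : ∀ x : cone I, x.1 j ^ (e + s) = ∑ J, eval x.1 (G J) * ν J x) (x : cone I) :
    x.1 j ^ (e + s) = ∑ J, eval x.1 (homogeneousComponent e (G J)) * ν J x := by
  choose q hq1 hq2 using fun J => w1_line (G J) x.1
  have hP : Polynomial.monomial (e + s) (x.1 j ^ (e + s)) =
      ∑ J, q J * Polynomial.X ^ s * Polynomial.C (ν J x) := by
    refine Polynomial.eq_of_infinite_eval_eq _ _
      ((Set.finite_singleton (0 : ℂ)).infinite_compl.mono fun τ hτ => ?_)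
    have hτ' : τ ≠ 0 := hτ
    have h := hG ⟨τ • x.1, hX.smul_mem x.2 hτ'⟩
    show Polynomial.eval τ _ = Polynomial.eval τ _
    rw [Polynomial.eval_monomial, Polynomial.eval_finsetSum, ← mul_pow, mul_comm]
    refine h.trans (sum_congr rfl fun J _ => ?_)
    rw [h2 J x ⟨τ • x.1, hX.smul_mem x.2 hτ'⟩ τ rfl, zpow_natCast, Polynomial.eval_mul,
      Polynomial.eval_mul, Polynomial.eval_pow, Polynomial.eval_X, Polynomial.eval_C, hq1,
      mul_assoc]
  have h := congrArg (fun P => Polynomial.coeff P (e + s)) hP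
  simp only [Polynomial.coeff_monomial_same, Polynomial.finsetSum_coeff, Polynomial.coeff_mul_C,
    Polynomial.coeff_mul_X_pow, hq2] at h
  exact h

/-- homogeneous Nullstellensatz for sections -/
theorem ns_sec (hX : IsManifold I c) {α : Type} [Fintype α] {s : ℕ} (ν : α → cone I → ℂ)
    (h1 : ∀ J, ν J ∈ secRing I) (h2 : ∀ J, IsHom (s : ℤ) (ν J)) (h3 : ∀ x, ∃ J, ν J x ≠ 0) :
    ∃ e, ∀ j, ∃ g : α → SS M, (∀ J, (g J).IsHomogeneous e) ∧
      ∀ x : cone I, x.1 j ^ (e + s) = ∑ J, eval x.1 (g J) * ν J x := by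
  choose k p hp using h1
  have hA : ∀ x ∈ cone I, ∃ g ∈ I ⊔ Ideal.span (Set.range fun a : α × Fin M => p a.1 a.2),
      eval x g ≠ 0 := fun x hx => by
    obtain ⟨J, hJ⟩ := h3 ⟨x, hx⟩
    obtain ⟨j, hj⟩ := Function.ne_iff.1 hx.1
    refine ⟨p J j, Ideal.mem_sup_right (Ideal.subset_span ⟨(J, j), rfl⟩), ?_⟩
    rw [← hp J j ⟨x, hx⟩]
    exact mul_ne_zero (pow_ne_zero _ hj) hJ
  choose K hK using hX.ns _ le_sup_left hA
  refine ⟨∑ j, K j, fun j => ?_⟩
  have hle : K j ≤ ∑ j, K j + s :=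
    (single_le_sum (fun _ _ => Nat.zero_le _) (mem_univ j)).trans (Nat.le_add_right _ _)
  obtain ⟨a, ha, b, hb, hab⟩ := Submodule.mem_sup.1 (Ideal.pow_mem_of_pow_mem _ (hK j) hle)
  obtain ⟨G, rfl⟩ := Ideal.mem_span_range_iff_exists_fun.1 hb
  refine ⟨fun J => homogeneousComponent _ (∑ l, G (J, l) * X l ^ k J l),
    fun J => homogeneousComponent_isHomogeneous _ _, w1_hom hX ν h2 j _ fun x => ?_⟩
  have h := congrArg (eval x.1) hab
  rw [map_add, x.2.2 a ha, zero_add, map_pow, eval_X, map_sum, Fintype.sum_prod_type] at h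
  rw [← h]
  refine sum_congr rfl fun J _ => ?_
  rw [map_sum, sum_mul]
  refine sum_congr rfl fun l _ => ?_
  rw [map_mul, map_mul, map_pow, eval_X, ← hp J l x, mul_assoc]

/-- the conormal space has a basis of `c` elements -/
theorem exists_cobasis (hX : IsManifold I c) {x : VV M} (hx : x ∈ cone I) :
    ∃ η : Fin c → VV M, LinearIndependent ℂ η ∧
      ∀ θ, θ ∈ conormal I x ↔ θ ∈ Submodule.span ℂ (Set.range η) := by
  obtain ⟨F⟩ := hX.exists_PF hx
  refine ⟨fun i j => eval x (pderiv j (F.f i)), ?_, fun θ => ⟨fun hθ => ?_, fun hθ => ?_⟩⟩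
  · refine Fintype.linearIndependent_iff.2 fun u hu k => ?_
    have h1 : ∀ j, ∑ i, u i * eval x (pderiv j (F.f i)) = 0 := fun j => by
      simpa using congrFun hu j
    have h2 : ∑ i, u i * eval x (∑ j, pderiv j (F.f i) * F.b k j) = 0 := by
      simp only [map_sum, map_mul, mul_sum, ← mul_assoc]
      rw [sum_comm]
      simp only [← sum_mul, h1, zero_mul, sum_const_zero]
    simp only [F.Jb, apply_ite (eval x), map_zero, mul_ite, mul_zero, sum_ite_eq', mem_univ,
      if_true] at h2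
    exact (mul_eq_zero.1 h2).resolve_right F.δ_ne
  · refine (Submodule.mem_span_range_iff_exists_fun ℂ).2
      ⟨fun i => (eval x F.δ)⁻¹ * ∑ j, θ j * eval x (F.b i j), funext fun l => ?_⟩
    have h1 : θ ⬝ᵥ (fun j => eval x (F.t j l)) = 0 := hθ _ (F.t_tan hX hx hx l)
    simp only [dotProduct, F.basic_t, map_sub, apply_ite (eval x), map_zero, map_sum, map_mul,
      mul_sub, mul_ite, mul_zero, sum_sub_distrib, sum_ite_eq', mem_univ, if_true, mul_sum] at h1
    rw [sum_comm, sub_eq_zero] at h1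
    have hδ := F.δ_ne
    simp only [Finset.sum_apply, Pi.smul_apply, smul_eq_mul, mul_assoc]
    rw [← mul_sum, inv_mul_eq_iff_eq_mul₀ hδ, mul_comm, h1]
    simp only [sum_mul, mul_assoc]
  · induction hθ using Submodule.span_induction with
    | mem y hy =>
      obtain ⟨i, rfl⟩ := hy
      intro v hv
      rw [dotProduct_comm]
      exact hv _ (F.f_mem i)
    | zero => exact fun v _ => zero_dotProduct v
    | add y z _ _ hy hz => exact fun v hv => by rw [add_dotProduct, hy v hv, hz v hv, add_zero]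
    | smul a y _ hy => exact fun v hv => by rw [smul_dotProduct, hy v hv, smul_zero]

theorem w1_red {T U : Submodule ℂ (VV M)} (h : IsCompl U T) (ν : VV M [⋀^Fin c]→ₗ[ℂ] ℂ)
    (h1 : ∀ v i, v i ∈ T → ν v = 0) (v : Fin c → VV M) :
    ν v = ν fun i => (U.projectionOnto T h (v i) : VV M) := by
  have e : v = (fun i => v i - U.projection T h (v i)) +
      fun i => (U.projectionOnto T h (v i) : VV M) := by
    funext i
    exact (sub_add_cancel _ _).symm
  conv_lhs => rw [e]
  rw [ν.map_add_univ, sum_eq_single ∅]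
  · rw [piecewise_empty]
  · intro S _ hS
    obtain ⟨i, hi⟩ := nonempty_iff_ne_empty.2 hS
    refine h1 _ i ?_
    rw [piecewise_eq_of_mem _ _ _ hi]
    exact Submodule.sub_projection_mem h _
  · exact fun h => absurd (mem_univ _) h

/-- alternating forms of degree `c` that kill a subspace of codimension `c` are proportional -/
theorem alt_prop {T : Submodule ℂ (VV M)} (hT : finrank ℂ T + c = M)
    (ν ω : VV M [⋀^Fin c]→ₗ[ℂ] ℂ) (hν : ν ≠ 0) (h1 : ∀ v i, v i ∈ T → ν v = 0)
    (h2 : ∀ v i, v i ∈ T → ω v = 0) : ∃ t : ℂ, ∀ v, ω v = t * ν v := by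
  obtain ⟨U, hU⟩ := T.exists_isCompl
  have hd : finrank ℂ U = c := by
    have := Submodule.finrank_add_eq_of_isCompl hU
    rw [finrank_fin_fun] at this
    omega
  let b := finBasisOfFinrankEq ℂ U hd
  have key : ∀ μ : VV M [⋀^Fin c]→ₗ[ℂ] ℂ, (∀ v i, v i ∈ T → μ v = 0) → ∀ v,
      μ v = (μ fun i => (b i : VV M)) * b.det fun i => U.projectionOnto T hU.symm (v i) := by
    intro μ hμ v
    rw [w1_red hU.symm μ hμ v]
    exact DFunLike.congr_fun ((μ.compLinearMap U.subtype).eq_smul_basis_det b)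
      fun i => U.projectionOnto T hU.symm (v i)
  have h0 : (ν fun i => (b i : VV M)) ≠ 0 := fun h0 => hν (AlternatingMap.ext fun v => by
    rw [key ν h1 v, h0, zero_mul, AlternatingMap.zero_apply])
  refine ⟨(ω fun i => (b i : VV M)) / ν fun i => (b i : VV M), fun v => ?_⟩
  rw [key ω h2 v, key ν h1 v, ← mul_assoc, div_mul_cancel₀ _ h0]

end Pool.Agent.NEF
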