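import Pool.Agent.P.MP_66e591_ag.W1

/-! Complete intersections. -/

noncomputable section
namespace Pool.Agent.NEF
open MvPolynomial Module Finset Pool.Agent.HCF

variable {M : ℕ} {I : Ideal (SS M)} {c : ℕ}

/-- the differential -/
def dif (f : SS M) (x : VV M) : VV M := fun j => eval x (pderiv j f)

theorem w3_span {f : Fin c → SS M} (hI : I = Ideal.span (Set.range f)) {x : VV M}
    (hx : x ∈ cone I) {g : SS M} (hg : g ∈ I) :
    dif g x ∈ Submodule.span ℂ (Set.range fun i => dif (f i) x) := by
  have h0 : ∀ i, eval x (f i) = 0 := fun i => hx.2 _ (hI ▸ Ideal.subset_span ⟨i, rfl⟩)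
  rw [hI] at hg
  obtain ⟨a, rfl⟩ := Ideal.mem_span_range_iff_exists_fun.1 hg
  refine (Submodule.mem_span_range_iff_exists_fun ℂ).2 ⟨fun i => eval x (a i), funext fun j => ?_⟩
  simp only [dif, Finset.sum_apply, Pi.smul_apply, smul_eq_mul, map_sum, Derivation.leibniz,
    map_add, map_mul, h0, zero_mul, add_zero]

theorem ci_indep (hX : IsManifold I c) {f : Fin c → SS M} (hI : I = Ideal.span (Set.range f))
    {x : VV M} (hx : x ∈ cone I) : LinearIndependent ℂ fun i => dif (f i) x := by
  obtain ⟨g, -, hg, hli, -, -⟩ := hX.smooth x hx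
  rw [linearIndependent_iff_card_le_finrank_span, Set.finrank]
  have h1 : Fintype.card (Fin c) = finrank ℂ (Submodule.span ℂ (Set.range fun i => dif (g i) x)) :=
    (finrank_span_eq_card hli).symm
  rw [h1]
  refine Submodule.finrank_mono (Submodule.span_le.2 ?_)
  rintro _ ⟨i, rfl⟩
  exact w3_span hI hx (hg i)

theorem ci_conormal (hX : IsManifold I c) {f : Fin c → SS M} (hI : I = Ideal.span (Set.range f))
    {x : VV M} (hx : x ∈ cone I) (θ : VV M) :
    θ ∈ conormal I x ↔ θ ∈ Submodule.span ℂ (Set.range fun i => dif (f i) x) := by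
  have _ := hX
  have key : ∀ v : VV M, (∀ i, dif (f i) x ⬝ᵥ v = 0) →
      ∀ w ∈ Submodule.span ℂ (Set.range fun i => dif (f i) x), w ⬝ᵥ v = 0 := fun v hv w hw => by
    obtain ⟨t, rfl⟩ := (Submodule.mem_span_range_iff_exists_fun ℂ).1 hw
    simp only [sum_dotProduct, smul_dotProduct, hv, smul_zero, Finset.sum_const_zero]
  constructor
  · intro h
    let L : VV M → VV M →ₗ[ℂ] ℂ := fun w =>
      { toFun := fun v => w ⬝ᵥ v
        map_add' := fun a b => dotProduct_add w a b
        map_smul' := fun r a => dotProduct_smul r w a }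
    have h1 : L θ ∈ Submodule.span ℂ (Set.range fun i => L (dif (f i) x)) := by
      refine mem_span_of_iInf_ker_le_ker fun v hv => ?_
      rw [Submodule.mem_iInf] at hv
      refine h v fun g hg => ?_
      have h2 := key v hv _ (w3_span hI hx hg)
      rw [dotProduct_comm] at h2
      exact h2
    obtain ⟨t, ht⟩ := (Submodule.mem_span_range_iff_exists_fun ℂ).1 h1
    refine (Submodule.mem_span_range_iff_exists_fun ℂ).2 ⟨t, funext fun j => ?_⟩
    have h3 := LinearMap.congr_fun ht (Pi.single j 1)
    simpa [L] using h3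
  · intro h v hv
    refine key v (fun i => ?_) θ h
    rw [dotProduct_comm]
    exact hv _ (hI ▸ Ideal.subset_span ⟨i, rfl⟩)

theorem ci_pos (hX : IsManifold I c) {f : Fin c → SS M} (hI : I = Ideal.span (Set.range f))
    {d : Fin c → ℕ} (hd : ∀ i, (f i).IsHomogeneous (d i)) (i : Fin c) : 1 ≤ d i := by
  obtain ⟨x, hx⟩ := hX.nonempty
  by_contra h
  have h1 := hd i
  rw [show d i = 0 by omega, ← totalDegree_zero_iff_isHomogeneous,
    totalDegree_eq_zero_iff_eq_C] at h1
  refine (ci_indep hX hI hx).ne_zero i (funext fun j => ?_)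
  rw [dif, h1, pderiv_C, map_zero]
  rfl

theorem w3_comp (b l : SS M) {a : ℕ} (hl : l.IsHomogeneous a) (k : ℕ) :
    homogeneousComponent (k + a) (b * l) = homogeneousComponent k b * l := by
  conv_lhs => rw [← sum_homogeneousComponent b, Finset.sum_mul, map_sum]
  have h1 : ∀ e, homogeneousComponent (k + a) (homogeneousComponent e b * l) =
      if k = e then homogeneousComponent e b * l else 0 := by
    intro e
    have h2 : homogeneousComponent e b * l ∈ homogeneousSubmodule (Fin M) ℂ (e + a) :=
      (homogeneousComponent_isHomogeneous e b).mul hl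
    rw [homogeneousComponent_of_mem h2]
    simp only [Nat.add_right_cancel_iff]
  simp only [h1]
  rw [Finset.sum_ite_eq]
  split_ifs with h
  · rfl
  · rw [homogeneousComponent_eq_zero, zero_mul]
    simp only [Finset.mem_range] at h
    omega

/-- a polynomial right inverse of the Jacobian matrix near a point -/
theorem w3_inv {f : Fin c → SS M} {x : VV M} (hli : LinearIndependent ℂ fun i => dif (f i) x)
    (i : Fin c) : ∃ (g : SS M) (b : Fin M → SS M), eval x g ≠ 0 ∧
      ∀ k, ∑ j, b j * pderiv j (f k) = if k = i then g else 0 := by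
  let J0 : Matrix (Fin c) (Fin M) ℂ := Matrix.of fun i j => eval x (pderiv j (f i))
  have hinj : LinearMap.ker (Matrix.vecMulLinear J0) = ⊥ := by
    rw [LinearMap.ker_eq_bot]
    exact Matrix.vecMul_injective_iff.2 hli
  obtain ⟨r, hr⟩ := (Matrix.vecMulLinear J0).exists_leftInverse_of_injective hinj
  let E : Matrix (Fin M) (Fin c) ℂ := Matrix.of fun j k => r (Pi.single j 1) k
  have hE : J0 * E = 1 := by
    ext i k
    have h1 := congrFun (LinearMap.congr_fun hr (Pi.single i 1)) k
    have h2 : Matrix.vecMulLinear J0 (Pi.single i 1) =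
        ∑ j, J0 i j • (Pi.single j 1 : Fin M → ℂ) := by
      funext j
      simp [Finset.sum_apply, Pi.single_apply]
    rw [LinearMap.comp_apply, h2, map_sum] at h1
    simp only [map_smul, Finset.sum_apply, Pi.smul_apply, smul_eq_mul, LinearMap.id_apply] at h1
    rw [Matrix.mul_apply, Matrix.one_apply]
    simp only [E, Matrix.of_apply]
    rw [h1, Pi.single_apply]
    simp [eq_comm]
  let J : Matrix (Fin c) (Fin M) (SS M) := Matrix.of fun i j => pderiv j (f i)
  let E' : Matrix (Fin M) (Fin c) (SS M) := E.map C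
  have hN : (J * E').map (eval x) = 1 := by
    rw [Matrix.map_mul, ← hE]
    congr 1
    ext j k
    simp [E']
  refine ⟨(J * E').det, fun j => (E' * (J * E').adjugate) j i, ?_, fun k => ?_⟩
  · rw [RingHom.map_det, RingHom.mapMatrix_apply, hN, Matrix.det_one]
    exact one_ne_zero
  · have := congrFun (congrFun (Matrix.mul_adjugate (J * E')) k) i
    rw [Matrix.mul_assoc, Matrix.mul_apply] at this
    have h3 : ∑ j, pderiv j (f k) * (E' * (J * E').adjugate) j i =
        if k = i then (J * E').det else 0 := by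
      simpa [J, Matrix.one_apply] using this
    rw [← h3]
    exact Finset.sum_congr rfl fun j _ => mul_comm _ _

theorem w3_pow (hX : IsManifold I c) {f : Fin c → SS M} (hI : I = Ideal.span (Set.range f))
    {d : Fin c → ℕ} (hd : ∀ i, (f i).IsHomogeneous (d i)) (i : Fin c) :
    ∃ e, ∀ j, ∃ b : Fin M → SS M, (∀ l, (b l).IsHomogeneous e) ∧ ∀ k,
      ∑ l, b l * pderiv l (f k) - (if k = i then X j ^ (e + (d i - 1)) else 0) ∈ I := by
  let A : Ideal (SS M) :=
    { carrier := {g | ∃ b : Fin M → SS M, ∀ k,
        ∑ l, b l * pderiv l (f k) - (if k = i then g else 0) ∈ I}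
      zero_mem' := ⟨0, fun k => by simp⟩
      add_mem' := by
        rintro g g' ⟨b, hb⟩ ⟨b', hb'⟩
        refine ⟨b + b', fun k => ?_⟩
        have h := I.add_mem (hb k) (hb' k)
        simp only [Pi.add_apply, add_mul, Finset.sum_add_distrib]
        split_ifs at h ⊢
        · rwa [sub_add_sub_comm] at h
        · simpa only [sub_zero] using h
      smul_mem' := by
        rintro r g ⟨b, hb⟩
        refine ⟨fun l => r * b l, fun k => ?_⟩
        have h := I.mul_mem_left r (hb k)
        simp only [mul_assoc, ← Finset.mul_sum, smul_eq_mul]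
        split_ifs at h ⊢
        · rwa [mul_sub] at h
        · simpa only [sub_zero] using h }
  have hIA : I ≤ A := fun g hg => ⟨0, fun k => by
    split_ifs
    · simpa using hg
    · simp⟩
  have h1 := hX.ns A hIA fun x hx => by
    obtain ⟨g, b, hg, hb⟩ := w3_inv (ci_indep hX hI hx) i
    exact ⟨g, ⟨b, fun k => by rw [hb k, sub_self]; exact I.zero_mem⟩, hg⟩
  choose K hK using h1
  refine ⟨Finset.univ.sup K, fun j => ?_⟩
  set e := Finset.univ.sup K with he
  have h2 : K j ≤ e + (d i - 1) := (Finset.le_sup (Finset.mem_univ j)).trans (Nat.le_add_right _ _)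
  obtain ⟨u, hu⟩ := Nat.exists_eq_add_of_le h2
  have h3 : (X j : SS M) ^ (e + (d i - 1)) ∈ A := by
    rw [hu, pow_add]
    exact Ideal.mul_mem_right _ _ (hK j)
  obtain ⟨b, hb⟩ := h3
  refine ⟨fun l => homogeneousComponent e (b l), fun l => homogeneousComponent_isHomogeneous _ _,
    fun k => ?_⟩
  have h4 := hX.homog _ (hb k) (e + (d k - 1))
  rw [map_sub, map_sum] at h4
  simp only [w3_comp _ _ (hd k).pderiv] at h4
  split_ifs at h4 ⊢ with h
  · subst h
    rwa [homogeneousComponent_of_mem (isHomogeneous_X_pow j _), if_pos rfl] at h4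
  · rwa [map_zero] at h4

theorem twist_ci (hX : IsManifold I c) {f : Fin c → SS M} (hI : I = Ideal.span (Set.range f))
    {d : Fin c → ℕ} (hd : ∀ i, (f i).IsHomogeneous (d i)) (i : Fin c) :
    ∃ D, Twist Unit I (d i - 1) D := by
  classical
  have hc : ∀ z : Option Unit → VV M, ∃ t : Fin c → ℂ, z ∈ WW Unit I →
      ∑ k, t k • dif (f k) (z none) = z (some ()) := fun z => by
    by_cases hz : z ∈ WW Unit I
    · obtain ⟨t, ht⟩ := (Submodule.mem_span_range_iff_exists_fun ℂ).1
        ((ci_conormal hX hI hz.1 _).1 (hz.2 ()))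
      exact ⟨t, fun _ => ht⟩
    · exact ⟨0, fun h => absurd h hz⟩
  choose t ht using hc
  refine ⟨fun z => t z i, ?_, fun x hx => ?_⟩
  · obtain ⟨e, he⟩ := w3_pow hX hI hd i
    refine ⟨e, fun j => ?_⟩
    obtain ⟨b, hb, hk⟩ := he j
    refine ⟨∑ l, (fun z => eval (z none) (b l)) * fun z => z (some ()) l,
      Submodule.sum_mem _ fun l _ => ?_, fun z hz => ?_⟩
    · have h1 := Pd_mul (eval_mem (none : Option Unit) (hb l)) (coord_mem (some ()) l)
      rw [dg_eq]
      simpa using h1
    · have h2 : ∀ k, ∑ l, eval (z none) (b l) * dif (f k) (z none) l =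
          if k = i then z none j ^ (e + (d i - 1)) else 0 := fun k => by
        have h3 := hz.1.2 _ (hk k)
        rw [map_sub, sub_eq_zero, map_sum] at h3
        simp only [map_mul] at h3
        rw [show (∑ l, eval (z none) (b l) * dif (f k) (z none) l) = _ from h3]
        split_ifs
        · rw [map_pow, eval_X]
        · rw [map_zero]
      simp only [Finset.sum_apply, Pi.mul_apply]
      rw [← ht z hz]
      simp only [Finset.sum_apply, Pi.smul_apply, smul_eq_mul, Finset.mul_sum]
      rw [Finset.sum_comm]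
      simp only [mul_left_comm _ (t z _), ← Finset.mul_sum, h2, mul_ite, mul_zero,
        Finset.sum_ite_eq', Finset.mem_univ, if_true]
      exact mul_comm _ _
  · let z : Option Unit → VV M := fun o => o.elim x fun _ => dif (f i) x
    have hz : z ∈ WW Unit I := ⟨hx, fun _ =>
      (ci_conormal hX hI hx _).2 (Submodule.subset_span ⟨i, rfl⟩)⟩
    refine ⟨z, hz, rfl, fun h0 => ?_⟩
    have h1 : ∑ k, (t z k - if k = i then 1 else 0) • dif (f k) x = 0 := by
      simp only [sub_smul, Finset.sum_sub_distrib, ite_smul, one_smul, zero_smul,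
        Finset.sum_ite_eq', Finset.mem_univ, if_true]
      exact sub_eq_zero.2 (ht z hz)
    have h2 := Fintype.linearIndependent_iff.1 (ci_indep hX hI hx) _ h1 i
    have h0' : t z i = 0 := h0
    rw [h0', if_pos rfl, zero_sub, neg_eq_zero] at h2
    exact one_ne_zero h2

end Pool.Agent.NEF
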