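import Pool.Agent.P.MP_66e591_ag.ZN
import Pool.Agent.P.MP_66e591_ag.Main
import Pool.Agent.P.MP_f644fa_ag.Z9
import Pool.Agent.P.MP_f644fa_ag.Z10
import Pool.Agent.P.MP_f644fa_ag.Z11
import Pool.Agent.P.MP_f644fa_ag.ZC

/-! Large index, any codimension. -/

noncomputable section
namespace Pool.Agent.NEF
open MvPolynomial Module Pool.Agent.HCF

variable {M : ℕ} {I : Ideal (SS M)} {c n : ℕ}

theorem main_index (hX : IsManifold I c) (hM : M = n + 1 + c) (hN : TangentNef I) {b : ℤ}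
    (hK : CanonicalIs I c b)
    (hnd : ∀ η : Fin M → ℂ, (∀ y ∈ cone I, ∑ j, η j * y j = 0) → η = 0)
    (hL : ∃ x ∈ cone I, Spn I x) (hn : 1 ≤ n) (hi : 4 * (b + n + 1) + 1 ≤ n) :
    (∃ (f : Fin c → SS M) (d : Fin c → ℕ), (∀ i, (f i).IsHomogeneous (d i)) ∧
      I = Ideal.span (Set.range f) ∧ (∀ i, d i = 1 ∨ d i = 2) ∧
        ∀ i j, d i = 2 → d j = 2 → i = j) ∧ HasCells (cone I) := by
  obtain ⟨s, hs, hC⟩ := exists_can hX hM hn hK
  obtain ⟨x, hx, hS⟩ := hL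
  have hG : Good I c s 1 := fun _ _ _ _ hl => (nef_pos hX hN hl).free hX hC hl
  have h1 : eval x (1 : SS M) ≠ 0 := by simp
  have hi' : 4 * s + 1 ≤ n := by omega
  have hc : c ≤ s := hG.codim_le hX hM hC hi' hnd hx h1 hS
  have hL : ∀ z ∈ cone I, ∃ y, IsLine I z y := fun z hz => by
    by_contra h
    obtain ⟨δ, h2, h3⟩ := no_line_open hX hz h
    exact h2 (hz.2 δ (hG.dense hX hM hn hC hx h1 hS h3))
  exact of_ci hX hM hN (by omega) (lines_main hX hM hK hL (by omega))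

theorem main_index' (hX : IsManifold I c) (hM : M = n + 1 + c) (hN : TangentNef I) {b : ℤ}
    (hK : CanonicalIs I c b)
    (hnd : ∀ η : Fin M → ℂ, (∀ y ∈ cone I, ∑ j, η j * y j = 0) → η = 0)
    (hL : ∃ x ∈ cone I, Spn I x) (hn : 1 ≤ n) (hi : 4 * (b + n + 1) + 1 ≤ n) :
    c ≤ 1 ∧ (∃ f : Fin c → SS M, (∀ i, (f i).IsHomogeneous 2) ∧
      I = Ideal.span (Set.range f)) ∧ HasCells (cone I) := by
  obtain ⟨⟨f, d, h1, h2, h3, h4⟩, h5⟩ := main_index hX hM hN hK hnd hL hn hi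
  have h6 : ∀ i, d i = 2 := fun i => (h3 i).resolve_left fun h => by
    obtain ⟨a, ha, ha'⟩ := dif_one (h ▸ h1 i)
    have h0 : a = 0 := hnd a fun y hy =>
      (ha' y).trans (hy.2 _ (h2 ▸ Ideal.subset_span ⟨i, rfl⟩))
    obtain ⟨x, hx⟩ := hX.nonempty
    exact (ci_indep hX h2 hx).ne_zero i ((ha x).trans h0)
  refine ⟨?_, ⟨f, fun i => h6 i ▸ h1 i, h2⟩, h5⟩
  by_contra hc
  have h7 := h4 ⟨0, by omega⟩ ⟨1, by omega⟩ (h6 _) (h6 _)
  exact absurd (congrArg Fin.val h7) (by simp)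

end Pool.Agent.NEF
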