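import Pool.Agent.P.MP_66e591_ag.S1
import Pool.Agent.P.MP_f644fa_ag.Z1

/-! A nef tangent bundle has no negative quotient on a line. -/

noncomputable section
namespace Pool.Agent.NEF
open MvPolynomial Module Pool.Agent.HCF

variable {M : ℕ} {I : Ideal (SS M)} {c : ℕ}

theorem mem_conormal {x η : Fin M → ℂ} : η ∈ conormal I x ↔ η ∈ Es I x := Iff.rfl

theorem IsSection.natDegree_le {m t : ℕ} {F} (hF : IsSection I m t F) {A : ℕ}
    (a α : Fin M → Polynomial ℂ) (ha : ∀ j, (a j).natDegree ≤ 1) (hα : ∀ j, (α j).natDegree ≤ A) :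
    (aeval (Sum.elim a α) F).natDegree ≤ m + t + m * A := by
  rw [aeval_def, eval₂_eq']
  refine Polynomial.natDegree_sum_le_of_forall_le _ _ fun d hd => ?_
  have h := hF.homog (mem_support_iff.1 hd)
  rw [Finsupp.weight_eq_sum, Fintype.sum_sum_type] at h
  have h1 : ∑ j, d (Sum.inl j) = m + t := by
    have := congrArg Prod.fst h
    simpa [Prod.fst_sum] using this
  have h2 : ∑ j, d (Sum.inr j) = m := by
    have := congrArg Prod.snd h
    simpa [Prod.snd_sum] using this
  refine (Polynomial.natDegree_C_mul_le _ _).trans ((Polynomial.natDegree_prod_le _ _).trans ?_)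
  rw [Fintype.sum_sum_type, ← h1]
  refine add_le_add (Finset.sum_le_sum fun j _ => Polynomial.natDegree_pow_le.trans ?_) ?_
  · exact (Nat.mul_le_mul_left _ (ha j)).trans (mul_one _).le
  · rw [← h2, Finset.sum_mul]
    exact Finset.sum_le_sum fun j _ =>
      Polynomial.natDegree_pow_le.trans (Nat.mul_le_mul_left _ (hα j))

theorem zn_eval (a α : Fin M → Polynomial ℂ) (t : ℂ) (F : MvPolynomial (Fin M ⊕ Fin M) ℂ) :
    (aeval (Sum.elim a α) F).eval t =
      eval (Sum.elim (fun j => (a j).eval t) fun j => (α j).eval t) F := by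
  induction F using MvPolynomial.induction_on with
  | C r => simp
  | add p q hp hq => simp only [map_add, Polynomial.eval_add, hp, hq]
  | mul_X p k hp =>
    simp only [map_mul, Polynomial.eval_mul, hp, aeval_X, eval_X]
    cases k <;> rfl

theorem zn_zero {P Q : Polynomial ℂ} {N : ℕ} {u : ℂ} (h : ∀ t, P.eval t = u * t ^ N * Q.eval t)
    (hd : P.natDegree < N) : P = 0 := by
  refine Polynomial.eq_zero_of_dvd_of_natDegree_lt (p := Polynomial.X ^ N)
    ⟨Polynomial.C u * Q, Polynomial.funext fun t => ?_⟩ (by rwa [Polynomial.natDegree_X_pow])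
  rw [h]
  simp only [Polynomial.eval_mul, Polynomial.eval_pow, Polynomial.eval_X, Polynomial.eval_C]
  ring

theorem nef_pos (hX : IsManifold I c) (hN : TangentNef I) {x y : Fin M → ℂ}
    (hl : IsLine I x y) : Pos I x y := by
  intro A α β hα hE t0
  by_contra hn
  let a : Fin M → Polynomial ℂ := fun j => Polynomial.C (y j) * Polynomial.X + Polynomial.C (x j)
  have ha : ∀ j, (a j).natDegree ≤ 1 := fun j => Polynomial.natDegree_linear_le
  have ea : ∀ t : ℂ, (fun j => (a j).eval t) = x + t • y := fun t => funext fun j => by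
    simp [a]; ring
  have ea' : ∀ (t : ℂ) j, (a j).eval t = (x + t • y) j := fun t j => congrFun (ea t) j
  have h1 : ∀ t : ℂ, (∑ j, α j * a j).eval t = -1 * t ^ (A + 2) * (∑ j, β j * a j).eval t := by
    intro t
    have := hE t _ (hX.self_mem_tang (hl.mem_add t))
    simp only [add_mul, Finset.sum_add_distrib, mul_assoc, ← Finset.mul_sum] at this
    simp only [Polynomial.eval_finsetSum, Polynomial.eval_mul, ea']
    linear_combination this
  have hU : ∑ j, α j * a j = 0 := zn_zero h1 (Nat.lt_succ_of_le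
    (Polynomial.natDegree_sum_le_of_forall_le _ _ fun j _ =>
      Polynomial.natDegree_mul_le.trans (add_le_add (hα j) (ha j))))
  have hW : ∑ j, β j * a j = 0 := by
    have : Polynomial.X ^ (A + 2) * ∑ j, β j * a j = 0 := Polynomial.funext fun t => by
      have := h1 t
      rw [hU, Polynomial.eval_zero] at this
      rw [Polynomial.eval_mul, Polynomial.eval_pow, Polynomial.eval_X, Polynomial.eval_zero]
      linear_combination this
    exact (mul_eq_zero.1 this).resolve_left (pow_ne_zero _ Polynomial.X_ne_zero)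
  have dot : ∀ {γ : Fin M → Polynomial ℂ}, ∑ j, γ j * a j = 0 → ∀ t : ℂ,
      (fun j => (γ j).eval t) ⬝ᵥ (x + t • y) = 0 := fun h t => by
    have := congrArg (Polynomial.eval t) h
    simpa only [Polynomial.eval_finsetSum, Polynomial.eval_mul, ea', Polynomial.eval_zero,
      dotProduct] using this
  obtain ⟨r, hr, hF⟩ := hN 2 (by norm_num)
  obtain ⟨F, hF, hne⟩ := hF _ (hl.mem_add t0) _ (dot hU t0) hn
  have h2 : ∀ t : ℂ, (aeval (Sum.elim a α) F).eval t =
      (-1) ^ (r * 2) * t ^ ((A + 2) * (r * 2)) * (aeval (Sum.elim a β) F).eval t := by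
    intro t
    have h3 := hF.inv _ (hl.mem_add t) ((-1 * t ^ (A + 2)) • fun j => (β j).eval t) _
      (by rw [smul_dotProduct, dot hW, smul_zero]) (hE t)
    have h4 : (((-1 * t ^ (A + 2)) • fun j => (β j).eval t) +
        fun j => (α j).eval t + t ^ (A + 2) * (β j).eval t) = fun j => (α j).eval t := by
      funext j
      simp only [Pi.add_apply, Pi.smul_apply, smul_eq_mul]
      ring
    rw [h4, hF.eval_smul] at h3
    rw [zn_eval, zn_eval, ea, h3, mul_pow, ← pow_mul]
  have h5 := zn_zero h2 ((hF.natDegree_le a α ha hα).trans_lt (by nlinarith))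
  have h6 := zn_eval a α t0 F
  rw [h5, ea, Polynomial.eval_zero] at h6
  exact hne h6.symm

end Pool.Agent.NEF
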